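import Mathlib

/-!
Vectors with vanishing block sums are combinations of differences of consecutive basis vectors.
-/

namespace Pool.Agent.H754.Pretzel

open Finset

variable {J : Type} [Fintype J] [DecidableEq J] {q : J → ℕ}

/-- the basis vector -/
def ev (r : Σ j, Fin (q j)) : (Σ j, Fin (q j)) → ℤ := Pi.single r 1

omit [Fintype J] in
theorem ev_sub_mem (L : AddSubgroup ((Σ j, Fin (q j)) → ℤ))
    (hL : ∀ j (s : Fin (q j - 1)), ev ⟨j, ⟨s, by omega⟩⟩ - ev ⟨j, ⟨s + 1, by omega⟩⟩ ∈ L)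
    (j : J) (s : ℕ) (hs : s < q j) : ev (q := q) ⟨j, ⟨s, hs⟩⟩ - ev ⟨j, ⟨0, by omega⟩⟩ ∈ L := by
  induction s with
  | zero => rw [sub_self]; exact L.zero_mem
  | succ s ih =>
    have h1 := ih (by omega)
    have h2 := hL j ⟨s, by omega⟩
    have h3 := L.sub_mem h1 h2
    have e : ev (q := q) ⟨j, ⟨s, by omega⟩⟩ - ev ⟨j, ⟨0, by omega⟩⟩ -
        (ev ⟨j, ⟨s, by omega⟩⟩ - ev ⟨j, ⟨s + 1, by omega⟩⟩) =
        ev ⟨j, ⟨s + 1, hs⟩⟩ - ev ⟨j, ⟨0, by omega⟩⟩ := by abel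
    rw [← e]
    exact h3

theorem mem_of_block_sums (hq : ∀ j, 0 < q j) (L : AddSubgroup ((Σ j, Fin (q j)) → ℤ))
    (hL : ∀ j (s : Fin (q j - 1)), ev ⟨j, ⟨s, by omega⟩⟩ - ev ⟨j, ⟨s + 1, by omega⟩⟩ ∈ L)
    (u : (Σ j, Fin (q j)) → ℤ) (hu : ∀ j, ∑ s : Fin (q j), u ⟨j, s⟩ = 0) : u ∈ L := by
  have h1 : u = ∑ j, ∑ s : Fin (q j), u ⟨j, s⟩ • ev (q := q) ⟨j, s⟩ := by
    have h0 := Fintype.sum_sigma (fun r : Σ j, Fin (q j) => u r • ev (q := q) r)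
    rw [← h0]
    ext r
    rw [Finset.sum_apply, sum_eq_single_of_mem r (mem_univ r)]
    · simp [ev]
    · intro b _ hb
      simp only [ev, Pi.smul_apply, smul_eq_mul]
      rw [Pi.single_apply, if_neg hb.symm, mul_zero]
  have h2 : ∑ j, ∑ s : Fin (q j), u ⟨j, s⟩ • ev (q := q) ⟨j, ⟨0, hq j⟩⟩ = 0 := by
    apply sum_eq_zero
    intro j _
    rw [← sum_smul, hu j, zero_smul]
  have h3 : u = ∑ j, ∑ s : Fin (q j), u ⟨j, s⟩ • (ev (q := q) ⟨j, s⟩ - ev ⟨j, ⟨0, hq j⟩⟩) := by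
    rw [sum_congr rfl fun j _ => sum_congr rfl fun s _ => smul_sub (u ⟨j, s⟩) _ _]
    rw [sum_congr rfl fun j _ => sum_sub_distrib _ _, sum_sub_distrib, h2, sub_zero]
    exact h1
  rw [h3]
  apply L.sum_mem
  intro j _
  apply L.sum_mem
  intro s _
  apply L.zsmul_mem
  exact ev_sub_mem L hL j s s.2

end Pool.Agent.H754.Pretzel
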