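import Pool.Agent.H754.Pretzel.Flow

/-!
A Torelli theorem for disjoint unions of theta graphs.
-/

set_option linter.unusedSectionVars false

namespace Pool.Agent.H754.Pretzel

open Finset

variable {A J A' J' : Type} [Fintype A] [Fintype J] [DecidableEq A] [DecidableEq J]
  [Fintype A'] [Fintype J'] [DecidableEq A'] [DecidableEq J']

/-- the root as an element of the lattice of flows -/
def rt (st : J → A) (x y : J) : flow st :=
  if h : st x = st y then ⟨root x y, root_mem h⟩ else 0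

theorem rt_coe {st : J → A} {x y : J} (h : st x = st y) : (rt st x y : J → ℤ) = root x y := by
  unfold rt
  rw [dif_pos h]

theorem root_self (x : J) : root x x = 0 := sub_self _

theorem rt_self (st : J → A) (x : J) : rt st x x = 0 := by
  apply Subtype.ext
  rw [rt_coe rfl, root_self]
  rfl

theorem rt_sub {st : J → A} {x y z : J} (h : st x = st y) (h' : st x = st z) :
    rt st x y - rt st x z = rt st z y := by
  apply Subtype.ext
  rw [AddSubgroup.coe_sub, rt_coe h, rt_coe h', rt_coe (h'.symm.trans h)]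
  unfold root
  abel

theorem root_neg (x y : J) : -root x y = root y x := by unfold root; abel

theorem root_ne_zero {x y : J} (h : x ≠ y) : root x y ≠ 0 := by
  intro h0
  have := congrFun h0 x
  rw [root_apply, if_pos rfl, if_neg h] at this
  simp at this

theorem share {a b c d e f : J} (hab : a ≠ b) (hcd : c ≠ d)
    (h : root a b - root c d = root e f) : a = c ∨ b = d := by
  by_contra hcon
  push Not at hcon
  have h1 := congrFun h a
  have h2 := congrFun h d
  rw [Pi.sub_apply, root_apply, root_apply, root_apply, if_pos rfl, if_neg hab,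
    if_neg hcon.1] at h1
  rw [Pi.sub_apply, root_apply, root_apply, root_apply, if_pos rfl,
    if_neg (fun h : d = b => hcon.2 h.symm), if_neg hcd.symm] at h2
  by_cases c1 : a = d
  · rw [if_pos c1] at h1
    split_ifs at h1 <;> omega
  · rw [if_neg c1] at h1
    rw [if_neg (fun h : d = a => c1 h.symm)] at h2
    by_cases c2 : a = e
    · by_cases c3 : d = e
      · exact c1 (c2.trans c3.symm)
      · rw [if_neg c3] at h2
        split_ifs at h2 <;> omega
    · rw [if_neg c2] at h1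
      split_ifs at h1 <;> omega

section

variable {st : J → A} {q : J → ℕ} {st' : J' → A'} {q' : J' → ℕ}

theorem inj_of_iso (hq' : ∀ j, 0 < q' j) {φ : flow st' →+ flow st}
    (hφ : ∀ x y : flow st', bil q (φ x) (φ y) = bil q' x y) : Function.Injective φ := by
  intro x y h
  have h2 : bil q' ((x - y : flow st') : J' → ℤ) (x - y : flow st') = 0 := by
    rw [← hφ, map_sub, h, sub_self]
    simp [bil]
  have h3 := bil_pos hq' h2
  have h4 : x - y = 0 := Subtype.ext h3
  exact sub_eq_zero.1 h4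

/-- The image of a root is a root. -/
theorem image_root (hq : ∀ j, 0 < q j) (hq' : ∀ j, 0 < q' j) {φ : flow st' →+ flow st}
    (hφ : ∀ x y : flow st', bil q (φ x) (φ y) = bil q' x y) (hs : Function.Surjective φ)
    {x y : J'} (hxy : x ≠ y) (hst : st' x = st' y) :
    ∃ a b, a ≠ b ∧ st a = st b ∧ (φ (rt st' x y) : J → ℤ) = root a b := by
  have hinj := inj_of_iso hq' hφ
  have h1 : Irr st' q' (root x y) := (irr_iff hq' _).2 ⟨x, y, hxy, hst, rfl⟩
  have h2 : Irr st q (φ (rt st' x y) : J → ℤ) := by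
    refine ⟨(φ (rt st' x y)).2, ?_, ?_⟩
    · intro h0
      have h3 : φ (rt st' x y) = 0 := Subtype.ext h0
      have h4 : rt st' x y = 0 := hinj (by rw [h3, map_zero])
      have h5 := congrArg Subtype.val h4
      rw [rt_coe hst] at h5
      exact root_ne_zero hxy h5
    · intro u hu w hw huw hb
      obtain ⟨u', hu'⟩ := hs ⟨u, hu⟩
      obtain ⟨w', hw'⟩ := hs ⟨w, hw⟩
      have h3 : rt st' x y = u' + w' := by
        apply hinj
        rw [map_add, hu', hw']
        exact Subtype.ext huw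
      have h4 := h1.2.2 u' u'.2 w' w'.2 (by
        have := congrArg Subtype.val h3
        rwa [rt_coe hst] at this) (by
          rw [← hφ, hu', hw']
          exact hb)
      rcases h4 with h4 | h4
      · left
        have h5 : u' = 0 := Subtype.ext h4
        rw [h5, map_zero] at hu'
        exact (congrArg Subtype.val hu').symm
      · right
        have h5 : w' = 0 := Subtype.ext h4
        rw [h5, map_zero] at hw'
        exact (congrArg Subtype.val hw').symm
  obtain ⟨a, b, hab, hst', he⟩ := (irr_iff hq _).1 h2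
  exact ⟨a, b, hab, hst', he⟩

/-- The description of an isometry on one star. -/
theorem torelli_one (hq : ∀ j, 0 < q j) (hq' : ∀ j, 0 < q' j) {φ : flow st' →+ flow st}
    (hφ : ∀ x y : flow st', bil q (φ x) (φ y) = bil q' x y) (hs : Function.Surjective φ)
    {β : A'} {j₀ j₁ j₂ : J'} (h0 : st' j₀ = β) (h1 : st' j₁ = β) (h2 : st' j₂ = β)
    (h01 : j₀ ≠ j₁) (h02 : j₀ ≠ j₂) (h12 : j₁ ≠ j₂) :
    ∃ (η : ℤ) (ρ : J' → J), (η = 1 ∨ η = -1) ∧
      (∀ x y, st' x = β → st' y = β → st (ρ x) = st (ρ y) ∧ (x ≠ y → ρ x ≠ ρ y) ∧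
        (φ (rt st' x y) : J → ℤ) = η • root (ρ x) (ρ y)) ∧
      ∀ x, st' x = β → q' x = q (ρ x) := by
  have hinj := inj_of_iso hq' hφ
  have ex : ∀ x y, st' x = β → st' y = β → x ≠ y →
      ∃ a b, a ≠ b ∧ st a = st b ∧ (φ (rt st' x y) : J → ℤ) = root a b :=
    fun x y hx hy hxy => image_root hq hq' hφ hs hxy (hx.trans hy.symm)
  have hsub : ∀ x y z, st' x = β → st' y = β → st' z = β →
      (φ (rt st' x y) : J → ℤ) - (φ (rt st' x z) : J → ℤ) = (φ (rt st' z y) : J → ℤ) := by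
    intro x y z hx hy hz
    rw [← AddSubgroup.coe_sub, ← map_sub, rt_sub (hx.trans hy.symm) (hx.trans hz.symm)]
  -- the sign and the common index
  have key : ∃ (η : ℤ) (a b₁ b₂ : J), (η = 1 ∨ η = -1) ∧ a ≠ b₁ ∧ a ≠ b₂ ∧ st a = st b₁ ∧
      η • (φ (rt st' j₀ j₁) : J → ℤ) = root a b₁ ∧ η • (φ (rt st' j₀ j₂) : J → ℤ) = root a b₂ := by
    obtain ⟨a, b, hab, hsab, e1⟩ := ex j₀ j₁ h0 h1 h01
    obtain ⟨c, d, hcd, hscd, e2⟩ := ex j₀ j₂ h0 h2 h02
    obtain ⟨e, f, _, _, e3⟩ := ex j₂ j₁ h2 h1 h12.symm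
    have h3 := hsub j₀ j₁ j₂ h0 h1 h2
    rw [e1, e2, e3] at h3
    rcases share hab hcd h3 with h | h
    · subst h
      exact ⟨1, a, b, d, Or.inl rfl, hab, hcd, hsab, by rw [one_smul, e1], by rw [one_smul, e2]⟩
    · subst h
      refine ⟨-1, b, a, c, Or.inr rfl, hab.symm, hcd.symm, hsab.symm, ?_, ?_⟩
      · rw [e1, neg_smul, one_smul, root_neg]
      · rw [e2, neg_smul, one_smul, root_neg]
  obtain ⟨η, a, b₁, b₂, hη, hab1, hab2, hsa, k1, k2⟩ := key
  have hηη : η * η = 1 := by rcases hη with h | h <;> rw [h] <;> norm_num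
  have ex' : ∀ x y, st' x = β → st' y = β → x ≠ y →
      ∃ a b, a ≠ b ∧ st a = st b ∧ η • (φ (rt st' x y) : J → ℤ) = root a b := by
    intro x y hx hy hxy
    obtain ⟨a, b, hab, hsab, e1⟩ := ex x y hx hy hxy
    rcases hη with h | h
    · exact ⟨a, b, hab, hsab, by rw [h, one_smul, e1]⟩
    · exact ⟨b, a, hab.symm, hsab.symm, by rw [h, e1, neg_smul, one_smul, root_neg]⟩
  have hb12 : b₁ ≠ b₂ := by
    rintro rfl
    have h3 : η • (φ (rt st' j₀ j₁) : J → ℤ) = η • (φ (rt st' j₀ j₂) : J → ℤ) := by rw [k1, k2]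
    have h4 : (φ (rt st' j₀ j₁) : J → ℤ) = (φ (rt st' j₀ j₂) : J → ℤ) := by
      have := congrArg (fun u => η • u) h3
      simpa only [smul_smul, hηη, one_smul] using this
    have h5 : rt st' j₀ j₁ = rt st' j₀ j₂ := hinj (Subtype.ext h4)
    have h6 := congrArg Subtype.val h5
    rw [rt_coe (h0.trans h1.symm), rt_coe (h0.trans h2.symm)] at h6
    have h7 := congrFun h6 j₁
    rw [root_apply, root_apply, if_pos rfl, if_neg h12, if_neg h01.symm] at h7
    simp at h7
  have all : ∀ i, st' i = β → ∃ c, st c = st a ∧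
      η • (φ (rt st' j₀ i) : J → ℤ) = root a c := by
    intro i hi
    by_cases hi0 : i = j₀
    · subst hi0
      refine ⟨a, rfl, ?_⟩
      rw [rt_self, map_zero, root_self]
      simp
    by_cases hi1 : i = j₁
    · subst hi1
      exact ⟨b₁, hsa.symm, k1⟩
    by_cases hi2 : i = j₂
    · subst hi2
      obtain ⟨c, d, hcd, hscd, e⟩ := ex' j₀ i h0 hi (fun h => hi0 h.symm)
      have h3 : root a b₂ = root c d := by rw [← k2, e]
      refine ⟨b₂, ?_, k2⟩
      -- the star of `b₂` is that of `a`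
      have h4 : root a b₂ ∈ flow st := by
        rw [h3]
        exact root_mem hscd
      by_contra hne
      have h5 := h4 (st a)
      rw [sum_eq_single_of_mem a (by simp)] at h5
      · rw [root_apply, if_pos rfl, if_neg hab2] at h5
        simp at h5
      · intro x hx hxa
        rw [mem_filter] at hx
        rw [root_apply, if_neg hxa, if_neg, sub_zero]
        rintro rfl
        exact hne hx.2
    · obtain ⟨c, d, hcd, hscd, e⟩ := ex' j₀ i h0 hi (fun h => hi0 h.symm)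
      obtain ⟨e1, f1, _, _, g1⟩ := ex' i j₁ hi h1 hi1
      obtain ⟨e2, f2, _, _, g2⟩ := ex' i j₂ hi h2 hi2
      have s1 : root a b₁ - root c d = root e1 f1 := by
        rw [← k1, ← e, ← g1, ← smul_sub, hsub j₀ j₁ i h0 h1 hi]
      have s2 : root a b₂ - root c d = root e2 f2 := by
        rw [← k2, ← e, ← g2, ← smul_sub, hsub j₀ j₂ i h0 h2 hi]
      have h3 : a = c := by
        rcases share hab1 hcd s1 with h | h
        · exact h
        · rcases share hab2 hcd s2 with h' | h'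
          · exact h'
          · exact absurd (h.trans h'.symm) hb12
      subst h3
      exact ⟨d, hscd.symm, e⟩
  have hchoice : ∀ i, ∃ c, st' i = β → st c = st a ∧
      η • (φ (rt st' j₀ i) : J → ℤ) = root a c := by
    intro i
    by_cases hi : st' i = β
    · obtain ⟨c, hc⟩ := all i hi
      exact ⟨c, fun _ => hc⟩
    · exact ⟨a, fun h => absurd h hi⟩
  choose ρ hρ using hchoice
  have himg : ∀ x y, st' x = β → st' y = β →
      (φ (rt st' x y) : J → ℤ) = η • root (ρ x) (ρ y) := by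
    intro x y hx hy
    have h3 := hsub j₀ y x h0 hy hx
    have h4 : η • (φ (rt st' x y) : J → ℤ) = root (ρ x) (ρ y) := by
      rw [← h3, smul_sub, (hρ y hy).2, (hρ x hx).2]
      unfold root
      abel
    rw [← h4, smul_smul, hηη, one_smul]
  have hρne : ∀ x y, st' x = β → st' y = β → x ≠ y → ρ x ≠ ρ y := by
    intro x y hx hy hxy h
    have h3 := himg x y hx hy
    rw [h, root_self, smul_zero] at h3
    have h4 : rt st' x y = 0 := hinj (by rw [map_zero]; exact Subtype.ext h3)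
    have h5 := congrArg Subtype.val h4
    rw [rt_coe (hx.trans hy.symm)] at h5
    exact root_ne_zero hxy h5
  refine ⟨η, ρ, hη, fun x y hx hy => ⟨(hρ x hx).1.trans (hρ y hy).1.symm, hρne x y hx hy,
    himg x y hx hy⟩, ?_⟩
  intro x hx
  -- two other elements of the star
  have h3 : ∃ y z, st' y = β ∧ st' z = β ∧ x ≠ y ∧ x ≠ z ∧ y ≠ z := by
    by_cases c0 : x = j₀
    · exact ⟨j₁, j₂, h1, h2, c0 ▸ h01, c0 ▸ h02, h12⟩
    · by_cases c1 : x = j₁
      · exact ⟨j₀, j₂, h0, h2, c0, c1 ▸ h12, h02⟩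
      · exact ⟨j₀, j₁, h0, h1, c0, c1, h01⟩
  obtain ⟨y, z, hy, hz, hxy, hxz, hyz⟩ := h3
  have h4 := hφ (rt st' x y) (rt st' x z)
  rw [himg x y hx hy, himg x z hx hz, rt_coe (hx.trans hy.symm), rt_coe (hx.trans hz.symm)] at h4
  have h5 : bil q (η • root (ρ x) (ρ y)) (η • root (ρ x) (ρ z)) =
      bil q (root (ρ x) (ρ y)) (root (ρ x) (ρ z)) := by
    unfold bil
    apply sum_congr rfl
    intro j _
    simp only [Pi.smul_apply, smul_eq_mul]
    calc (q j : ℤ) * (η * root (ρ x) (ρ y) j) * (η * root (ρ x) (ρ z) j) =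
        (η * η) * ((q j : ℤ) * root (ρ x) (ρ y) j * root (ρ x) (ρ z) j) := by ring
      _ = _ := by rw [hηη, one_mul]
  rw [h5, bil_root, bil_root, root_apply, root_apply, root_apply, root_apply, if_pos rfl,
    if_pos rfl, if_neg (hρne x z hx hz hxz), if_neg (hρne x y hx hy hxy).symm,
    if_neg (hρne y z hy hz hyz), if_neg hxz, if_neg hxy.symm, if_neg hyz] at h4
  have h6 : (q (ρ x) : ℤ) = q' x := by linarith
  exact_mod_cast h6.symm

/-- The Torelli theorem for disjoint unions of theta graphs. -/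
theorem torelli (hq : ∀ j, 0 < q j) (hq' : ∀ j, 0 < q' j) {φ : flow st' →+ flow st}
    (hφ : ∀ x y : flow st', bil q (φ x) (φ y) = bil q' x y) (hs : Function.Surjective φ)
    (h3 : ∀ α : A, ∃ j₀ j₁ j₂, st j₀ = α ∧ st j₁ = α ∧ st j₂ = α ∧ j₀ ≠ j₁ ∧ j₀ ≠ j₂ ∧ j₁ ≠ j₂)
    (h3' : ∀ β : A', ∃ j₀ j₁ j₂, st' j₀ = β ∧ st' j₁ = β ∧ st' j₂ = β ∧ j₀ ≠ j₁ ∧ j₀ ≠ j₂ ∧
      j₁ ≠ j₂) :
    ∃ π : A' ≃ A, ∀ β, ∃ ρ : {j // st' j = β} ≃ {j // st j = π β},
      ∀ j : {j // st' j = β}, q' j = q (ρ j) := by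
  have hinj := inj_of_iso hq' hφ
  let e : flow st' ≃+ flow st := AddEquiv.ofBijective φ ⟨hinj, hs⟩
  have he : ∀ x, e x = φ x := fun x => rfl
  let ψ : flow st →+ flow st' := e.symm.toAddMonoidHom
  have hψφ : ∀ x, ψ (φ x) = x := fun x => e.symm_apply_apply x
  have hφψ : ∀ x, φ (ψ x) = x := fun x => e.apply_symm_apply x
  have hψ : ∀ x y : flow st, bil q' (ψ x) (ψ y) = bil q x y := fun x y => by
    rw [← hφ, hφψ, hφψ]
  have hψs : Function.Surjective ψ := fun x => ⟨φ x, hψφ x⟩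
  have T1 : ∀ β : A', ∃ (η : ℤ) (ρ : J' → J), (η = 1 ∨ η = -1) ∧
      (∀ x y, st' x = β → st' y = β → st (ρ x) = st (ρ y) ∧ (x ≠ y → ρ x ≠ ρ y) ∧
        (φ (rt st' x y) : J → ℤ) = η • root (ρ x) (ρ y)) ∧
      ∀ x, st' x = β → q' x = q (ρ x) := by
    intro β
    obtain ⟨j₀, j₁, j₂, a0, a1, a2, b01, b02, b12⟩ := h3' β
    exact torelli_one hq hq' hφ hs a0 a1 a2 b01 b02 b12
  have T2 : ∀ α : A, ∃ (η : ℤ) (ρ : J → J'), (η = 1 ∨ η = -1) ∧
      (∀ x y, st x = α → st y = α → st' (ρ x) = st' (ρ y) ∧ (x ≠ y → ρ x ≠ ρ y) ∧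
        (ψ (rt st x y) : J' → ℤ) = η • root (ρ x) (ρ y)) ∧
      ∀ x, st x = α → q x = q' (ρ x) := by
    intro α
    obtain ⟨j₀, j₁, j₂, a0, a1, a2, b01, b02, b12⟩ := h3 α
    exact torelli_one hq' hq hψ hψs a0 a1 a2 b01 b02 b12
  choose η₁ ρ₁ hη₁ hρ₁ hq₁ using T1
  choose η₂ ρ₂ hη₂ hρ₂ hq₂ using T2
  choose j₀ j₁ j₂ a0 a1 a2 b01 b02 b12 using h3'
  choose i₀ i₁ i₂ c0 c1 c2 d01 d02 d12 using h3
  let π : A' → A := fun β => st (ρ₁ β (j₀ β))
  let π' : A → A' := fun α => st' (ρ₂ α (i₀ α))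
  have hπ : ∀ β x, st' x = β → st (ρ₁ β x) = π β := fun β x hx => (hρ₁ β x (j₀ β) hx (a0 β)).1
  have hπ' : ∀ α x, st x = α → st' (ρ₂ α x) = π' α := fun α x hx => (hρ₂ α x (i₀ α) hx (c0 α)).1
  have smul_root : ∀ (ψ : flow st →+ flow st') (η : ℤ) (x y : J), st x = st y →
      ∀ u : flow st, (u : J → ℤ) = η • root x y → ψ u = η • ψ (rt st x y) := by
    intro ψ η x y hxy u hu
    have : u = η • rt st x y := Subtype.ext (by rw [hu, AddSubgroup.coe_zsmul, rt_coe hxy])
    rw [this, map_zsmul]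
  have smul_root' : ∀ (ψ : flow st' →+ flow st) (η : ℤ) (x y : J'), st' x = st' y →
      ∀ u : flow st', (u : J' → ℤ) = η • root x y → ψ u = η • ψ (rt st' x y) := by
    intro ψ η x y hxy u hu
    have : u = η • rt st' x y := Subtype.ext (by rw [hu, AddSubgroup.coe_zsmul, rt_coe hxy])
    rw [this, map_zsmul]
  have nz : ∀ (s : ℤ) (a b c d : J'), (s = 1 ∨ s = -1) → a ≠ b → c ≠ d → root a b = s • root c d →
      c = a ∨ c = b := by
    intro s a b c d hs hab hcd h
    by_contra hcon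
    push Not at hcon
    have h4 := congrFun h c
    rw [Pi.smul_apply, root_apply, root_apply, if_neg hcon.1, if_neg hcon.2, if_pos rfl,
      if_neg hcd] at h4
    rcases hs with h | h <;> rw [h] at h4 <;> simp at h4
  have nz' : ∀ (s : ℤ) (a b c d : J), (s = 1 ∨ s = -1) → a ≠ b → c ≠ d → root a b = s • root c d →
      c = a ∨ c = b := by
    intro s a b c d hs hab hcd h
    by_contra hcon
    push Not at hcon
    have h4 := congrFun h c
    rw [Pi.smul_apply, root_apply, root_apply, if_neg hcon.1, if_neg hcon.2, if_pos rfl,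
      if_neg hcd] at h4
    rcases hs with h | h <;> rw [h] at h4 <;> simp at h4
  have sg : ∀ s t : ℤ, (s = 1 ∨ s = -1) → (t = 1 ∨ t = -1) → (s * t = 1 ∨ s * t = -1) := by
    rintro s t (rfl | rfl) (rfl | rfl) <;> norm_num
  have hππ' : ∀ β, π' (π β) = β := by
    intro β
    have e1 := hρ₁ β (j₀ β) (j₁ β) (a0 β) (a1 β)
    have s0 := hπ β (j₀ β) (a0 β)
    have s1 := hπ β (j₁ β) (a1 β)
    have e2 := hρ₂ (π β) (ρ₁ β (j₀ β)) (ρ₁ β (j₁ β)) s0 s1
    have h4 := smul_root ψ (η₁ β) _ _ e1.1 _ e1.2.2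
    rw [hψφ] at h4
    have h5 := congrArg Subtype.val h4
    rw [rt_coe ((a0 β).trans (a1 β).symm), AddSubgroup.coe_zsmul, e2.2.2, smul_smul] at h5
    have h6 := nz _ _ _ _ _ (sg _ _ (hη₁ β) (hη₂ (π β))) (b01 β)
      (e2.2.1 (e1.2.1 (b01 β))) h5
    have h7 := hπ' (π β) (ρ₁ β (j₀ β)) s0
    rcases h6 with h6 | h6
    · rw [h6, a0] at h7
      exact h7.symm
    · rw [h6, a1] at h7
      exact h7.symm
  have hπ'π : ∀ α, π (π' α) = α := by
    intro α
    have e1 := hρ₂ α (i₀ α) (i₁ α) (c0 α) (c1 α)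
    have s0 := hπ' α (i₀ α) (c0 α)
    have s1 := hπ' α (i₁ α) (c1 α)
    have e2 := hρ₁ (π' α) (ρ₂ α (i₀ α)) (ρ₂ α (i₁ α)) s0 s1
    have h4 := smul_root' φ (η₂ α) _ _ e1.1 _ e1.2.2
    rw [hφψ] at h4
    have h5 := congrArg Subtype.val h4
    rw [rt_coe ((c0 α).trans (c1 α).symm), AddSubgroup.coe_zsmul, e2.2.2, smul_smul] at h5
    have h6 := nz' _ _ _ _ _ (sg _ _ (hη₂ α) (hη₁ (π' α))) (d01 α)
      (e2.2.1 (e1.2.1 (d01 α))) h5
    have h7 := hπ (π' α) (ρ₂ α (i₀ α)) s0
    rcases h6 with h6 | h6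
    · rw [h6, c0] at h7
      exact h7.symm
    · rw [h6, c1] at h7
      exact h7.symm
  refine ⟨⟨π, π', hππ', hπ'π⟩, fun β => ?_⟩
  change ∃ ρ : {j // st' j = β} ≃ {j // st j = π β}, ∀ j : {j // st' j = β}, q' j = q (ρ j)
  let f : {j // st' j = β} → {j // st j = π β} := fun j => ⟨ρ₁ β j, hπ β j j.2⟩
  let g : {j // st j = π β} → {j // st' j = β} := fun i =>
    ⟨ρ₂ (π β) i, (hπ' (π β) i i.2).trans (hππ' β)⟩
  have hf : Function.Injective f := by
    intro x y hxy
    by_contra hne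
    exact (hρ₁ β x y x.2 y.2).2.1 (fun h => hne (Subtype.ext h)) (congrArg Subtype.val hxy)
  have hg : Function.Injective g := by
    intro x y hxy
    by_contra hne
    exact (hρ₂ (π β) x y x.2 y.2).2.1 (fun h => hne (Subtype.ext h)) (congrArg Subtype.val hxy)
  have hcard : Fintype.card {j // st' j = β} = Fintype.card {j // st j = π β} :=
    le_antisymm (Fintype.card_le_of_injective f hf) (Fintype.card_le_of_injective g hg)
  have hbij : Function.Bijective f := (Fintype.bijective_iff_injective_and_card f).2 ⟨hf, hcard⟩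
  exact ⟨Equiv.ofBijective f hbij, fun j => hq₁ β j j.2⟩

end

end Pool.Agent.H754.Pretzel
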