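import Mathlib

/-!
Chains of vectors of norm two in a standard lattice.
-/

namespace Pool.Agent.H754.Pretzel

open Finset Matrix

variable {ι : Type} [Fintype ι] [DecidableEq ι]

omit [DecidableEq ι] in
theorem dot_self_eq (u : ι → ℤ) : u ⬝ᵥ u = ∑ x, u x ^ 2 := by
  rw [dotProduct]
  exact sum_congr rfl fun x _ => (sq (u x)).symm

/-- vectors of norm two -/
theorem two_norm {u : ι → ℤ} (h : u ⬝ᵥ u = 2) : ∃ x y α β, x ≠ y ∧ (α = 1 ∨ α = -1) ∧
    (β = 1 ∨ β = -1) ∧ u = Pi.single x α + Pi.single y (β : ℤ) := by
  rw [dot_self_eq] at h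
  have hg : ∀ x, 0 ≤ u x ^ 2 := fun x => sq_nonneg _
  -- a nonzero entry
  have h1 : ∃ x, u x ≠ 0 := by
    by_contra hcon
    push Not at hcon
    simp [hcon] at h
  obtain ⟨x, hx⟩ := h1
  have hx1 : u x = 1 ∨ u x = -1 := by
    have h2 : u x ^ 2 ≤ 2 := by
      rw [← h]
      exact single_le_sum (f := fun x => u x ^ 2) (fun x _ => hg x) (mem_univ x)
    have h3 : -1 ≤ u x := by nlinarith
    have h4 : u x ≤ 1 := by nlinarith
    omega
  have hs : ∑ y ∈ univ.erase x, u y ^ 2 = 1 := by
    have := add_sum_erase univ (fun x => u x ^ 2) (mem_univ x)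
    rcases hx1 with h2 | h2 <;> rw [h2] at this <;> simp only [h] at this <;> linarith
  have h2 : ∃ y ∈ univ.erase x, u y ≠ 0 := by
    by_contra hcon
    push Not at hcon
    rw [sum_eq_zero fun y hy => by rw [hcon y hy]; rfl] at hs
    omega
  obtain ⟨y, hy, hy0⟩ := h2
  have hyx : y ≠ x := (mem_erase.1 hy).1
  have hy1 : u y = 1 ∨ u y = -1 := by
    have h2 : u y ^ 2 ≤ 1 := by
      rw [← hs]
      exact single_le_sum (f := fun x => u x ^ 2) (fun x _ => hg x) hy
    have h3 : -1 ≤ u y := by nlinarith
    have h4 : u y ≤ 1 := by nlinarith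
    omega
  have hrest : ∀ w, w ≠ x → w ≠ y → u w = 0 := by
    intro w hwx hwy
    have h3 := add_sum_erase (univ.erase x) (fun x => u x ^ 2) hy
    have h4 : ∑ w ∈ (univ.erase x).erase y, u w ^ 2 = 0 := by
      rcases hy1 with h2 | h2 <;> rw [h2] at h3 <;> simp only [hs] at h3 <;> linarith
    rw [sum_eq_zero_iff_of_nonneg fun i _ => hg i] at h4
    have := h4 w (by simp [hwx, hwy])
    exact pow_eq_zero_iff (two_ne_zero) |>.1 this
  refine ⟨x, y, u x, u y, hyx.symm, hx1, hy1, ?_⟩
  ext w
  rw [Pi.add_apply]
  by_cases hwx : w = x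
  · subst hwx
    rw [Pi.single_eq_same, Pi.single_eq_of_ne hyx.symm, add_zero]
  · by_cases hwy : w = y
    · subst hwy
      rw [Pi.single_eq_same, Pi.single_eq_of_ne hyx, zero_add]
    · rw [Pi.single_eq_of_ne hwx, Pi.single_eq_of_ne hwy, hrest w hwx hwy]; rfl

/-- the data of a normalised chain of `k` vectors -/
def Good (k : ℕ) (v : ℕ → ι → ℤ) (b : ℕ → ι) (ε : ℕ → ℤ) : Prop :=
  (∀ s ≤ k, ε s = 1 ∨ ε s = -1) ∧ (∀ s r, s ≤ k → r ≤ k → b s = b r → s = r) ∧
    ∀ s < k, v s = Pi.single (b s) (ε s) - Pi.single (b (s + 1)) (ε (s + 1))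

omit [Fintype ι] in
theorem single_eval (x y : ι) (α : ℤ) (h : x ≠ y) : (Pi.single x α : ι → ℤ) y = 0 := by
  rw [Pi.single_apply, if_neg h.symm]

theorem Good.dot {k : ℕ} {v : ℕ → ι → ℤ} {b : ℕ → ι} {ε : ℕ → ℤ} (h : Good k v b ε) (u : ι → ℤ)
    {s : ℕ} (hs : s < k) : v s ⬝ᵥ u = ε s * u (b s) - ε (s + 1) * u (b (s + 1)) := by
  rw [h.2.2 s hs, sub_dotProduct, single_dotProduct, single_dotProduct]

theorem Good.extend {k : ℕ} {v : ℕ → ι → ℤ} {b : ℕ → ι} {ε : ℕ → ℤ} (h : Good k v b ε)
    (hu : v k ⬝ᵥ v k = 2) (h0 : ∀ s < k, v k (b s) = 0) (h1 : v k (b k) = ε k) :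
    ∃ b' ε', Good (k + 1) v b' ε' := by
  obtain ⟨hε, hinj, hv⟩ := h
  have hne : v k (b k) ≠ 0 := by
    rw [h1]
    rcases hε k le_rfl with h | h <;> rw [h] <;> norm_num
  -- the other index
  have : ∃ w δ, (δ = 1 ∨ δ = -1) ∧ w ≠ b k ∧
      v k = Pi.single (b k) (ε k) - Pi.single w (δ : ℤ) := by
    obtain ⟨x, y, α, β, hxy, hα, hβ, he⟩ := two_norm hu
    by_cases hx : x = b k
    · subst hx
      refine ⟨y, -β, by omega, hxy.symm, ?_⟩
      have : α = ε k := by
        rw [he, Pi.add_apply, Pi.single_eq_same, Pi.single_eq_of_ne hxy, add_zero] at h1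
        exact h1
      rw [he, this, Pi.single_neg, sub_neg_eq_add]
    · have hy : y = b k := by
        by_contra hy
        apply hne
        rw [he, Pi.add_apply, single_eval _ _ _ hx, single_eval _ _ _ hy]
        rfl
      subst hy
      refine ⟨x, -α, by omega, hxy, ?_⟩
      have : β = ε k := by
        rw [he, Pi.add_apply, Pi.single_eq_same, single_eval _ _ _ hxy, zero_add] at h1
        exact h1
      rw [he, this, Pi.single_neg, sub_neg_eq_add, add_comm]
  obtain ⟨w, δ, hδ, hw, he⟩ := this
  have hws : ∀ s ≤ k, b s ≠ w := by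
    intro s hs hcon
    rcases hs.lt_or_eq with hs | rfl
    · have h3 := h0 s hs
      rw [he, hcon, Pi.sub_apply, single_eval _ _ _ hw.symm, Pi.single_eq_same] at h3
      omega
    · exact hw hcon.symm
  refine ⟨fun s => if s ≤ k then b s else w, fun s => if s ≤ k then ε s else δ, ?_, ?_, ?_⟩
  · intro s hs
    simp only
    split_ifs with h
    · exact hε s h
    · exact hδ
  · intro s r hs hr hsr
    simp only at hsr
    split_ifs at hsr with c1 c2 c2
    · exact hinj s r c1 c2 hsr
    · exact absurd hsr (hws s c1)
    · exact absurd hsr.symm (hws r c2)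
    · omega
  · intro s hs
    simp only
    rcases (Nat.lt_succ_iff.1 hs).lt_or_eq with h | rfl
    · rw [if_pos h.le, if_pos h.le, if_pos (Nat.succ_le_iff.2 h), if_pos (Nat.succ_le_iff.2 h)]
      exact hv s h
    · rw [if_pos le_rfl, if_pos le_rfl, if_neg (by omega), if_neg (by omega)]
      exact he

/-- The chain lemma. -/
theorem chain_lemma {n : ℕ} (hn : 2 ≤ n) (hn3 : n ≠ 3) (v : ℕ → ι → ℤ)
    (h2 : ∀ s < n, v s ⬝ᵥ v s = 2) (hadj : ∀ s, s + 1 < n → v s ⬝ᵥ v (s + 1) = -1)
    (hfar : ∀ s r, s + 2 ≤ r → r < n → v s ⬝ᵥ v r = 0) : ∃ b ε, Good n v b ε := by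
  have key : ∀ k, 2 ≤ k → k ≤ n → ∃ b ε, Good k v b ε := by
    intro k hk
    induction k, hk using Nat.le_induction with
    | base =>
      intro hkn
      obtain ⟨x, y, α, β, hxy, hα, hβ, hv0⟩ := two_norm (h2 0 (by omega))
      -- a normalisation of the first vector
      have h1 : ∃ x y α β, x ≠ y ∧ (α = 1 ∨ α = -1) ∧ (β = 1 ∨ β = -1) ∧
          v 0 = Pi.single x α - Pi.single y (β : ℤ) ∧ v 1 x = 0 ∧ v 1 y = β := by
        have had := hadj 0 (by omega)
        rw [hv0, zero_add, add_dotProduct, single_dotProduct, single_dotProduct] at had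
        obtain ⟨x', y', α', β', hxy', hα', hβ', hv1⟩ := two_norm (h2 1 (by omega))
        have hb : ∀ w, v 1 w = 0 ∨ v 1 w = 1 ∨ v 1 w = -1 := by
          intro w
          rw [hv1, Pi.add_apply]
          by_cases c1 : x' = w
          · subst c1
            rw [Pi.single_eq_same, single_eval _ _ _ hxy'.symm]
            omega
          · rw [single_eval _ _ _ c1]
            by_cases c2 : y' = w
            · subst c2
              rw [Pi.single_eq_same]
              omega
            · rw [single_eval _ _ _ c2]
              omega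
        rcases hb x with c1 | c1 | c1
        · refine ⟨x, y, α, -β, hxy, hα, by omega, ?_, c1, ?_⟩
          · rw [hv0, Pi.single_neg, sub_neg_eq_add]
          · rcases hβ with h | h <;> rw [h] at had ⊢ <;> rw [c1] at had <;> linarith
        · have c2 : v 1 y = 0 ∧ α = -1 := by
            rw [c1] at had
            rcases hα with h | h <;> rcases hβ with h' | h' <;> rw [h, h'] at had <;>
              rcases hb y with h'' | h'' | h'' <;> rw [h''] at had <;> omega
          refine ⟨y, x, β, -α, hxy.symm, hβ, by omega, ?_, c2.1, ?_⟩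
          · rw [hv0, Pi.single_neg, sub_neg_eq_add, add_comm]
          · rw [c1, c2.2]; norm_num
        · have c2 : v 1 y = 0 ∧ α = 1 := by
            rw [c1] at had
            rcases hα with h | h <;> rcases hβ with h' | h' <;> rw [h, h'] at had <;>
              rcases hb y with h'' | h'' | h'' <;> rw [h''] at had <;> omega
          refine ⟨y, x, β, -α, hxy.symm, hβ, by omega, ?_, c2.1, ?_⟩
          · rw [hv0, Pi.single_neg, sub_neg_eq_add, add_comm]
          · rw [c1, c2.2]
      obtain ⟨x, y, α, β, hxy, hα, hβ, hv0, hx, hy⟩ := h1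
      have g1 : Good 1 v (fun s => if s = 0 then x else y) (fun s => if s = 0 then α else β) := by
        refine ⟨?_, ?_, ?_⟩
        · intro s _
          simp only
          split_ifs <;> assumption
        · intro s r hs hr h
          simp only at h
          split_ifs at h with c1 c2 c2
          · omega
          · exact absurd h hxy
          · exact absurd h.symm hxy
          · omega
        · intro s hs
          have : s = 0 := by omega
          subst this
          simpa using hv0
      apply g1.extend (h2 1 (by omega))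
      · intro s hs
        have : s = 0 := by omega
        subst this
        simpa using hx
      · simpa using hy
    | succ k hk ih =>
      intro hkn
      obtain ⟨b, ε, hg⟩ := ih (by omega)
      have hd : ∀ s < k, ε s * v k (b s) - ε (s + 1) * v k (b (s + 1)) =
          if s + 1 = k then -1 else 0 := by
        intro s hs
        rw [← hg.dot (v k) hs]
        split_ifs with h
        · have := hadj s (by omega)
          rw [h] at this
          exact this
        · exact hfar s k (by omega) (by omega)
      have hconst : ∀ s < k, ε s * v k (b s) = ε 0 * v k (b 0) := by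
        intro s
        induction s with
        | zero => intro _; rfl
        | succ s ihs =>
          intro hs
          have h3 := hd s (by omega)
          rw [if_neg (by omega)] at h3
          rw [← ihs (by omega)]
          linarith
      have hlast : ε k * v k (b k) = ε 0 * v k (b 0) + 1 := by
        obtain ⟨m, rfl⟩ : ∃ m, k = m + 1 := ⟨k - 1, by omega⟩
        have h3 := hd m (by omega)
        rw [if_pos rfl] at h3
        rw [← hconst m (by omega)]
        linarith
      have hsq : ∀ s ≤ k, ε s * ε s = 1 := fun s hs => by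
        rcases hg.1 s hs with h | h <;> rw [h] <;> norm_num
      have hzero : ε 0 * v k (b 0) = 0 := by
        by_contra hc
        -- both `b 0` and `b 1` are in the support
        have hs0 : ∀ s < k, v k (b s) ≠ 0 := by
          intro s hs h3
          apply hc
          rw [← hconst s hs, h3, mul_zero]
        obtain ⟨x, y, α, β, hxy, hα, hβ, hv⟩ := two_norm (h2 k (by omega))
        have hmem : ∀ s < k, b s = x ∨ b s = y := by
          intro s hs
          by_contra hcon
          push Not at hcon
          apply hs0 s hs
          rw [hv, Pi.add_apply, single_eval _ _ _ hcon.1.symm, single_eval _ _ _ hcon.2.symm]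
          rfl
        have hinj : ∀ s r, s < k → r < k → b s = b r → s = r := fun s r hs hr =>
          hg.2.1 s r hs.le hr.le
        have hk2 : k = 2 := by
          by_contra hk3
          have i0 := hmem 0 (by omega)
          have i1 := hmem 1 (by omega)
          have i2 := hmem 2 (by omega)
          have n01 : b 0 ≠ b 1 := fun h => by
            have := hinj 0 1 (by omega) (by omega) h
            omega
          have n02 : b 0 ≠ b 2 := fun h => by
            have := hinj 0 2 (by omega) (by omega) h
            omega
          have n12 : b 1 ≠ b 2 := fun h => by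
            have := hinj 1 2 (by omega) (by omega) h
            omega
          rcases i0 with h | h <;> rcases i1 with h' | h' <;> rcases i2 with h'' | h'' <;>
            rw [h, h'] at n01 <;> rw [h, h''] at n02 <;> rw [h', h''] at n12 <;>
            first
              | exact n01 rfl
              | exact n02 rfl
              | exact n12 rfl
        subst hk2
        -- then `n ≥ 4`
        have hn4 : 3 < n := by omega
        have hb2 : v 2 (b 2) = 0 := by
          have i0 := hmem 0 (by omega)
          have i1 := hmem 1 (by omega)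
          have n01 : b 0 ≠ b 1 := fun h => by
            have := hinj 0 1 (by omega) (by omega) h
            omega
          have n02 : b 0 ≠ b 2 := fun h => by
            have := hg.2.1 0 2 (by omega) (by omega) h
            omega
          have n12 : b 1 ≠ b 2 := fun h => by
            have := hg.2.1 1 2 (by omega) (by omega) h
            omega
          have hxb : x ≠ b 2 ∧ y ≠ b 2 := by
            rcases i0 with h | h <;> rcases i1 with h' | h'
            · exact absurd (h.trans h'.symm) n01
            · exact ⟨h ▸ n02, h' ▸ n12⟩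
            · exact ⟨h' ▸ n12, h ▸ n02⟩
            · exact absurd (h.trans h'.symm) n01
          rw [hv, Pi.add_apply, single_eval _ _ _ hxb.1, single_eval _ _ _ hxb.2]
          rfl
        -- the vector `v 3`
        have e0 := hfar 0 3 (by omega) hn4
        have e1 := hadj 2 (by omega)
        rw [hg.dot (v 3) (by omega : 0 < 2)] at e0
        have hv2 : v 2 = Pi.single (b 0) (v 2 (b 0)) + Pi.single (b 1) (v 2 (b 1)) := by
          have i0 := hmem 0 (by omega)
          have i1 := hmem 1 (by omega)
          have n01 : b 0 ≠ b 1 := fun h => by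
            have := hinj 0 1 (by omega) (by omega) h
            omega
          rcases i0 with h | h <;> rcases i1 with h' | h'
          · exact absurd (h.trans h'.symm) n01
          · rw [h, h']
            have a1 : v 2 x = α := by
              rw [hv, Pi.add_apply, Pi.single_eq_same, single_eval _ _ _ hxy.symm, add_zero]
            have a2 : v 2 y = β := by
              rw [hv, Pi.add_apply, Pi.single_eq_same, single_eval _ _ _ hxy, zero_add]
            rw [a1, a2]
            exact hv
          · rw [h, h']
            have a1 : v 2 x = α := by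
              rw [hv, Pi.add_apply, Pi.single_eq_same, single_eval _ _ _ hxy.symm, add_zero]
            have a2 : v 2 y = β := by
              rw [hv, Pi.add_apply, Pi.single_eq_same, single_eval _ _ _ hxy, zero_add]
            rw [a1, a2, add_comm]
            exact hv
          · exact absurd (h.trans h'.symm) n01
        have e2 : v 2 ⬝ᵥ v 3 = v 2 (b 0) * v 3 (b 0) + v 2 (b 1) * v 3 (b 1) := by
          conv_lhs => rw [hv2]
          rw [add_dotProduct, single_dotProduct, single_dotProduct]
        rw [e2] at e1
        have c01 := hconst 1 (by omega)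
        -- parity
        have s0 := hsq 0 (by omega)
        have s1 := hsq 1 (by omega)
        have f1 : v 2 (b 0) * v 3 (b 0) = (ε 0 * v 2 (b 0)) * (ε 0 * v 3 (b 0)) := by
          calc v 2 (b 0) * v 3 (b 0) = (ε 0 * ε 0) * (v 2 (b 0) * v 3 (b 0)) := by rw [s0, one_mul]
            _ = _ := by ring
        have f2 : v 2 (b 1) * v 3 (b 1) = (ε 1 * v 2 (b 1)) * (ε 1 * v 3 (b 1)) := by
          calc v 2 (b 1) * v 3 (b 1) = (ε 1 * ε 1) * (v 2 (b 1) * v 3 (b 1)) := by rw [s1, one_mul]
            _ = _ := by ring
        have f3 : ε 1 * v 3 (b 1) = ε 0 * v 3 (b 0) := by linarith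
        rw [f1, f2, c01, f3] at e1
        omega
      apply hg.extend (h2 k (by omega))
      · intro s hs
        have h3 := hconst s hs
        rw [hzero] at h3
        rcases hg.1 s hs.le with h | h <;> rw [h] at h3 <;> linarith
      · rw [hzero] at hlast
        rcases hg.1 k le_rfl with h | h <;> rw [h] at hlast ⊢ <;> linarith
  exact key n hn le_rfl

end Pool.Agent.H754.Pretzel
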