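import Pool.Agent.H754.Pretzel.Sys

/-!
Matched columns, integrality, distinct weights.
-/

set_option linter.unusedSectionVars false

namespace Pool.Agent.H754.Pretzel

open Finset

section

variable {J R : Type} [Fintype J] [Fintype R] [DecidableEq J] [DecidableEq R] {q : J → ℕ}
  {p : R → ℕ} {a : R → J → ℤ}

theorem bil_sgl (j : J) (c : ℤ) (x : J → ℤ) : bil q (Pi.single j c) x = q j * c * x j := by
  unfold bil
  rw [sum_eq_single_of_mem j (mem_univ j)]
  · rw [Pi.single_eq_same]
  · intro l _ hl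
    rw [Pi.single_eq_of_ne hl]; ring

theorem bil_sub_left (x y z : J → ℤ) :
    bil q (fun j => x j - y j) z = bil q x z - bil q y z := by
  unfold bil
  rw [← sum_sub_distrib]
  exact sum_congr rfl fun j _ => by ring

theorem bil_add_left (x y z : J → ℤ) :
    bil q (fun j => x j + y j) z = bil q x z + bil q y z := by
  unfold bil
  rw [← sum_add_distrib]
  exact sum_congr rfl fun j _ => by ring

theorem Sys.norm_ge (h : Sys q p a) (i : R) (S : Finset J) :
    ∑ j ∈ S, (q j : ℤ) * (a i j) ^ 2 ≤ p i := by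
  rw [← h.nrm i]
  unfold bil
  have : ∀ j, (q j : ℤ) * a i j * a i j = (q j : ℤ) * (a i j) ^ 2 := fun j => by ring
  rw [sum_congr rfl fun j _ => this j]
  exact sum_le_sum_of_subset_of_nonneg (subset_univ _) fun j _ _ => by positivity

theorem Sys.norm_eq (h : Sys q p a) (i : R) : ∑ j, (q j : ℤ) * (a i j) ^ 2 = p i := by
  rw [← h.nrm i]
  unfold bil
  exact sum_congr rfl fun j _ => by ring

theorem Sys.unit (h : Sys q p a) {i : R} {j : J} (hij : a i j = 1) (hp : p i ≤ q j) :
    a i = Pi.single j 1 ∧ p i = q j := by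
  have h1 := h.norm_eq i
  rw [← add_sum_erase univ _ (mem_univ j), hij] at h1
  have h2 : 0 ≤ ∑ l ∈ univ.erase j, (q l : ℤ) * (a i l) ^ 2 := sum_nonneg fun l _ => by positivity
  have h3 : (p i : ℤ) ≤ q j := by exact_mod_cast hp
  have h4 : ∑ l ∈ univ.erase j, (q l : ℤ) * (a i l) ^ 2 = 0 := by linarith
  refine ⟨?_, by rw [h4] at h1; have : (p i : ℤ) = q j := by linarith
                 exact_mod_cast this⟩
  rw [sum_eq_zero_iff_of_nonneg fun l _ => by positivity] at h4
  ext l
  by_cases hl : l = j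
  · rw [hl, hij, Pi.single_eq_same]
  · rw [Pi.single_eq_of_ne hl]
    have h5 := h4 l (mem_erase.2 ⟨hl, mem_univ l⟩)
    have h6 : (q l : ℤ) ≠ 0 := by have := h.qpos l; omega
    rcases mul_eq_zero.1 h5 with h7 | h7
    · exact absurd h7 h6
    · exact pow_eq_zero_iff (two_ne_zero) |>.1 h7

theorem Sys.exists_row (h : Sys q p a) {j : J} (hj : vv q p a j = 0) : ∃ i, a i j = 1 := by
  by_contra hcon
  push Not at hcon
  have h1 := h.zero_sq hj
  unfold sq' at h1
  rw [sum_eq_zero] at h1
  · norm_num at h1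
  · intro i _
    rcases h.zero_entry hj i with h2 | h2
    · rw [h2]; simp
    · exact absurd h2 (hcon i)

theorem Sys.match_of_dvd (h : Sys q p a) {j : J} (hj : vv q p a j = 0)
    (hd : ∀ i, a i j = 1 → (p i : ℤ) ∣ q j) : ∃ i, a i = Pi.single j 1 := by
  obtain ⟨i, hi⟩ := h.exists_row hj
  have h1 := Int.le_of_dvd (by have := h.qpos j; omega) (hd i hi)
  exact ⟨i, (h.unit hi (by exact_mod_cast h1)).1⟩

theorem Sys.match_of_K (h : Sys q p a) {j : J} (hj : vv q p a j = 0)
    (hK : InK a (Pi.single j 1)) : ∃ i, a i = Pi.single j 1 := by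
  apply h.match_of_dvd hj
  intro i hi
  have h1 := h.dvd hK i
  rw [bil_sgl, hi, mul_one, mul_one] at h1
  exact h1

theorem compl_val' {α : Type} [Fintype α] [DecidableEq α] (S : Finset α) :
    (univ : Finset α).val = Sᶜ.val + S.val := by
  rw [← disjUnion_val Sᶜ S disjoint_compl_left, disjUnion_eq_union, union_comm, union_compl]

/-- counting matched columns -/
theorem Sys.count (h : Sys q p a) (M : Finset J) (hM : ∀ j ∈ M, ∃ i, a i = Pi.single j 1) :
    ∃ S : Finset R, S.card + 1 = Mᶜ.card ∧ (univ : Finset R).val.map p = S.val.map p + M.val.map q ∧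
      (univ : Finset J).val.map q = Mᶜ.val.map q + M.val.map q ∧ ∀ i ∈ S, ∀ j ∈ M, a i j = 0 := by
  choose f hf using fun j : {j // j ∈ M} => hM j.1 j.2
  have hinj : Function.Injective f := by
    intro j l hjl
    have h1 := hf j
    rw [hjl, hf l] at h1
    by_contra hne
    have h2 := congrFun h1 l.1
    rw [Pi.single_eq_same, Pi.single_eq_of_ne (fun h' => hne (Subtype.ext h'.symm))] at h2
    exact one_ne_zero h2
  have hp : ∀ j, p (f j) = q j.1 := by
    intro j
    have h1 := h.nrm (f j)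
    rw [hf j, bil_sgl, Pi.single_eq_same, mul_one, mul_one] at h1
    exact_mod_cast h1.symm
  let g : {j // j ∈ M} ↪ R := ⟨f, hinj⟩
  refine ⟨(univ.map g)ᶜ, ?_, ?_, ?_, ?_⟩
  · rw [card_compl, card_compl, card_map, card_univ, Fintype.card_coe]
    have h1 := h.cd
    have h2 : M.card ≤ Fintype.card R := by
      have := Fintype.card_le_of_injective f hinj
      rwa [Fintype.card_coe] at this
    omega
  · have h1 : (univ.map g).val.map p = M.val.map q := by
      rw [map_val, Multiset.map_map]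
      have h2 : (univ : Finset {j // j ∈ M}).val.map (p ∘ g) =
          (univ : Finset {j // j ∈ M}).val.map (q ∘ Subtype.val) :=
        Multiset.map_congr rfl fun j _ => hp j
      rw [h2, ← Multiset.map_map]
      congr 1
      exact Multiset.attach_map_val M.val
    rw [← h1, ← Multiset.map_add]
    congr 1
    exact compl_val' _
  · rw [← Multiset.map_add]
    congr 1
    exact compl_val' _
  · intro i hi j hj
    rw [mem_compl, mem_map] at hi
    have hne : f ⟨j, hj⟩ ≠ i := fun h' => hi ⟨⟨j, hj⟩, mem_univ _, h'⟩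
    have h1 := h.a2 (f ⟨j, hj⟩) i hne
    rw [hf, bil_sgl] at h1
    have h2 : (q j : ℤ) ≠ 0 := by have := h.qpos j; omega
    rw [mul_one] at h1
    exact (mul_eq_zero.1 h1).resolve_left h2

/-- Only one column of positive weight. -/
theorem Sys.one_col (h : Sys q p a) {j₁ : J} (hj : ∀ j, j ≠ j₁ → vv q p a j = 0) :
    ∀ j, j ≠ j₁ → ∃ i, a i = Pi.single j 1 := by
  choose f hf using fun j : {j // j ≠ j₁} => h.exists_row (hj j.1 j.2)
  have huniq : ∀ (j l : J) (i : R), j ≠ j₁ → l ≠ j₁ → a i j = 1 → a i l = 1 → j = l := by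
    intro j l i hj1 hl1 hij hil
    by_contra hne
    have := h.disj (hj j hj1) (fun h' => hne h'.symm) (h.zero_nonneg (hj l hl1)) i hij
    rw [hil] at this
    exact one_ne_zero this
  have hinj : Function.Injective f := by
    intro j l hjl
    apply Subtype.ext
    apply huniq j.1 l.1 (f j) j.2 l.2 (hf j)
    rw [hjl]; exact hf l
  have hcard : Fintype.card {j // j ≠ j₁} = Fintype.card R := by
    have h1 : Fintype.card {j // j ≠ j₁} = Fintype.card J - 1 := by
      rw [Fintype.card_subtype_compl, Fintype.card_subtype_eq]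
    have := h.cd
    omega
  have hbij : Function.Bijective f := (Fintype.bijective_iff_injective_and_card f).2 ⟨hinj, hcard⟩
  intro j hj1
  refine ⟨f ⟨j, hj1⟩, ?_⟩
  have h1 := h.zero_sq (hj j hj1)
  unfold sq' at h1
  rw [sum_eq_single_of_mem (f ⟨j, hj1⟩) (mem_univ _)] at h1
  · rw [hf ⟨j, hj1⟩] at h1
    have h2 := (h.pposQ (f ⟨j, hj1⟩)).ne'
    rw [div_eq_one_iff_eq h2] at h1
    push_cast at h1
    rw [one_pow, mul_one] at h1
    have h3 : q j = p (f ⟨j, hj1⟩) := by exact_mod_cast h1
    exact (h.unit (hf ⟨j, hj1⟩) h3.ge).1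
  · intro i _ hi
    rcases h.zero_entry (hj j hj1) i with h2 | h2
    · rw [h2]; simp
    · exfalso
      obtain ⟨l, hl⟩ := hbij.2 i
      apply hi
      have h3 : l.1 = j := huniq l.1 j i l.2 hj1 (by rw [← hl]; exact hf l) h2
      rw [← hl]
      congr 1
      exact Subtype.ext h3

/-- integrality of the heights -/
theorem Sys.integral (h : Sys q p a) {j₁ : J} (h0 : 0 < vv q p a j₁)
    (hno : ∀ x : J → ℤ, 0 < lam q p a x → vv q p a j₁ ≤ lam q p a x) (x : J → ℤ) :
    ∃ w : ℤ, lam q p a x = w * vv q p a j₁ := by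
  refine ⟨⌊lam q p a x / vv q p a j₁⌋, ?_⟩
  set w := ⌊lam q p a x / vv q p a j₁⌋ with hw
  have h1 : lam q p a (fun j => x j - (Pi.single j₁ w : J → ℤ) j) =
      lam q p a x - w * vv q p a j₁ := by rw [lam_sub, lam_single]
  have h2 : 0 ≤ lam q p a x - w * vv q p a j₁ := by
    have := Int.floor_le (lam q p a x / vv q p a j₁)
    rw [← hw, le_div_iff₀ h0] at this
    linarith
  have h3 : lam q p a x - w * vv q p a j₁ < vv q p a j₁ := by
    have := Int.lt_floor_add_one (lam q p a x / vv q p a j₁)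
    rw [← hw, div_lt_iff₀ h0] at this
    linarith
  rcases h2.lt_or_eq with h4 | h4
  · have := hno _ (by rw [h1]; exact h4)
    rw [h1] at this
    linarith
  · linarith

/-- decompositions of vectors with entries `0`, `1`, `-1` -/
theorem Sys.split (h : Sys q p a) {x : J → ℤ} (hx : ∀ j, x j = 0 ∨ x j = 1 ∨ x j = -1)
    {n : R → ℤ} (hn : ∀ j, x j = ∑ i, n i * a i j) (i : R) (j : J) :
    n i * a i j = 0 ∨ n i * a i j = x j := by
  have h1 : ∑ l, (q l : ℤ) * ((n i * a i l) * (x l - n i * a i l)) = 0 := by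
    have h2 : ∑ l, (q l : ℤ) * ((n i * a i l) * (x l - n i * a i l)) =
        n i * bil q x (a i) - n i ^ 2 * bil q (a i) (a i) := by
      unfold bil
      rw [mul_sum, mul_sum, ← sum_sub_distrib]
      exact sum_congr rfl fun l _ => by ring
    rw [h2, h.coeff hn i, h.nrm i]; ring
  have h3 : ∀ y x : ℤ, (x = 0 ∨ x = 1 ∨ x = -1) → y * (x - y) ≤ 0 := by
    rintro y x (rfl | rfl | rfl)
    · nlinarith [sq_nonneg y]
    · rcases le_or_gt y 0 with h4 | h4
      · nlinarith
      · nlinarith
    · rcases le_or_gt 0 y with h4 | h4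
      · nlinarith
      · nlinarith
  have h4 : ∀ l, (q l : ℤ) * ((n i * a i l) * (x l - n i * a i l)) ≤ 0 := fun l =>
    mul_nonpos_of_nonneg_of_nonpos (by positivity) (h3 _ _ (hx l))
  rw [sum_eq_zero_iff_of_nonpos fun l _ => h4 l] at h1
  have h5 := h1 j (mem_univ j)
  have h6 : (q j : ℤ) ≠ 0 := by have := h.qpos j; omega
  rcases mul_eq_zero.1 h5 with h7 | h7
  · exact absurd h7 h6
  · rcases mul_eq_zero.1 h7 with h8 | h8
    · exact Or.inl h8
    · exact Or.inr (by linarith)

/-- Without torsion, the positive weights are distinct. -/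
theorem Sys.distinct (h : Sys q p a) (hT : ∀ x, lam q p a x = 0 → InK a x) {j k : J}
    (hjk : j ≠ k) (hj : 0 < vv q p a j) : vv q p a j ≠ vv q p a k := by
  intro heq
  let x : J → ℤ := fun l => (Pi.single j 1 : J → ℤ) l - (Pi.single k 1 : J → ℤ) l
  have hxj : x j = 1 := by
    simp only [x]; rw [Pi.single_eq_same, Pi.single_eq_of_ne hjk]; ring
  have hxk : x k = -1 := by
    simp only [x]; rw [Pi.single_eq_same, Pi.single_eq_of_ne hjk.symm]; ring
  have hx0 : ∀ l, l ≠ j → l ≠ k → x l = 0 := by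
    intro l h1 h2
    simp only [x]; rw [Pi.single_eq_of_ne h1, Pi.single_eq_of_ne h2]; ring
  have hxl : lam q p a x = 0 := by
    rw [lam_sub, lam_single, lam_single, heq]; ring
  obtain ⟨n, hn⟩ := hT x hxl
  have hsp := h.split (x := x) (by
    intro l
    by_cases h1 : l = j
    · rw [h1, hxj]; simp
    · by_cases h2 : l = k
      · rw [h2, hxk]; simp
      · rw [hx0 l h1 h2]; simp) hn
  have hn0 : ∀ i, n i = 0 := by
    intro i
    have hy0 : ∀ l, l ≠ j → l ≠ k → n i * a i l = 0 := by
      intro l h1 h2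
      have := hsp i l
      rw [hx0 l h1 h2] at this
      tauto
    have h1 : lam q p a (fun l => n i * a i l) = 0 := by
      rw [lam_mul, h.lam_row i, mul_zero]
    have hsum : ∀ f : J → ℚ, ∑ l, ((n i * a i l : ℤ) : ℚ) * f l =
        ((n i * a i j : ℤ) : ℚ) * f j + ((n i * a i k : ℤ) : ℚ) * f k := by
      intro f
      rw [← add_sum_erase univ _ (mem_univ j), ← add_sum_erase (univ.erase j) _
        (mem_erase.2 ⟨hjk.symm, mem_univ k⟩), sum_eq_zero, add_zero]
      intro l hl
      rw [mem_erase, mem_erase] at hl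
      rw [hy0 l hl.2.1 hl.1]; simp
    unfold lam at h1
    rw [hsum, ← heq, ← add_mul] at h1
    have h2 : ((n i * a i j : ℤ) : ℚ) + ((n i * a i k : ℤ) : ℚ) = 0 :=
      (mul_eq_zero.1 h1).resolve_right hj.ne'
    have h3 : ∑ l, ((n i * a i l : ℤ) : ℚ) * 1 = n i := by
      simp only [mul_one]
      have := h.a1 i
      have h4 : ∑ l, n i * a i l = n i := by rw [← mul_sum, this, mul_one]
      exact_mod_cast h4
    rw [hsum, mul_one, mul_one, h2] at h3
    exact_mod_cast h3.symm
  have := hn j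
  rw [hxj, sum_eq_zero fun i _ => by rw [hn0 i, zero_mul]] at this
  exact one_ne_zero this

end

end Pool.Agent.H754.Pretzel
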