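import Pool.Agent.H754.Pretzel.Cls1

/-!
The case without torsion.
-/

set_option linter.unusedSectionVars false

namespace Pool.Agent.H754.Pretzel

open Finset

section

variable {J R : Type} [Fintype J] [Fintype R] [DecidableEq J] [DecidableEq R] {q : J → ℕ}
  {p : R → ℕ} {a : R → J → ℤ}

theorem Sys.sum_le_lam (h : Sys q p a) (E : J → Prop) [DecidablePred E] (S : Finset J)
    (hS : ∀ j ∈ S, E j) :
    ∑ j ∈ S, vv q p a j ≤ lam q p a (fun j => if E j then 1 else 0) := by
  unfold lam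
  have h1 : ∑ j ∈ S, vv q p a j = ∑ j ∈ S, (((if E j then 1 else 0 : ℤ)) : ℚ) * vv q p a j := by
    apply sum_congr rfl
    intro j hj
    rw [if_pos (hS j hj)]; simp
  rw [h1]
  apply sum_le_sum_of_subset_of_nonneg (subset_univ _)
  intro j _ _
  have := h.vv_nonneg j
  split_ifs <;> simp [this]

theorem Sys.no_small (h : Sys q p a) (E : J → Prop) [DecidablePred E] (hE : ∀ j, q j = 1 → E j)
    {j₁ : J} (hj₁ : E j₁) (hmin : ∀ j, E j → 0 < vv q p a j → vv q p a j₁ ≤ vv q p a j)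
    (x : J → ℤ) (hx : 0 < lam q p a x) : vv q p a j₁ ≤ lam q p a x := by
  by_contra hcon
  push Not at hcon
  have h1 := h.sum_le_lam E {j₁} (by intro j hj; rw [mem_singleton] at hj; rw [hj]; exact hj₁)
  rw [sum_singleton] at h1
  obtain ⟨z, hz, hz1, hz2⟩ := h.comp E hE x hx (by linarith)
  have hlz := h.lam_eq hz
  have hnn : ∀ j, 0 ≤ z j := fun j => by rcases hz1 j with h2 | h2 <;> omega
  have h2 : ∃ j, z j ≠ 0 ∧ 0 < vv q p a j := by
    by_contra hc
    push Not at hc
    have h3 : lam q p a z = 0 := by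
      unfold lam
      apply sum_eq_zero
      intro j _
      by_cases h4 : z j = 0
      · rw [h4]; simp
      · rw [le_antisymm (hc j h4) (h.vv_nonneg j), mul_zero]
    rw [h3] at hlz
    linarith
  obtain ⟨j, hj1, hj2⟩ := h2
  have h3 := h.le_lam hnn j
  rw [(hz1 j).resolve_left hj1] at h3
  have h4 := hmin j (hz2 j hj1) hj2
  rw [hlz] at hcon
  push_cast at h3
  linarith

theorem two_sum {f : J → ℚ} {j k : J} (hjk : j ≠ k) (hf : ∀ l, l ≠ j → l ≠ k → f l = 0) :
    ∑ l, f l = f j + f k := by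
  rw [← add_sum_erase univ _ (mem_univ j), ← add_sum_erase (univ.erase j) _
    (mem_erase.2 ⟨hjk.symm, mem_univ k⟩), sum_eq_zero, add_zero]
  intro l hl
  rw [mem_erase, mem_erase] at hl
  exact hf l hl.2.1 hl.1

theorem two_sumZ {f : J → ℤ} {j k : J} (hjk : j ≠ k) (hf : ∀ l, l ≠ j → l ≠ k → f l = 0) :
    ∑ l, f l = f j + f k := by
  rw [← add_sum_erase univ _ (mem_univ j), ← add_sum_erase (univ.erase j) _
    (mem_erase.2 ⟨hjk.symm, mem_univ k⟩), sum_eq_zero, add_zero]
  intro l hl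
  rw [mem_erase, mem_erase] at hl
  exact hf l hl.2.1 hl.1

/-- The row through two columns with heights `1` and `2`. -/
theorem Sys.row_two (h : Sys q p a) (hT : ∀ x, lam q p a x = 0 → InK a x) {j₁ j₂ : J}
    (h12 : j₂ ≠ j₁) (h1 : 0 < vv q p a j₁) (hq : q j₁ = 1)
    (h2 : vv q p a j₂ = 2 * vv q p a j₁) :
    ∃ i, a i j₁ = 2 ∧ a i j₂ = -1 ∧ ∀ j, j ≠ j₁ → j ≠ j₂ → a i j = 0 := by
  let x : J → ℤ := fun l => (Pi.single j₁ 2 : J → ℤ) l - (Pi.single j₂ 1 : J → ℤ) l
  have hx1 : x j₁ = 2 := by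
    simp only [x]; rw [Pi.single_eq_same, Pi.single_eq_of_ne h12.symm]; ring
  have hx2 : x j₂ = -1 := by
    simp only [x]; rw [Pi.single_eq_same, Pi.single_eq_of_ne h12]; ring
  have hx0 : ∀ l, l ≠ j₁ → l ≠ j₂ → x l = 0 := by
    intro l h1 h2
    simp only [x]; rw [Pi.single_eq_of_ne h1, Pi.single_eq_of_ne h2]; ring
  have hxl : lam q p a x = 0 := by
    rw [lam_sub, lam_single, lam_single, h2]; push_cast; ring
  obtain ⟨n, hn⟩ := hT x hxl
  -- a nonzero coefficient
  have hex : ∃ i, n i ≠ 0 := by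
    by_contra hc
    push Not at hc
    have := hn j₁
    rw [hx1, sum_eq_zero fun i _ => by rw [hc i, zero_mul]] at this
    norm_num at this
  obtain ⟨i, hi⟩ := hex
  set y : J → ℤ := fun l => n i * a i l with hy
  have e1 : ∑ l, (q l : ℤ) * (y l * (x l - y l)) = 0 := by
    have h2 : ∑ l, (q l : ℤ) * (y l * (x l - y l)) =
        n i * bil q x (a i) - n i ^ 2 * bil q (a i) (a i) := by
      unfold bil
      rw [mul_sum, mul_sum, ← sum_sub_distrib]
      exact sum_congr rfl fun l _ => by simp only [y]; ring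
    rw [h2, h.coeff hn i, h.nrm i]; ring
  have e2 : lam q p a y = 0 := by
    simp only [hy]
    rw [lam_mul, h.lam_row i, mul_zero]
  have e3 : ∑ l, y l = n i := by
    simp only [hy]
    rw [← mul_sum, h.a1 i, mul_one]
  have hmem : j₂ ∈ univ.erase j₁ := mem_erase.2 ⟨h12, mem_univ _⟩
  set Sx : ℤ := ∑ l ∈ (univ.erase j₁).erase j₂, (q l : ℤ) * (y l) ^ 2 with hSx
  have hSx0 : 0 ≤ Sx := sum_nonneg fun l _ => by positivity
  have e4 : y j₁ * (2 - y j₁) = q j₂ * (y j₂ * (1 + y j₂)) + Sx := by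
    rw [← add_sum_erase univ _ (mem_univ j₁), ← add_sum_erase (univ.erase j₁) _ hmem, hx1, hx2,
      hq] at e1
    have h3 : ∑ l ∈ (univ.erase j₁).erase j₂, (q l : ℤ) * (y l * (x l - y l)) = -Sx := by
      rw [hSx, ← sum_neg_distrib]
      apply sum_congr rfl
      intro l hl
      rw [mem_erase, mem_erase] at hl
      rw [hx0 l hl.2.1 hl.1]; ring
    rw [h3] at e1
    push_cast at e1
    linarith
  have hy2 : 0 ≤ y j₂ * (1 + y j₂) := by
    rcases le_or_gt 0 (y j₂) with h3 | h3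
    · exact mul_nonneg h3 (by omega)
    · exact mul_nonneg_of_nonpos_of_nonpos (by omega) (by omega)
  have hq2 : (1 : ℤ) ≤ q j₂ := by exact_mod_cast h.qpos j₂
  have hy1 : y j₁ = 0 ∨ y j₁ = 1 ∨ y j₁ = 2 := by
    have h3 : 0 ≤ y j₁ * (2 - y j₁) := by
      rw [e4]
      have : 0 ≤ (q j₂ : ℤ) * (y j₂ * (1 + y j₂)) := mul_nonneg (by omega) hy2
      omega
    have h4 : 0 ≤ y j₁ := by
      by_contra hc
      push Not at hc
      have : y j₁ * (2 - y j₁) < 0 := mul_neg_of_neg_of_pos hc (by omega)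
      omega
    have h5 : y j₁ ≤ 2 := by
      by_contra hc
      push Not at hc
      have : y j₁ * (2 - y j₁) < 0 := mul_neg_of_pos_of_neg (by omega) (by omega)
      omega
    omega
  by_cases hy1' : y j₁ = 1
  · exfalso
    rw [hy1'] at e4
    have h3 : y j₂ * (1 + y j₂) = 0 := by
      by_contra hc
      have h4 : 1 ≤ y j₂ * (1 + y j₂) := by omega
      have h5 : Even (y j₂ * (1 + y j₂)) := by
        rw [add_comm]; exact Int.even_mul_succ_self _
      obtain ⟨m, hm⟩ := h5
      have h6 : 2 ≤ y j₂ * (1 + y j₂) := by omega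
      have h7 : (1 : ℤ) * 2 ≤ q j₂ * (y j₂ * (1 + y j₂)) :=
        mul_le_mul hq2 h6 (by norm_num) (by omega)
      omega
    rw [h3, mul_zero, zero_add] at e4
    have hS1 : Sx = 1 := by omega
    -- the other column
    have hex : ∃ l ∈ (univ.erase j₁).erase j₂, y l ≠ 0 := by
      by_contra hc
      push Not at hc
      rw [hSx, sum_eq_zero fun l hl => by rw [hc l hl]; ring] at hS1
      exact absurd hS1 (by norm_num)
    obtain ⟨l, hl, hyl⟩ := hex
    have h5 := hS1
    rw [hSx, ← add_sum_erase _ _ hl] at h5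
    have h6 : 0 ≤ ∑ k ∈ ((univ.erase j₁).erase j₂).erase l, (q k : ℤ) * (y k) ^ 2 :=
      sum_nonneg fun l _ => by positivity
    have hql : (1 : ℤ) ≤ q l := by exact_mod_cast h.qpos l
    have h7 : 1 ≤ (y l) ^ 2 := by
      have : 0 < (y l) ^ 2 := by positivity
      omega
    have h8 : (y l) ^ 2 = 1 := by
      apply le_antisymm _ h7
      have : (y l) ^ 2 ≤ (q l : ℤ) * (y l) ^ 2 := le_mul_of_one_le_left (by omega) hql
      omega
    have h9 : ∑ k ∈ ((univ.erase j₁).erase j₂).erase l, (q k : ℤ) * (y k) ^ 2 = 0 := by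
      have : (q l : ℤ) ≤ q l * (y l) ^ 2 := by rw [h8, mul_one]
      omega
    rw [sum_eq_zero_iff_of_nonneg fun l _ => by positivity] at h9
    have h10 : ∀ k, k ≠ j₁ → k ≠ j₂ → k ≠ l → y k = 0 := by
      intro k hk1 hk2 hk3
      have h11 := h9 k (mem_erase.2 ⟨hk3, mem_erase.2 ⟨hk2, mem_erase.2 ⟨hk1, mem_univ k⟩⟩⟩)
      have h12 : (q k : ℤ) ≠ 0 := by have := h.qpos k; omega
      exact pow_eq_zero_iff (two_ne_zero) |>.1 ((mul_eq_zero.1 h11).resolve_left h12)
    rw [mem_erase, mem_erase] at hl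
    -- heights
    unfold lam at e2
    rw [← add_sum_erase univ _ (mem_univ j₁), ← add_sum_erase (univ.erase j₁) _ hmem,
      ← add_sum_erase ((univ.erase j₁).erase j₂) _ (mem_erase.2 ⟨hl.1, mem_erase.2
        ⟨hl.2.1, mem_univ l⟩⟩), sum_eq_zero (s := ((univ.erase j₁).erase j₂).erase l) (by
        intro k hk
        rw [mem_erase, mem_erase, mem_erase] at hk
        rw [h10 k hk.2.2.1 hk.2.1 hk.1]; simp), hy1', h2, add_zero] at e2
    have hne := h.distinct hT (j := j₁) (k := l) hl.2.1.symm h1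
    have hyl' : y l = 1 ∨ y l = -1 := sq_eq_one_iff_of_side (y l) h8
    have hvl := h.vv_nonneg l
    rcases mul_eq_zero.1 h3 with h11 | h11
    · rw [h11] at e2
      rcases hyl' with h12 | h12
      · rw [h12] at e2; push_cast at e2; linarith
      · rw [h12] at e2; push_cast at e2; apply hne; linarith
    · have h13 : y j₂ = -1 := by omega
      rw [h13] at e2
      rcases hyl' with h12 | h12
      · rw [h12] at e2; push_cast at e2; apply hne; linarith
      · rw [h12] at e2; push_cast at e2; linarith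
  · have hz : q j₂ * (y j₂ * (1 + y j₂)) + Sx = 0 := by
      rw [← e4]
      rcases hy1 with h3 | h3 | h3
      · rw [h3]; ring
      · exact absurd h3 hy1'
      · rw [h3]; ring
    have h3 : 0 ≤ (q j₂ : ℤ) * (y j₂ * (1 + y j₂)) := mul_nonneg (by omega) hy2
    have hS0 : Sx = 0 := by omega
    have h4 : (q j₂ : ℤ) * (y j₂ * (1 + y j₂)) = 0 := by omega
    have h5 : y j₂ = 0 ∨ y j₂ = -1 := by
      rcases mul_eq_zero.1 h4 with h6 | h6
      · omega
      · rcases mul_eq_zero.1 h6 with h7 | h7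
        · exact Or.inl h7
        · right; omega
    rw [hSx, sum_eq_zero_iff_of_nonneg fun l _ => by positivity] at hS0
    have h10 : ∀ k, k ≠ j₁ → k ≠ j₂ → y k = 0 := by
      intro k hk1 hk2
      have h11 := hS0 k (mem_erase.2 ⟨hk2, mem_erase.2 ⟨hk1, mem_univ k⟩⟩)
      have h12 : (q k : ℤ) ≠ 0 := by have := h.qpos k; omega
      exact pow_eq_zero_iff (two_ne_zero) |>.1 ((mul_eq_zero.1 h11).resolve_left h12)
    unfold lam at e2
    rw [two_sum h12.symm (fun l hl1 hl2 => by rw [h10 l hl1 hl2]; simp), h2] at e2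
    rw [two_sumZ h12.symm h10] at e3
    have h6 : ((y j₁ : ℚ) + 2 * y j₂) * vv q p a j₁ = 0 := by linarith
    have h7 : (y j₁ : ℚ) + 2 * y j₂ = 0 := (mul_eq_zero.1 h6).resolve_right h1.ne'
    have h8 : y j₁ + 2 * y j₂ = 0 := by exact_mod_cast h7
    have h9 : y j₁ = 2 ∧ y j₂ = -1 := by
      rcases h5 with h5 | h5
      · exfalso; apply hi; omega
      · omega
    have hni : n i = 1 := by omega
    have hya : ∀ l, y l = a i l := fun l => by simp only [hy, hni, one_mul]
    refine ⟨i, by rw [← hya]; exact h9.1, by rw [← hya]; exact h9.2, fun j hj1 hj2 => ?_⟩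
    rw [← hya]
    exact h10 j hj1 hj2
where
  sq_eq_one_iff_of_side (y : ℤ) (h : y ^ 2 = 1) : y = 1 ∨ y = -1 := by
    have : (y - 1) * (y + 1) = 0 := by linarith [sq y]
    rcases mul_eq_zero.1 this with h1 | h1
    · left; omega
    · right; omega

/-- The case without torsion and with a column of weight one and positive height. -/
theorem Sys.free_case (h : Sys q p a) (hT : ∀ x, lam q p a x = 0 → InK a x) {j₁ : J}
    (h1 : 0 < vv q p a j₁) (hq : q j₁ = 1)
    (hno : ∀ x, 0 < lam q p a x → vv q p a j₁ ≤ lam q p a x) :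
    (∀ j, j ≠ j₁ → vv q p a j = 0) ∨ ∃ j₂, j₂ ≠ j₁ ∧ vv q p a j₂ = 2 * vv q p a j₁ ∧
      ∀ j, j ≠ j₁ → j ≠ j₂ → vv q p a j = 0 := by
  by_cases hall : ∀ j, j ≠ j₁ → vv q p a j = 0
  · exact Or.inl hall
  right
  push Not at hall
  obtain ⟨k, hk1, hk⟩ := hall
  have hk0 : 0 < vv q p a k := (h.vv_nonneg k).lt_of_ne hk.symm
  have hw : ∀ j, ∃ w : ℤ, vv q p a j = w * vv q p a j₁ := by
    intro j
    obtain ⟨w, hw⟩ := h.integral h1 hno (Pi.single j 1)
    rw [lam_single] at hw
    exact ⟨w, by rw [← hw]; push_cast; ring⟩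
  choose w hw using hw
  have hw1 : ∀ j, j ≠ j₁ → 0 < vv q p a j → 2 ≤ w j := by
    intro j hj hj0
    have h2 : 0 < w j := by
      rw [hw j] at hj0
      have : (0 : ℚ) < w j := by
        by_contra hc
        push Not at hc
        have := mul_nonpos_of_nonpos_of_nonneg hc h1.le
        linarith
      exact_mod_cast this
    have h3 : w j ≠ 1 := by
      intro h3
      apply h.distinct hT (j := j) (k := j₁) hj hj0
      rw [hw j, h3]; push_cast; ring
    omega
  have hge : ∀ j, j ≠ j₁ → 0 < vv q p a j → 2 * vv q p a j₁ ≤ vv q p a j := by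
    intro j hj hj0
    rw [hw j]
    apply mul_le_mul_of_nonneg_right _ h1.le
    exact_mod_cast hw1 j hj hj0
  -- a column of height two
  obtain ⟨j₂, hj2, hj20, hj22⟩ : ∃ j₂, j₂ ≠ j₁ ∧ 0 < vv q p a j₂ ∧
      vv q p a j₂ ≤ 2 * vv q p a j₁ := by
    have hs := h.sum_le_lam (fun j => q j = 1 ∨ j = k) {j₁, k} (by
      intro j hj
      rw [mem_insert, mem_singleton] at hj
      rcases hj with rfl | rfl
      · exact Or.inl hq
      · exact Or.inr rfl)
    rw [sum_pair hk1.symm] at hs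
    have hkk := hge k hk1 hk0
    have hl : lam q p a (Pi.single j₁ 2) = 2 * vv q p a j₁ := by rw [lam_single]; push_cast; ring
    obtain ⟨z, hz, hz1, hz2⟩ := h.comp (fun j => q j = 1 ∨ j = k) (fun j hj => Or.inl hj)
      (Pi.single j₁ 2) (by rw [hl]; linarith) (by rw [hl]; linarith)
    have hlz := h.lam_eq hz
    rw [hl] at hlz
    have hnn : ∀ j, 0 ≤ z j := fun j => by rcases hz1 j with h2 | h2 <;> omega
    by_contra hc
    push Not at hc
    have h4 : ∀ j, j ≠ j₁ → (z j : ℚ) * vv q p a j = 0 := by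
      intro j hj
      rcases (h.vv_nonneg j).lt_or_eq with h5 | h5
      · rcases hz1 j with h6 | h6
        · rw [h6]; simp
        · have h7 := hc j hj h5
          have h8 := h.le_lam hnn j
          rw [h6] at h8
          push_cast at h8
          linarith
      · rw [← h5, mul_zero]
    have h5 : lam q p a z = z j₁ * vv q p a j₁ := by
      unfold lam
      exact sum_eq_single_of_mem j₁ (mem_univ j₁) fun j _ hj => h4 j hj
    rw [h5] at hlz
    rcases hz1 j₁ with h6 | h6 <;> rw [h6] at hlz <;> push_cast at hlz <;> linarith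
  have hj2' : vv q p a j₂ = 2 * vv q p a j₁ := le_antisymm hj22 (hge j₂ hj2 hj20)
  refine ⟨j₂, hj2, hj2', ?_⟩
  obtain ⟨i, hi1, hi2, hi0⟩ := h.row_two hT hj2 h1 hq hj2'
  have hpi : (p i : ℤ) = 4 + q j₂ := by
    rw [← h.norm_eq i, two_sumZ hj2.symm (fun l hl1 hl2 => by rw [hi0 l hl1 hl2]; ring), hi1, hi2,
      hq]
    push_cast; ring
  have hw5 : ∀ j, j ≠ j₁ → j ≠ j₂ → 0 < vv q p a j → 5 ≤ w j := by
    intro j hj1 hj2' hj0
    have hK : InK a (fun l => (Pi.single j 1 : J → ℤ) l - (Pi.single j₁ (w j) : J → ℤ) l) := by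
      apply hT
      rw [lam_sub, lam_single, lam_single, hw j]; push_cast; ring
    have h2 := h.dvd hK i
    rw [bil_sub_left, bil_sgl, bil_sgl, hi0 j hj1 hj2', hi1, hq] at h2
    have h3 : (p i : ℤ) ∣ 2 * w j := by
      have : (2 * w j : ℤ) = -(q j * 1 * 0 - ((1 : ℕ) : ℤ) * w j * 2) := by push_cast; ring
      rw [this]
      exact (dvd_neg).2 h2
    have h4 : (p i : ℤ) ∣ w j := by
      have h5 : IsCoprime (p i : ℤ) 2 := by
        obtain ⟨m, hm⟩ := h.po i
        refine ⟨1, -m, ?_⟩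
        rw [hm]; push_cast; ring
      exact h5.dvd_of_dvd_mul_left h3
    have h5 := hw1 j hj1 hj0
    have h6 := Int.le_of_dvd (by omega) h4
    have := h.qpos j₂
    omega
  intro k' hk1' hk2'
  by_contra hk3
  have hk0' : 0 < vv q p a k' := (h.vv_nonneg k').lt_of_ne (Ne.symm hk3)
  have hbig : ∀ j, j ≠ j₁ → j ≠ j₂ → 0 < vv q p a j → 5 * vv q p a j₁ ≤ vv q p a j := by
    intro j hj1 hj2' hj0
    rw [hw j]
    apply mul_le_mul_of_nonneg_right _ h1.le
    exact_mod_cast hw5 j hj1 hj2' hj0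
  have hs := h.sum_le_lam (fun j => q j = 1 ∨ j = k') {j₁, k'} (by
      intro j hj
      rw [mem_insert, mem_singleton] at hj
      rcases hj with rfl | rfl
      · exact Or.inl hq
      · exact Or.inr rfl)
  rw [sum_pair hk1'.symm] at hs
  have hkk := hbig k' hk1' hk2' hk0'
  have hl : lam q p a (Pi.single j₁ 4) = 4 * vv q p a j₁ := by rw [lam_single]; push_cast; ring
  obtain ⟨z, hz, hz1, hz2⟩ := h.comp (fun j => q j = 1 ∨ j = k') (fun j hj => Or.inl hj)
    (Pi.single j₁ 4) (by rw [hl]; linarith) (by rw [hl]; linarith)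
  have hlz := h.lam_eq hz
  rw [hl] at hlz
  have hnn : ∀ j, 0 ≤ z j := fun j => by rcases hz1 j with h2 | h2 <;> omega
  have h4 : ∀ j, j ≠ j₁ → j ≠ j₂ → (z j : ℚ) * vv q p a j = 0 := by
    intro j hj hj'
    rcases (h.vv_nonneg j).lt_or_eq with h5 | h5
    · rcases hz1 j with h6 | h6
      · rw [h6]; simp
      · have h7 := hbig j hj hj' h5
        have h8 := h.le_lam hnn j
        rw [h6] at h8
        push_cast at h8
        linarith
    · rw [← h5, mul_zero]
  have h5 : lam q p a z = z j₁ * vv q p a j₁ + z j₂ * vv q p a j₂ := by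
    unfold lam
    exact two_sum hj2.symm h4
  rw [h5, hj2'] at hlz
  rcases hz1 j₁ with h6 | h6 <;> rcases hz1 j₂ with h7 | h7 <;> rw [h6, h7] at hlz <;>
    push_cast at hlz <;> linarith

end

end Pool.Agent.H754.Pretzel
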