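import Pool.Agent.H754.Pretzel.Cls2

/-!
The case with torsion, and the classification.
-/

set_option linter.unusedSectionVars false

namespace Pool.Agent.H754.Pretzel

open Finset

section

variable {J R : Type} [Fintype J] [Fintype R] [DecidableEq J] [DecidableEq R] {q : J → ℕ}
  {p : R → ℕ} {a : R → J → ℤ}

theorem InK.sum {ι : Type} (S : Finset ι) (f : ι → J → ℤ) (hf : ∀ j ∈ S, InK a (f j)) :
    InK a (fun l => ∑ j ∈ S, f j l) := by
  classical
  induction S using Finset.induction_on with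
  | empty => exact (InK.zero a).congr fun l => by simp
  | insert s S hs ih =>
    have h1 := (hf s (mem_insert_self s S)).add (ih fun j hj => hf j (mem_insert_of_mem hj))
    exact h1.congr fun l => by rw [sum_insert hs]

theorem InK.of_single {z : J → ℤ} (hz : ∀ j, z j ≠ 0 → InK a (Pi.single j 1)) : InK a z := by
  have h1 : InK a (fun l => ∑ j, z j * (Pi.single j 1 : J → ℤ) l) := by
    apply InK.sum
    intro j _
    by_cases h : z j = 0
    · exact (InK.zero a).congr fun l => by rw [h, zero_mul]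
    · exact (hz j h).zmul (z j)
  refine h1.congr fun l => ?_
  rw [sum_eq_single_of_mem l (mem_univ l)]
  · rw [Pi.single_eq_same, mul_one]
  · intro j _ hj
    rw [Pi.single_eq_of_ne hj.symm, mul_zero]

/-- the pairing with a row through `j₀` -/
theorem Sys.bil_z (h : Sys q p a) {j₀ : J} (hq : q j₀ = 1) (hv : vv q p a j₀ = 0) {z : J → ℤ}
    (hz : ∀ j, z j ≠ 0 → q j = 1 ∧ vv q p a j = 0) {i : R} (hi : a i j₀ = 1) :
    bil q z (a i) = z j₀ := by
  unfold bil
  rw [sum_eq_single_of_mem j₀ (mem_univ j₀)]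
  · rw [hq, hi]; push_cast; ring
  · intro j _ hj
    by_cases h1 : z j = 0
    · rw [h1]; ring
    · rw [h.disj hv hj (h.zero_nonneg (hz j h1).2) i hi, mul_zero]

/-- two columns of positive height, or one of weight one -/
def Two' (q : J → ℕ) (p : R → ℕ) (a : R → J → ℤ) : Prop :=
  ∃ j₁ j₂, 0 < vv q p a j₁ ∧ 0 < vv q p a j₂ ∧ (j₁ ≠ j₂ ∨ q j₁ = 1)

theorem Sys.tors' (h : Sys q p a) (h2 : Two' q p a) (x : J → ℤ) (hx : lam q p a x = 0) :
    ∃ z : J → ℤ, InK a (fun j => x j - z j) ∧ (∀ j, z j ≠ 0 → q j = 1 ∧ vv q p a j = 0) ∧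
      ((∀ j, z j = 0 ∨ z j = 1) ∨ ∀ j, z j = 0 ∨ z j = -1) := by
  obtain ⟨j₁, j₂, h1, h2, h12⟩ := h2
  exact h.tors h1 h2 h12 x hx

/-- a torsion column -/
structure Tor (q : J → ℕ) (p : R → ℕ) (a : R → J → ℤ) (j₀ : J) : Prop where
  q1 : q j₀ = 1
  v0 : vv q p a j₀ = 0
  nk : ¬ InK a (Pi.single j₀ 1)

theorem Tor.three {j₀ : J} (ht : Tor q p a j₀) (h : Sys q p a) (h2 : Two' q p a) {i : R}
    (hi : a i j₀ = 1) : p i = 3 := by
  obtain ⟨z, hz, hz1, hz2⟩ := h.tors' h2 (Pi.single j₀ 2) (by rw [lam_single, ht.v0, mul_zero])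
  have h3 := h.dvd hz i
  rw [bil_sub_left, bil_sgl, hi, ht.q1, h.bil_z ht.q1 ht.v0 hz1 hi] at h3
  push_cast at h3
  have hp1 : p i ≠ 1 := by
    intro hp
    have h4 := h.unit hi (by rw [hp, ht.q1])
    apply ht.nk
    rw [← h4.1]
    exact InK.row a i
  have hodd := h.po i
  have hle : (p i : ℤ) ≤ 3 := by
    have h4 : z j₀ = 0 ∨ z j₀ = 1 ∨ z j₀ = -1 := by
      rcases hz2 with h4 | h4 <;> rcases h4 j₀ with h5 | h5 <;> simp [h5]
    have h5 := Int.le_of_dvd (by rcases h4 with h4 | h4 | h4 <;> rw [h4] <;> norm_num) h3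
    rcases h4 with h4 | h4 | h4 <;> rw [h4] at h5 <;> omega
  have hle' : p i ≤ 3 := by exact_mod_cast hle
  have hpos := h.ppos i
  obtain ⟨m, hm⟩ := hodd
  omega

theorem Tor.unique {j₀ : J} (ht : Tor q p a j₀) (h : Sys q p a) (h2 : Two' q p a) {j : J}
    (ht' : Tor q p a j) : j = j₀ := by
  by_contra hne
  obtain ⟨z, hz, hz1, hz2⟩ := h.tors' h2
    (fun l => (Pi.single j₀ 1 : J → ℤ) l - (Pi.single j 1 : J → ℤ) l)
    (by rw [lam_sub, lam_single, lam_single, ht.v0, ht'.v0]; ring)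
  obtain ⟨i, hi⟩ := h.exists_row ht.v0
  obtain ⟨i', hi'⟩ := h.exists_row ht'.v0
  have h3 := h.dvd hz i
  have h4 := h.dvd hz i'
  rw [bil_sub_left, bil_sub_left, bil_sgl, bil_sgl, hi, ht.q1, h.bil_z ht.q1 ht.v0 hz1 hi,
    h.disj ht.v0 hne (h.zero_nonneg ht'.v0) i hi, ht.three h h2 hi] at h3
  rw [bil_sub_left, bil_sub_left, bil_sgl, bil_sgl, hi', ht'.q1, h.bil_z ht'.q1 ht'.v0 hz1 hi',
    h.disj ht'.v0 (Ne.symm hne) (h.zero_nonneg ht.v0) i' hi', ht'.three h h2 hi'] at h4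
  push_cast at h3 h4
  rcases hz2 with h5 | h5 <;> rcases h5 j₀ with h6 | h6 <;> rcases h5 j with h7 | h7 <;>
    rw [h6] at h3 <;> rw [h7] at h4 <;> omega

theorem Tor.mod {j₀ : J} (ht : Tor q p a j₀) (h : Sys q p a) (h2 : Two' q p a) (x : J → ℤ)
    (hx : lam q p a x = 0) : ∃ ε : ℤ, (ε = 0 ∨ ε = 1 ∨ ε = -1) ∧
      InK a (fun j => x j - (Pi.single j₀ ε : J → ℤ) j) := by
  obtain ⟨z, hz, hz1, hz2⟩ := h.tors' h2 x hx
  refine ⟨z j₀, ?_, ?_⟩
  · rcases hz2 with h4 | h4 <;> rcases h4 j₀ with h5 | h5 <;> simp [h5]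
  · have h3 : InK a (fun j => z j - (Pi.single j₀ (z j₀) : J → ℤ) j) := by
      apply InK.of_single
      intro j hj
      by_cases hjj : j = j₀
      · rw [hjj, Pi.single_eq_same, sub_self] at hj
        exact absurd rfl hj
      · rw [Pi.single_eq_of_ne hjj, sub_zero] at hj
        by_contra hc
        exact hjj (ht.unique h h2 ⟨(hz1 j hj).1, (hz1 j hj).2, hc⟩)
    exact (hz.add h3).congr fun j => by ring

theorem Tor.matched {j₀ : J} (ht : Tor q p a j₀) (h : Sys q p a) (h2 : Two' q p a) {j : J}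
    (hj : j ≠ j₀) (hv : vv q p a j = 0) : ∃ i, a i = Pi.single j 1 := by
  obtain ⟨ε, _, hε⟩ := ht.mod h h2 (Pi.single j 1) (by rw [lam_single, hv, mul_zero])
  apply h.match_of_dvd hv
  intro i hi
  have h3 := h.dvd hε i
  rw [bil_sub_left, bil_sgl, bil_sgl, hi, h.disj hv hj.symm (h.zero_nonneg ht.v0) i hi] at h3
  simpa using h3

/-- the shape of the rows through `j₀` -/
theorem Tor.shape {j₀ : J} (ht : Tor q p a j₀) (h : Sys q p a) (h2 : Two' q p a) {i : R}
    (hi : a i j₀ = 1) : ∃ b c, b ≠ j₀ ∧ c ≠ j₀ ∧ b ≠ c ∧ q b = 1 ∧ q c = 1 ∧ a i b = 1 ∧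
      a i c = -1 ∧ ∀ l, l ≠ j₀ → l ≠ b → l ≠ c → a i l = 0 := by
  have hn := h.norm_eq i
  rw [ht.three h h2 hi, ← add_sum_erase univ _ (mem_univ j₀), hi, ht.q1] at hn
  push_cast at hn
  have hs := h.a1 i
  rw [← add_sum_erase univ _ (mem_univ j₀), hi] at hs
  have hs0 : ∑ l ∈ univ.erase j₀, a i l = 0 := by linarith
  have hn2 : ∑ l ∈ univ.erase j₀, (q l : ℤ) * (a i l) ^ 2 = 2 := by linarith
  have hex : ∃ b ∈ univ.erase j₀, 0 < a i b := by
    by_contra hc
    push Not at hc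
    have h3 := (sum_eq_zero_iff_of_nonpos hc).1 hs0
    rw [sum_eq_zero fun l hl => by rw [h3 l hl]; ring] at hn2
    exact absurd hn2 (by norm_num)
  have hex' : ∃ c ∈ univ.erase j₀, a i c < 0 := by
    by_contra hc
    push Not at hc
    have h3 := (sum_eq_zero_iff_of_nonneg hc).1 hs0
    rw [sum_eq_zero fun l hl => by rw [h3 l hl]; ring] at hn2
    exact absurd hn2 (by norm_num)
  obtain ⟨b, hb, hb0⟩ := hex
  obtain ⟨c, hc, hc0⟩ := hex'
  have hbc : c ≠ b := by rintro rfl; omega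
  rw [← add_sum_erase _ _ hb, ← add_sum_erase _ _ (mem_erase.2 ⟨hbc, hc⟩)] at hn2
  have h3 : 0 ≤ ∑ k ∈ ((univ.erase j₀).erase b).erase c, (q k : ℤ) * (a i k) ^ 2 :=
    sum_nonneg fun l _ => by positivity
  have hterm : ∀ l, a i l ≠ 0 → 1 ≤ (q l : ℤ) * (a i l) ^ 2 ∧
      ((q l : ℤ) * (a i l) ^ 2 = 1 → q l = 1 ∧ (a i l) ^ 2 = 1) := by
    intro l hl
    have h4 : (1 : ℤ) ≤ q l := by exact_mod_cast h.qpos l
    have h5 : 1 ≤ (a i l) ^ 2 := by
      have : 0 < (a i l) ^ 2 := by positivity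
      omega
    have h6 : (q l : ℤ) ≤ q l * (a i l) ^ 2 := le_mul_of_one_le_right (by omega) h5
    have h7 : (a i l) ^ 2 ≤ (q l : ℤ) * (a i l) ^ 2 := le_mul_of_one_le_left (by omega) h4
    refine ⟨by omega, fun h8 => ⟨?_, by omega⟩⟩
    have : (q l : ℤ) = 1 := by omega
    exact_mod_cast this
  have hb1 := hterm b hb0.ne'
  have hc1 := hterm c hc0.ne
  have hb2 := hb1.2 (by omega)
  have hc2 := hc1.2 (by omega)
  have h4 : ∑ k ∈ ((univ.erase j₀).erase b).erase c, (q k : ℤ) * (a i k) ^ 2 = 0 := by omega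
  rw [sum_eq_zero_iff_of_nonneg fun l _ => by positivity] at h4
  rw [mem_erase] at hb hc
  refine ⟨b, c, hb.1, hc.1, hbc.symm, hb2.1, hc2.1, ?_, ?_, ?_⟩
  · have h5 : (a i b - 1) * (a i b + 1) = 0 := by linarith [hb2.2, sq (a i b)]
    rcases mul_eq_zero.1 h5 with h6 | h6 <;> omega
  · have h5 : (a i c - 1) * (a i c + 1) = 0 := by linarith [hc2.2, sq (a i c)]
    rcases mul_eq_zero.1 h5 with h6 | h6 <;> omega
  · intro l h5 h6 h7
    have h8 := h4 l (mem_erase.2 ⟨h7, mem_erase.2 ⟨h6, mem_erase.2 ⟨h5, mem_univ l⟩⟩⟩)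
    have h9 : (q l : ℤ) ≠ 0 := by have := h.qpos l; omega
    exact pow_eq_zero_iff (two_ne_zero) |>.1 ((mul_eq_zero.1 h8).resolve_left h9)

/-- the sum of the rows through `j₀` in another column -/
theorem Tor.col {j₀ : J} (ht : Tor q p a j₀) (h : Sys q p a) (h2 : Two' q p a) {l : J}
    (hl : l ≠ j₀) {i : R} (hi : a i j₀ = 1) (hil : a i l < 0) : ∃ i', a i' j₀ = 1 ∧ 0 < a i' l := by
  by_contra hc
  push Not at hc
  have h1 := h.sq_eq (h.zero_sq ht.v0) l
  rw [if_neg hl] at h1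
  have hnp : ∀ k, (q j₀ : ℚ) * a k j₀ / p k * a k l ≤ 0 := by
    intro k
    rcases h.zero_entry ht.v0 k with h3 | h3
    · rw [h3]; simp
    · have h4 : (a k l : ℚ) ≤ 0 := by exact_mod_cast hc k h3
      have h5 := h.pposQ k
      have h6 := h.qposQ j₀
      rw [h3]
      apply mul_nonpos_of_nonneg_of_nonpos _ h4
      positivity
  rw [sum_eq_zero_iff_of_nonpos fun k _ => hnp k] at h1
  have h3 := h1 i (mem_univ i)
  rw [hi] at h3
  have h5 := (h.pposQ i).ne'
  have h6 := (h.qposQ j₀).ne'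
  rcases mul_eq_zero.1 h3 with h7 | h7
  · rw [Int.cast_one, mul_one] at h7
    exact div_ne_zero h6 h5 h7
  · have : a i l = 0 := by exact_mod_cast h7
    omega

/-- the pairing with a row of the shape `e₀ + e_b - e_c` -/
theorem bil_shape {j₀ b c : J} (hb : b ≠ j₀) (hc : c ≠ j₀) (hbc : b ≠ c) (hq0 : q j₀ = 1)
    (hqb : q b = 1) (hqc : q c = 1) {i : R} (h0 : a i j₀ = 1) (h1 : a i b = 1) (h2 : a i c = -1)
    (h3 : ∀ l, l ≠ j₀ → l ≠ b → l ≠ c → a i l = 0) (x : J → ℤ) :
    bil q x (a i) = x j₀ + x b - x c := by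
  unfold bil
  rw [← add_sum_erase univ _ (mem_univ j₀), ← add_sum_erase (univ.erase j₀) _
    (mem_erase.2 ⟨hb, mem_univ b⟩), ← add_sum_erase ((univ.erase j₀).erase b) _
      (mem_erase.2 ⟨hbc.symm, mem_erase.2 ⟨hc, mem_univ c⟩⟩), sum_eq_zero, hq0, hqb, hqc, h0, h1, h2]
  · push_cast; ring
  · intro l hl
    rw [mem_erase, mem_erase, mem_erase] at hl
    rw [h3 l hl.2.2.1 hl.2.1 hl.1, mul_zero]

theorem lam_shape {j₀ b c : J} (hb : b ≠ j₀) (hc : c ≠ j₀) (hbc : b ≠ c) {x : J → ℤ} 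
    (h3 : ∀ l, l ≠ j₀ → l ≠ b → l ≠ c → (x l : ℚ) * vv q p a l = 0) :
    lam q p a x = x j₀ * vv q p a j₀ + x b * vv q p a b + x c * vv q p a c := by
  unfold lam
  rw [← add_sum_erase univ _ (mem_univ j₀), ← add_sum_erase (univ.erase j₀) _
    (mem_erase.2 ⟨hb, mem_univ b⟩), ← add_sum_erase ((univ.erase j₀).erase b) _
      (mem_erase.2 ⟨hbc.symm, mem_erase.2 ⟨hc, mem_univ c⟩⟩), sum_eq_zero]
  · ring
  · intro l hl
    rw [mem_erase, mem_erase, mem_erase] at hl
    exact h3 l hl.2.2.1 hl.2.1 hl.1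

/-- The case with torsion. -/
theorem Tor.case {j₀ : J} (ht : Tor q p a j₀) (h : Sys q p a) (h2 : Two' q p a) :
    ∃ b c d : J, b ≠ j₀ ∧ c ≠ j₀ ∧ d ≠ j₀ ∧ b ≠ c ∧ b ≠ d ∧ c ≠ d ∧ q b = 1 ∧ q c = 1 ∧ q d = 1 ∧
      vv q p a c = vv q p a b ∧ vv q p a d = vv q p a b ∧ 0 < vv q p a b ∧
      ∀ l, l ≠ b → l ≠ c → l ≠ d → vv q p a l = 0 := by
  obtain ⟨i₁, hi1⟩ := h.exists_row ht.v0
  obtain ⟨b, c, hb0, hc0, hbc, hqb, hqc, h1b, h1c, h1r⟩ := ht.shape h h2 hi1
  obtain ⟨i₂, hi2, hi2c⟩ := ht.col h h2 hc0 hi1 (by omega)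
  obtain ⟨c', d, hc0', hd0, hcd', hqc', hqd, h2c', h2d, h2r⟩ := ht.shape h h2 hi2
  have hc'c : c' = c := by
    by_contra hne
    by_cases h3 : c = d
    · rw [h3] at hi2c; omega
    · have := h2r c hc0 (fun h' => hne h'.symm) h3
      omega
  subst hc'c
  have hb1 := bil_shape hb0 hc0 hbc ht.q1 hqb hqc hi1 h1b h1c h1r
  have hb2 := bil_shape hc0 hd0 hcd' ht.q1 hqc hqd hi2 h2c' h2d h2r
  have h12 : i₁ ≠ i₂ := by rintro rfl; omega
  have hbd : b ≠ d := by
    intro hbd
    have h3 := hb1 (a i₂)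
    rw [h.a2 i₂ i₁ h12.symm, hi2, h2c', hbd, h2d] at h3
    omega
  obtain ⟨i₃, hi3, hi3d⟩ := ht.col h h2 hd0 hi2 (by omega)
  obtain ⟨d', e, hd0', he0, hde, hqd', hqe, h3d, h3e, h3r⟩ := ht.shape h h2 hi3
  have hd'd : d' = d := by
    by_contra hne
    by_cases h3 : d = e
    · rw [h3] at hi3d; omega
    · have := h3r d hd0 (fun h' => hne h'.symm) h3
      omega
  subst hd'd
  have h13 : i₁ ≠ i₃ := by
    rintro rfl
    rw [h1r d' hd0 (fun h' => hbd h'.symm) hcd'.symm] at h3d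
    omega
  have heb : e = b := by
    have h4 := hb1 (a i₃)
    rw [h.a2 i₃ i₁ h13.symm, hi3] at h4
    by_contra hne
    have h5 : a i₃ b = 0 := h3r b hb0 hbd (fun h' => hne h'.symm)
    by_cases h6 : c' = e
    · rw [h5, h6, h3e] at h4; omega
    · rw [h5, h3r c' hc0 hcd' h6] at h4; omega
  subst heb
  have hb3 := bil_shape hd0 he0 hde ht.q1 hqd hqe hi3 h3d h3e h3r
  -- heights
  have v1 : vv q p a c' = vv q p a e := by
    have h3 := h.lam_row i₁
    rw [lam_shape hb0 hc0 hbc (fun l h4 h5 h6 => by rw [h1r l h4 h5 h6]; simp), ht.v0, h1b, h1c] at h3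
    push_cast at h3
    linarith
  have v2 : vv q p a d' = vv q p a e := by
    have h3 := h.lam_row i₃
    rw [lam_shape hd0 he0 hde (fun l h4 h5 h6 => by rw [h3r l h4 h5 h6]; simp), ht.v0, h3d, h3e] at h3
    push_cast at h3
    linarith
  have v0 : 0 < vv q p a e := by
    apply (h.vv_nonneg e).lt_of_ne
    intro h3
    have := h.disj ht.v0 hb0 (h.zero_nonneg h3.symm) i₁ hi1
    omega
  have p1 := ht.three h h2 hi1
  have p2 := ht.three h h2 hi2
  -- congruence
  have hmod : ∀ x : J → ℤ, lam q p a x = 0 → (3 : ℤ) ∣ x e + x c' + x d' := by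
    intro x hx
    obtain ⟨ε, _, hε⟩ := ht.mod h h2 x hx
    have h3 := h.dvd hε i₁
    have h4 := h.dvd hε i₂
    rw [hb1, p1] at h3
    rw [hb2, p2] at h4
    rw [Pi.single_eq_same, Pi.single_eq_of_ne hb0, Pi.single_eq_of_ne hc0] at h3
    rw [Pi.single_eq_same, Pi.single_eq_of_ne hc0, Pi.single_eq_of_ne hd0] at h4
    push_cast at h3 h4
    omega
  -- minimality
  have hmin : ∀ j, q j = 1 → 0 < vv q p a j → vv q p a e ≤ vv q p a j := by
    obtain ⟨j', hj', hj'min⟩ := exists_min_image (univ.filter fun j => q j = 1 ∧ 0 < vv q p a j)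
      (vv q p a) ⟨e, by simp [hqb, v0]⟩
    rw [mem_filter] at hj'
    have hmin' : ∀ j, q j = 1 → 0 < vv q p a j → vv q p a j' ≤ vv q p a j := fun j h3 h4 =>
      hj'min j (by simp [h3, h4])
    have hno := h.no_small (fun j => q j = 1) (fun j hj => hj) hj'.2.1 hmin'
    obtain ⟨w, hw⟩ := h.integral hj'.2.2 hno (Pi.single e 1)
    rw [lam_single, Int.cast_one, one_mul] at hw
    have hle := hmin' e hqb v0
    rcases hle.lt_or_eq with h3 | h3
    · exfalso
      have n1 : j' ≠ e := by rintro rfl; exact lt_irrefl _ h3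
      have n2 : j' ≠ c' := by rintro rfl; rw [v1] at h3; exact lt_irrefl _ h3
      have n3 : j' ≠ d' := by rintro rfl; rw [v2] at h3; exact lt_irrefl _ h3
      have h4 := hmod (fun l => (Pi.single j' w : J → ℤ) l - (Pi.single e 1 : J → ℤ) l) (by
        rw [lam_sub, lam_single, lam_single, hw]; push_cast; ring)
      rw [Pi.single_eq_of_ne n1.symm, Pi.single_eq_of_ne n2.symm, Pi.single_eq_of_ne n3.symm,
        Pi.single_eq_same, Pi.single_eq_of_ne hbc.symm, Pi.single_eq_of_ne hbd.symm] at h4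
      omega
    · rw [← h3]; exact hmin'
  have hno := h.no_small (fun j => q j = 1) (fun j hj => hj) hqb hmin
  have hw : ∀ j, ∃ w : ℤ, vv q p a j = w * vv q p a e := by
    intro j
    obtain ⟨w, hw⟩ := h.integral v0 hno (Pi.single j 1)
    rw [lam_single] at hw
    exact ⟨w, by rw [← hw]; push_cast; ring⟩
  choose w hw using hw
  have hw3 : ∀ j, j ≠ e → j ≠ c' → j ≠ d' → 0 < vv q p a j → 3 ≤ w j := by
    intro j n1 n2 n3 hj
    have h4 := hmod (fun l => (Pi.single j 1 : J → ℤ) l - (Pi.single e (w j) : J → ℤ) l) (by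
        rw [lam_sub, lam_single, lam_single, hw j]; push_cast; ring)
    rw [Pi.single_eq_of_ne n1.symm, Pi.single_eq_of_ne n2.symm, Pi.single_eq_of_ne n3.symm,
        Pi.single_eq_same, Pi.single_eq_of_ne hbc.symm, Pi.single_eq_of_ne hbd.symm] at h4
    have h5 : 0 < w j := by
      rw [hw j] at hj
      have : (0 : ℚ) < w j := by
        by_contra hc
        push Not at hc
        have := mul_nonpos_of_nonpos_of_nonneg hc v0.le
        linarith
      exact_mod_cast this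
    omega
  refine ⟨e, c', d', hb0, hc0, hd0, hbc, hbd, hcd', hqb, hqc, hqd, v1, v2, v0, ?_⟩
  intro k n1 n2 n3
  by_contra hk
  have hk0 : 0 < vv q p a k := (h.vv_nonneg k).lt_of_ne (Ne.symm hk)
  have hk3 : 3 * vv q p a e ≤ vv q p a k := by
    rw [hw k]
    apply mul_le_mul_of_nonneg_right _ v0.le
    exact_mod_cast hw3 k n1 n2 n3 hk0
  have hs := h.sum_le_lam (fun j => q j = 1 ∨ j = k) {e, c', d', k} (by
      intro j hj
      simp only [mem_insert, mem_singleton] at hj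
      rcases hj with rfl | rfl | rfl | rfl
      · exact Or.inl hqb
      · exact Or.inl hqc
      · exact Or.inl hqd
      · exact Or.inr rfl)
  rw [sum_insert (by simp [hbc, hbd, n1.symm]), sum_insert (by simp [hcd', n2.symm]),
    sum_insert (by simp [n3.symm]), sum_singleton, v1, v2] at hs
  have hl : lam q p a (fun l => (Pi.single e 3 : J → ℤ) l - (Pi.single j₀ 1 : J → ℤ) l) =
      3 * vv q p a e := by
    rw [lam_sub, lam_single, lam_single, ht.v0]; push_cast; ring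
  obtain ⟨z, hz, hz1, hz2⟩ := h.comp (fun j => q j = 1 ∨ j = k) (fun j hj => Or.inl hj)
    (fun l => (Pi.single e 3 : J → ℤ) l - (Pi.single j₀ 1 : J → ℤ) l)
    (by rw [hl]; linarith) (by rw [hl]; linarith)
  have hlz := h.lam_eq hz
  rw [hl] at hlz
  have hnn : ∀ j, 0 ≤ z j := fun j => by rcases hz1 j with h2 | h2 <;> omega
  by_cases hex : ∃ l, l ≠ e ∧ l ≠ c' ∧ l ≠ d' ∧ z l ≠ 0 ∧ 0 < vv q p a l
  · obtain ⟨l, m1, m2, m3, hzl, hvl⟩ := hex
    have h3 := h.le_lam hnn l
    rw [(hz1 l).resolve_left hzl, ← hlz] at h3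
    push_cast at h3
    have h4 : vv q p a l = 3 * vv q p a e := by
      apply le_antisymm (by linarith)
      rw [hw l]
      apply mul_le_mul_of_nonneg_right _ v0.le
      exact_mod_cast hw3 l m1 m2 m3 hvl
    have m0 : l ≠ j₀ := by rintro rfl; rw [ht.v0] at hvl; exact lt_irrefl _ hvl
    -- the vector `e_b + e_c + e_d - e_l`
    let y : J → ℤ := fun s => ((Pi.single e 1 : J → ℤ) s + (Pi.single c' 1 : J → ℤ) s) +
      ((Pi.single d' 1 : J → ℤ) s - (Pi.single l 1 : J → ℤ) s)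
    have hly : lam q p a y = 0 := by
      simp only [y]
      rw [lam_add, lam_add, lam_sub, lam_single, lam_single, lam_single, lam_single, v1, v2, h4]
      push_cast; ring
    have ye : y e = 1 := by
      simp only [y]
      rw [Pi.single_eq_same, Pi.single_eq_of_ne hbc, Pi.single_eq_of_ne hbd,
        Pi.single_eq_of_ne m1.symm]; ring
    have yc : y c' = 1 := by
      simp only [y]
      rw [Pi.single_eq_same, Pi.single_eq_of_ne hbc.symm, Pi.single_eq_of_ne hcd',
        Pi.single_eq_of_ne m2.symm]; ring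
    have yd : y d' = 1 := by
      simp only [y]
      rw [Pi.single_eq_same, Pi.single_eq_of_ne hbd.symm, Pi.single_eq_of_ne hcd'.symm,
        Pi.single_eq_of_ne m3.symm]; ring
    have yl : y l = -1 := by
      simp only [y]
      rw [Pi.single_eq_same, Pi.single_eq_of_ne m1, Pi.single_eq_of_ne m2,
        Pi.single_eq_of_ne m3]; ring
    have yr : ∀ s, s ≠ e → s ≠ c' → s ≠ d' → s ≠ l → y s = 0 := by
      intro s s1 s2 s3 s4
      simp only [y]
      rw [Pi.single_eq_of_ne s1, Pi.single_eq_of_ne s2, Pi.single_eq_of_ne s3,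
        Pi.single_eq_of_ne s4]; ring
    have y0 : y j₀ = 0 := yr j₀ hb0.symm hc0.symm hd0.symm m0.symm
    obtain ⟨ε, hε, hεK⟩ := ht.mod h h2 y hly
    have hε0 : ε = 0 := by
      have h5 := h.dvd hεK i₁
      rw [hb1, p1, Pi.single_eq_same, Pi.single_eq_of_ne hb0, Pi.single_eq_of_ne hc0, y0, ye,
        yc] at h5
      push_cast at h5
      omega
    obtain ⟨n, hn⟩ := hεK.congr (y := y) (fun j => by
      rw [hε0]
      by_cases hj : j = j₀
      · rw [hj, Pi.single_eq_same, sub_zero]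
      · rw [Pi.single_eq_of_ne hj, sub_zero])
    have hsp := h.split (x := y) (by
      intro s
      by_cases s1 : s = e
      · rw [s1, ye]; simp
      · by_cases s2 : s = c'
        · rw [s2, yc]; simp
        · by_cases s3 : s = d'
          · rw [s3, yd]; simp
          · by_cases s4 : s = l
            · rw [s4, yl]; simp
            · rw [yr s s1 s2 s3 s4]; simp) hn
    have hn0 : ∀ i, n i = 0 := by
      intro i
      by_contra hni
      have hi0 : a i j₀ = 0 := by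
        have h5 := hsp i j₀
        rw [y0] at h5
        have h6 : n i * a i j₀ = 0 := by tauto
        exact (mul_eq_zero.1 h6).resolve_left hni
      have k1 : i ≠ i₁ := by rintro rfl; omega
      have k2 : i ≠ i₂ := by rintro rfl; omega
      have e1 := hb1 (a i)
      have e2 := hb2 (a i)
      rw [h.a2 i i₁ k1, hi0] at e1
      rw [h.a2 i i₂ k2, hi0] at e2
      have h7 : ∀ s, s ≠ e → s ≠ c' → s ≠ d' → s ≠ l → n i * a i s = 0 := by
        intro s s1 s2 s3 s4
        have := hsp i s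
        rw [yr s s1 s2 s3 s4] at this
        tauto
      have hsum : ∀ f : J → ℚ, ∑ s, ((n i * a i s : ℤ) : ℚ) * f s =
          ((n i * a i e : ℤ) : ℚ) * f e + ((n i * a i c' : ℤ) : ℚ) * f c' +
            ((n i * a i d' : ℤ) : ℚ) * f d' + ((n i * a i l : ℤ) : ℚ) * f l := by
        intro f
        rw [← add_sum_erase univ _ (mem_univ e), ← add_sum_erase (univ.erase e) _
          (mem_erase.2 ⟨hbc.symm, mem_univ c'⟩), ← add_sum_erase ((univ.erase e).erase c') _
          (mem_erase.2 ⟨hcd'.symm, mem_erase.2 ⟨hbd.symm, mem_univ d'⟩⟩),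
          ← add_sum_erase (((univ.erase e).erase c').erase d') _
          (mem_erase.2 ⟨m3, mem_erase.2 ⟨m2, mem_erase.2 ⟨m1, mem_univ l⟩⟩⟩), sum_eq_zero]
        · ring
        · intro s hs
          rw [mem_erase, mem_erase, mem_erase, mem_erase] at hs
          rw [h7 s hs.2.2.2.1 hs.2.2.1 hs.2.1 hs.1]; simp
      have hl1 : lam q p a (fun s => n i * a i s) = 0 := by
        rw [lam_mul, h.lam_row i, mul_zero]
      unfold lam at hl1
      rw [hsum, v1, v2, h4] at hl1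
      have e3 : a i c' = a i e := by omega
      have e4 : a i d' = a i e := by omega
      rw [e3, e4] at hl1
      have h8 : (3 * ((n i * a i e : ℤ) : ℚ) + 3 * ((n i * a i l : ℤ) : ℚ)) * vv q p a e = 0 := by
        linarith
      have h9 := (mul_eq_zero.1 h8).resolve_right v0.ne'
      have h10 : n i * a i e + n i * a i l = 0 := by
        have : ((n i * a i e + n i * a i l : ℤ) : ℚ) = 0 := by push_cast at h9 ⊢; linarith
        exact_mod_cast this
      have h11 : n i = 3 * (n i * a i e) + n i * a i l := by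
        have h12 : ∑ s, ((n i * a i s : ℤ) : ℚ) * 1 = n i := by
          simp only [mul_one]
          have h4 : ∑ l, n i * a i l = n i := by rw [← mul_sum, h.a1 i, mul_one]
          exact_mod_cast h4
        rw [hsum, e3, e4] at h12
        have : (((3 * (n i * a i e) + n i * a i l : ℤ)) : ℚ) = ((n i : ℤ) : ℚ) := by
          push_cast at h12 ⊢; linarith
        exact_mod_cast this.symm
      have h12 := hsp i e
      rw [ye] at h12
      rcases h12 with h12 | h12
      · omega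
      · have h13 : n i = 2 := by omega
        rw [h13] at h12
        omega
    have := hn e
    rw [ye, sum_eq_zero fun i _ => by rw [hn0 i, zero_mul]] at this
    exact one_ne_zero this
  · push Not at hex
    have h4 : ∀ l, l ≠ e → l ≠ c' → l ≠ d' → (z l : ℚ) * vv q p a l = 0 := by
      intro l m1 m2 m3
      by_cases h5 : z l = 0
      · rw [h5]; simp
      · rw [le_antisymm (hex l m1 m2 m3 h5) (h.vv_nonneg l), mul_zero]
    rw [lam_shape (j₀ := e) (b := c') (c := d') hbc.symm hbd.symm hcd' h4, v1, v2] at hlz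
    have h5 : ((z e : ℚ) + z c' + z d' - 3) * vv q p a e = 0 := by linarith
    have h6 := (mul_eq_zero.1 h5).resolve_right v0.ne'
    have h7 : z e + z c' + z d' = 3 := by
      have : ((z e + z c' + z d' : ℤ) : ℚ) = ((3 : ℤ) : ℚ) := by push_cast; linarith
      exact_mod_cast this
    have g1 := hz1 e
    have g2 := hz1 c'
    have g3 := hz1 d'
    have g0 := hz1 j₀
    have ze : z e = 1 := by omega
    have zc : z c' = 1 := by omega
    have h8 := h.dvd hz i₁
    rw [hb1, p1, ze, zc, Pi.single_eq_of_ne hb0.symm, Pi.single_eq_same, Pi.single_eq_same,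
      Pi.single_eq_of_ne hb0, Pi.single_eq_of_ne hbc.symm, Pi.single_eq_of_ne hc0] at h8
    push_cast at h8
    omega

end

end Pool.Agent.H754.Pretzel
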