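import Pool.Agent.H754.Pretzel.Cls3

/-!
The classification of covering systems of one star.
-/

set_option linter.unusedSectionVars false

namespace Pool.Agent.H754.Pretzel

open Finset

section

variable {J R : Type} [Fintype J] [Fintype R] [DecidableEq J] [DecidableEq R] {q : J → ℕ}
  {p : R → ℕ} {a : R → J → ℤ}

theorem Sys.typeA (h : Sys q p a) {j₁ : J} (hm : ∀ j, j ≠ j₁ → ∃ i, a i = Pi.single j 1) :
    ∃ S : Multiset ℕ, (univ : Finset R).val.map p = S ∧
      (univ : Finset J).val.map q = q j₁ ::ₘ S := by
  obtain ⟨S, hS, hp, hq, _⟩ := h.count (univ.erase j₁) (fun j hj => hm j (mem_erase.1 hj).1)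
  have hc : (univ.erase j₁ : Finset J)ᶜ = {j₁} := by
    ext j; simp
  rw [hc, card_singleton] at hS
  have hS0 : S = ∅ := card_eq_zero.1 (by omega)
  rw [hS0] at hp
  rw [hc] at hq
  refine ⟨(univ.erase j₁ : Finset J).val.map q, ?_, ?_⟩
  · rw [hp]; simp
  · rw [hq]; simp

theorem Sys.classify (h : Sys q p a) : ∃ S : Multiset ℕ,
    (∃ c, (univ : Finset R).val.map p = S ∧ (univ : Finset J).val.map q = c ::ₘ S) ∨
    (∃ c, (univ : Finset R).val.map p = (c + 4) ::ₘ S ∧
      (univ : Finset J).val.map q = 1 ::ₘ c ::ₘ S) ∨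
    ((univ : Finset R).val.map p = 3 ::ₘ 3 ::ₘ 3 ::ₘ S ∧
      (univ : Finset J).val.map q = 1 ::ₘ 1 ::ₘ 1 ::ₘ 1 ::ₘ S) := by
  by_cases h2 : Two' q p a
  · by_cases ht : ∃ j₀, Tor q p a j₀
    · -- type C
      obtain ⟨j₀, ht⟩ := ht
      obtain ⟨b, c, d, hb0, hc0, hd0, hbc, hbd, hcd, hqb, hqc, hqd, vc, vd, v0, hz⟩ := ht.case h h2
      obtain ⟨S, hS, hp, hq, hSz⟩ := h.count ({j₀, b, c, d} : Finset J)ᶜ (by
        intro j hj
        simp only [mem_compl, mem_insert, mem_singleton, not_or] at hj
        exact ht.matched h h2 hj.1 (hz j hj.2.1 hj.2.2.1 hj.2.2.2))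
      rw [compl_compl] at hS hq
      have hcard : ({j₀, b, c, d} : Finset J).card = 4 := by
        rw [card_insert_of_notMem (by simp [hb0.symm, hc0.symm, hd0.symm]),
          card_insert_of_notMem (by simp [hbc, hbd]), card_insert_of_notMem (by simp [hcd]),
          card_singleton]
      have hval : ({j₀, b, c, d} : Finset J).val = j₀ ::ₘ b ::ₘ c ::ₘ {d} := by
        rw [insert_val_of_notMem (by simp [hb0.symm, hc0.symm, hd0.symm]),
          insert_val_of_notMem (by simp [hbc, hbd]), insert_val_of_notMem (by simp [hcd]),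
          singleton_val]
      have hS3 : S.card = 3 := by omega
      have hp3 : ∀ i ∈ S, p i = 3 := by
        intro i hi
        have hr : ∀ l, l ≠ j₀ → l ≠ b → l ≠ c → l ≠ d → a i l = 0 := by
          intro l h1 h2 h3 h4
          exact hSz i hi l (by simp [h1, h2, h3, h4])
        have hl := h.lam_row i
        have hs := h.a1 i
        unfold lam at hl
        rw [← add_sum_erase univ _ (mem_univ j₀), ← add_sum_erase (univ.erase j₀) _
          (mem_erase.2 ⟨hb0, mem_univ b⟩), ← add_sum_erase ((univ.erase j₀).erase b) _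
          (mem_erase.2 ⟨hbc.symm, mem_erase.2 ⟨hc0, mem_univ c⟩⟩),
          ← add_sum_erase (((univ.erase j₀).erase b).erase c) _
          (mem_erase.2 ⟨hcd.symm, mem_erase.2 ⟨hbd.symm, mem_erase.2 ⟨hd0, mem_univ d⟩⟩⟩),
          sum_eq_zero (s := (((univ.erase j₀).erase b).erase c).erase d) (by
            intro l hl
            rw [mem_erase, mem_erase, mem_erase, mem_erase] at hl
            simp [hr l hl.2.2.2.1 hl.2.2.1 hl.2.1 hl.1])] at hl hs
        rw [ht.v0, vc, vd] at hl
        have h5 : ((a i b : ℚ) + a i c + a i d) * vv q p a b = 0 := by linarith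
        have h6 := (mul_eq_zero.1 h5).resolve_right v0.ne'
        have h7 : a i b + a i c + a i d = 0 := by exact_mod_cast h6
        exact ht.three h h2 (by omega)
      refine ⟨(({j₀, b, c, d} : Finset J)ᶜ).val.map q, Or.inr (Or.inr ⟨?_, ?_⟩)⟩
      · rw [hp]
        have h8 : S.val.map p = Multiset.replicate 3 3 := by
          rw [Multiset.eq_replicate]
          refine ⟨by rw [Multiset.card_map]; exact hS3, ?_⟩
          intro x hx
          obtain ⟨i, hi, rfl⟩ := Multiset.mem_map.1 hx
          exact hp3 i hi
        have h9 : Multiset.replicate 3 3 = 3 ::ₘ 3 ::ₘ {3} := rfl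
        rw [h8, h9, Multiset.cons_add, Multiset.cons_add, Multiset.singleton_add]
      · rw [hq, hval]
        simp only [Multiset.map_cons, Multiset.map_singleton, ht.q1, hqb, hqc, hqd,
          Multiset.cons_add, Multiset.singleton_add]
    · push Not at ht
      have hT : ∀ x, lam q p a x = 0 → InK a x := by
        intro x hx
        obtain ⟨z, hz, hz1, _⟩ := h.tors' h2 x hx
        have h3 : InK a z := by
          apply InK.of_single
          intro j hj
          by_contra hc
          exact ht j ⟨(hz1 j hj).1, (hz1 j hj).2, hc⟩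
        exact (hz.add h3).congr fun j => by ring
      have hmatch : ∀ j, vv q p a j = 0 → ∃ i, a i = Pi.single j 1 := fun j hj =>
        h.match_of_K hj (hT _ (by rw [lam_single, hj, mul_zero]))
      by_cases hq1 : ∃ j, q j = 1 ∧ 0 < vv q p a j
      · obtain ⟨j₁, hj₁, hmin⟩ := exists_min_image (univ.filter fun j => q j = 1 ∧ 0 < vv q p a j)
          (vv q p a) (by obtain ⟨j, hj⟩ := hq1; exact ⟨j, by simp [hj.1, hj.2]⟩)
        rw [mem_filter] at hj₁
        have hno := h.no_small (fun j => q j = 1) (fun j hj => hj) hj₁.2.1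
          (fun j h3 h4 => hmin j (by simp [h3, h4]))
        rcases h.free_case hT hj₁.2.2 hj₁.2.1 hno with h3 | ⟨j₂, h12, hv2, h3⟩
        · obtain ⟨S, hS⟩ := h.typeA fun j hj => hmatch j (h3 j hj)
          exact ⟨S, Or.inl ⟨_, hS⟩⟩
        · obtain ⟨S, hS, hp, hq, hSz⟩ := h.count ({j₁, j₂} : Finset J)ᶜ (by
            intro j hj
            simp only [mem_compl, mem_insert, mem_singleton, not_or] at hj
            exact hmatch j (h3 j hj.1 hj.2))
          rw [compl_compl] at hS hq
          rw [card_pair h12.symm] at hS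
          obtain ⟨i, hi⟩ := card_eq_one.1 (by omega : S.card = 1)
          have hr : ∀ l, l ≠ j₁ → l ≠ j₂ → a i l = 0 := by
            intro l h4 h5
            exact hSz i (by rw [hi]; exact mem_singleton_self i) l (by simp [h4, h5])
          have hl := h.lam_row i
          have hs := h.a1 i
          have hn := h.norm_eq i
          unfold lam at hl
          rw [two_sum h12.symm (fun l h4 h5 => by rw [hr l h4 h5]; simp), hv2] at hl
          rw [two_sumZ h12.symm hr] at hs
          rw [two_sumZ h12.symm (fun l h4 h5 => by rw [hr l h4 h5]; ring)] at hn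
          have h5 : ((a i j₁ : ℚ) + 2 * a i j₂) * vv q p a j₁ = 0 := by linarith
          have h6 := (mul_eq_zero.1 h5).resolve_right hj₁.2.2.ne'
          have h7 : a i j₁ + 2 * a i j₂ = 0 := by exact_mod_cast h6
          have h8 : a i j₁ = 2 := by omega
          have h9 : a i j₂ = -1 := by omega
          rw [h8, h9, hj₁.2.1] at hn
          have h10 : p i = q j₂ + 4 := by
            have : (p i : ℤ) = q j₂ + 4 := by rw [← hn]; push_cast; ring
            exact_mod_cast this
          refine ⟨(({j₁, j₂} : Finset J)ᶜ).val.map q, Or.inr (Or.inl ⟨q j₂, ?_, ?_⟩)⟩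
          · rw [hp, hi, singleton_val, Multiset.map_singleton, h10, Multiset.singleton_add]
          · rw [hq, insert_val_of_notMem (by simp [h12.symm]), singleton_val]
            simp only [Multiset.map_cons, Multiset.map_singleton, hj₁.2.1, Multiset.cons_add,
              Multiset.singleton_add]
      · exfalso
        push Not at hq1
        obtain ⟨j₁, j₂, h1, h1', h12⟩ := h2
        have hne : j₁ ≠ j₂ := by
          rcases h12 with h3 | h3
          · exact h3
          · have := hq1 j₁ h3
            linarith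
        have key : ∀ j k, 0 < vv q p a j → 0 < vv q p a k → vv q p a j ≤ vv q p a k := by
          intro j k hj hk
          have := h.no_small (fun l => q l = 1 ∨ l = j) (fun l hl => Or.inl hl) (Or.inr rfl)
            (fun l hl hl' => by
              rcases hl with h3 | h3
              · have := hq1 l h3
                linarith
              · rw [h3]) (Pi.single k 1) (by rw [lam_single]; push_cast; linarith)
          rw [lam_single] at this
          push_cast at this
          linarith
        exact h.distinct hT hne h1 (le_antisymm (key _ _ h1 h1') (key _ _ h1' h1))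
  · obtain ⟨j₁, hj₁⟩ := h.exists_pos
    have hz : ∀ j, j ≠ j₁ → vv q p a j = 0 := by
      intro j hj
      by_contra hc
      exact h2 ⟨j₁, j, hj₁, (h.vv_nonneg j).lt_of_ne (Ne.symm hc), Or.inl hj.symm⟩
    obtain ⟨S, hS⟩ := h.typeA (h.one_col hz)
    exact ⟨S, Or.inl ⟨_, hS⟩⟩

end

end Pool.Agent.H754.Pretzel
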