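import Pool.Agent.H754.Pretzel.Trans

/-!
The theorem on covering systems: all rows are unit vectors.
-/

set_option linter.unusedSectionVars false

namespace Pool.Agent.H754.Pretzel

open Finset

section

variable {A J R : Type} [Fintype A] [Fintype J] [Fintype R] [DecidableEq A] [DecidableEq J]
  [DecidableEq R] {st : J → A} {q : J → ℕ} {lf : R → A} {a : R → J → ℤ} {N : AddSubgroup (J → ℤ)}

/-- two columns with vectors different from zero -/
def Two (st : J → A) (q : J → ℕ) (lf : R → A) (a : R → J → ℤ) (α : A) : Prop :=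
  ∃ j l, st j = α ∧ st l = α ∧ j ≠ l ∧ vec st q lf a j ≠ 0 ∧ vec st q lf a l ≠ 0

/-- the rows of a star are unit vectors -/
def Sol (st : J → A) (lf : R → A) (a : R → J → ℤ) (α : A) : Prop :=
  ∀ i, lf i = α → ∃ j, st j = α ∧ a i = Pi.single j 1

theorem bil_single (j : J) (x : J → ℤ) : bil q (Pi.single j 1) x = q j * x j := by
  unfold bil
  rw [sum_eq_single_of_mem j (mem_univ j)]
  · rw [Pi.single_eq_same, mul_one]
  · intro i _ hi
    rw [Pi.single_eq_of_ne hi]; ring

theorem unit_of_norm (hq : ∀ j, 0 < q j) {x : J → ℤ} {j : J} (hj : x j = 1)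
    (hn : bil q x x ≤ q j) : x = Pi.single j 1 := by
  have h1 : bil q (x - Pi.single j 1) (x - Pi.single j 1) = 0 := by
    apply le_antisymm _ (bil_nonneg _)
    rw [bil_sub_self, bil_comm x (Pi.single j 1), bil_single, bil_single, Pi.single_eq_same, hj]
    linarith
  exact sub_eq_zero.1 (bil_pos hq h1)

theorem single_cast_sum (j : J) (f : J → ℚ) : ∑ i, ((Pi.single j (1 : ℤ) : J → ℤ) i : ℚ) * f i =
    f j := by
  rw [sum_eq_single_of_mem j (mem_univ j)]
  · rw [Pi.single_eq_same, Int.cast_one, one_mul]
  · intro i _ hi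
    rw [Pi.single_eq_of_ne hi, Int.cast_zero, zero_mul]

theorem Sol.vec_zero {α : A} (hα : Sol st lf a α) {j : J} (hj : st j ≠ α) :
    vec st q lf a j α = 0 := by
  unfold vec
  rw [if_neg hj, sum_eq_zero, sub_zero]
  intro i hi
  rw [mem_filter] at hi
  obtain ⟨l, hl, hi'⟩ := hα i hi.2
  have h1 : a i j = 0 := by
    rw [hi', Pi.single_eq_of_ne]
    rintro rfl
    exact hj hl
  rw [h1]; simp

/-- a star with one nonzero vector -/
theorem Cov.one (h : Cov st q lf a N) {α : A} (hα : ¬ Two st q lf a α) :
    Sol st lf a α ∧ (∃ j₀, st j₀ = α ∧ ∀ j, st j = α → j ≠ j₀ → ∃ i, a i = Pi.single j 1) ∧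
      (∀ i, lf i ≠ α → ∀ j, st j = α → a i j = 0) ∧ ∀ x ∈ N, ∀ j, st j = α → x j = 0 := by
  classical
  obtain ⟨j₀, hj₀, hv₀⟩ := h.exists_vec α
  have hz : ∀ j, st j = α → j ≠ j₀ → vec st q lf a j = 0 := by
    intro j hj hne
    by_contra hcon
    exact hα ⟨j, j₀, hj, hj₀, hne, hcon, hv₀⟩
  -- products vanish
  have hprod : ∀ j, st j = α → j ≠ j₀ → ∀ l, st l = α → l ≠ j₀ → j ≠ l → ∀ i,
      a i j = 0 ∨ a i l = 0 := by
    intro j hj hj0 l hl hl0 hjl i
    obtain ⟨hg, _, h01, _⟩ := h.zero_col (hz j hj hj0)
    obtain ⟨_, _, h01', _⟩ := h.zero_col (hz l hl hl0)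
    have h1 := h.gg_eq j hg l
    unfold res at h1
    rw [if_neg hjl.symm, zero_sub, neg_eq_zero, sum_eq_zero_iff_of_nonneg] at h1
    · have h2 := h1 i (mem_univ i)
      have h3 : (q j : ℚ) ≠ 0 := by have := h.qpos j; positivity
      have h4 := (h.pposQ i).ne'
      rcases mul_eq_zero.1 h2 with h5 | h5
      · rcases div_eq_zero_iff.1 h5 with h6 | h6
        · left
          have := (mul_eq_zero.1 h6).resolve_left h3
          exact_mod_cast this
        · exact absurd h6 h4
      · right; exact_mod_cast h5
    · intro i _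
      have h5 : (0 : ℚ) ≤ a i j := by
        rcases h01 i with h6 | h6 <;> rw [h6] <;> norm_num
      have h6 : (0 : ℚ) ≤ a i l := by
        rcases h01' i with h6 | h6 <;> rw [h6] <;> norm_num
      have h7 := h.pposQ i
      positivity
  have hex : ∀ j, st j = α → j ≠ j₀ → ∃ i, lf i = α ∧ a i j = 1 := by
    intro j hj hj0
    obtain ⟨hg, hne, h01, _⟩ := h.zero_col (hz j hj hj0)
    by_contra hcon
    push Not at hcon
    have : gg q a j = 0 := by
      unfold gg
      apply sum_eq_zero
      intro i _
      have h1 : a i j = 0 := by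
        by_cases hi : lf i = α
        · exact (h01 i).resolve_right (hcon i hi)
        · exact hne i (by rw [hj]; exact hi)
      rw [h1]; simp
    rw [this] at hg
    exact zero_ne_one hg
  set T := (univ.filter fun j => st j = α).erase j₀ with hT
  have hmem : ∀ j, j ∈ T ↔ st j = α ∧ j ≠ j₀ := by
    intro j
    rw [hT, mem_erase, mem_filter]
    exact ⟨fun h => ⟨h.2.2, h.1⟩, fun h => ⟨h.2, mem_univ _, h.1⟩⟩
  have hex' : ∀ j : T, ∃ i, lf i = α ∧ a i j = 1 := fun j =>
    hex j ((hmem j).1 j.2).1 ((hmem j).1 j.2).2
  choose τ hτ using hex'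
  have hτinj : Function.Injective τ := by
    intro j l hjl
    by_contra hne
    have h1 := hprod j ((hmem j).1 j.2).1 ((hmem j).1 j.2).2 l ((hmem l).1 l.2).1
      ((hmem l).1 l.2).2 (fun h' => hne (Subtype.ext h')) (τ j)
    have h2 := (hτ j).2
    have h3 := (hτ l).2
    rw [← hjl] at h3
    omega
  have himg : univ.image τ = univ.filter (fun i => lf i = α) := by
    apply eq_of_subset_of_card_le
    · intro i hi
      obtain ⟨j, _, rfl⟩ := mem_image.1 hi
      rw [mem_filter]
      exact ⟨mem_univ _, (hτ j).1⟩
    · rw [card_image_of_injective _ hτinj, card_univ, Fintype.card_coe, hT,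
        card_erase_of_mem (by rw [mem_filter]; exact ⟨mem_univ _, hj₀⟩)]
      have := h.cd α
      omega
  have hunit : ∀ j : T, a (τ j) = Pi.single (j : J) 1 := by
    intro j
    obtain ⟨hj, hj0⟩ := (hmem j).1 j.2
    apply unit_of_norm h.qpos (hτ j).2
    obtain ⟨hg, hne, h01, _⟩ := h.zero_col (hz j hj hj0)
    unfold gg at hg
    rw [sum_eq_single_of_mem (τ j) (mem_univ _), (hτ j).2] at hg
    · have h4 := h.pposQ (τ j)
      rw [div_eq_one_iff_eq h4.ne'] at hg
      have h5 : (bil q (a (τ j)) (a (τ j)) : ℚ) ≤ q j := by rw [← hg]; push_cast; linarith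
      exact_mod_cast h5
    · intro i _ hi
      have h1 : a i j = 0 := by
        rcases h01 i with h2 | h2
        · exact h2
        · exfalso
          have h3 : lf i = α := by
            by_contra h4
            have := hne i (by rw [hj]; exact h4)
            omega
          have h4 : i ∈ univ.image τ := by rw [himg, mem_filter]; exact ⟨mem_univ _, h3⟩
          obtain ⟨l, _, rfl⟩ := mem_image.1 h4
          have h5 : l ≠ j := fun h' => hi (by rw [h'])
          have h6 := hprod l ((hmem l).1 l.2).1 ((hmem l).1 l.2).2 j hj hj0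
            (fun h' => h5 (Subtype.ext h')) (τ l)
          have h7 := (hτ l).2
          omega
      rw [h1]; simp
  refine ⟨?_, ⟨j₀, hj₀, fun j hj hj0 => ⟨τ ⟨j, (hmem j).2 ⟨hj, hj0⟩⟩, hunit _⟩⟩, ?_, ?_⟩
  · intro i hi
    have h4 : i ∈ univ.image τ := by rw [himg, mem_filter]; exact ⟨mem_univ _, hi⟩
    obtain ⟨l, _, rfl⟩ := mem_image.1 h4
    exact ⟨l, ((hmem l).1 l.2).1, hunit l⟩
  · intro i hi
    have h1 : ∀ j, st j = α → j ≠ j₀ → a i j = 0 := by
      intro j hj hj0
      exact (h.zero_col (hz j hj hj0)).2.1 i (by rw [hj]; exact hi)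
    intro j hj
    by_cases hj0 : j = j₀
    · have h2 := h.a1 i α
      rw [if_neg hi, sum_eq_single_of_mem j₀ (by rw [mem_filter]; exact ⟨mem_univ _, hj₀⟩)] at h2
      · rw [hj0]; exact h2
      · intro l hl hl0
        rw [mem_filter] at hl
        exact h1 l hl.2 hl0
    · exact h1 j hj hj0
  · intro x hx
    have h1 : ∀ j, st j = α → j ≠ j₀ → x j = 0 := by
      intro j hj hj0
      exact (h.zero_col (hz j hj hj0)).2.2.2 x hx
    intro j hj
    by_cases hj0 : j = j₀
    · have h2 := h.n1 hx α
      rw [sum_eq_single_of_mem j₀ (by rw [mem_filter]; exact ⟨mem_univ _, hj₀⟩)] at h2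
      · rw [hj0]; exact h2
      · intro l hl hl0
        rw [mem_filter] at hl
        exact h1 l hl.2 hl0
    · exact h1 j hj hj0

/-- vectors on the other stars with all functionals zero are in the lattice -/
theorem Cov.tor (h : Cov st q lf a N) (x : J → ℤ) (hx0 : ∀ j, ¬ Two st q lf a (st j) → x j = 0)
    (hx : ∀ β, ∑ j, (x j : ℚ) * vec st q lf a j β = 0) : InM a N x := by
  classical
  have hcd : ∀ α, ∃ j l, st j = α ∧ st l = α ∧
      (Two st q lf a α → j ≠ l ∧ vec st q lf a j ≠ 0 ∧ vec st q lf a l ≠ 0) := by
    intro α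
    by_cases hα : Two st q lf a α
    · obtain ⟨j, l, h1, h2, h3, h4, h5⟩ := hα
      exact ⟨j, l, h1, h2, fun _ => ⟨h3, h4, h5⟩⟩
    · obtain ⟨j, hj, _⟩ := h.exists_vec α
      exact ⟨j, j, hj, hj, fun h' => absurd h' hα⟩
  choose c d hc hd hcd using hcd
  obtain ⟨z, hz, hzα⟩ := h.cov2 (Two st q lf a) c d hc hd (fun α hα => (hcd α hα).1) x
  -- separation
  have key : ∀ j, vec st q lf a j ≠ 0 → (if Two st q lf a (st j) then (z j : ℚ) else 0) = 0 := by
    intro j hj
    refine h.sep (fun j => if Two st q lf a (st j) then (z j : ℚ) else 0) ?_ ?_ j hj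
    · intro α
      by_cases hα : Two st q lf a α
      · rcases hzα α hα with ⟨_, h1⟩ | h1 | ⟨_, h1⟩
        · right
          intro j hj
          rw [hj, if_pos hα]
          exact_mod_cast h1 j hj
        · right
          intro j hj
          rw [hj, if_pos hα, h1 j hj]
          simp
        · left
          intro j hj
          rw [hj, if_pos hα]
          exact_mod_cast h1 j hj
      · left
        intro j hj
        rw [hj, if_neg hα]
    · intro β
      have h1 := h.m_vec hz β
      have h2 : ∑ j, (z j : ℚ) * vec st q lf a j β = 0 := by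
        have h3 : ∀ j, (((x j - z j : ℤ)) : ℚ) * vec st q lf a j β =
            (x j : ℚ) * vec st q lf a j β - (z j : ℚ) * vec st q lf a j β := by
          intro j; push_cast; ring
        rw [sum_congr rfl fun j _ => h3 j, sum_sub_distrib, hx β] at h1
        linarith
      by_cases hβ : Two st q lf a β
      · refine Eq.trans ?_ h2
        apply sum_congr rfl
        intro j _
        by_cases hj : Two st q lf a (st j)
        · rw [if_pos hj]
        · rw [if_neg hj]
          have h3 : vec st q lf a j β = 0 := by
            have hne : st j ≠ β := fun h' => hj (h' ▸ hβ)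
            unfold vec
            rw [if_neg hne, sum_eq_zero, sub_zero]
            intro i hi
            rw [mem_filter] at hi
            have h4 := (h.one hj).2.2.1 i (fun h' => hne (h'.symm.trans hi.2)) j rfl
            rw [h4]; simp
          rw [h3]; ring
      · apply sum_eq_zero
        intro j _
        by_cases hj : Two st q lf a (st j)
        · have hne : st j ≠ β := fun h' => hβ (h' ▸ hj)
          rw [(h.one hβ).1.vec_zero hne, mul_zero]
        · rw [if_neg hj, zero_mul]
  have hz0 : ∀ j, Two st q lf a (st j) → z j = 0 := by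
    intro j hj
    have hc' := key (c (st j)) (hcd _ hj).2.1
    have hd' := key (d (st j)) (hcd _ hj).2.2
    rw [hc, if_pos hj] at hc'
    rw [hd, if_pos hj] at hd'
    have hc'' : z (c (st j)) = 0 := by exact_mod_cast hc'
    have hd'' : z (d (st j)) = 0 := by exact_mod_cast hd'
    rcases hzα (st j) hj with ⟨h1, _⟩ | h1 | ⟨h1, _⟩
    · omega
    · exact h1 j rfl
    · omega
  obtain ⟨n, y, hy, hxy⟩ := hz
  refine ⟨fun i => if Two st q lf a (lf i) then n i else 0, y, hy, fun j => ?_⟩
  beta_reduce
  by_cases hj : Two st q lf a (st j)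
  · have h1 := hxy j
    beta_reduce at h1
    rw [hz0 j hj, sub_zero] at h1
    rw [h1]
    congr 1
    apply sum_congr rfl
    intro i _
    by_cases hi : Two st q lf a (lf i)
    · rw [if_pos hi]
    · rw [if_neg hi]
      obtain ⟨l, hl, hil⟩ := (h.one hi).1 i rfl
      have : a i j = 0 := by
        rw [hil, Pi.single_eq_of_ne]
        rintro rfl
        rw [hl] at hj
        exact hi hj
      rw [this]; ring
  · rw [hx0 j hj, (h.one hj).2.2.2 y hy j rfl, add_zero, sum_eq_zero]
    intro i _
    by_cases hi : Two st q lf a (lf i)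
    · have : a i j = 0 := (h.one hj).2.2.1 i (fun h' => hj (h' ▸ hi)) j rfl
      rw [this, mul_zero]
    · rw [if_neg hi, zero_mul]

/-- the coefficients of a vector of the lattice -/
theorem Cov.coeff (h : Cov st q lf a N) {x : J → ℤ} {n : R → ℤ} {y : J → ℤ} (hy : y ∈ N)
    (hx : ∀ j, x j = ∑ i, n i * a i j + y j) (i : R) :
    bil q (a i) x = n i * bil q (a i) (a i) := by
  have h1 : bil q (a i) x = ∑ l, n l * bil q (a i) (a l) + bil q (a i) y := by
    unfold bil
    simp only [mul_sum]
    rw [sum_comm, ← sum_add_distrib]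
    apply sum_congr rfl
    intro j _
    rw [hx j, mul_add, mul_sum]
    congr 1
    exact sum_congr rfl fun l _ => by ring
  rw [h1, h.an i y hy, add_zero, sum_eq_single_of_mem i (mem_univ i)]
  intro l _ hl
  rw [h.a2 i l hl.symm, mul_zero]

/-- unit vectors in the lattice are rows -/
theorem Cov.unit_row (h : Cov st q lf a N) {j : J} (hv : vec st q lf a j = 0)
    (hj : InM a N (Pi.single j 1)) : ∃ i, a i = Pi.single j 1 := by
  obtain ⟨_, _, h01, hN⟩ := h.zero_col hv
  obtain ⟨n, y, hy, hx⟩ := hj
  have hc := h.coeff hy hx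
  have hy0 : y = 0 := by
    apply bil_pos h.qpos
    have h1 : bil q y y = bil q (Pi.single j 1) y - ∑ i, n i * bil q (a i) y := by
      unfold bil
      simp only [mul_sum]
      rw [sum_comm, ← sum_sub_distrib]
      apply sum_congr rfl
      intro l _
      rw [hx l]
      have : ∑ i, n i * ((q l : ℤ) * a i l * y l) = (q l : ℤ) * (∑ i, n i * a i l) * y l := by
        rw [mul_sum, sum_mul]
        exact sum_congr rfl fun i _ => by ring
      rw [this]
      ring
    rw [h1, bil_single, hN y hy, mul_zero, zero_sub, neg_eq_zero]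
    apply sum_eq_zero
    intro i _
    rw [h.an i y hy, mul_zero]
  have hex : ∃ i, n i ≠ 0 := by
    by_contra hcon
    push Not at hcon
    have h1 := hx j
    rw [hy0, Pi.single_eq_same, sum_eq_zero] at h1
    · simp at h1
    · intro i _
      rw [hcon i, zero_mul]
  obtain ⟨i, hi⟩ := hex
  have h1 := hc i
  rw [bil_comm, bil_single] at h1
  have hp := h.ppos i
  have h2 : a i j = 1 := by
    rcases h01 i with h3 | h3
    · rw [h3, mul_zero] at h1
      rcases mul_eq_zero.1 h1.symm with h4 | h4
      · exact absurd h4 hi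
      · omega
    · exact h3
  refine ⟨i, unit_of_norm h.qpos h2 ?_⟩
  rw [h2, mul_one] at h1
  rw [h1]
  have h3 : 0 < n i := by
    have hq := h.qpos j
    by_contra hcon
    push Not at hcon
    have : n i * bil q (a i) (a i) ≤ 0 := mul_nonpos_of_nonpos_of_nonneg hcon hp.le
    omega
  nlinarith

/-- differences of two columns in the lattice are in `N` -/
theorem Cov.root_mem_n (h : Cov st q lf a N) {j l : J} (hst : st j = st l) (hjl : j ≠ l)
    (hvj : vec st q lf a j ≠ 0) (hvl : vec st q lf a l ≠ 0) (hm : InM a N (root j l)) :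
    root j l ∈ N := by
  obtain ⟨n, y, hy, hx⟩ := hm
  have hc := h.coeff hy hx
  have hn : ∀ i, n i = 0 := by
    intro i
    by_contra hi
    set Y : J → ℤ := fun m => n i * a i m with hY
    have h1 : bil q Y (root j l - Y) = 0 := by
      have h2 : bil q Y (root j l - Y) = n i * bil q (a i) (root j l) -
          n i * n i * bil q (a i) (a i) := by
        unfold bil
        rw [mul_sum, mul_sum, ← sum_sub_distrib]
        apply sum_congr rfl
        intro m _
        rw [Pi.sub_apply, hY]
        ring
      rw [h2, hc i]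
      ring
    have hterm : ∀ m ∈ (univ : Finset J), (q m : ℤ) * Y m * (root j l - Y) m ≤ 0 := by
      intro m _
      rw [Pi.sub_apply, root_apply]
      have c1 : (0 : ℤ) < q m := by exact_mod_cast h.qpos m
      have c2 : Y m * ((if m = j then (1 : ℤ) else 0) - (if m = l then 1 else 0) - Y m) ≤ 0 := by
        by_cases e1 : m = j
        · rw [if_pos e1, if_neg (fun e2 => hjl (e1.symm.trans e2))]
          have := Int.le_self_sq (Y m)
          nlinarith
        · by_cases e2 : m = l
          · rw [if_neg e1, if_pos e2]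
            have := Int.le_self_sq (-Y m)
            nlinarith
          · rw [if_neg e1, if_neg e2]
            nlinarith [sq_nonneg (Y m)]
      have : (q m : ℤ) * Y m * ((if m = j then (1 : ℤ) else 0) - (if m = l then 1 else 0) - Y m) =
          q m * (Y m * ((if m = j then (1 : ℤ) else 0) - (if m = l then 1 else 0) - Y m)) := by
        ring
      rw [this]
      exact mul_nonpos_of_nonneg_of_nonpos c1.le c2
    have hzero : ∀ m, Y m = 0 ∨ Y m = root j l m := by
      intro m
      unfold bil at h1
      have h2 := (sum_eq_zero_iff_of_nonpos hterm).1 h1 m (mem_univ m)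
      have c1 : (q m : ℤ) ≠ 0 := by have := h.qpos m; omega
      rcases mul_eq_zero.1 h2 with h3 | h3
      · exact Or.inl ((mul_eq_zero.1 h3).resolve_left c1)
      · right
        rw [Pi.sub_apply] at h3
        linarith
    have hout : ∀ m, m ≠ j → m ≠ l → Y m = 0 := by
      intro m h1 h2
      rcases hzero m with h3 | h3
      · exact h3
      · rw [h3, root_apply, if_neg h1, if_neg h2]; rfl
    have hrl : root j l l = -1 := by rw [root_apply, if_neg hjl.symm, if_pos rfl]; rfl
    have hrj : root j l j = 1 := by rw [root_apply, if_pos rfl, if_neg hjl]; rfl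
    -- the functionals vanish on `Y`
    have hYv : ∀ β, (Y j : ℚ) * vec st q lf a j β + (Y l : ℚ) * vec st q lf a l β = 0 := by
      intro β
      have h2 := h.row_vec i β
      have h3 : ∑ m, (Y m : ℚ) * vec st q lf a m β = 0 := by
        have h4 : ∀ m, (Y m : ℚ) * vec st q lf a m β = n i * ((a i m : ℚ) * vec st q lf a m β) := by
          intro m
          rw [hY]; push_cast; ring
        rw [sum_congr rfl fun m _ => h4 m, ← mul_sum, h2, mul_zero]
      rw [← h3]
      symm
      rw [← sum_pair hjl (f := fun m => (Y m : ℚ) * vec st q lf a m β)]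
      symm
      apply sum_subset (subset_univ _)
      intro m _ hm
      rw [mem_insert, mem_singleton, not_or] at hm
      rw [hout m hm.1 hm.2]; simp
    have hYs : ∑ m ∈ univ.filter (fun m => st m = lf i), Y m = n i := by
      rw [hY, ← mul_sum, h.a1 i (lf i), if_pos rfl, mul_one]
    rcases hzero j with h2 | h2 <;> rcases hzero l with h3 | h3
    · -- `Y = 0`
      apply hi
      rw [← hYs]
      apply sum_eq_zero
      intro m _
      by_cases h4 : m = j
      · rw [h4, h2]
      · by_cases h5 : m = l
        · rw [h5, h3]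
        · exact hout m h4 h5
    · rw [hrl] at h3
      apply hvl
      ext β
      have := hYv β
      rw [h2, h3] at this
      push_cast at this
      rw [Pi.zero_apply]
      linarith
    · rw [hrj] at h2
      apply hvj
      ext β
      have := hYv β
      rw [h2, h3] at this
      push_cast at this
      rw [Pi.zero_apply]
      linarith
    · apply hi
      rw [← hYs]
      have h4 : Y = root j l := by
        ext m
        by_cases h4 : m = j
        · rw [h4, h2]
        · by_cases h5 : m = l
          · rw [h5, h3]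
          · rw [hout m h4 h5, root_apply, if_neg h4, if_neg h5]; rfl
      rw [h4]
      exact root_mem hst (lf i)
  have : root j l = y := by
    ext m
    rw [hx m, sum_eq_zero, zero_add]
    intro i _
    rw [hn i, zero_mul]
  rw [this]
  exact hy

/-- a star with equal vectors -/
theorem Cov.equal (h : Cov st q lf a N) {α : A} (hα : Two st q lf a α)
    (heq : ∀ j l, st j = α → st l = α → vec st q lf a j ≠ 0 → vec st q lf a l ≠ 0 →
      vec st q lf a j = vec st q lf a l) :
    (∀ j, st j = α → vec st q lf a j = 0 → ∃ i, a i = Pi.single j 1) ∧ Sol st lf a α := by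
  have hunit : ∀ j, st j = α → vec st q lf a j = 0 → ∃ i, a i = Pi.single j 1 := by
    intro j hj hv
    apply h.unit_row hv
    apply h.tor
    · intro l hl
      rw [Pi.single_eq_of_ne]
      rintro rfl
      rw [hj] at hl
      exact hl hα
    · intro β
      rw [single_cast_sum j (fun i => vec st q lf a i β), hv]
      rfl
  have hroot : ∀ j l, st j = α → st l = α → j ≠ l → vec st q lf a j ≠ 0 →
      vec st q lf a l ≠ 0 → root j l ∈ N := by
    intro j l hj hl hjl hvj hvl
    apply h.root_mem_n (hj.trans hl.symm) hjl hvj hvl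
    apply h.tor
    · intro m hm
      have h1 : m ≠ j := by rintro rfl; rw [hj] at hm; exact hm hα
      have h2 : m ≠ l := by rintro rfl; rw [hl] at hm; exact hm hα
      rw [root_apply, if_neg h1, if_neg h2]; rfl
    · intro β
      unfold root
      simp only [Pi.sub_apply, Int.cast_sub, sub_mul, sum_sub_distrib]
      rw [single_cast_sum j (fun i => vec st q lf a i β),
        single_cast_sum l (fun i => vec st q lf a i β), heq j l hj hl hvj hvl, sub_self]
  refine ⟨hunit, fun i hi => ?_⟩
  by_contra hcon
  push Not at hcon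
  have hz : ∀ j, st j = α → vec st q lf a j = 0 → a i j = 0 := by
    intro j hj hv
    obtain ⟨i', hi'⟩ := hunit j hj hv
    have hne : i' ≠ i := by
      rintro rfl
      exact hcon j hj hi'
    have h1 := h.a2 i' i hne
    rw [hi', bil_single] at h1
    have h2 := h.qpos j
    rcases mul_eq_zero.1 h1 with h3 | h3
    · omega
    · exact h3
  have hprop : ∀ j l, st j = α → st l = α → vec st q lf a j ≠ 0 →
      vec st q lf a l ≠ 0 → (q j : ℤ) * a i j = q l * a i l := by
    intro j l hj hl hvj hvl
    by_cases hjl : j = l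
    · rw [hjl]
    · have h1 := h.an i _ (hroot j l hj hl hjl hvj hvl)
      rw [bil_comm, bil_root] at h1
      linarith
  obtain ⟨c, d, hc, hd, hcd, hvc, hvd⟩ := hα
  have hsum := h.a1 i α
  rw [if_pos hi] at hsum
  have hqc : (0 : ℤ) < q c := by exact_mod_cast h.qpos c
  by_cases h0 : a i c ≤ 0
  · have : ∑ j ∈ univ.filter (fun j => st j = α), a i j ≤ 0 := by
      apply sum_nonpos
      intro j hj
      rw [mem_filter] at hj
      by_cases hv : vec st q lf a j = 0
      · rw [hz j hj.2 hv]
      · have h1 := hprop j c hj.2 hc hv hvc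
        have h2 : (q c : ℤ) * a i c ≤ 0 := mul_nonpos_of_nonneg_of_nonpos hqc.le h0
        have hqj : (0 : ℤ) < q j := by exact_mod_cast h.qpos j
        by_contra h3
        push Not at h3
        have := mul_pos hqj h3
        linarith
    omega
  · push Not at h0
    have hpos : ∀ j, st j = α → vec st q lf a j ≠ 0 → 1 ≤ a i j := by
      intro j hj hv
      have h1 := hprop j c hj hc hv hvc
      have h2 : 0 < (q c : ℤ) * a i c := mul_pos hqc h0
      have hqj : (0 : ℤ) < q j := by exact_mod_cast h.qpos j
      by_contra h3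
      push Not at h3
      have : (q j : ℤ) * a i j ≤ 0 := mul_nonpos_of_nonneg_of_nonpos hqj.le (by omega)
      linarith
    have h1 : ∑ j ∈ {c, d}, a i j ≤ ∑ j ∈ univ.filter (fun j => st j = α), a i j := by
      apply sum_le_sum_of_subset_of_nonneg
      · intro j hj
        rw [mem_insert, mem_singleton] at hj
        rw [mem_filter]
        rcases hj with rfl | rfl
        · exact ⟨mem_univ _, hc⟩
        · exact ⟨mem_univ _, hd⟩
      · intro j hj _
        rw [mem_filter] at hj
        by_cases hv : vec st q lf a j = 0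
        · rw [hz j hj.2 hv]
        · have := hpos j hj.2 hv
          omega
    rw [sum_pair hcd, hsum] at h1
    have h2 := hpos c hc hvc
    have h3 := hpos d hd hvd
    omega

theorem Cov.all_sol (h : Cov st q lf a N) (α : A) : Sol st lf a α := by
  classical
  by_contra hα
  have hbad : ∀ β, ∃ j l, st j = β ∧ st l = β ∧ vec st q lf a j ≠ 0 ∧ vec st q lf a l ≠ 0 ∧
      (¬ Sol st lf a β → vec st q lf a l ≠ vec st q lf a j) := by
    intro β
    by_cases hβ : Sol st lf a β
    · obtain ⟨j, hj, hv⟩ := h.exists_vec β
      exact ⟨j, j, hj, hj, hv, hv, fun h' => absurd hβ h'⟩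
    · have hT : Two st q lf a β := by
        by_contra hT
        exact hβ (h.one hT).1
      by_contra hcon
      push Not at hcon
      apply hβ
      refine (h.equal hT fun j l hj hl hvj hvl => ?_).2
      exact (hcon j l hj hl hvj hvl).2.symm
  choose c c' h1 h2 h3 h4 h5 using hbad
  exact h.cycle (c := c) (c' := c') (fun β => ⟨h1 β, h3 β⟩) (fun β => ⟨h2 β, h4 β⟩)
    (univ.filter fun β => ¬ Sol st lf a β) ⟨α, by rw [mem_filter]; exact ⟨mem_univ _, hα⟩⟩
    (fun β hβ => h5 β (mem_filter.1 hβ).2)
    (fun β hβ j hj => by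
      have : Sol st lf a β := by
        by_contra hcon
        exact hβ (mem_filter.2 ⟨mem_univ _, hcon⟩)
      exact this.vec_zero hj)

/-- The theorem on covering systems: all rows are unit vectors, and `N` consists of all vectors
which are orthogonal to the rows and whose sum over each star is zero. -/
theorem Cov.solve (h : Cov st q lf a N) : ∃ σ : R → J, Function.Injective σ ∧
    (∀ i, st (σ i) = lf i ∧ a i = Pi.single (σ i) 1) ∧
    ∀ x, x ∈ N ↔ x ∈ flow st ∧ ∀ i, x (σ i) = 0 := by
  classical
  have hσ : ∀ i, ∃ j, st j = lf i ∧ a i = Pi.single j 1 := fun i => h.all_sol (lf i) i rfl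
  choose σ hσ using hσ
  have hinj : Function.Injective σ := by
    intro i l hil
    by_contra hne
    have h1 := h.a2 i l hne
    rw [(hσ i).2, (hσ l).2, hil, bil_single, Pi.single_eq_same] at h1
    have := h.qpos (σ l)
    omega
  refine ⟨σ, hinj, hσ, fun x => ⟨fun hx => ⟨h.n1 hx, fun i => ?_⟩, fun ⟨hx, hx0⟩ => ?_⟩⟩
  · have h1 := h.an i x hx
    rw [(hσ i).2, bil_single] at h1
    have h2 := h.qpos (σ i)
    rcases mul_eq_zero.1 h1 with h3 | h3
    · omega
    · exact h3
  · have hM : InM a N x := by
      apply h.tor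
      · intro j hj
        obtain ⟨_, ⟨j₀, hj₀, hj1⟩, _⟩ := h.one hj
        have hz : ∀ l, st l = st j → l ≠ j₀ → x l = 0 := by
          intro l hl hl0
          obtain ⟨i, hi⟩ := hj1 l hl hl0
          have h1 : σ i = l := by
            have h2 := congrFun ((hσ i).2.symm.trans hi) l
            rw [Pi.single_eq_same, Pi.single_apply] at h2
            by_contra h3
            rw [if_neg (fun h' => h3 h'.symm)] at h2
            exact zero_ne_one h2
          rw [← h1]
          exact hx0 i
        by_cases hj0 : j = j₀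
        · have h1 := hx (st j)
          rw [sum_eq_single_of_mem j₀ (by rw [mem_filter]; exact ⟨mem_univ _, hj₀⟩)] at h1
          · rw [hj0]; exact h1
          · intro l hl hl0
            rw [mem_filter] at hl
            exact hz l hl.2 hl0
        · exact hz j rfl hj0
      · intro β
        have h1 : ∀ j, (x j : ℚ) * vec st q lf a j β = (x j : ℚ) * (if st j = β then 1 else 0) := by
          intro j
          by_cases hj : ∃ i, σ i = j
          · obtain ⟨i, rfl⟩ := hj
            rw [hx0 i]; simp
          · push Not at hj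
            congr 1
            unfold vec
            rw [sum_eq_zero, sub_zero]
            intro i _
            have : a i j = 0 := by
              rw [(hσ i).2, Pi.single_eq_of_ne (fun h' => hj i h'.symm)]
            rw [this]; simp
        rw [sum_congr rfl fun j _ => h1 j]
        have h2 := hx β
        rw [sum_filter] at h2
        have h3 : ((∑ j, if st j = β then x j else 0 : ℤ) : ℚ) = 0 := by rw [h2]; rfl
        push_cast at h3
        refine Eq.trans ?_ h3
        apply sum_congr rfl
        intro j _
        split_ifs <;> simp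
    obtain ⟨n, y, hy, hxy⟩ := hM
    have hn : ∀ i, n i = 0 := by
      intro i
      have h1 := h.coeff hy hxy i
      rw [(hσ i).2, bil_single, hx0 i, mul_zero, bil_single, Pi.single_eq_same, mul_one] at h1
      have := h.qpos (σ i)
      rcases mul_eq_zero.1 h1.symm with h2 | h2
      · exact h2
      · omega
    have : x = y := by
      ext j
      rw [hxy j, sum_eq_zero, zero_add]
      intro i _
      rw [hn i, zero_mul]
    rw [this]
    exact hy

end

end Pool.Agent.H754.Pretzel
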