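import Pool.Agent.H754.Pretzel.Multi
import Pool.Agent.H754.Pretzel.Solve

/-!
From embedded stars with leaves and an additional lattice to covering systems.
-/

set_option linter.unusedSectionVars false

namespace Pool.Agent.H754.Pretzel

open Finset Matrix

variable {ι : Type} [Fintype ι] [DecidableEq ι]

section

variable {A J : Type} [Fintype A] [Fintype J] [DecidableEq A] [DecidableEq J] {st : J → A}
  {q : J → ℕ} {c : A → ι → ℤ} {v : J → ℕ → ι → ℤ}

/-- The coordinates. -/
theorem Stars.coords' (hq : ∀ j, 3 ≤ q j) (hq4 : ∀ j, q j ≠ 4) (h : Stars st q c v)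
    (hι : Fintype.card ι = ∑ j, q j) :
    ∃ (E : (Σ j, Fin (q j)) ≃ ι) (δ : (Σ j, Fin (q j)) → ℤ), (∀ r, δ r = 1 ∨ δ r = -1) ∧
      (∀ α j (s : Fin (q j)), δ ⟨j, s⟩ * c α (E ⟨j, s⟩) =
        if (s : ℕ) = 0 ∧ st j = α then -1 else 0) ∧
      (∀ j s, s < q j - 1 → ∀ l, ∑ r : Fin (q l), δ ⟨l, r⟩ * v j s (E ⟨l, r⟩) = 0) ∧
      ∀ u : ι → ℤ, (∀ j s, s < q j - 1 → v j s ⬝ᵥ u = 0) →
        ∃ x : J → ℤ, ∀ j (s : Fin (q j)), δ ⟨j, s⟩ * u (E ⟨j, s⟩) = x j := by
  obtain ⟨b, ε, hg, hinj⟩ := h.chains hq hq4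
  have hbij : Function.Bijective (fun r : Σ j, Fin (q j) => b r.1 r.2) := by
    rw [Fintype.bijective_iff_injective_and_card]
    refine ⟨hinj, ?_⟩
    rw [Fintype.card_sigma, hι]
    simp
  let E : (Σ j, Fin (q j)) ≃ ι := Equiv.ofBijective _ hbij
  let δ : (Σ j, Fin (q j)) → ℤ := fun r => ε r.1 r.2
  have hδ : ∀ r, δ r = 1 ∨ δ r = -1 := fun r => (hg r.1).1 r.2 (by have := r.2.2; omega)
  have hδsq : ∀ r, δ r * δ r = 1 := fun r => by
    rcases hδ r with h | h <;> rw [h] <;> norm_num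
  have hne : ∀ j l, j ≠ l → ∀ s r, s ≤ q j - 1 → r ≤ q l - 1 → b j s ≠ b l r := by
    intro j l hjl s r hs hr hcon
    have h1 : (⟨j, ⟨s, by have := hq j; omega⟩⟩ : Σ j, Fin (q j)) =
        ⟨l, ⟨r, by have := hq l; omega⟩⟩ := hinj hcon
    exact hjl (congrArg Sigma.fst h1)
  refine ⟨E, δ, hδ, ?_, ?_, ?_⟩
  · intro α
    let γ : J → ℤ := fun j => ε j 1 * c α (b j 1)
    have hγ : ∀ j s, 1 ≤ s → s ≤ q j - 1 → ε j s * c α (b j s) = γ j := by
      intro j s hs
      induction s, hs using Nat.le_induction with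
      | base => intro _; rfl
      | succ s hs ih =>
        intro hs'
        have h1 := (hg j).dot (c α) (by omega : s < q j - 1)
        rw [h.cv j α s (by omega) (by omega)] at h1
        rw [← ih (by omega)]
        linarith
    have hγ0 : ∀ j, ε j 0 * c α (b j 0) = γ j - if st j = α then 1 else 0 := by
      intro j
      have h1 := (hg j).dot (c α) (by have := hq j; omega : 0 < q j - 1)
      have h2 := hγ j 1 le_rfl (by have := hq j; omega)
      rw [zero_add] at h1
      by_cases hj : st j = α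
      · rw [if_pos hj]
        rw [← hj, h.cv0 j, hj] at h1
        linarith
      · rw [if_neg hj]
        rw [h.cv1 j α hj] at h1
        linarith
    have hcsum : ∑ j, ∑ s : Fin (q j), (δ ⟨j, s⟩ * c α (E ⟨j, s⟩)) ^ 2 =
        ((univ.filter fun j => st j = α).card : ℤ) := by
      rw [← h.cc α, dotProduct, ← E.sum_comp, Fintype.sum_sigma]
      apply sum_congr rfl
      intro j _
      apply sum_congr rfl
      intro s _
      rw [mul_pow, sq (δ ⟨j, s⟩), hδsq, one_mul, sq]
    have hblock : ∀ j, ∑ s : Fin (q j), (δ ⟨j, s⟩ * c α (E ⟨j, s⟩)) ^ 2 =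
        (γ j - if st j = α then 1 else 0) ^ 2 + ((q j : ℤ) - 1) * γ j ^ 2 := by
      intro j
      have hj := hq j
      have e : ∀ s : Fin (q j), (δ ⟨j, s⟩ * c α (E ⟨j, s⟩)) ^ 2 =
          (if (s : ℕ) = 0 then (γ j - if st j = α then 1 else 0) ^ 2 - γ j ^ 2 else 0)
            + γ j ^ 2 := by
        intro s
        have hs := s.2
        change (ε j s * c α (b j s)) ^ 2 = _
        by_cases h0 : (s : ℕ) = 0
        · rw [if_pos h0, h0, hγ0]; ring
        · rw [if_neg h0, hγ j s (by omega) (by omega)]; ring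
      rw [sum_congr rfl fun s _ => e s, sum_add_distrib, sum_const, card_univ, Fintype.card_fin,
        sum_eq_single_of_mem (⟨0, by omega⟩ : Fin (q j)) (mem_univ _)]
      · rw [if_pos rfl, nsmul_eq_mul]
        ring
      · intro s _ hs
        rw [if_neg]
        intro h0
        exact hs (Fin.ext h0)
    have hγz : ∀ j, γ j = 0 := by
      have h1 : ∀ j, 0 ≤ (γ j - if st j = α then 1 else 0) ^ 2 + ((q j : ℤ) - 1) * γ j ^ 2 -
          (if st j = α then 1 else 0) ∧
          ((γ j - if st j = α then 1 else 0) ^ 2 + ((q j : ℤ) - 1) * γ j ^ 2 -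
          (if st j = α then 1 else 0) = 0 → γ j = 0) := by
        intro j
        have hj : (3 : ℤ) ≤ q j := by exact_mod_cast hq j
        by_cases hs : st j = α
        · rw [if_pos hs]
          have e : (γ j - 1) ^ 2 + ((q j : ℤ) - 1) * γ j ^ 2 - 1 = γ j * (q j * γ j - 2) := by ring
          rw [e]
          rcases lt_trichotomy (γ j) 0 with h0 | h0 | h0
          · have : 0 < γ j * (q j * γ j - 2) := by
              apply mul_pos_of_neg_of_neg h0
              nlinarith
            exact ⟨this.le, fun h => by omega⟩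
          · rw [h0]; simp
          · have : 0 < γ j * (q j * γ j - 2) := by
              apply mul_pos h0
              nlinarith
            exact ⟨this.le, fun h => by omega⟩
        · rw [if_neg hs]
          have e : (γ j - 0) ^ 2 + ((q j : ℤ) - 1) * γ j ^ 2 - 0 = q j * γ j ^ 2 := by ring
          rw [e]
          refine ⟨by positivity, fun h => ?_⟩
          rcases mul_eq_zero.1 h with h | h
          · omega
          · exact pow_eq_zero_iff (two_ne_zero) |>.1 h
      have h2 : ∑ j, ((γ j - if st j = α then 1 else 0) ^ 2 + ((q j : ℤ) - 1) * γ j ^ 2 -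
          (if st j = α then 1 else 0)) = 0 := by
        rw [sum_sub_distrib, ← sum_congr rfl fun j _ => hblock j, hcsum]
        simp
      rw [sum_eq_zero_iff_of_nonneg fun j _ => (h1 j).1] at h2
      exact fun j => (h1 j).2 (h2 j (mem_univ j))
    intro j s
    have hs := s.2
    change ε j s * c α (b j s) = _
    by_cases h0 : (s : ℕ) = 0
    · rw [h0, hγ0, hγz]
      by_cases h1 : st j = α <;> simp [h1]
    · rw [hγ j s (by omega) (by omega), hγz, if_neg fun h => h0 h.1]
  · intro j s hs l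
    have hv := (hg j).2.2 s hs
    by_cases hjl : j = l
    · subst hjl
      have e : ∀ r : Fin (q j), δ ⟨j, r⟩ * v j s (E ⟨j, r⟩) =
          (if r = ⟨s, by omega⟩ then 1 else 0) - (if r = ⟨s + 1, by omega⟩ then 1 else 0) := by
        intro r
        have hr := r.2
        change ε j r * v j s (b j r) = _
        rw [hv, Pi.sub_apply]
        have e1 : (Pi.single (b j s) (ε j s) : ι → ℤ) (b j r) =
            if r = ⟨s, by omega⟩ then ε j r else 0 := by
          rw [Pi.single_apply]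
          by_cases h0 : (r : ℕ) = s
          · rw [if_pos (by rw [h0]), if_pos (Fin.ext h0), h0]
          · rw [if_neg, if_neg]
            · intro h; exact h0 (congrArg Fin.val h)
            · intro h; exact h0 ((hg j).2.1 _ _ (by omega) (by omega) h)
        have e2 : (Pi.single (b j (s + 1)) (ε j (s + 1)) : ι → ℤ) (b j r) =
            if r = ⟨s + 1, by omega⟩ then ε j r else 0 := by
          rw [Pi.single_apply]
          by_cases h0 : (r : ℕ) = s + 1
          · rw [if_pos (by rw [h0]), if_pos (Fin.ext h0), h0]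
          · rw [if_neg, if_neg]
            · intro h; exact h0 (congrArg Fin.val h)
            · intro h; exact h0 ((hg j).2.1 _ _ (by omega) (by omega) h)
        rw [e1, e2, mul_sub]
        have h3 : ε j r * ε j r = 1 := hδsq ⟨j, r⟩
        congr 1
        · split_ifs
          · exact h3
          · ring
        · split_ifs
          · exact h3
          · ring
      rw [sum_congr rfl fun r _ => e r, sum_sub_distrib, sum_ite_eq' univ, sum_ite_eq' univ]
      simp
    · apply sum_eq_zero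
      intro r _
      have hr := r.2
      change ε l r * v j s (b l r) = _
      rw [hv, Pi.sub_apply, single_eval, single_eval]
      · ring
      · exact hne j l hjl (s + 1) r (by omega) (by omega)
      · exact hne j l hjl s r (by omega) (by omega)
  · intro u hu
    refine ⟨fun j => ε j 0 * u (b j 0), fun j s => ?_⟩
    have hs := s.2
    exact (hg j).const (fun s hs => hu j s hs) s (by omega)

end

/-- Embedded stars with leaves `w` and an additional lattice `U` give a covering system. -/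
theorem Stars.covSystem {A J R : Type} [Fintype A] [Fintype J] [Fintype R] [DecidableEq A]
    [DecidableEq J] [DecidableEq R] {st : J → A} {q : J → ℕ} {c : A → ι → ℤ} {v : J → ℕ → ι → ℤ}
    (hq : ∀ j, 3 ≤ q j) (hq4 : ∀ j, q j ≠ 4) (h : Stars st q c v)
    (hι : Fintype.card ι = ∑ j, q j) {lf : R → A} {w : R → ι → ℤ} {U : AddSubgroup (ι → ℤ)}
    (wv : ∀ i j s, s < q j - 1 → v j s ⬝ᵥ w i = 0)
    (wc : ∀ i α, w i ⬝ᵥ c α = if lf i = α then -1 else 0)
    (ww : ∀ i l, i ≠ l → w i ⬝ᵥ w l = 0)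
    (uv : ∀ u ∈ U, ∀ j s, s < q j - 1 → v j s ⬝ᵥ u = 0)
    (uc : ∀ u ∈ U, ∀ α, c α ⬝ᵥ u = 0) (uw : ∀ u ∈ U, ∀ i, w i ⬝ᵥ u = 0)
    (L : AddSubgroup (ι → ℤ))
    (hL : L ≤ AddSubgroup.closure (Set.range c ∪ {x | ∃ j s, s < q j - 1 ∧ x = v j s} ∪
      Set.range w ∪ U))
    (hcov : ∀ x : ι → ℤ, (∀ t, Odd (x t)) → ∃ e : ι → ℤ, (∀ t, e t = 1 ∨ e t = -1) ∧
      ∃ l ∈ L, x = e + 2 • l)
    (hwp : ∀ α, ∑ i ∈ univ.filter (fun i => lf i = α), 1 / ((w i ⬝ᵥ w i : ℤ) : ℚ) <
      ∑ j ∈ univ.filter (fun j => st j = α), 1 / (q j : ℚ))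
    (hcd : ∀ α, (univ.filter fun i => lf i = α).card + 1 ≤ (univ.filter fun j => st j = α).card) :
    ∃ F : (ι → ℤ) →+ (J → ℤ), (∀ i l, w i ⬝ᵥ w l = bil q (F (w i)) (F (w l))) ∧
      (∀ u ∈ U, ∀ u' ∈ U, u ⬝ᵥ u' = bil q (F u) (F u')) ∧
      Cov st q lf (fun i => F (w i)) (U.map F) := by
  obtain ⟨E, δ, hδ, hc, hvs, hu⟩ := h.coords' hq hq4 hι
  have hδsq : ∀ r, δ r * δ r = 1 := fun r => by
    rcases hδ r with h | h <;> rw [h] <;> norm_num
  have hq0 : ∀ j, 0 < q j := fun j => by have := hq j; omega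
  let F : (ι → ℤ) →+ (J → ℤ) :=
    { toFun := fun u j => δ ⟨j, ⟨0, hq0 j⟩⟩ * u (E ⟨j, ⟨0, hq0 j⟩⟩)
      map_zero' := by ext j; simp
      map_add' := by
        intro u u'
        ext j
        simp only [Pi.add_apply, mul_add] }
  have hF : ∀ u j, F u j = δ ⟨j, ⟨0, hq0 j⟩⟩ * u (E ⟨j, ⟨0, hq0 j⟩⟩) := fun u j => rfl
  have hdot : ∀ u u' : ι → ℤ, u ⬝ᵥ u' = ∑ j, ∑ s : Fin (q j),
      (δ ⟨j, s⟩ * u (E ⟨j, s⟩)) * (δ ⟨j, s⟩ * u' (E ⟨j, s⟩)) := by
    intro u u'
    rw [dotProduct, ← E.sum_comp, Fintype.sum_sigma]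
    apply sum_congr rfl
    intro j _
    apply sum_congr rfl
    intro s _
    have := hδsq ⟨j, s⟩
    calc u (E ⟨j, s⟩) * u' (E ⟨j, s⟩) = (δ ⟨j, s⟩ * δ ⟨j, s⟩) * (u (E ⟨j, s⟩) * u' (E ⟨j, s⟩)) := by
          rw [this, one_mul]
      _ = _ := by ring
  -- vectors orthogonal to the chains are constant on the blocks
  have hconst : ∀ u : ι → ℤ, (∀ j s, s < q j - 1 → v j s ⬝ᵥ u = 0) →
      ∀ j (s : Fin (q j)), δ ⟨j, s⟩ * u (E ⟨j, s⟩) = F u j := by
    intro u h1 j s
    obtain ⟨x, hx⟩ := hu u h1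
    rw [hx j s, hF, hx j]
  have hbil : ∀ u u' : ι → ℤ, (∀ j s, s < q j - 1 → v j s ⬝ᵥ u = 0) →
      (∀ j s, s < q j - 1 → v j s ⬝ᵥ u' = 0) → u ⬝ᵥ u' = bil q (F u) (F u') := by
    intro u u' h1 h2
    rw [hdot]
    unfold bil
    apply sum_congr rfl
    intro j _
    rw [sum_congr rfl fun s _ => by rw [hconst u h1 j s, hconst u' h2 j s], sum_const, card_univ,
      Fintype.card_fin, nsmul_eq_mul]
    ring
  have hcen : ∀ u : ι → ℤ, (∀ j s, s < q j - 1 → v j s ⬝ᵥ u = 0) → ∀ α,
      c α ⬝ᵥ u = -∑ j ∈ univ.filter (fun j => st j = α), F u j := by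
    intro u h1 α
    rw [hdot]
    have h5 : ∀ j, ∑ s : Fin (q j), (δ ⟨j, s⟩ * c α (E ⟨j, s⟩)) * (δ ⟨j, s⟩ * u (E ⟨j, s⟩)) =
        if st j = α then -F u j else 0 := by
      intro j
      rw [sum_congr rfl fun s _ => by rw [hconst u h1 j s, hc α j s],
        sum_eq_single_of_mem (⟨0, hq0 j⟩ : Fin (q j)) (mem_univ _)]
      · by_cases hj : st j = α <;> simp [hj]
      · intro s _ hs
        rw [if_neg, zero_mul]
        intro h0
        exact hs (Fin.ext h0.1)
    rw [sum_congr rfl fun j _ => h5 j, ← sum_filter, sum_neg_distrib]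
  -- the block sums
  let S : (ι → ℤ) →+ (J → ℤ) :=
    { toFun := fun u j => ∑ s : Fin (q j), δ ⟨j, s⟩ * u (E ⟨j, s⟩)
      map_zero' := by ext j; simp
      map_add' := by
        intro u u'
        ext j
        simp only [Pi.add_apply, mul_add, sum_add_distrib] }
  have hSdef : ∀ u j, S u j = ∑ s : Fin (q j), δ ⟨j, s⟩ * u (E ⟨j, s⟩) := fun u j => rfl
  have hSc : ∀ α j, S (c α) j = if st j = α then -1 else 0 := by
    intro α j
    rw [hSdef, sum_congr rfl fun s _ => hc α j s,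
      sum_eq_single_of_mem (⟨0, hq0 j⟩ : Fin (q j)) (mem_univ _)]
    · simp
    · intro s _ hs
      rw [if_neg]
      intro h0
      exact hs (Fin.ext h0.1)
  have hSu : ∀ u : ι → ℤ, (∀ j s, s < q j - 1 → v j s ⬝ᵥ u = 0) → ∀ j, S u j = q j * F u j := by
    intro u h1 j
    rw [hSdef, sum_congr rfl fun s _ => hconst u h1 j s, sum_const, card_univ, Fintype.card_fin,
      nsmul_eq_mul]
  have hSv : ∀ j s, s < q j - 1 → ∀ l, S (v j s) l = 0 := fun j s hs l => hvs j s hs l
  have hSL : ∀ l ∈ L, ∃ t : A → ℤ, ∃ n : R → ℤ, ∃ y ∈ U.map F, ∀ j, S l j =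
      t (st j) + q j * (∑ i, n i * F (w i) j + y j) := by
    intro l hl
    have hl' := hL hl
    refine AddSubgroup.closure_induction (p := fun l _ => ∃ t : A → ℤ, ∃ n : R → ℤ,
      ∃ y ∈ U.map F, ∀ j, S l j = t (st j) + q j * (∑ i, n i * F (w i) j + y j)) ?_ ?_ ?_ ?_ hl'
    · rintro x (((⟨α, rfl⟩ | ⟨j, s, hs, rfl⟩) | ⟨i, rfl⟩) | hx)
      · refine ⟨fun β => if β = α then -1 else 0, 0, 0, zero_mem _, fun j => ?_⟩
        rw [hSc]
        simp
      · refine ⟨0, 0, 0, zero_mem _, fun l => ?_⟩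
        rw [hSv j s hs l]
        simp
      · refine ⟨0, Pi.single i 1, 0, zero_mem _, fun j => ?_⟩
        rw [hSu (w i) (wv i), sum_eq_single_of_mem i (mem_univ i)]
        · rw [Pi.single_eq_same]; simp
        · intro l _ hl
          rw [Pi.single_eq_of_ne hl]; ring
      · refine ⟨0, 0, F x, AddSubgroup.mem_map_of_mem F hx, fun j => ?_⟩
        rw [hSu x (uv x hx)]
        simp
    · exact ⟨0, 0, 0, zero_mem _, fun j => by simp⟩
    · rintro x y _ _ ⟨t, n, z, hz, h1⟩ ⟨t', n', z', hz', h2⟩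
      refine ⟨t + t', n + n', z + z', add_mem hz hz', fun j => ?_⟩
      rw [map_add, Pi.add_apply, h1, h2]
      simp only [Pi.add_apply, add_mul, sum_add_distrib]
      ring
    · rintro x _ ⟨t, n, z, hz, h1⟩
      refine ⟨-t, -n, -z, neg_mem hz, fun j => ?_⟩
      rw [map_neg, Pi.neg_apply, h1]
      simp only [Pi.neg_apply, neg_mul, sum_neg_distrib]
      ring
  refine ⟨F, fun i l => hbil _ _ (wv i) (wv l), fun u hu u' hu' => hbil _ _ (uv u hu) (uv u' hu'),
    ?_⟩
  refine ⟨hq, ?_, ?_, ?_, ?_, ?_, ?_, hcd⟩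
  · intro i α
    have h1 := hcen (w i) (wv i) α
    rw [dotProduct_comm, wc i α] at h1
    split_ifs at h1 ⊢ <;> linarith
  · intro i l hil
    rw [← hbil _ _ (wv i) (wv l)]
    exact ww i l hil
  · rintro _ ⟨u, hu, rfl⟩ α
    have h1 := hcen u (uv u hu) α
    rw [uc u hu α] at h1
    linarith
  · rintro i _ ⟨u, hu, rfl⟩
    rw [← hbil _ _ (wv i) (uv u hu)]
    exact uw u hu i
  · intro α
    refine lt_of_eq_of_lt ?_ (hwp α)
    apply sum_congr rfl
    intro i _
    rw [← hbil _ _ (wv i) (wv i)]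
  · intro x
    obtain ⟨e, he, l, hl, hx⟩ := hcov
      (fun t => δ (E.symm t) * (if ((E.symm t).2 : ℕ) = 0 then 2 * x (E.symm t).1 - 1 else -1))
      (by
        intro t
        have h1 : Odd (δ (E.symm t)) := by
          rcases hδ (E.symm t) with h | h <;> rw [h]
          · exact odd_one
          · exact odd_neg_one
        apply h1.mul
        split_ifs
        · exact ⟨x (E.symm t).1 - 1, by ring⟩
        · exact odd_neg_one)
    obtain ⟨t, n, y, hy, hSl⟩ := hSL l hl
    -- block sums of both sides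
    have h1 : ∀ j, 2 * x j - q j = S e j + 2 * S l j := by
      intro j
      have h2 := congrFun (congrArg S hx) j
      rw [map_add, map_nsmul, Pi.add_apply, Pi.smul_apply] at h2
      rw [hSdef] at h2
      have h3 : ∀ s : Fin (q j), δ ⟨j, s⟩ * (δ (E.symm (E ⟨j, s⟩)) *
          (if ((E.symm (E ⟨j, s⟩)).2 : ℕ) = 0 then 2 * x (E.symm (E ⟨j, s⟩)).1 - 1 else -1)) =
          (if (s : ℕ) = 0 then 2 * x j else 0) - 1 := by
        intro s
        rw [E.symm_apply_apply, ← mul_assoc, hδsq, one_mul]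
        simp only
        split_ifs <;> ring
      rw [sum_congr rfl fun s _ => h3 s, sum_sub_distrib,
        sum_eq_single_of_mem (⟨0, by have := hq j; omega⟩ : Fin (q j)) (mem_univ _)] at h2
      · rw [if_pos rfl, sum_const, card_univ, Fintype.card_fin, nsmul_eq_mul, mul_one] at h2
        rw [h2]
        simp
      · intro s _ hs
        rw [if_neg]
        intro h0
        exact hs (Fin.ext h0)
    -- the number of `+1` in a block
    have h4 : ∀ j, ∃ b : ℤ, 0 ≤ b ∧ b ≤ q j ∧ S e j = 2 * b - q j := by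
      intro j
      have h5 : ∀ s : Fin (q j), δ ⟨j, s⟩ * e (E ⟨j, s⟩) =
          2 * (if δ ⟨j, s⟩ * e (E ⟨j, s⟩) = 1 then 1 else 0) - 1 := by
        intro s
        rcases hδ ⟨j, s⟩ with h | h <;> rcases he (E ⟨j, s⟩) with h' | h' <;> rw [h, h'] <;>
          norm_num
      refine ⟨∑ s : Fin (q j), if δ ⟨j, s⟩ * e (E ⟨j, s⟩) = 1 then 1 else 0, ?_, ?_, ?_⟩
      · apply sum_nonneg
        intro s _
        split_ifs <;> norm_num
      · calc ∑ s : Fin (q j), (if δ ⟨j, s⟩ * e (E ⟨j, s⟩) = 1 then (1 : ℤ) else 0)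
            ≤ ∑ _s : Fin (q j), (1 : ℤ) := by
              apply sum_le_sum
              intro s _
              split_ifs <;> norm_num
          _ = q j := by simp
      · rw [hSdef, sum_congr rfl fun s _ => h5 s, sum_sub_distrib, ← mul_sum]
        simp
    choose b hb0 hb1 hb2 using h4
    refine ⟨b, fun j => ⟨hb0 j, hb1 j⟩, t, n, y, hy, fun j => ?_⟩
    have h6 := h1 j
    rw [hb2 j, hSl j] at h6
    linarith

end Pool.Agent.H754.Pretzel
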