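import Pool.Agent.H754.Pretzel.Flow

/-!
A parity argument.
-/

namespace Pool.Agent.H754.Pretzel

open Finset Matrix

theorem cast_odd {x : ℤ} (h : Odd x) : (x : ZMod 2) = 1 := by
  obtain ⟨k, rfl⟩ := h
  push_cast
  have : (2 : ZMod 2) = 0 := rfl
  rw [this]; ring

theorem zmod_two_sq (x : ZMod 2) : x * x = x := by
  revert x; decide

theorem zmod_two_add (x : ZMod 2) : x + x = 0 := by
  revert x; decide

theorem parity {J R : Type} [Fintype J] [Fintype R] [DecidableEq J] [DecidableEq R] {q : J → ℕ}
    (hq : ∀ j, Odd (q j)) (γ : J → ℤ) (a : R → J → ℤ) (hp : ∀ i, Odd (bil q (a i) (a i)))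
    (ho : ∀ i l, i ≠ l → bil q (a i) (a l) = 0)
    (h1 : ∀ i, ∑ j, a i j * (1 - q j * γ j) = 1)
    (hγ : ∑ j, ((q j : ℤ) * γ j ^ 2 - 2 * γ j) = 0)
    (hc : Fintype.card J = Fintype.card R + 1) : ∀ j, Even (γ j) := by
  have hqz : ∀ j, ((q j : ℕ) : ZMod 2) = 1 := fun j => by
    have := cast_odd (x := (q j : ℤ)) (by exact_mod_cast hq j)
    simpa using this
  have h2z : (2 : ZMod 2) = 0 := rfl
  let g : J → ZMod 2 := fun j => (γ j : ZMod 2)
  let A : Option R → J → ZMod 2 := fun o j => o.elim (1 + g j) fun i => (a i j : ZMod 2)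
  -- products of rows
  have hbil : ∀ i l, (∑ j, (a i j : ZMod 2) * a l j) = ((bil q (a i) (a l) : ℤ) : ZMod 2) := by
    intro i l
    unfold bil
    push_cast
    apply sum_congr rfl
    intro j _
    rw [hqz, one_mul]
  have hsum : ∀ i, ∑ j, (a i j : ZMod 2) = 1 := by
    intro i
    have h3 := hbil i i
    rw [cast_odd (hp i)] at h3
    rw [← h3]
    exact sum_congr rfl fun j _ => (zmod_two_sq _).symm
  have hga : ∀ i, ∑ j, g j * (a i j : ZMod 2) = 0 := by
    intro i
    have h3 : ((∑ j, a i j * (1 - q j * γ j) : ℤ) : ZMod 2) = 1 := by rw [h1 i]; simp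
    push_cast at h3
    have h4 : ∀ j, (a i j : ZMod 2) * (1 - (q j : ZMod 2) * (γ j : ZMod 2)) =
        (a i j : ZMod 2) - g j * a i j := by
      intro j
      rw [hqz]
      simp only [g]
      ring
    rw [sum_congr rfl fun j _ => h4 j, sum_sub_distrib, hsum i] at h3
    have h5 : ∑ j, g j * (a i j : ZMod 2) = 1 - 1 := by
      linear_combination -h3
    rw [h5, sub_self]
  have hg : ∑ j, g j = 0 := by
    have h3 : ((∑ j, ((q j : ℤ) * γ j ^ 2 - 2 * γ j) : ℤ) : ZMod 2) = 0 := by rw [hγ]; simp
    push_cast at h3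
    rw [← h3]
    apply sum_congr rfl
    intro j _
    rw [hqz, h2z, zero_mul, sub_zero, one_mul, sq, zmod_two_sq]
  have d1 : ∀ i l, (∑ j, A (some i) j * A (some l) j) = if i = l then 1 else 0 := by
    intro i l
    change (∑ j, (a i j : ZMod 2) * a l j) = _
    rw [hbil]
    by_cases h : i = l
    · rw [if_pos h, ← h, cast_odd (hp i)]
    · rw [if_neg h, ho i l h]; simp
  have d2 : ∀ l, (∑ j, A none j * A (some l) j) = 1 := by
    intro l
    change (∑ j, (1 + g j) * (a l j : ZMod 2)) = _
    simp only [add_mul, one_mul, sum_add_distrib]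
    rw [hsum, hga, add_zero]
  have d3 : (∑ j, A none j * A none j) = (Fintype.card R : ZMod 2) + 1 := by
    change (∑ j, (1 + g j) * (1 + g j)) = _
    rw [sum_congr rfl fun j _ => zmod_two_sq (1 + g j), sum_add_distrib, hg, add_zero]
    simp [hc]
  have hli : LinearIndependent (ZMod 2) A := by
    rw [Fintype.linearIndependent_iff]
    intro e he
    have hdot : ∀ u : J → ZMod 2, ∑ o, e o * ∑ j, A o j * u j = 0 := by
      intro u
      have h3 : ∑ o, e o * ∑ j, A o j * u j = ∑ j, (∑ o, e o • A o) j * u j := by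
        simp only [mul_sum, Finset.sum_apply, Pi.smul_apply, smul_eq_mul, sum_mul]
        rw [sum_comm]
        exact sum_congr rfl fun j _ => sum_congr rfl fun o _ => by ring
      rw [h3, he]
      simp
    have h3 : ∀ k, e (some k) = e none := by
      intro k
      have h4 := hdot (A (some k))
      rw [Fintype.sum_option, d2, mul_one, sum_congr rfl fun i _ => by rw [d1 i k]] at h4
      simp only [mul_ite, mul_one, mul_zero, sum_ite_eq', mem_univ, if_true] at h4
      have h5 := zmod_two_add (e none)
      linear_combination h4 - h5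
    have h4 := hdot (A none)
    rw [Fintype.sum_option, d3, sum_congr rfl fun i _ => by
      rw [h3 i, sum_congr rfl fun j _ => mul_comm (A (some i) j) (A none j), d2 i]] at h4
    simp only [mul_one, sum_const, card_univ, nsmul_eq_mul] at h4
    have h5 := zmod_two_add ((Fintype.card R : ZMod 2) * e none)
    have h6 : e none = 0 := by linear_combination h4 - h5
    rintro (_ | i)
    · exact h6
    · rw [h3, h6]
  have hspan := hli.span_eq_top_of_card_eq_finrank' (by
    rw [Fintype.card_option, Module.finrank_fintype_fun_eq_card, hc])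
  have hzero : ∀ u : J → ZMod 2, ∑ j, g j * u j = 0 := by
    intro u
    have hu : u ∈ Submodule.span (ZMod 2) (Set.range A) := by rw [hspan]; trivial
    refine Submodule.span_induction (p := fun u _ => ∑ j, g j * u j = 0) ?_ ?_ ?_ ?_ hu
    · rintro _ ⟨o, rfl⟩
      rcases o with _ | i
      · change ∑ j, g j * (1 + g j) = 0
        apply sum_eq_zero
        intro j _
        rw [mul_add, mul_one, zmod_two_sq, zmod_two_add]
      · exact hga i
    · simp
    · intro x y _ _ hx hy
      simp only [Pi.add_apply, mul_add, sum_add_distrib]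
      rw [hx, hy, add_zero]
    · intro c x _ hx
      have : ∑ j, g j * (c • x) j = c * ∑ j, g j * x j := by
        rw [mul_sum]
        exact sum_congr rfl fun j _ => by simp only [Pi.smul_apply, smul_eq_mul]; ring
      rw [this, hx, mul_zero]
  intro j
  have h3 := hzero (Pi.single j 1)
  rw [sum_eq_single_of_mem j (mem_univ j)] at h3
  · rw [Pi.single_eq_same, mul_one] at h3
    have h4 : ((γ j : ℤ) : ZMod 2) = 0 := h3
    rw [ZMod.intCast_zmod_eq_zero_iff_dvd] at h4
    exact even_iff_two_dvd.2 (by exact_mod_cast h4)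
  · intro l _ hl
    rw [Pi.single_eq_of_ne hl, mul_zero]

end Pool.Agent.H754.Pretzel
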