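import Pool.Agent.H754.Pretzel.Flow

/-!
Covering systems of one star, with columns of weight one allowed.
-/

set_option linter.unusedSectionVars false

namespace Pool.Agent.H754.Pretzel

open Finset

/-- The reduced data of one star with columns `J` of odd weights `q j`, rows `a i` of odd norms
`p i`. -/
structure Sys {J R : Type} [Fintype J] [Fintype R] [DecidableEq J] [DecidableEq R] (q : J → ℕ)
    (p : R → ℕ) (a : R → J → ℤ) : Prop where
  qo : ∀ j, Odd (q j)
  po : ∀ i, Odd (p i)
  a1 : ∀ i, ∑ j, a i j = 1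
  nrm : ∀ i, bil q (a i) (a i) = p i
  a2 : ∀ i l, i ≠ l → bil q (a i) (a l) = 0
  cd : Fintype.card J = Fintype.card R + 1
  cov : ∀ x : J → ℤ, ∃ b : J → ℤ, (∀ j, 0 ≤ b j ∧ b j ≤ q j) ∧ ∃ t : ℤ, ∃ n : R → ℤ,
    ∀ j, x j = b j + t + q j * ∑ i, n i * a i j

section

variable {J R : Type} [Fintype J] [Fintype R] [DecidableEq J] [DecidableEq R]

/-- the weight of a column -/
def vv (q : J → ℕ) (p : R → ℕ) (a : R → J → ℤ) (j : J) : ℚ :=
  1 - ∑ i, (q j : ℚ) * a i j / p i

/-- the functional -/
def lam (q : J → ℕ) (p : R → ℕ) (a : R → J → ℤ) (x : J → ℤ) : ℚ := ∑ j, (x j : ℚ) * vv q p a j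

/-- the lattice spanned by the rows -/
def InK (a : R → J → ℤ) (x : J → ℤ) : Prop := ∃ n : R → ℤ, ∀ j, x j = ∑ i, n i * a i j

/-- the square sum of a column -/
def sq' (q : J → ℕ) (p : R → ℕ) (a : R → J → ℤ) (j : J) : ℚ :=
  ∑ i, (q j : ℚ) * (a i j : ℚ) ^ 2 / p i

/-- the residual of a basis vector -/
def rs (q : J → ℕ) (p : R → ℕ) (a : R → J → ℤ) (j l : J) : ℚ :=
  (if l = j then 1 else 0) - ∑ i, (q j : ℚ) * a i j / p i * a i l

theorem InK.add {a : R → J → ℤ} {x y : J → ℤ} (hx : InK a x) (hy : InK a y) :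
    InK a (fun j => x j + y j) := by
  obtain ⟨n, hn⟩ := hx
  obtain ⟨m, hm⟩ := hy
  refine ⟨fun i => n i + m i, fun j => ?_⟩
  simp only [hn j, hm j, add_mul, sum_add_distrib]

theorem InK.zmul {a : R → J → ℤ} {x : J → ℤ} (hx : InK a x) (c : ℤ) :
    InK a (fun j => c * x j) := by
  obtain ⟨n, hn⟩ := hx
  refine ⟨fun i => c * n i, fun j => ?_⟩
  simp only [hn j, mul_sum, mul_assoc]

theorem InK.sub {a : R → J → ℤ} {x y : J → ℤ} (hx : InK a x) (hy : InK a y) :
    InK a (fun j => x j - y j) := by
  have := hx.add (hy.zmul (-1))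
  refine (congrArg (InK a) ?_).mp this
  ext j; ring

theorem InK.congr {a : R → J → ℤ} {x y : J → ℤ} (hx : InK a x) (h : ∀ j, y j = x j) :
    InK a y := by
  have : y = x := funext h
  rw [this]; exact hx

theorem InK.row (a : R → J → ℤ) (i : R) : InK a (a i) := by
  refine ⟨Pi.single i 1, fun j => ?_⟩
  rw [sum_eq_single_of_mem i (mem_univ i)]
  · rw [Pi.single_eq_same, one_mul]
  · intro l _ hl
    rw [Pi.single_eq_of_ne hl, zero_mul]

theorem InK.zero (a : R → J → ℤ) : InK a (fun _ => 0) := ⟨0, fun j => by simp⟩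

variable {q : J → ℕ} {p : R → ℕ} {a : R → J → ℤ}

theorem Sys.qpos (h : Sys q p a) (j : J) : 0 < q j := (h.qo j).pos

theorem Sys.ppos (h : Sys q p a) (i : R) : 0 < p i := (h.po i).pos

theorem Sys.qposQ (h : Sys q p a) (j : J) : (0 : ℚ) < q j := by exact_mod_cast h.qpos j

theorem Sys.pposQ (h : Sys q p a) (i : R) : (0 : ℚ) < p i := by exact_mod_cast h.ppos i

theorem bilQ (x y : J → ℤ) : (bil q x y : ℚ) = ∑ j, (q j : ℚ) * x j * y j := by
  unfold bil
  push_cast
  rfl

theorem Sys.bilQ (h : Sys q p a) (i l : R) : ∑ j, (q j : ℚ) * a i j * a l j =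
    if i = l then (p i : ℚ) else 0 := by
  rw [← Pretzel.bilQ]
  by_cases hil : i = l
  · rw [if_pos hil, ← hil, h.nrm i]; norm_cast
  · rw [if_neg hil, h.a2 i l hil]; norm_cast

/-- coefficients -/
theorem Sys.coeff (h : Sys q p a) {x : J → ℤ} {n : R → ℤ} (hx : ∀ j, x j = ∑ i, n i * a i j)
    (i : R) : bil q x (a i) = n i * p i := by
  unfold bil
  have h1 : ∀ j, (q j : ℤ) * x j * a i j = ∑ l, n l * ((q j : ℤ) * a l j * a i j) := by
    intro j
    rw [hx j, mul_sum, sum_mul]
    exact sum_congr rfl fun l _ => by ring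
  rw [sum_congr rfl fun j _ => h1 j, sum_comm, sum_eq_single_of_mem i (mem_univ i)]
  · rw [← mul_sum, ← h.nrm i]; rfl
  · intro l _ hl
    rw [← mul_sum]
    have := h.a2 l i hl
    unfold bil at this
    rw [this, mul_zero]

theorem Sys.dvd (h : Sys q p a) {x : J → ℤ} (hx : InK a x) (i : R) :
    (p i : ℤ) ∣ bil q x (a i) := by
  obtain ⟨n, hn⟩ := hx
  rw [h.coeff hn i]
  exact dvd_mul_left _ _

theorem Sys.lam_row (h : Sys q p a) (l : R) : lam q p a (a l) = 0 := by
  unfold lam vv
  simp only [mul_sub, sum_sub_distrib, mul_sum, mul_one]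
  rw [sum_comm]
  have h1 : ∑ j, (a l j : ℚ) = 1 := by exact_mod_cast h.a1 l
  have h2 : ∀ i, ∑ j, (a l j : ℚ) * ((q j : ℚ) * a i j / p i) = if i = l then 1 else 0 := by
    intro i
    have h3 : ∑ j, (a l j : ℚ) * ((q j : ℚ) * a i j / p i) =
        (∑ j, (q j : ℚ) * a i j * a l j) / p i := by
      rw [sum_div]
      exact sum_congr rfl fun j _ => by ring
    rw [h3, h.bilQ i l]
    by_cases hi : i = l
    · rw [if_pos hi, if_pos hi, div_self (h.pposQ i).ne']
    · rw [if_neg hi, if_neg hi, zero_div]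
  rw [h1, sum_congr rfl fun i _ => h2 i]
  simp

theorem lam_add (x y : J → ℤ) : lam q p a (fun j => x j + y j) = lam q p a x + lam q p a y := by
  unfold lam
  rw [← sum_add_distrib]
  exact sum_congr rfl fun j _ => by push_cast; ring

theorem lam_sub (x y : J → ℤ) : lam q p a (fun j => x j - y j) = lam q p a x - lam q p a y := by
  unfold lam
  rw [← sum_sub_distrib]
  exact sum_congr rfl fun j _ => by push_cast; ring

theorem lam_mul (c : ℤ) (x : J → ℤ) : lam q p a (fun j => c * x j) = c * lam q p a x := by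
  unfold lam
  rw [mul_sum]
  exact sum_congr rfl fun j _ => by push_cast; ring

theorem lam_single (j : J) (c : ℤ) : lam q p a (Pi.single j c) = c * vv q p a j := by
  unfold lam
  rw [sum_eq_single_of_mem j (mem_univ j)]
  · rw [Pi.single_eq_same]
  · intro l _ hl
    rw [Pi.single_eq_of_ne hl]; simp

theorem Sys.lam_K (h : Sys q p a) {x : J → ℤ} (hx : InK a x) : lam q p a x = 0 := by
  obtain ⟨n, hn⟩ := hx
  have h1 : lam q p a x = ∑ i, (n i : ℚ) * lam q p a (a i) := by
    unfold lam
    simp only [mul_sum]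
    rw [sum_comm]
    apply sum_congr rfl
    intro j _
    rw [hn j]
    push_cast
    rw [sum_mul]
    exact sum_congr rfl fun i _ => by ring
  rw [h1]
  apply sum_eq_zero
  intro i _
  rw [h.lam_row i, mul_zero]

theorem Sys.lam_eq (h : Sys q p a) {x y : J → ℤ} (hx : InK a (fun j => x j - y j)) :
    lam q p a x = lam q p a y := by
  have h1 := h.lam_K hx
  rw [lam_sub] at h1
  linarith

/-! ### Bessel's inequality -/

theorem Sys.rs_row (h : Sys q p a) (j : J) (k : R) :
    ∑ l, (q l : ℚ) * rs q p a j l * a k l = 0 := by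
  unfold rs
  have h1 : ∀ l, (q l : ℚ) * ((if l = j then 1 else 0) -
      ∑ i, (q j : ℚ) * a i j / p i * a i l) * a k l =
      (if l = j then (q j : ℚ) * a k j else 0) -
        ∑ i, (q j : ℚ) * a i j / p i * ((q l : ℚ) * a i l * a k l) := by
    intro l
    rw [mul_sub, sub_mul, mul_sum, sum_mul]
    congr 1
    · split_ifs with hl
      · rw [hl]; ring
      · ring
    · exact sum_congr rfl fun i _ => by ring
  rw [sum_congr rfl fun l _ => h1 l, sum_sub_distrib, sum_ite_eq' univ, if_pos (mem_univ j),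
    sum_comm]
  have h2 : ∀ i, ∑ l, (q j : ℚ) * a i j / p i * ((q l : ℚ) * a i l * a k l) =
      if i = k then (q j : ℚ) * a k j else 0 := by
    intro i
    rw [← mul_sum, h.bilQ i k]
    by_cases hi : i = k
    · rw [if_pos hi, if_pos hi, hi]
      have := (h.pposQ k).ne'
      field_simp
    · rw [if_neg hi, if_neg hi, mul_zero]
  rw [sum_congr rfl fun i _ => h2 i, sum_ite_eq' univ, if_pos (mem_univ k), sub_self]

theorem Sys.rs_self (h : Sys q p a) (j : J) :
    ∑ l, (q l : ℚ) * (rs q p a j l) ^ 2 = q j * (1 - sq' q p a j) := by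
  have h1 : ∑ l, (q l : ℚ) * (rs q p a j l) ^ 2 = ∑ l, (q l : ℚ) * rs q p a j l *
      (if l = j then 1 else 0) - ∑ i, (q j : ℚ) * a i j / p i *
        ∑ l, (q l : ℚ) * rs q p a j l * a i l := by
    have h2 : ∀ l, (q l : ℚ) * (rs q p a j l) ^ 2 = (q l : ℚ) * rs q p a j l *
      (if l = j then 1 else 0) - ∑ i, (q j : ℚ) * a i j / p i *
        ((q l : ℚ) * rs q p a j l * a i l) := by
      intro l
      have h3 : ∑ i, (q j : ℚ) * a i j / p i *
          ((q l : ℚ) * rs q p a j l * a i l) = (q l : ℚ) * rs q p a j l *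
          ∑ i, (q j : ℚ) * a i j / p i * a i l := by
        rw [mul_sum]
        exact sum_congr rfl fun i _ => by ring
      rw [h3, sq]
      nth_rewrite 2 [rs]
      ring
    rw [sum_congr rfl fun l _ => h2 l, sum_sub_distrib, sum_comm]
    congr 1
    exact sum_congr rfl fun i _ => by rw [mul_sum]
  rw [h1]
  have h2 : ∑ i, (q j : ℚ) * a i j / p i * ∑ l, (q l : ℚ) * rs q p a j l * a i l = 0 := by
    apply sum_eq_zero
    intro i _
    rw [h.rs_row j i, mul_zero]
  rw [h2, sub_zero]
  have h3 : ∀ l, (q l : ℚ) * rs q p a j l * (if l = j then 1 else 0) =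
      if l = j then (q j : ℚ) * rs q p a j j else 0 := by
    intro l
    split_ifs with hl
    · rw [hl, mul_one]
    · rw [mul_zero]
  rw [sum_congr rfl fun l _ => h3 l, sum_ite_eq' univ, if_pos (mem_univ j)]
  unfold rs sq'
  rw [if_pos rfl]
  congr 2
  exact sum_congr rfl fun i _ => by ring

theorem Sys.sq_le (h : Sys q p a) (j : J) : sq' q p a j ≤ 1 := by
  have h1 := h.rs_self j
  have h2 : 0 ≤ ∑ l, (q l : ℚ) * (rs q p a j l) ^ 2 := sum_nonneg fun l _ => by positivity
  have h3 := h.qposQ j
  rw [h1] at h2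
  by_contra hcon
  push Not at hcon
  have : (q j : ℚ) * (1 - sq' q p a j) < 0 := mul_neg_of_pos_of_neg h3 (by linarith)
  linarith

/-- in the case of equality the basis vector is a combination of the rows -/
theorem Sys.sq_eq (h : Sys q p a) {j : J} (hj : sq' q p a j = 1) (l : J) :
    ∑ i, (q j : ℚ) * a i j / p i * a i l = if l = j then 1 else 0 := by
  have h1 := h.rs_self j
  rw [hj, sub_self, mul_zero, sum_eq_zero_iff_of_nonneg fun l _ => by positivity] at h1
  have h2 := h1 l (mem_univ l)
  have h3 := (h.qposQ l).ne'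
  have h4 : rs q p a j l = 0 := by
    rcases mul_eq_zero.1 h2 with h4 | h4
    · exact absurd h4 h3
    · exact pow_eq_zero_iff (two_ne_zero) |>.1 h4
  unfold rs at h4
  linarith

theorem Sys.term_le (h : Sys q p a) (i : R) (j : J) :
    (q j : ℚ) * a i j / p i ≤ (q j : ℚ) * (a i j : ℚ) ^ 2 / p i := by
  have hQ := h.qposQ j
  apply div_le_div_of_nonneg_right _ (h.pposQ i).le
  apply mul_le_mul_of_nonneg_left _ hQ.le
  have h1 : a i j ≤ (a i j) ^ 2 := Int.le_self_sq _
  exact_mod_cast h1

theorem Sys.vv_nonneg (h : Sys q p a) (j : J) : 0 ≤ vv q p a j := by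
  have h1 : ∑ i, (q j : ℚ) * a i j / p i ≤ sq' q p a j := sum_le_sum fun i _ => h.term_le i j
  have h2 := h.sq_le j
  unfold vv
  linarith

theorem Sys.zero_sq (h : Sys q p a) {j : J} (hj : vv q p a j = 0) : sq' q p a j = 1 := by
  have h1 : ∑ i, (q j : ℚ) * a i j / p i ≤ sq' q p a j := sum_le_sum fun i _ => h.term_le i j
  have h2 := h.sq_le j
  unfold vv at hj
  linarith

theorem Sys.zero_entry (h : Sys q p a) {j : J} (hj : vv q p a j = 0) (i : R) :
    a i j = 0 ∨ a i j = 1 := by
  have h2 := h.zero_sq hj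
  have h3 : ∑ i, ((q j : ℚ) * (a i j : ℚ) ^ 2 / p i - (q j : ℚ) * a i j / p i) = 0 := by
    rw [sum_sub_distrib]
    unfold vv at hj
    unfold sq' at h2
    linarith
  rw [sum_eq_zero_iff_of_nonneg fun i _ => by have := h.term_le i j; linarith] at h3
  have h4 := h3 i (mem_univ i)
  have hQ := (h.qposQ j).ne'
  have hP := (h.pposQ i).ne'
  have h5 : (a i j : ℚ) ^ 2 - a i j = 0 := by
    have h6 : (q j : ℚ) / p i * ((a i j : ℚ) ^ 2 - a i j) = 0 := by
      rw [← h4]; ring
    rcases mul_eq_zero.1 h6 with h7 | h7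
    · exact absurd h7 (div_ne_zero hQ hP)
    · exact h7
  have h6 : a i j * (a i j - 1) = 0 := by
    have : ((a i j * (a i j - 1) : ℤ) : ℚ) = 0 := by push_cast; linarith
    exact_mod_cast this
  rcases mul_eq_zero.1 h6 with h7 | h7
  · exact Or.inl h7
  · exact Or.inr (by linarith)

/-- rows through a column of weight zero avoid the other columns with nonnegative entries -/
theorem Sys.disj (h : Sys q p a) {j l : J} (hj : vv q p a j = 0) (hjl : l ≠ j)
    (hl : ∀ i, 0 ≤ a i l) (i : R) (hi : a i j = 1) : a i l = 0 := by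
  have h1 := h.sq_eq (h.zero_sq hj) l
  rw [if_neg hjl] at h1
  have hnn : ∀ i, 0 ≤ (q j : ℚ) * a i j / p i * a i l := by
    intro i
    have h2 : (0 : ℚ) ≤ a i l := by exact_mod_cast hl i
    have h3 : (0 : ℚ) ≤ a i j := by
      rcases h.zero_entry hj i with h4 | h4 <;> rw [h4] <;> norm_num
    positivity
  rw [sum_eq_zero_iff_of_nonneg fun i _ => hnn i] at h1
  have h2 := h1 i (mem_univ i)
  rw [hi] at h2
  have hQ := (h.qposQ j).ne'
  have hP := (h.pposQ i).ne'
  have h3 : (a i l : ℚ) = 0 := by
    rcases mul_eq_zero.1 h2 with h7 | h7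
    · exfalso
      rw [Int.cast_one, mul_one] at h7
      exact div_ne_zero hQ hP h7
    · exact h7
  exact_mod_cast h3

theorem Sys.zero_nonneg (h : Sys q p a) {j : J} (hj : vv q p a j = 0) (i : R) : 0 ≤ a i j := by
  rcases h.zero_entry hj i with h1 | h1 <;> rw [h1] <;> norm_num

/-- some column has positive weight -/
theorem Sys.exists_pos (h : Sys q p a) : ∃ j, 0 < vv q p a j := by
  by_contra hcon
  push Not at hcon
  have h1 : ∀ j, sq' q p a j = 1 := fun j => h.zero_sq (le_antisymm (hcon j) (h.vv_nonneg j))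
  have h2 : ∑ j, sq' q p a j = Fintype.card R := by
    unfold sq'
    rw [sum_comm]
    have h3 : ∀ i, ∑ j, (q j : ℚ) * (a i j : ℚ) ^ 2 / p i = 1 := by
      intro i
      rw [← sum_div]
      have h4 := h.bilQ i i
      rw [if_pos rfl] at h4
      have h5 : ∑ j, (q j : ℚ) * (a i j : ℚ) ^ 2 = p i := by
        rw [← h4]
        exact sum_congr rfl fun j _ => by ring
      rw [h5, div_self (h.pposQ i).ne']
    rw [sum_congr rfl fun i _ => h3 i]
    simp
  rw [sum_congr rfl fun j _ => h1 j] at h2
  simp only [sum_const, card_univ, nsmul_eq_mul, mul_one] at h2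
  have h3 : Fintype.card J = Fintype.card R := by exact_mod_cast h2
  have := h.cd
  omega

/-! ### Covering -/

theorem Sys.offset (h : Sys q p a) (u x : J → ℤ) :
    ∃ z : J → ℤ, InK a (fun j => x j - z j) ∧ ∃ t : ℤ,
      ∀ j, t - u j ≤ q j * z j ∧ q j * z j ≤ t - u j + q j := by
  obtain ⟨b, hb, t, n, hx⟩ := h.cov fun j => q j * x j + u j
  refine ⟨fun j => x j - ∑ i, n i * a i j, ⟨n, fun j => by ring⟩, t, fun j => ?_⟩
  have h1 := hx j
  have h2 := hb j
  have h3 : (q j : ℤ) * (x j - ∑ i, n i * a i j) = q j * x j - q j * ∑ i, n i * a i j := by ring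
  rw [h3]
  constructor <;> linarith

theorem Sys.lam_nonneg (h : Sys q p a) {z : J → ℤ} (hz : ∀ j, 0 ≤ z j) : 0 ≤ lam q p a z := by
  unfold lam
  apply sum_nonneg
  intro j _
  have h1 : (0 : ℚ) ≤ z j := by exact_mod_cast hz j
  exact mul_nonneg h1 (h.vv_nonneg j)

theorem Sys.lam_mono (h : Sys q p a) {y z : J → ℤ} (hz : ∀ j, y j ≤ z j) :
    lam q p a y ≤ lam q p a z := by
  have := h.lam_nonneg (z := fun j => z j - y j) fun j => by have := hz j; omega
  rw [lam_sub] at this
  linarith

theorem Sys.le_lam (h : Sys q p a) {z : J → ℤ} (hz : ∀ j, 0 ≤ z j) (j : J) :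
    (z j : ℚ) * vv q p a j ≤ lam q p a z := by
  unfold lam
  apply single_le_sum (f := fun j => (z j : ℚ) * vv q p a j) _ (mem_univ j)
  intro j _
  have h1 : (0 : ℚ) ≤ z j := by exact_mod_cast hz j
  exact mul_nonneg h1 (h.vv_nonneg j)

/-- Classes of height zero. -/
theorem Sys.tors (h : Sys q p a) {j₁ j₂ : J} (h1 : 0 < vv q p a j₁) (h2 : 0 < vv q p a j₂)
    (h12 : j₁ ≠ j₂ ∨ q j₁ = 1) (x : J → ℤ) (hx : lam q p a x = 0) :
    ∃ z : J → ℤ, InK a (fun j => x j - z j) ∧ (∀ j, z j ≠ 0 → q j = 1 ∧ vv q p a j = 0) ∧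
      ((∀ j, z j = 0 ∨ z j = 1) ∨ ∀ j, z j = 0 ∨ z j = -1) := by
  obtain ⟨z, hz, t, ht⟩ := h.offset
    (fun j => if j = j₁ then 1 else if j = j₂ then (q j : ℤ) else if q j = 1 then 1 else 2) x
  have hlz : lam q p a z = 0 := by rw [← h.lam_eq hz, hx]
  have hq3 : ∀ j, q j ≠ 1 → (3 : ℤ) ≤ q j := by
    intro j hj
    have := h.qo j
    obtain ⟨k, hk⟩ := this
    have : 3 ≤ q j := by omega
    exact_mod_cast this
  have hqp : ∀ j, (1 : ℤ) ≤ q j := fun j => by exact_mod_cast h.qpos j
  -- sign arguments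
  have hpos : ∀ j, (q j : ℤ) * z j < q j → z j ≤ 0 := by
    intro j hj
    by_contra hcon
    push Not at hcon
    have : (q j : ℤ) ≤ q j * z j := le_mul_of_one_le_right (by have := hqp j; omega) (by omega)
    omega
  have hneg : ∀ j, -(q j : ℤ) < q j * z j → 0 ≤ z j := by
    intro j hj
    by_contra hcon
    push Not at hcon
    have : (q j : ℤ) * z j ≤ q j * (-1) := mul_le_mul_of_nonneg_left (by omega) (by have := hqp j; omega)
    omega
  have hneg' : ∀ j, (q j : ℤ) * z j < 0 → z j ≤ -1 := by
    intro j hj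
    by_contra hcon
    push Not at hcon
    have : 0 ≤ (q j : ℤ) * z j := mul_nonneg (by have := hqp j; omega) (by omega)
    omega
  have hpos' : ∀ j, 0 < (q j : ℤ) * z j → 1 ≤ z j := by
    intro j hj
    by_contra hcon
    push Not at hcon
    have : (q j : ℤ) * z j ≤ 0 := mul_nonpos_of_nonneg_of_nonpos (by have := hqp j; omega) (by omega)
    omega
  have hge : ∀ j, (q j : ℤ) * z j ≤ q j → z j ≤ 1 := by
    intro j hj
    by_contra hcon
    push Not at hcon
    have h3 : (q j : ℤ) * 2 ≤ q j * z j := mul_le_mul_of_nonneg_left (by omega) (by have := hqp j; omega)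
    have := hqp j
    omega
  have hle : ∀ j, -(q j : ℤ) ≤ q j * z j → -1 ≤ z j := by
    intro j hj
    by_contra hcon
    push Not at hcon
    have h3 : (q j : ℤ) * z j ≤ q j * (-2) := mul_le_mul_of_nonneg_left (by omega) (by have := hqp j; omega)
    have := hqp j
    omega
  -- the vector is nonnegative or nonpositive
  rcases lt_or_ge t 0 with ht0 | ht0
  · exfalso
    have hz0 : ∀ j, z j ≤ 0 := by
      intro j
      apply hpos
      have h3 := (ht j).2
      have h4 := hqp j
      split_ifs at h3 <;> omega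
    have hz2 : z j₂ ≤ -1 := by
      apply hneg'
      have h3 := (ht j₂).2
      by_cases h4 : j₂ = j₁
      · rw [if_pos h4] at h3
        have h5 : q j₂ = 1 := by
          rcases h12 with h5 | h5
          · exact absurd h4.symm h5
          · rw [h4]; exact h5
        rw [h5] at h3 ⊢
        push_cast at h3 ⊢
        omega
      · rw [if_neg h4, if_pos rfl] at h3
        omega
    have h3 := h.le_lam (z := fun j => -z j) (fun j => by have := hz0 j; omega) j₂
    have h4 : lam q p a (fun j => -z j) = 0 := by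
      have := lam_mul (q := q) (p := p) (a := a) (-1) z
      rw [hlz, mul_zero] at this
      rw [← this]
      congr 1
      ext j; ring
    rw [h4] at h3
    have h5 : (1 : ℚ) ≤ ((-z j₂ : ℤ) : ℚ) := by exact_mod_cast (by omega : 1 ≤ -z j₂)
    nlinarith
  rcases lt_or_ge 1 t with ht1 | ht1
  · exfalso
    have hz0 : ∀ j, 0 ≤ z j := by
      intro j
      apply hneg
      have h3 := (ht j).1
      have h4 := hqp j
      split_ifs at h3 <;> omega
    have hz1 : 1 ≤ z j₁ := by
      apply hpos'
      have h3 := (ht j₁).1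
      rw [if_pos rfl] at h3
      omega
    have h3 := h.le_lam hz0 j₁
    rw [hlz] at h3
    have h5 : (1 : ℚ) ≤ z j₁ := by exact_mod_cast hz1
    nlinarith
  -- zero entries
  have hzz : (∀ j, 0 ≤ z j) ∨ (∀ j, z j ≤ 0) → ∀ j, 0 < vv q p a j → z j = 0 := by
    rintro (hs | hs) j hj
    · have h3 := h.le_lam hs j
      rw [hlz] at h3
      by_contra hcon
      have h4 : 1 ≤ z j := by have := hs j; omega
      have h5 : (1 : ℚ) ≤ z j := by exact_mod_cast h4
      nlinarith
    · have h3 := h.le_lam (z := fun j => -z j) (fun j => by have := hs j; omega) j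
      have h4 : lam q p a (fun j => -z j) = 0 := by
        have := lam_mul (q := q) (p := p) (a := a) (-1) z
        rw [hlz, mul_zero] at this
        rw [← this]
        congr 1
        ext j; ring
      rw [h4] at h3
      by_contra hcon
      have h5 : 1 ≤ -z j := by have := hs j; omega
      have h6 : (1 : ℚ) ≤ ((-z j : ℤ) : ℚ) := by exact_mod_cast h5
      nlinarith
  have hbig : ∀ j, j ≠ j₁ → j ≠ j₂ → q j ≠ 1 → z j = 0 := by
    intro j hj1 hj2 hj3
    have h3 := ht j
    rw [if_neg hj1, if_neg hj2, if_neg hj3] at h3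
    have h4 := hq3 j hj3
    apply le_antisymm
    · apply hpos; omega
    · apply hneg; omega
  refine ⟨z, hz, ?_, ?_⟩
  · intro j hj
    have hs : (∀ j, 0 ≤ z j) ∨ (∀ j, z j ≤ 0) := by
      rcases (by omega : t = 0 ∨ t = 1) with rfl | rfl
      · right
        intro j
        apply hpos
        have h3 := (ht j).2
        have h4 := hqp j
        split_ifs at h3 <;> omega
      · left
        intro j
        apply hneg
        have h3 := (ht j).1
        have h4 := hqp j
        split_ifs at h3 with h5 h6 h7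
        · omega
        · omega
        · omega
        · have := hq3 j h7
          omega
    have hv : vv q p a j = 0 := by
      rcases (h.vv_nonneg j).lt_or_eq with h3 | h3
      · exact absurd (hzz hs j h3) hj
      · exact h3.symm
    refine ⟨?_, hv⟩
    by_contra hq1
    apply hj
    apply hbig j _ _ hq1
    · rintro rfl; rw [hv] at h1; exact lt_irrefl _ h1
    · rintro rfl; rw [hv] at h2; exact lt_irrefl _ h2
  · rcases (by omega : t = 0 ∨ t = 1) with rfl | rfl
    · right
      intro j
      have h6 : z j ≤ 0 := by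
        apply hpos
        have h3 := (ht j).2
        have h4 := hqp j
        split_ifs at h3 <;> omega
      have h7 : -1 ≤ z j := by
        apply hle
        have h3 := (ht j).1
        have h4 := hqp j
        split_ifs at h3 with h5 h6 h7
        · omega
        · omega
        · omega
        · have := hq3 j h7
          omega
      omega
    · left
      intro j
      have h6 : 0 ≤ z j := by
        apply hneg
        have h3 := (ht j).1
        have h4 := hqp j
        split_ifs at h3 with h5 h6 h7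
        · omega
        · omega
        · omega
        · have := hq3 j h7
          omega
      have h7 : z j ≤ 1 := by
        apply hge
        have h3 := (ht j).2
        have h4 := hqp j
        split_ifs at h3 <;> omega
      omega

/-- Classes of small positive height. -/
theorem Sys.comp (h : Sys q p a) (E : J → Prop) [DecidablePred E] (hE : ∀ j, q j = 1 → E j)
    (x : J → ℤ) (hx0 : 0 < lam q p a x)
    (hx1 : lam q p a x < lam q p a (fun j => if E j then 1 else 0)) :
    ∃ z : J → ℤ, InK a (fun j => x j - z j) ∧ (∀ j, z j = 0 ∨ z j = 1) ∧ ∀ j, z j ≠ 0 → E j := by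
  obtain ⟨z, hz, t, ht⟩ := h.offset (fun j => if E j then 0 else 1) x
  have hlz := h.lam_eq hz
  have hq3 : ∀ j, ¬ E j → (3 : ℤ) ≤ q j := by
    intro j hj
    obtain ⟨k, hk⟩ := h.qo j
    have h1 : q j ≠ 1 := fun h1 => hj (hE j h1)
    have : 3 ≤ q j := by omega
    exact_mod_cast this
  have hqp : ∀ j, (1 : ℤ) ≤ q j := fun j => by exact_mod_cast h.qpos j
  have hpos : ∀ j, (q j : ℤ) * z j < q j → z j ≤ 0 := by
    intro j hj
    by_contra hcon
    push Not at hcon
    have : (q j : ℤ) ≤ q j * z j := le_mul_of_one_le_right (by have := hqp j; omega) (by omega)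
    omega
  have hneg : ∀ j, -(q j : ℤ) < q j * z j → 0 ≤ z j := by
    intro j hj
    by_contra hcon
    push Not at hcon
    have : (q j : ℤ) * z j ≤ q j * (-1) := mul_le_mul_of_nonneg_left (by omega) (by have := hqp j; omega)
    omega
  have hpos' : ∀ j, 0 < (q j : ℤ) * z j → 1 ≤ z j := by
    intro j hj
    by_contra hcon
    push Not at hcon
    have : (q j : ℤ) * z j ≤ 0 := mul_nonpos_of_nonneg_of_nonpos (by have := hqp j; omega) (by omega)
    omega
  have hge : ∀ j, (q j : ℤ) * z j ≤ q j → z j ≤ 1 := by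
    intro j hj
    by_contra hcon
    push Not at hcon
    have h3 : (q j : ℤ) * 2 ≤ q j * z j := mul_le_mul_of_nonneg_left (by omega) (by have := hqp j; omega)
    have := hqp j
    omega
  rcases lt_trichotomy t 0 with ht0 | ht0 | ht0
  · exfalso
    have hz0 : ∀ j, z j ≤ 0 := by
      intro j
      apply hpos
      have h3 := (ht j).2
      have h4 := hqp j
      split_ifs at h3 <;> omega
    have h5 : lam q p a z ≤ lam q p a (fun _ => 0) := h.lam_mono hz0
    have h6 : lam q p a (fun _ => 0) = 0 := by unfold lam; simp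
    linarith
  · refine ⟨z, hz, fun j => ?_, fun j hj => ?_⟩
    · have h6 : z j ≤ 1 := by
        apply hge
        have h3 := (ht j).2
        have h4 := hqp j
        split_ifs at h3 <;> omega
      have h7 : 0 ≤ z j := by
        apply hneg
        have h3 := (ht j).1
        have h4 := hqp j
        split_ifs at h3 with h5
        · omega
        · have := hq3 j h5
          omega
      omega
    · by_contra hEj
      have h3 := ht j
      rw [if_neg hEj] at h3
      have h4 := hq3 j hEj
      apply hj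
      apply le_antisymm
      · apply hpos; omega
      · apply hneg; omega
  · exfalso
    have hz0 : ∀ j, (if E j then 1 else 0) ≤ z j := by
      intro j
      have h3 := (ht j).1
      split_ifs at h3 ⊢ with h5
      · apply hpos'; omega
      · have := hq3 j h5
        apply hneg; omega
    have h5 := h.lam_mono hz0
    linarith

end

end Pool.Agent.H754.Pretzel
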