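import Pool.Agent.H754.Pretzel.Embed
import Pool.Agent.H754.Pretzel.Parity
import Pool.Agent.H754.Pretzel.Sys

/-!
From an embedded star with odd weights (one allowed) to a covering system.
-/

set_option linter.unusedSectionVars false

namespace Pool.Agent.H754.Pretzel

open Finset Matrix

variable {ι : Type} [Fintype ι] [DecidableEq ι]

/-- The hypotheses on the vectors of an embedded star: `c` is the centre, `v j s`, `s < q j - 1`, is
the `j`-th chain, and `w i` are the leaves. -/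
structure Star1 {I J : Type} [Fintype I] [Fintype J] [DecidableEq I] [DecidableEq J] (q : J → ℕ)
    (c : ι → ℤ) (v : J → ℕ → ι → ℤ) (w : I → ι → ℤ) : Prop where
  cc : c ⬝ᵥ c = Fintype.card J
  cv0 : ∀ j, 0 < q j - 1 → v j 0 ⬝ᵥ c = -1
  cv : ∀ j s, 0 < s → s < q j - 1 → v j s ⬝ᵥ c = 0
  vv : ∀ j s, s < q j - 1 → v j s ⬝ᵥ v j s = 2
  vadj : ∀ j s, s + 1 < q j - 1 → v j s ⬝ᵥ v j (s + 1) = -1
  vfar : ∀ j s r, s + 2 ≤ r → r < q j - 1 → v j s ⬝ᵥ v j r = 0
  vne : ∀ j l s r, j ≠ l → s < q j - 1 → r < q l - 1 → v j s ⬝ᵥ v l r = 0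
  wv : ∀ i j s, s < q j - 1 → v j s ⬝ᵥ w i = 0
  wc : ∀ i, w i ⬝ᵥ c = -1
  ww : ∀ i l, i ≠ l → w i ⬝ᵥ w l = 0

section

variable {I J : Type} [Fintype I] [Fintype J] [DecidableEq I] [DecidableEq J] {q : J → ℕ}
  {c : ι → ℤ} {v : J → ℕ → ι → ℤ} {w : I → ι → ℤ}

/-- the coordinates -/
theorem Star1.frame (hqo : ∀ j, Odd (q j)) (h : Star1 q c v w) (hι : Fintype.card ι = ∑ j, q j) :
    ∃ (E : (Σ j, Fin (q j)) ≃ ι) (δ : (Σ j, Fin (q j)) → ℤ), (∀ r, δ r = 1 ∨ δ r = -1) ∧
      (∀ j, q j = 1 → ∀ s, δ ⟨j, s⟩ * c (E ⟨j, s⟩) ≤ 0) ∧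
      (∀ j (s : ℕ) (hs : s + 1 < q j) (u : ι → ℤ), v j s ⬝ᵥ u =
        δ ⟨j, ⟨s, by omega⟩⟩ * u (E ⟨j, ⟨s, by omega⟩⟩) -
          δ ⟨j, ⟨s + 1, hs⟩⟩ * u (E ⟨j, ⟨s + 1, hs⟩⟩)) := by
  have hbig : ∀ j, q j ≠ 1 → 3 ≤ q j := by
    intro j hj
    obtain ⟨k, hk⟩ := hqo j
    omega
  have hch : ∀ j, ∃ b ε, q j ≠ 1 → Good (q j - 1) (v j) b ε := by
    intro j
    by_cases hj : q j = 1
    · by_cases hne : Nonempty ι
      · obtain ⟨x⟩ := hne
        exact ⟨fun _ => x, fun _ => 1, fun h' => absurd hj h'⟩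
      · exfalso
        rw [not_nonempty_iff] at hne
        have h1 : Fintype.card ι = 0 := Fintype.card_eq_zero
        rw [hι, sum_eq_zero_iff] at h1
        have := h1 j (mem_univ j)
        omega
    · have h3 := hbig j hj
      have h4 : q j ≠ 4 := by
        intro h4
        obtain ⟨k, hk⟩ := hqo j
        omega
      obtain ⟨b, ε, hg⟩ := chain_lemma (n := q j - 1) (by omega) (by omega) (v j)
        (h.vv j) (h.vadj j) (h.vfar j)
      exact ⟨b, ε, fun _ => hg⟩
  choose b ε hg using hch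
  have hne : ∀ j l, q j ≠ 1 → q l ≠ 1 → j ≠ l → ∀ s r, s ≤ q j - 1 → r ≤ q l - 1 →
      b j s ≠ b l r := by
    intro j l hqj hql hjl s r hs hr hcon
    have hl := hbig l hql
    have hj := hbig j hqj
    have : ∃ t, t < q l - 1 ∧ v l t (b l r) ≠ 0 := by
      rcases hr.lt_or_eq with hr | hr
      · refine ⟨r, hr, ?_⟩
        rw [(hg l hql).2.2 r hr, Pi.sub_apply, Pi.single_eq_same, single_eval]
        · rcases (hg l hql).1 r hr.le with h | h <;> rw [h] <;> norm_num
        · intro h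
          have := (hg l hql).2.1 (r + 1) r (by omega) (by omega) h
          omega
      · refine ⟨r - 1, by omega, ?_⟩
        have e : r - 1 + 1 = r := by omega
        rw [(hg l hql).2.2 (r - 1) (by omega), e, Pi.sub_apply, Pi.single_eq_same, single_eval]
        · rcases (hg l hql).1 r (by omega) with h | h <;> rw [h] <;> norm_num
        · intro h
          have := (hg l hql).2.1 (r - 1) r (by omega) (by omega) h
          omega
    obtain ⟨t, ht, ht0⟩ := this
    have h2 := (hg j hqj).vanish (by omega) (u := v l t) (fun s hs => h.vne j l s t hjl hs ht)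
      (h.vv l t ht) s hs
    rw [hcon] at h2
    exact ht0 h2
  -- the extension of the injection
  obtain ⟨E', hE'⟩ := Finset.exists_equiv_extend_of_card_eq (α := Σ j, Fin (q j)) (β := ι)
    (t := (univ : Finset ι)) (by rw [card_univ, hι, Fintype.card_sigma]; simp)
    (s := univ.filter fun r : (Σ j, Fin (q j)) => q r.1 ≠ 1) (f := fun r => b r.1 r.2)
    (subset_univ _) (by
      rintro ⟨j, s⟩ hj ⟨l, r⟩ hl hsr
      simp only [coe_filter, mem_univ, true_and, Set.mem_setOf_eq] at hj hl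
      simp only at hsr
      have hs := s.2
      have hr := r.2
      by_cases hjl : j = l
      · subst hjl
        have := (hg j hj).2.1 s r (by omega) (by omega) hsr
        rw [Fin.ext this]
      · exact absurd hsr (hne j l hj hl hjl s r (by omega) (by omega)))
  let E : (Σ j, Fin (q j)) ≃ ι := E'.trans (Equiv.subtypeUnivEquiv fun x => mem_univ x)
  have hE : ∀ j (s : Fin (q j)), q j ≠ 1 → E ⟨j, s⟩ = b j s := by
    intro j s hj
    exact hE' ⟨j, s⟩ (by simp [hj])
  let δ : (Σ j, Fin (q j)) → ℤ := fun r =>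
    if q r.1 = 1 then (if c (E r) ≤ 0 then 1 else -1) else ε r.1 r.2
  refine ⟨E, δ, ?_, ?_, ?_⟩
  · rintro ⟨j, s⟩
    simp only [δ]
    by_cases hj : q j = 1
    · rw [if_pos hj]
      split_ifs
      · exact Or.inl rfl
      · exact Or.inr rfl
    · rw [if_neg hj]
      exact (hg j hj).1 s (by have := s.2; omega)
  · intro j hj s
    simp only [δ]
    rw [if_pos hj]
    split_ifs with h1
    · omega
    · omega
  · intro j s hs u
    have hj : q j ≠ 1 := by omega
    rw [(hg j hj).dot u (by omega : s < q j - 1), hE _ _ hj, hE _ _ hj]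
    simp only [δ]
    rw [if_neg hj, if_neg hj]

theorem Star1.sys (hqo : ∀ j, Odd (q j)) (h : Star1 q c v w) (hι : Fintype.card ι = ∑ j, q j)
    (hc : Fintype.card J = Fintype.card I + 1) (p : I → ℕ) (hp : ∀ i, w i ⬝ᵥ w i = p i)
    (hpo : ∀ i, Odd (p i)) (L : AddSubgroup (ι → ℤ))
    (hL : L ≤ AddSubgroup.closure ({c} ∪ {x | ∃ j s, s < q j - 1 ∧ x = v j s} ∪ Set.range w))
    (hcov : ∀ x : ι → ℤ, (∀ t, Odd (x t)) → ∃ e : ι → ℤ, (∀ t, e t = 1 ∨ e t = -1) ∧
      ∃ l ∈ L, x = e + 2 • l) : ∃ a : I → J → ℤ, Sys q p a := by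
  obtain ⟨E, δ, hδ, hδ1, hv⟩ := h.frame hqo hι
  have hδsq : ∀ r, δ r * δ r = 1 := fun r => by
    rcases hδ r with h | h <;> rw [h] <;> norm_num
  have hq0 : ∀ j, 0 < q j := fun j => (hqo j).pos
  have hdot : ∀ u u' : ι → ℤ, u ⬝ᵥ u' = ∑ j, ∑ s : Fin (q j),
      (δ ⟨j, s⟩ * u (E ⟨j, s⟩)) * (δ ⟨j, s⟩ * u' (E ⟨j, s⟩)) := by
    intro u u'
    rw [dotProduct, ← E.sum_comp, Fintype.sum_sigma]
    apply sum_congr rfl
    intro j _
    apply sum_congr rfl
    intro s _
    have := hδsq ⟨j, s⟩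
    calc u (E ⟨j, s⟩) * u' (E ⟨j, s⟩) = (δ ⟨j, s⟩ * δ ⟨j, s⟩) * (u (E ⟨j, s⟩) * u' (E ⟨j, s⟩)) := by
          rw [this, one_mul]
      _ = _ := by ring
  let a : I → J → ℤ := fun i j => δ ⟨j, ⟨0, hq0 j⟩⟩ * w i (E ⟨j, ⟨0, hq0 j⟩⟩)
  have hconst : ∀ i j (s : Fin (q j)), δ ⟨j, s⟩ * w i (E ⟨j, s⟩) = a i j := by
    intro i j s
    obtain ⟨s, hs⟩ := s
    induction s with
    | zero => rfl
    | succ s ih =>
      rw [← ih (by omega)]
      have h1 := hv j s hs (w i)
      rw [h.wv i j s (by omega)] at h1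
      linarith
  have hbil : ∀ i l, w i ⬝ᵥ w l = bil q (a i) (a l) := by
    intro i l
    rw [hdot]
    unfold bil
    apply sum_congr rfl
    intro j _
    rw [sum_congr rfl fun s _ => by rw [hconst i j s, hconst l j s], sum_const, card_univ,
      Fintype.card_fin, nsmul_eq_mul]
    ring
  -- the centre
  have hγex : ∀ j, ∃ γ : ℤ, (q j = 1 → γ ≤ 1) ∧
      ∀ s : Fin (q j), δ ⟨j, s⟩ * c (E ⟨j, s⟩) = γ - if (s : ℕ) = 0 then 1 else 0 := by
    intro j
    by_cases hj : q j = 1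
    · refine ⟨δ ⟨j, ⟨0, hq0 j⟩⟩ * c (E ⟨j, ⟨0, hq0 j⟩⟩) + 1, fun _ => ?_, fun s => ?_⟩
      · have := hδ1 j hj ⟨0, hq0 j⟩
        omega
      · have hs : s = ⟨0, hq0 j⟩ := by
          apply Fin.ext
          have := s.2
          simp only
          omega
        rw [hs]; simp
    · have h3 : 3 ≤ q j := by
        obtain ⟨k, hk⟩ := hqo j
        omega
      refine ⟨δ ⟨j, ⟨1, by omega⟩⟩ * c (E ⟨j, ⟨1, by omega⟩⟩), fun h' => absurd h' hj, ?_⟩
      have hs1 : ∀ (s : ℕ) (hs : s + 1 < q j), δ ⟨j, ⟨s + 1, hs⟩⟩ * c (E ⟨j, ⟨s + 1, hs⟩⟩) =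
          δ ⟨j, ⟨1, by omega⟩⟩ * c (E ⟨j, ⟨1, by omega⟩⟩) := by
        intro s
        induction s with
        | zero => intro _; rfl
        | succ s ih =>
          intro hs
          rw [← ih (by omega)]
          have h1 := hv j (s + 1) hs c
          rw [h.cv j (s + 1) (by omega) (by omega)] at h1
          linarith
      rintro ⟨s, hs⟩
      rcases s with _ | s
      · have h1 := hv j 0 (by omega) c
        rw [h.cv0 j (by omega)] at h1
        simp only [if_true]
        simp only [zero_add] at h1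
        linarith
      · rw [hs1 s hs]; simp
  choose γ hγ1 hγ using hγex
  have hblk : ∀ j (f : ℤ → ℤ), ∑ s : Fin (q j), f (δ ⟨j, s⟩ * c (E ⟨j, s⟩)) =
      (f (γ j - 1) - f (γ j)) + q j * f (γ j) := by
    intro j f
    have e : ∀ s : Fin (q j), f (δ ⟨j, s⟩ * c (E ⟨j, s⟩)) =
        (if (s : ℕ) = 0 then f (γ j - 1) - f (γ j) else 0) + f (γ j) := by
      intro s
      rw [hγ]
      split_ifs with h0
      · ring
      · rw [sub_zero]; ring
    rw [sum_congr rfl fun s _ => e s, sum_add_distrib, sum_const, card_univ, Fintype.card_fin,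
      sum_eq_single_of_mem (⟨0, hq0 j⟩ : Fin (q j)) (mem_univ _)]
    · rw [if_pos rfl, nsmul_eq_mul]
    · intro s _ hs
      rw [if_neg]
      intro h0
      exact hs (Fin.ext h0)
  have hγn : ∑ j, ((q j : ℤ) * γ j ^ 2 - 2 * γ j) = 0 := by
    have h1 := h.cc
    rw [hdot] at h1
    have h2 : ∀ j, ∑ s : Fin (q j), (δ ⟨j, s⟩ * c (E ⟨j, s⟩)) * (δ ⟨j, s⟩ * c (E ⟨j, s⟩)) =
        ((q j : ℤ) * γ j ^ 2 - 2 * γ j) + 1 := by
      intro j
      rw [hblk j (fun x => x * x)]; ring
    rw [sum_congr rfl fun j _ => h2 j, sum_add_distrib] at h1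
    simp only [sum_const, card_univ, nsmul_eq_mul, mul_one] at h1
    linarith
  have hrow : ∀ i, ∑ j, a i j * (1 - q j * γ j) = 1 := by
    intro i
    have h1 := h.wc i
    rw [hdot] at h1
    have h2 : ∀ j, ∑ s : Fin (q j), (δ ⟨j, s⟩ * w i (E ⟨j, s⟩)) * (δ ⟨j, s⟩ * c (E ⟨j, s⟩)) =
        -(a i j * (1 - q j * γ j)) := by
      intro j
      rw [sum_congr rfl fun s _ => by rw [hconst i j s], ← mul_sum, hblk j (fun x => x)]
      ring
    rw [sum_congr rfl fun j _ => h2 j, sum_neg_distrib] at h1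
    linarith
  have heven := parity hqo γ a (fun i => by rw [← hbil, hp]; exact_mod_cast hpo i)
    (fun i l hil => by rw [← hbil]; exact h.ww i l hil) hrow hγn hc
  have hγ0 : ∀ j, γ j = 0 := by
    have h1 : ∀ j, 0 ≤ (q j : ℤ) * γ j ^ 2 - 2 * γ j ∧
        ((q j : ℤ) * γ j ^ 2 - 2 * γ j = 0 → γ j = 0) := by
      intro j
      obtain ⟨k, hk⟩ := heven j
      have e : (q j : ℤ) * γ j ^ 2 - 2 * γ j = 4 * (k * (q j * k - 1)) := by rw [hk]; ring
      rw [e]
      have hqj : (1 : ℤ) ≤ q j := by exact_mod_cast hq0 j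
      rcases lt_trichotomy k 0 with h0 | h0 | h0
      · have h2 : 0 < k * (q j * k - 1) := mul_pos_of_neg_of_neg h0 (by nlinarith)
        exact ⟨by omega, fun h3 => by omega⟩
      · rw [h0] at hk ⊢
        exact ⟨by norm_num, fun _ => by omega⟩
      · by_cases hj : q j = 1
        · have := hγ1 j hj
          omega
        · have h3 : (3 : ℤ) ≤ q j := by
            obtain ⟨m, hm⟩ := hqo j
            have : 3 ≤ q j := by omega
            exact_mod_cast this
          have h2 : 0 < k * (q j * k - 1) := mul_pos h0 (by nlinarith)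
          exact ⟨by omega, fun h3 => by omega⟩
    rw [sum_eq_zero_iff_of_nonneg fun j _ => (h1 j).1] at hγn
    exact fun j => (h1 j).2 (hγn j (mem_univ j))
  -- the block sums
  let S : (ι → ℤ) →+ (J → ℤ) :=
    { toFun := fun u j => ∑ s : Fin (q j), δ ⟨j, s⟩ * u (E ⟨j, s⟩)
      map_zero' := by ext j; simp
      map_add' := by
        intro u u'
        ext j
        simp only [Pi.add_apply, mul_add, sum_add_distrib] }
  have hSdef : ∀ u j, S u j = ∑ s : Fin (q j), δ ⟨j, s⟩ * u (E ⟨j, s⟩) := fun u j => rfl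
  have hSc : ∀ j, S c j = -1 := by
    intro j
    rw [hSdef, hblk j (fun x => x), hγ0 j]; ring
  have hSw : ∀ i j, S (w i) j = q j * a i j := by
    intro i j
    rw [hSdef, sum_congr rfl fun s _ => hconst i j s, sum_const, card_univ, Fintype.card_fin,
      nsmul_eq_mul]
  have hSv : ∀ j s, s < q j - 1 → ∀ l, S (v j s) l = 0 := by
    intro j s hs l
    have h2 := hv j s (by omega) (fun x => if (E.symm x).1 = l then δ (E.symm x) else 0)
    have h3 : v j s ⬝ᵥ (fun x => if (E.symm x).1 = l then δ (E.symm x) else 0) = S (v j s) l := by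
      rw [hdot, hSdef, sum_eq_single_of_mem l (mem_univ l)]
      · apply sum_congr rfl
        intro r _
        rw [E.symm_apply_apply, if_pos rfl, hδsq, mul_one]
      · intro k _ hk
        apply sum_eq_zero
        intro r _
        rw [E.symm_apply_apply, if_neg hk]; ring
    rw [h3, E.symm_apply_apply, E.symm_apply_apply] at h2
    rw [h2]
    by_cases hjl : j = l
    · rw [if_pos hjl, if_pos hjl, hδsq, hδsq]; ring
    · rw [if_neg hjl, if_neg hjl]; ring
  have hSL : ∀ l ∈ L, ∃ t : ℤ, ∃ n : I → ℤ, ∀ j, S l j = t + q j * ∑ i, n i * a i j := by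
    intro l hl
    have hl' := hL hl
    refine AddSubgroup.closure_induction (p := fun l _ => ∃ t : ℤ, ∃ n : I → ℤ,
      ∀ j, S l j = t + q j * ∑ i, n i * a i j) ?_ ?_ ?_ ?_ hl'
    · rintro x ((rfl | ⟨j, s, hs, rfl⟩) | ⟨i, rfl⟩)
      · exact ⟨-1, 0, fun j => by rw [hSc]; simp⟩
      · exact ⟨0, 0, fun l => by rw [hSv j s hs l]; simp⟩
      · refine ⟨0, Pi.single i 1, fun j => ?_⟩
        rw [hSw, sum_eq_single_of_mem i (mem_univ i)]
        · rw [Pi.single_eq_same]; ring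
        · intro l _ hl
          rw [Pi.single_eq_of_ne hl]; ring
    · exact ⟨0, 0, fun j => by simp⟩
    · rintro x y _ _ ⟨t, n, h1⟩ ⟨t', n', h2⟩
      refine ⟨t + t', n + n', fun j => ?_⟩
      rw [map_add, Pi.add_apply, h1, h2]
      simp only [Pi.add_apply, add_mul, sum_add_distrib]
      ring
    · rintro x _ ⟨t, n, h1⟩
      refine ⟨-t, -n, fun j => ?_⟩
      rw [map_neg, Pi.neg_apply, h1]
      simp only [Pi.neg_apply, neg_mul, sum_neg_distrib]
      ring
  refine ⟨a, hqo, hpo, ?_, ?_, ?_, hc, ?_⟩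
  · intro i
    have h1 := hrow i
    simp only [hγ0, mul_zero, sub_zero, mul_one] at h1
    exact h1
  · intro i
    rw [← hbil, hp]
  · intro i l hil
    rw [← hbil]
    exact h.ww i l hil
  · intro x
    obtain ⟨e, he, l, hl, hx⟩ := hcov
      (fun t => δ (E.symm t) * (if ((E.symm t).2 : ℕ) = 0 then 2 * x (E.symm t).1 - 1 else -1))
      (by
        intro t
        have h1 : Odd (δ (E.symm t)) := by
          rcases hδ (E.symm t) with h | h <;> rw [h]
          · exact odd_one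
          · exact odd_neg_one
        apply h1.mul
        split_ifs
        · exact ⟨x (E.symm t).1 - 1, by ring⟩
        · exact odd_neg_one)
    obtain ⟨t, n, hSl⟩ := hSL l hl
    -- block sums of both sides
    have h1 : ∀ j, 2 * x j - q j = S e j + 2 * S l j := by
      intro j
      have h2 := congrFun (congrArg S hx) j
      rw [map_add, map_nsmul, Pi.add_apply, Pi.smul_apply] at h2
      rw [hSdef] at h2
      have h3 : ∀ s : Fin (q j), δ ⟨j, s⟩ * (δ (E.symm (E ⟨j, s⟩)) *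
          (if ((E.symm (E ⟨j, s⟩)).2 : ℕ) = 0 then 2 * x (E.symm (E ⟨j, s⟩)).1 - 1 else -1)) =
          (if (s : ℕ) = 0 then 2 * x j else 0) - 1 := by
        intro s
        rw [E.symm_apply_apply, ← mul_assoc, hδsq, one_mul]
        simp only
        split_ifs <;> ring
      rw [sum_congr rfl fun s _ => h3 s, sum_sub_distrib,
        sum_eq_single_of_mem (⟨0, hq0 j⟩ : Fin (q j)) (mem_univ _)] at h2
      · rw [if_pos rfl, sum_const, card_univ, Fintype.card_fin, nsmul_eq_mul, mul_one] at h2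
        rw [h2]
        simp
      · intro s _ hs
        rw [if_neg]
        intro h0
        exact hs (Fin.ext h0)
    -- the number of `+1` in a block
    have h4 : ∀ j, ∃ b : ℤ, 0 ≤ b ∧ b ≤ q j ∧ S e j = 2 * b - q j := by
      intro j
      have h5 : ∀ s : Fin (q j), δ ⟨j, s⟩ * e (E ⟨j, s⟩) =
          2 * (if δ ⟨j, s⟩ * e (E ⟨j, s⟩) = 1 then 1 else 0) - 1 := by
        intro s
        rcases hδ ⟨j, s⟩ with h | h <;> rcases he (E ⟨j, s⟩) with h' | h' <;> rw [h, h'] <;>
          norm_num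
      refine ⟨∑ s : Fin (q j), if δ ⟨j, s⟩ * e (E ⟨j, s⟩) = 1 then 1 else 0, ?_, ?_, ?_⟩
      · apply sum_nonneg
        intro s _
        split_ifs <;> norm_num
      · calc ∑ s : Fin (q j), (if δ ⟨j, s⟩ * e (E ⟨j, s⟩) = 1 then (1 : ℤ) else 0)
            ≤ ∑ _s : Fin (q j), (1 : ℤ) := by
              apply sum_le_sum
              intro s _
              split_ifs <;> norm_num
          _ = q j := by simp
      · rw [hSdef, sum_congr rfl fun s _ => h5 s, sum_sub_distrib, ← mul_sum]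
        simp
    choose b hb0 hb1 hb2 using h4
    refine ⟨b, fun j => ⟨hb0 j, hb1 j⟩, t, n, fun j => ?_⟩
    have h6 := h1 j
    rw [hb2 j, hSl j] at h6
    linarith

end

end Pool.Agent.H754.Pretzel
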