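import Pool.Agent.H754.Pretzel.Rows

/-!
The index of the lattice spanned by `(1, …, 1)` and the rows `q_j a_{ij}`, and the number of points of
a box.
-/

namespace Pool.Agent.H754.Pretzel

open Finset Matrix

theorem exists_matching {I J : Type} [Fintype I] [Fintype J] [DecidableEq I] [DecidableEq J]
    (q : J → ℕ) (hq : ∀ j, 0 < q j) (a : I → J → ℤ) (h1 : ∀ i, ∑ j, a i j = 1)
    (ho : ∀ i l, i ≠ l → ∑ j, (q j : ℤ) * a i j * a l j = 0)
    (hu : ∀ i j, a i ≠ Pi.single j 1) (j₀ : J) :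
    ∃ f : I → J, Function.Injective f ∧ ∀ i, a i (f i) ≠ 0 ∧ f i ≠ j₀ := by
  have h := (Finset.all_card_le_biUnion_card_iff_exists_injective
    (fun i : I => univ.filter fun j : J => a i j ≠ 0 ∧ j ≠ j₀)).1 ?_
  · obtain ⟨f, hf, hf'⟩ := h
    refine ⟨f, hf, fun i => ?_⟩
    have := hf' i
    simpa using this
  · intro S
    rcases S.eq_empty_or_nonempty with rfl | hS
    · simp
    have h2 := square_lemma q hq a h1 ho hu S hS (S.biUnion fun i => univ.filter fun j => a i j ≠ 0)
      (by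
        intro i hi j hj
        rw [mem_biUnion]
        exact ⟨i, hi, by simpa using hj⟩)
    have h3 : (S.biUnion fun i => univ.filter fun j => a i j ≠ 0).erase j₀ ⊆
        S.biUnion fun i => univ.filter fun j => a i j ≠ 0 ∧ j ≠ j₀ := by
      intro j hj
      rw [mem_erase, mem_biUnion] at hj
      obtain ⟨hj0, i, hi, hj⟩ := hj
      rw [mem_biUnion]
      refine ⟨i, hi, ?_⟩
      rw [mem_filter] at hj ⊢
      exact ⟨hj.1, hj.2, hj0⟩
    have h4 := card_le_card h3
    have h5 := pred_card_le_card_erase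
      (s := S.biUnion fun i => univ.filter fun j => a i j ≠ 0) (a := j₀)
    omega

/-- The index of the row lattice of a nonsingular matrix, bounded by the number of elements of a set
meeting each coset. -/
theorem det_le_card {K : Type} [Fintype K] [DecidableEq K] (N : Matrix K K ℤ) (hN : N.det ≠ 0)
    (T : Finset (K → ℤ)) (hT : ∀ x : K → ℤ, ∃ b ∈ T, ∃ c : K → ℤ, x = b + c ᵥ* N) :
    N.det.natAbs ≤ T.card := by
  let f : (K → ℤ) →ₗ[ℤ] (K → ℤ) := Matrix.toLin' Nᵀ
  have hf : ∀ c, f c = c ᵥ* N := fun c => by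
    simp only [f, Matrix.toLin'_apply, Matrix.mulVec_transpose]
  have hinj : Function.Injective f := by
    intro c d h
    rw [hf, hf] at h
    have h2 : (c - d) ᵥ* N = 0 := by rw [Matrix.sub_vecMul, h, sub_self]
    exact sub_eq_zero.1 (Matrix.eq_zero_of_vecMul_eq_zero hN h2)
  let e := LinearEquiv.ofInjective f hinj
  have h1 := Submodule.natAbs_det_equiv (LinearMap.range f) e
  have h2 : (LinearMap.range f).subtype ∘ₗ
      AddMonoidHom.toIntLinearMap (e : (K → ℤ) →+ LinearMap.range f) = f := by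
    ext c j
    rfl
  rw [h2] at h1
  have h3 : LinearMap.det f = N.det := by
    simp only [f]
    rw [LinearMap.det_toLin', Matrix.det_transpose]
  rw [h3] at h1
  rw [h1]
  let g : T → (K → ℤ) ⧸ LinearMap.range f := fun b => Submodule.Quotient.mk (b : K → ℤ)
  have hg : Function.Surjective g := by
    intro y
    obtain ⟨x, rfl⟩ := Submodule.Quotient.mk_surjective _ y
    obtain ⟨b, hb, c, hx⟩ := hT x
    refine ⟨⟨b, hb⟩, ?_⟩
    simp only [g]
    rw [Submodule.Quotient.eq]
    rw [LinearMap.mem_range]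
    refine ⟨-c, ?_⟩
    rw [hf, Matrix.neg_vecMul, hx]
    abel
  have h4 := Nat.card_le_card_of_surjective g hg
  have h5 : Nat.card T = T.card := by simp
  rw [h5] at h4
  exact h4

/-- The determinant of the rows `(1, …, 1)` and `q_j a_{ij}`. -/
theorem det_sq {I J : Type} [Fintype I] [Fintype J] [DecidableEq I] [DecidableEq J]
    (q : J → ℕ) (hq : ∀ j, 0 < q j) (a : I → J → ℤ) (h1 : ∀ i, ∑ j, a i j = 1)
    (ho : ∀ i l, i ≠ l → ∑ j, (q j : ℤ) * a i j * a l j = 0) (hp : ∀ i, nrm q (a i) ≠ 0)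
    (e : Unit ⊕ I ≃ J) (N : Matrix (Unit ⊕ I) (Unit ⊕ I) ℤ)
    (hN1 : ∀ s, N (Sum.inl ()) s = 1) (hN2 : ∀ i s, N (Sum.inr i) s = q (e s) * a i (e s)) :
    (N.det : ℝ) ^ 2 = (∏ j, (q j : ℝ)) * (∏ i, (nrm q (a i) : ℝ)) *
      (∑ j, 1 / (q j : ℝ) - ∑ i, 1 / (nrm q (a i) : ℝ)) := by
  have hqr : ∀ j, (q j : ℝ) ≠ 0 := fun j => by
    have := hq j
    positivity
  have hpr : ∀ i, (nrm q (a i) : ℝ) ≠ 0 := fun i => by exact_mod_cast hp i
  let Nr : Matrix (Unit ⊕ I) (Unit ⊕ I) ℝ := N.map (Int.cast : ℤ → ℝ)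
  let Dq : Matrix (Unit ⊕ I) (Unit ⊕ I) ℝ := diagonal fun s => 1 / (q (e s) : ℝ)
  let P : Matrix I I ℝ := diagonal fun i => (nrm q (a i) : ℝ)
  have hdet : Nr.det = (N.det : ℝ) := by
    have := RingHom.map_det (Int.castRingHom ℝ) N
    simp only [Int.coe_castRingHom] at this
    rw [this]
    rfl
  let A₀ : Matrix Unit Unit ℝ := Matrix.of fun _ _ => ∑ j, 1 / (q j : ℝ)
  let B₀ : Matrix Unit I ℝ := Matrix.of fun _ _ => 1
  let C₀ : Matrix I Unit ℝ := Matrix.of fun _ _ => 1
  have hG : Nr * Dq * Nrᵀ = fromBlocks A₀ B₀ C₀ P := by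
    ext r s
    rw [Matrix.mul_apply]
    have h2 : ∀ t, (Nr * Dq) r t * Nrᵀ t s = Nr r t * (1 / (q (e t) : ℝ)) * Nr s t := by
      intro t
      rw [Matrix.mul_diagonal, Matrix.transpose_apply]
    rw [sum_congr rfl fun t _ => h2 t]
    rcases r with ⟨⟩ | i
    · rcases s with ⟨⟩ | l
      · simp only [Nr, Matrix.map_apply, hN1]
        change _ = ∑ j, 1 / (q j : ℝ)
        rw [← e.sum_comp]
        apply sum_congr rfl
        intro t _
        norm_num
      · simp only [Nr, Matrix.map_apply, hN1, hN2]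
        have h3 : ∑ t, ((1 : ℤ) : ℝ) * (1 / (q (e t) : ℝ)) * (((q (e t) : ℤ) * a l (e t) : ℤ) : ℝ) =
            ∑ t, (a l (e t) : ℝ) := by
          apply sum_congr rfl
          intro t _
          push_cast
          have := hqr (e t)
          field_simp
        rw [h3, e.sum_comp fun j => (a l j : ℝ)]
        change _ = (1 : ℝ)
        exact_mod_cast h1 l
    · rcases s with ⟨⟩ | l
      · simp only [Nr, Matrix.map_apply, hN1, hN2]
        have h3 : ∑ t, (((q (e t) : ℤ) * a i (e t) : ℤ) : ℝ) * (1 / (q (e t) : ℝ)) * ((1 : ℤ) : ℝ) =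
            ∑ t, (a i (e t) : ℝ) := by
          apply sum_congr rfl
          intro t _
          push_cast
          have := hqr (e t)
          field_simp
        rw [h3, e.sum_comp fun j => (a i j : ℝ)]
        change _ = (1 : ℝ)
        exact_mod_cast h1 i
      · simp only [Nr, Matrix.map_apply, hN2]
        have h3 : ∑ t, (((q (e t) : ℤ) * a i (e t) : ℤ) : ℝ) * (1 / (q (e t) : ℝ)) *
            (((q (e t) : ℤ) * a l (e t) : ℤ) : ℝ) =
            ∑ t, (q (e t) : ℝ) * (a i (e t) : ℝ) * (a l (e t) : ℝ) := by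
          apply sum_congr rfl
          intro t _
          push_cast
          have := hqr (e t)
          field_simp
        rw [h3, e.sum_comp fun j => (q j : ℝ) * (a i j : ℝ) * (a l j : ℝ)]
        change _ = P i l
        by_cases hil : i = l
        · subst hil
          simp only [P, diagonal_apply_eq]
          unfold nrm
          push_cast
          apply sum_congr rfl
          intro j _
          ring
        · simp only [P, diagonal_apply_ne _ hil]
          exact_mod_cast ho i l hil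
  have hdetG : (Nr * Dq * Nrᵀ).det = (N.det : ℝ) ^ 2 * ∏ j, 1 / (q j : ℝ) := by
    rw [Matrix.det_mul, Matrix.det_mul, Matrix.det_transpose, hdet]
    simp only [Dq, det_diagonal]
    rw [e.prod_comp fun j => 1 / (q j : ℝ)]
    ring
  have hPi : P * (diagonal fun i => 1 / (nrm q (a i) : ℝ)) = 1 := by
    simp only [P]
    rw [diagonal_mul_diagonal, ← diagonal_one]
    congr 1
    ext i
    have := hpr i
    field_simp
  have hPi' : (diagonal fun i => 1 / (nrm q (a i) : ℝ)) * P = 1 := by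
    simp only [P]
    rw [diagonal_mul_diagonal, ← diagonal_one]
    congr 1
    ext i
    have := hpr i
    field_simp
  let _ : Invertible P := ⟨diagonal fun i => 1 / (nrm q (a i) : ℝ), hPi', hPi⟩
  have hinv : ⅟P = diagonal fun i => 1 / (nrm q (a i) : ℝ) := rfl
  have h7 : P.det = ∏ i, (nrm q (a i) : ℝ) := det_diagonal
  rw [hG, det_fromBlocks₂₂, hinv, h7, det_unique (A₀ - _), Matrix.sub_apply] at hdetG
  have h4 : (B₀ * (diagonal fun i => 1 / (nrm q (a i) : ℝ)) * C₀) default default =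
      ∑ i, 1 / (nrm q (a i) : ℝ) := by
    rw [Matrix.mul_apply]
    apply sum_congr rfl
    intro i _
    rw [Matrix.mul_diagonal]
    simp only [B₀, C₀, Matrix.of_apply]
    ring
  have h6 : A₀ default default = ∑ j, 1 / (q j : ℝ) := rfl
  rw [h4, h6] at hdetG
  have h5 : (∏ j, (q j : ℝ)) * ∏ j, 1 / (q j : ℝ) = 1 := by
    rw [← prod_mul_distrib]
    apply prod_eq_one
    intro j _
    have := hqr j
    field_simp
  calc (N.det : ℝ) ^ 2 = (N.det : ℝ) ^ 2 * ((∏ j, (q j : ℝ)) * ∏ j, 1 / (q j : ℝ)) := by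
        rw [h5, mul_one]
    _ = (∏ j, (q j : ℝ)) * ((N.det : ℝ) ^ 2 * ∏ j, 1 / (q j : ℝ)) := by ring
    _ = _ := by rw [← hdetG]; ring

end Pool.Agent.H754.Pretzel
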