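import Pool.Agent.H754.Pretzel.Flow

/-!
Covering systems: several stars, rows and an additional lattice.
-/

set_option linter.unusedSectionVars false

namespace Pool.Agent.H754.Pretzel

open Finset

/-- The reduced data of several stars `A` with columns `J`, leaves `R` (rows `a`) and an additional
lattice `N`. -/
structure Cov {A J R : Type} [Fintype A] [Fintype J] [Fintype R] [DecidableEq A] [DecidableEq J]
    [DecidableEq R] (st : J → A) (q : J → ℕ) (lf : R → A) (a : R → J → ℤ)
    (N : AddSubgroup (J → ℤ)) : Prop where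
  q3 : ∀ j, 3 ≤ q j
  a1 : ∀ i α, ∑ j ∈ univ.filter (fun j => st j = α), a i j = if lf i = α then 1 else 0
  a2 : ∀ i l, i ≠ l → bil q (a i) (a l) = 0
  n1 : N ≤ flow st
  an : ∀ i, ∀ x ∈ N, bil q (a i) x = 0
  wp : ∀ α, ∑ i ∈ univ.filter (fun i => lf i = α), 1 / (bil q (a i) (a i) : ℚ) <
    ∑ j ∈ univ.filter (fun j => st j = α), 1 / (q j : ℚ)
  cov : ∀ x : J → ℤ, ∃ b : J → ℤ, (∀ j, 0 ≤ b j ∧ b j ≤ q j) ∧ ∃ t : A → ℤ, ∃ n : R → ℤ, ∃ y ∈ N,
    ∀ j, x j = b j + t (st j) + q j * (∑ i, n i * a i j + y j)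
  cd : ∀ α, (univ.filter fun i => lf i = α).card + 1 ≤ (univ.filter fun j => st j = α).card

section

variable {A J R : Type} [Fintype A] [Fintype J] [Fintype R] [DecidableEq A] [DecidableEq J]
  [DecidableEq R]

/-- the vector of a column -/
def vec (st : J → A) (q : J → ℕ) (lf : R → A) (a : R → J → ℤ) (j : J) (β : A) : ℚ :=
  (if st j = β then 1 else 0) -
    ∑ i ∈ univ.filter (fun i => lf i = β), (q j : ℚ) * a i j / (bil q (a i) (a i) : ℚ)

/-- the weight of a column -/
def gg (q : J → ℕ) (a : R → J → ℤ) (j : J) : ℚ :=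
  ∑ i, (q j : ℚ) * (a i j : ℚ) ^ 2 / (bil q (a i) (a i) : ℚ)

variable {st : J → A} {q : J → ℕ} {lf : R → A} {a : R → J → ℤ} {N : AddSubgroup (J → ℤ)}

theorem bil_cast (x y : J → ℤ) : (bil q x y : ℚ) = ∑ j, (q j : ℚ) * x j * y j := by
  unfold bil
  push_cast
  rfl

theorem bil_comm (x y : J → ℤ) : bil q x y = bil q y x := by
  unfold bil
  exact sum_congr rfl fun j _ => by ring

theorem Cov.row_ne (h : Cov st q lf a N) (i : R) : a i ≠ 0 := by
  intro h0
  have := h.a1 i (lf i)
  rw [h0, if_pos rfl] at this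
  simp at this

theorem Cov.qpos (h : Cov st q lf a N) (j : J) : 0 < q j := by have := h.q3 j; omega

theorem bil_nonneg (x : J → ℤ) : 0 ≤ bil q x x := by
  unfold bil
  apply sum_nonneg
  intro j _
  have : (q j : ℤ) * x j * x j = (q j : ℤ) * (x j) ^ 2 := by ring
  rw [this]; positivity

theorem Cov.ppos (h : Cov st q lf a N) (i : R) : 0 < bil q (a i) (a i) := by
  rcases (bil_nonneg (q := q) (a i)).lt_or_eq with h1 | h1
  · exact h1
  · exact absurd (bil_pos h.qpos h1.symm) (h.row_ne i)

theorem Cov.pposQ (h : Cov st q lf a N) (i : R) : (0 : ℚ) < (bil q (a i) (a i) : ℚ) := by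
  exact_mod_cast h.ppos i

/-- the functionals vanish on the rows -/
theorem Cov.row_vec (h : Cov st q lf a N) (l : R) (β : A) :
    ∑ j, (a l j : ℚ) * vec st q lf a j β = 0 := by
  unfold vec
  simp only [mul_sub, sum_sub_distrib, mul_sum]
  rw [sum_comm]
  have h1 : ∑ j, (a l j : ℚ) * (if st j = β then 1 else 0) = if lf l = β then 1 else 0 := by
    have := h.a1 l β
    rw [sum_filter] at this
    have h2 : ((∑ j, if st j = β then a l j else 0 : ℤ) : ℚ) = ((if lf l = β then 1 else 0 : ℤ) : ℚ) := by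
      rw [this]
    push_cast at h2
    rw [← h2]
    apply sum_congr rfl
    intro j _
    split_ifs <;> simp
  have h2 : ∀ i, ∑ j, (a l j : ℚ) * ((q j : ℚ) * a i j / (bil q (a i) (a i) : ℚ)) =
      if i = l then 1 else 0 := by
    intro i
    have h3 : ∑ j, (a l j : ℚ) * ((q j : ℚ) * a i j / (bil q (a i) (a i) : ℚ)) =
        (bil q (a i) (a l) : ℚ) / (bil q (a i) (a i) : ℚ) := by
      rw [bil_cast (a i) (a l), sum_div]
      apply sum_congr rfl
      intro j _
      ring
    rw [h3]
    by_cases hi : i = l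
    · rw [if_pos hi, hi, div_self (h.pposQ l).ne']
    · rw [if_neg hi, h.a2 i l hi]; simp
  rw [h1, sum_congr rfl fun i _ => h2 i, sum_filter]
  by_cases hl : lf l = β
  · rw [if_pos hl, sum_eq_single_of_mem l (mem_univ l)]
    · rw [if_pos hl, if_pos rfl]; norm_num
    · intro i _ hi
      rw [if_neg hi]; simp
  · rw [if_neg hl, sum_eq_zero]
    · norm_num
    · intro i _
      by_cases hi : i = l
      · rw [hi, if_neg hl]
      · rw [if_neg hi]; simp

/-- the functionals vanish on `N` -/
theorem Cov.n_vec (h : Cov st q lf a N) (x : J → ℤ) (hx : x ∈ N) (β : A) :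
    ∑ j, (x j : ℚ) * vec st q lf a j β = 0 := by
  unfold vec
  simp only [mul_sub, sum_sub_distrib, mul_sum]
  rw [sum_comm]
  have h1 : ∑ j, (x j : ℚ) * (if st j = β then 1 else 0) = 0 := by
    have := h.n1 hx β
    rw [sum_filter] at this
    have h2 : ((∑ j, if st j = β then x j else 0 : ℤ) : ℚ) = 0 := by
      rw [this]; rfl
    push_cast at h2
    refine Eq.trans ?_ h2
    apply sum_congr rfl
    intro j _
    split_ifs <;> simp
  have h2 : ∀ i, ∑ j, (x j : ℚ) * ((q j : ℚ) * a i j / (bil q (a i) (a i) : ℚ)) = 0 := by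
    intro i
    have h3 : ∑ j, (x j : ℚ) * ((q j : ℚ) * a i j / (bil q (a i) (a i) : ℚ)) =
        (bil q (a i) x : ℚ) / (bil q (a i) (a i) : ℚ) := by
      rw [bil_cast (a i) x, sum_div]
      apply sum_congr rfl
      intro j _
      ring
    rw [h3, h.an i x hx]
    simp
  rw [h1, sum_congr rfl fun i _ => h2 i]
  simp

/-- the weighted sum of the vectors of a star -/
theorem Cov.sum_vec (h : Cov st q lf a N) (α β : A) (hαβ : α ≠ β) :
    ∑ j ∈ univ.filter (fun j => st j = α), vec st q lf a j β / q j = 0 := by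
  unfold vec
  simp only [sub_div, sum_sub_distrib, sum_div]
  rw [sum_comm]
  have h1 : ∑ j ∈ univ.filter (fun j => st j = α), (if st j = β then (1 : ℚ) else 0) / q j = 0 := by
    apply sum_eq_zero
    intro j hj
    rw [mem_filter] at hj
    rw [if_neg (fun h' => hαβ (hj.2.symm.trans h')), zero_div]
  have h2 : ∑ i ∈ univ.filter (fun i => lf i = β), ∑ j ∈ univ.filter (fun j => st j = α),
      (q j : ℚ) * a i j / (bil q (a i) (a i) : ℚ) / q j = 0 := by
    apply sum_eq_zero
    intro i hi
    rw [mem_filter] at hi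
    have h3 : ∑ j ∈ univ.filter (fun j => st j = α),
        (q j : ℚ) * a i j / (bil q (a i) (a i) : ℚ) / q j =
        (∑ j ∈ univ.filter (fun j => st j = α), (a i j : ℚ)) / (bil q (a i) (a i) : ℚ) := by
      rw [sum_div]
      apply sum_congr rfl
      intro j _
      have h4 : (q j : ℚ) ≠ 0 := by have := h.qpos j; positivity
      field_simp
    rw [h3]
    have h4 := h.a1 i α
    rw [if_neg (fun h' => hαβ (h'.symm.trans hi.2))] at h4
    have h5 : ∑ j ∈ univ.filter (fun j => st j = α), (a i j : ℚ) = 0 := by exact_mod_cast h4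
    rw [h5, zero_div]
  rw [h1, h2, sub_zero]

theorem Cov.sum_vec_pos (h : Cov st q lf a N) (α : A) :
    0 < ∑ j ∈ univ.filter (fun j => st j = α), vec st q lf a j α / q j := by
  unfold vec
  simp only [sub_div, sum_sub_distrib, sum_div]
  rw [sum_comm]
  have h1 : ∑ j ∈ univ.filter (fun j => st j = α), (if st j = α then (1 : ℚ) else 0) / q j =
      ∑ j ∈ univ.filter (fun j => st j = α), 1 / (q j : ℚ) := by
    apply sum_congr rfl
    intro j hj
    rw [mem_filter] at hj
    rw [if_pos hj.2]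
  have h2 : ∑ i ∈ univ.filter (fun i => lf i = α), ∑ j ∈ univ.filter (fun j => st j = α),
      (q j : ℚ) * a i j / (bil q (a i) (a i) : ℚ) / q j =
      ∑ i ∈ univ.filter (fun i => lf i = α), 1 / (bil q (a i) (a i) : ℚ) := by
    apply sum_congr rfl
    intro i hi
    rw [mem_filter] at hi
    have h3 : ∑ j ∈ univ.filter (fun j => st j = α),
        (q j : ℚ) * a i j / (bil q (a i) (a i) : ℚ) / q j =
        (∑ j ∈ univ.filter (fun j => st j = α), (a i j : ℚ)) / (bil q (a i) (a i) : ℚ) := by
      rw [sum_div]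
      apply sum_congr rfl
      intro j _
      have h4 : (q j : ℚ) ≠ 0 := by have := h.qpos j; positivity
      field_simp
    rw [h3]
    have h4 := h.a1 i α
    rw [if_pos hi.2] at h4
    have h5 : ∑ j ∈ univ.filter (fun j => st j = α), (a i j : ℚ) = 1 := by exact_mod_cast h4
    rw [h5]
  rw [h1, h2]
  have := h.wp α
  linarith

/-- some vector of each star is different from zero -/
theorem Cov.exists_vec (h : Cov st q lf a N) (α : A) :
    ∃ j, st j = α ∧ vec st q lf a j ≠ 0 := by
  by_contra hcon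
  push Not at hcon
  have h1 := h.sum_vec_pos α
  rw [sum_eq_zero] at h1
  · exact lt_irrefl _ h1
  · intro j hj
    rw [mem_filter] at hj
    rw [hcon j hj.2]; simp

/-- the residual of a basis vector -/
def res (q : J → ℕ) (a : R → J → ℤ) (j l : J) : ℚ :=
  (if l = j then 1 else 0) - ∑ i, (q j : ℚ) * a i j / (bil q (a i) (a i) : ℚ) * a i l

theorem Cov.res_row (h : Cov st q lf a N) (j : J) (k : R) :
    ∑ l, (q l : ℚ) * res q a j l * a k l = 0 := by
  unfold res
  have h1 : ∀ l, (q l : ℚ) * ((if l = j then 1 else 0) -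
      ∑ i, (q j : ℚ) * a i j / (bil q (a i) (a i) : ℚ) * a i l) * a k l =
      (if l = j then (q j : ℚ) * a k j else 0) -
        ∑ i, (q j : ℚ) * a i j / (bil q (a i) (a i) : ℚ) * ((q l : ℚ) * a i l * a k l) := by
    intro l
    rw [mul_sub, sub_mul, mul_sum, sum_mul]
    congr 1
    · split_ifs with hl
      · rw [hl]; ring
      · ring
    · exact sum_congr rfl fun i _ => by ring
  rw [sum_congr rfl fun l _ => h1 l, sum_sub_distrib, sum_ite_eq' univ, if_pos (mem_univ j),
    sum_comm]
  have h2 : ∀ i, ∑ l, (q j : ℚ) * a i j / (bil q (a i) (a i) : ℚ) * ((q l : ℚ) * a i l * a k l) =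
      if i = k then (q j : ℚ) * a k j else 0 := by
    intro i
    rw [← mul_sum, ← bil_cast]
    by_cases hi : i = k
    · rw [if_pos hi, hi]
      have := (h.pposQ k).ne'
      field_simp
    · rw [if_neg hi, h.a2 i k hi]; simp
  rw [sum_congr rfl fun i _ => h2 i, sum_ite_eq' univ, if_pos (mem_univ k), sub_self]

theorem Cov.res_self (h : Cov st q lf a N) (j : J) :
    ∑ l, (q l : ℚ) * (res q a j l) ^ 2 = q j * (1 - gg q a j) := by
  have h1 : ∑ l, (q l : ℚ) * (res q a j l) ^ 2 = ∑ l, (q l : ℚ) * res q a j l *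
      (if l = j then 1 else 0) - ∑ i, (q j : ℚ) * a i j / (bil q (a i) (a i) : ℚ) *
        ∑ l, (q l : ℚ) * res q a j l * a i l := by
    have h2 : ∀ l, (q l : ℚ) * (res q a j l) ^ 2 = (q l : ℚ) * res q a j l *
      (if l = j then 1 else 0) - ∑ i, (q j : ℚ) * a i j / (bil q (a i) (a i) : ℚ) *
        ((q l : ℚ) * res q a j l * a i l) := by
      intro l
      have h3 : ∑ i, (q j : ℚ) * a i j / (bil q (a i) (a i) : ℚ) *
          ((q l : ℚ) * res q a j l * a i l) = (q l : ℚ) * res q a j l *
          ∑ i, (q j : ℚ) * a i j / (bil q (a i) (a i) : ℚ) * a i l := by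
        rw [mul_sum]
        exact sum_congr rfl fun i _ => by ring
      rw [h3, sq]
      nth_rewrite 2 [res]
      ring
    rw [sum_congr rfl fun l _ => h2 l, sum_sub_distrib, sum_comm]
    congr 1
    exact sum_congr rfl fun i _ => by rw [mul_sum]
  rw [h1]
  have h2 : ∑ i, (q j : ℚ) * a i j / (bil q (a i) (a i) : ℚ) *
        ∑ l, (q l : ℚ) * res q a j l * a i l = 0 := by
    apply sum_eq_zero
    intro i _
    rw [h.res_row j i, mul_zero]
  rw [h2, sub_zero]
  have h3 : ∀ l, (q l : ℚ) * res q a j l * (if l = j then 1 else 0) =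
      if l = j then (q j : ℚ) * res q a j j else 0 := by
    intro l
    split_ifs with hl
    · rw [hl, mul_one]
    · rw [mul_zero]
  rw [sum_congr rfl fun l _ => h3 l, sum_ite_eq' univ, if_pos (mem_univ j)]
  unfold res gg
  rw [if_pos rfl]
  congr 2
  exact sum_congr rfl fun i _ => by ring

theorem Cov.gg_le (h : Cov st q lf a N) (j : J) : gg q a j ≤ 1 := by
  have h1 := h.res_self j
  have h2 : 0 ≤ ∑ l, (q l : ℚ) * (res q a j l) ^ 2 := sum_nonneg fun l _ => by positivity
  have h3 : (0 : ℚ) < q j := by have := h.qpos j; positivity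
  rw [h1] at h2
  by_contra hcon
  push Not at hcon
  have : (q j : ℚ) * (1 - gg q a j) < 0 := mul_neg_of_pos_of_neg h3 (by linarith)
  linarith

/-- in the case of equality the basis vector is a combination of the rows -/
theorem Cov.gg_eq (h : Cov st q lf a N) (j : J) (hj : gg q a j = 1) (l : J) : res q a j l = 0 := by
  have h1 := h.res_self j
  rw [hj, sub_self, mul_zero, sum_eq_zero_iff_of_nonneg fun l _ => by positivity] at h1
  have h2 := h1 l (mem_univ l)
  have h3 : (q l : ℚ) ≠ 0 := by have := h.qpos l; positivity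
  rcases mul_eq_zero.1 h2 with h4 | h4
  · exact absurd h4 h3
  · exact pow_eq_zero_iff (two_ne_zero) |>.1 h4

/-- a vector orthogonal to the rows vanishes at the columns of weight one -/
theorem Cov.orth_zero (h : Cov st q lf a N) (j : J) (hj : gg q a j = 1) (u : J → ℚ)
    (hu : ∀ i, ∑ l, (q l : ℚ) * a i l * u l = 0) : u j = 0 := by
  have h1 : ∑ l, (q l : ℚ) * res q a j l * u l = (q j : ℚ) * u j := by
    unfold res
    have h2 : ∀ l, (q l : ℚ) * ((if l = j then 1 else 0) -
        ∑ i, (q j : ℚ) * a i j / (bil q (a i) (a i) : ℚ) * a i l) * u l =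
        (if l = j then (q j : ℚ) * u j else 0) -
          ∑ i, (q j : ℚ) * a i j / (bil q (a i) (a i) : ℚ) * ((q l : ℚ) * a i l * u l) := by
      intro l
      rw [mul_sub, sub_mul, mul_sum, sum_mul]
      congr 1
      · split_ifs with hl
        · rw [hl]; ring
        · ring
      · exact sum_congr rfl fun i _ => by ring
    rw [sum_congr rfl fun l _ => h2 l, sum_sub_distrib, sum_ite_eq' univ, if_pos (mem_univ j),
      sum_comm]
    have h3 : ∀ i, ∑ l, (q j : ℚ) * a i j / (bil q (a i) (a i) : ℚ) *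
        ((q l : ℚ) * a i l * u l) = 0 := by
      intro i
      rw [← mul_sum, hu i, mul_zero]
    rw [sum_congr rfl fun i _ => h3 i]
    simp
  have h2 : ∑ l, (q l : ℚ) * res q a j l * u l = 0 := by
    apply sum_eq_zero
    intro l _
    rw [h.gg_eq j hj l]; ring
  rw [h2] at h1
  have h3 : (q j : ℚ) ≠ 0 := by have := h.qpos j; positivity
  exact (mul_eq_zero.1 h1.symm).resolve_left h3

/-- dominance -/
theorem Cov.dom (h : Cov st q lf a N) (j : J) :
    ∑ β ∈ univ.erase (st j), |vec st q lf a j β| + (1 - gg q a j) ≤ vec st q lf a j (st j) := by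
  have hQ : (0 : ℚ) < q j := by have := h.qpos j; positivity
  have hterm : ∀ i, |(q j : ℚ) * a i j / (bil q (a i) (a i) : ℚ)| ≤
      (q j : ℚ) * (a i j : ℚ) ^ 2 / (bil q (a i) (a i) : ℚ) := by
    intro i
    rw [abs_div, abs_mul, abs_of_pos hQ, abs_of_pos (h.pposQ i)]
    apply div_le_div_of_nonneg_right _ (h.pposQ i).le
    apply mul_le_mul_of_nonneg_left _ hQ.le
    have h1 : |a i j| ≤ (a i j) ^ 2 := by
      rw [← sq_abs]
      exact Int.le_self_sq _
    have h2 : ((|a i j| : ℤ) : ℚ) ≤ (((a i j) ^ 2 : ℤ) : ℚ) := by exact_mod_cast h1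
    push_cast at h2
    exact h2
  have hsplit : gg q a j = ∑ β, ∑ i ∈ univ.filter (fun i => lf i = β),
      (q j : ℚ) * (a i j : ℚ) ^ 2 / (bil q (a i) (a i) : ℚ) := by
    unfold gg
    rw [← sum_fiberwise univ lf]
  have h1 : ∀ β ∈ univ.erase (st j), |vec st q lf a j β| ≤
      ∑ i ∈ univ.filter (fun i => lf i = β),
      (q j : ℚ) * (a i j : ℚ) ^ 2 / (bil q (a i) (a i) : ℚ) := by
    intro β hβ
    have hβ' : st j ≠ β := fun h' => (mem_erase.1 hβ).1 h'.symm
    unfold vec
    rw [if_neg hβ', zero_sub, abs_neg]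
    exact (abs_sum_le_sum_abs _ _).trans (sum_le_sum fun i _ => hterm i)
  have h2 : 1 - ∑ i ∈ univ.filter (fun i => lf i = st j),
      (q j : ℚ) * (a i j : ℚ) ^ 2 / (bil q (a i) (a i) : ℚ) ≤ vec st q lf a j (st j) := by
    unfold vec
    rw [if_pos rfl]
    have : ∑ i ∈ univ.filter (fun i => lf i = st j),
        (q j : ℚ) * a i j / (bil q (a i) (a i) : ℚ) ≤ ∑ i ∈ univ.filter (fun i => lf i = st j),
      (q j : ℚ) * (a i j : ℚ) ^ 2 / (bil q (a i) (a i) : ℚ) :=
      sum_le_sum fun i _ => (le_abs_self _).trans (hterm i)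
    linarith
  have h3 := sum_le_sum h1
  have h4 := add_sum_erase univ (fun β => ∑ i ∈ univ.filter (fun i => lf i = β),
      (q j : ℚ) * (a i j : ℚ) ^ 2 / (bil q (a i) (a i) : ℚ)) (mem_univ (st j))
  rw [hsplit, ← h4]
  linarith

theorem Cov.gg_lt (h : Cov st q lf a N) {j : J} (hj : vec st q lf a j ≠ 0) : gg q a j < 1 := by
  rcases (h.gg_le j).lt_or_eq with h1 | h1
  · exact h1
  · exfalso
    apply hj
    ext β
    have h2 := h.orth_zero j h1 (fun l => vec st q lf a l β / q l) (fun i => by
      rw [← h.row_vec i β]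
      apply sum_congr rfl
      intro l _
      have h3 : (q l : ℚ) ≠ 0 := by have := h.qpos l; positivity
      field_simp)
    have h3 : (q j : ℚ) ≠ 0 := by have := h.qpos j; positivity
    rcases div_eq_zero_iff.1 h2 with h4 | h4
    · exact h4
    · exact absurd h4 h3

theorem Cov.vec_pos (h : Cov st q lf a N) {j : J} (hj : vec st q lf a j ≠ 0) :
    0 < vec st q lf a j (st j) := by
  have h1 := h.dom j
  have h2 := h.gg_lt hj
  have h3 : 0 ≤ ∑ β ∈ univ.erase (st j), |vec st q lf a j β| := sum_nonneg fun _ _ => abs_nonneg _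
  linarith

/-- the columns with the vector zero -/
theorem Cov.zero_col (h : Cov st q lf a N) {j : J} (hj : vec st q lf a j = 0) :
    gg q a j = 1 ∧ (∀ i, lf i ≠ st j → a i j = 0) ∧ (∀ i, a i j = 0 ∨ a i j = 1) ∧
      ∀ x ∈ N, x j = 0 := by
  have hQ : (0 : ℚ) < q j := by have := h.qpos j; positivity
  have h1 := h.dom j
  rw [hj] at h1
  simp only [Pi.zero_apply, abs_zero, sum_const_zero, zero_add] at h1
  have hg : gg q a j = 1 := le_antisymm (h.gg_le j) (by linarith)
  have h2 := congrFun hj (st j)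
  unfold vec at h2
  rw [if_pos rfl, Pi.zero_apply] at h2
  -- the sum of the defects
  have h3 : ∑ i, (if lf i = st j then
      (q j : ℚ) * ((a i j : ℚ) ^ 2 - a i j) / (bil q (a i) (a i) : ℚ) else
      (q j : ℚ) * (a i j : ℚ) ^ 2 / (bil q (a i) (a i) : ℚ)) = 0 := by
    have h4 : ∀ i, (if lf i = st j then
      (q j : ℚ) * ((a i j : ℚ) ^ 2 - a i j) / (bil q (a i) (a i) : ℚ) else
      (q j : ℚ) * (a i j : ℚ) ^ 2 / (bil q (a i) (a i) : ℚ)) =
      (q j : ℚ) * (a i j : ℚ) ^ 2 / (bil q (a i) (a i) : ℚ) -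
        (if lf i = st j then (q j : ℚ) * a i j / (bil q (a i) (a i) : ℚ) else 0) := by
      intro i
      split_ifs
      · ring
      · ring
    rw [sum_congr rfl fun i _ => h4 i, sum_sub_distrib, ← sum_filter]
    have h5 : ∑ i, (q j : ℚ) * (a i j : ℚ) ^ 2 / (bil q (a i) (a i) : ℚ) = 1 := hg
    rw [h5]
    exact h2
  have hnn : ∀ i ∈ (univ : Finset R), 0 ≤ (if lf i = st j then
      (q j : ℚ) * ((a i j : ℚ) ^ 2 - a i j) / (bil q (a i) (a i) : ℚ) else
      (q j : ℚ) * (a i j : ℚ) ^ 2 / (bil q (a i) (a i) : ℚ)) := by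
    intro i _
    split_ifs
    · apply div_nonneg _ (h.pposQ i).le
      apply mul_nonneg hQ.le
      have h5 := Int.le_self_sq (a i j)
      have h6 : ((a i j : ℤ) : ℚ) ≤ (((a i j) ^ 2 : ℤ) : ℚ) := by exact_mod_cast h5
      push_cast at h6
      linarith
    · exact div_nonneg (by positivity) (h.pposQ i).le
  rw [sum_eq_zero_iff_of_nonneg hnn] at h3
  have hz : ∀ i, lf i ≠ st j → a i j = 0 := by
    intro i hi
    have h4 := h3 i (mem_univ i)
    rw [if_neg hi] at h4
    rcases div_eq_zero_iff.1 h4 with h5 | h5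
    · rcases mul_eq_zero.1 h5 with h6 | h6
      · exact absurd h6 hQ.ne'
      · have := pow_eq_zero_iff (two_ne_zero) |>.1 h6
        exact_mod_cast this
    · exact absurd h5 (h.pposQ i).ne'
  refine ⟨hg, hz, fun i => ?_, fun x hx => ?_⟩
  · by_cases hi : lf i = st j
    · have h4 := h3 i (mem_univ i)
      rw [if_pos hi] at h4
      rcases div_eq_zero_iff.1 h4 with h5 | h5
      · rcases mul_eq_zero.1 h5 with h6 | h6
        · exact absurd h6 hQ.ne'
        · have h7 : (a i j : ℚ) * (a i j - 1) = 0 := by linarith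
          rcases mul_eq_zero.1 h7 with h8 | h8
          · left; exact_mod_cast h8
          · right
            have : (a i j : ℚ) = 1 := by linarith
            exact_mod_cast this
      · exact absurd h5 (h.pposQ i).ne'
    · exact Or.inl (hz i hi)
  · have h4 := h.orth_zero j hg (fun l => (x l : ℚ)) (fun i => by
      rw [← bil_cast, h.an i x hx]; rfl)
    exact_mod_cast h4

/-- The separation lemma: a relation between the vectors with constant signs on each star is
trivial. -/
theorem Cov.sep (h : Cov st q lf a N) (ζ : J → ℚ)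
    (hs : ∀ α, (∀ j, st j = α → 0 ≤ ζ j) ∨ (∀ j, st j = α → ζ j ≤ 0))
    (h0 : ∀ β, ∑ j, ζ j * vec st q lf a j β = 0) (j : J) (hj : vec st q lf a j ≠ 0) : ζ j = 0 := by
  set v := vec st q lf a with hv
  have hvp : ∀ j, 0 ≤ v j (st j) := by
    intro j
    by_cases hj : v j = 0
    · rw [hj]; exact le_rfl
    · exact (h.vec_pos hj).le
  have h1 : ∀ β, ∑ j ∈ univ.filter (fun j => st j = β), |ζ j| * v j β ≤
      ∑ j ∈ univ.filter (fun j => st j ≠ β), |ζ j| * |v j β| := by
    intro β
    have h2 := h0 β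
    rw [← sum_filter_add_sum_filter_not univ (fun j => st j = β)] at h2
    have h3 : ∑ j ∈ univ.filter (fun j => st j = β), |ζ j| * v j β =
        |∑ j ∈ univ.filter (fun j => st j = β), ζ j * v j β| := by
      rcases hs β with hs | hs
      · rw [abs_of_nonneg]
        · apply sum_congr rfl
          intro j hj
          rw [mem_filter] at hj
          rw [abs_of_nonneg (hs j hj.2)]
        · apply sum_nonneg
          intro j hj
          rw [mem_filter] at hj
          apply mul_nonneg (hs j hj.2)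
          have := hvp j
          rwa [hj.2] at this
      · rw [abs_of_nonpos, ← sum_neg_distrib]
        · apply sum_congr rfl
          intro j hj
          rw [mem_filter] at hj
          rw [abs_of_nonpos (hs j hj.2)]
          ring
        · apply sum_nonpos
          intro j hj
          rw [mem_filter] at hj
          apply mul_nonpos_of_nonpos_of_nonneg (hs j hj.2)
          have := hvp j
          rwa [hj.2] at this
    rw [h3]
    have h4 : ∑ j ∈ univ.filter (fun j => st j = β), ζ j * v j β =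
        -∑ j ∈ univ.filter (fun j => ¬ st j = β), ζ j * v j β := by linarith
    rw [h4, abs_neg]
    refine (abs_sum_le_sum_abs _ _).trans (sum_le_sum fun j _ => ?_)
    rw [abs_mul]
  have h2 : ∑ j, |ζ j| * v j (st j) ≤ ∑ j, |ζ j| * ∑ β ∈ univ.erase (st j), |v j β| := by
    have h3 := sum_le_sum fun β (_ : β ∈ (univ : Finset A)) => h1 β
    have h4 : ∑ β, ∑ j ∈ univ.filter (fun j => st j = β), |ζ j| * v j β =
        ∑ j, |ζ j| * v j (st j) := by
      rw [← sum_fiberwise univ st (fun j => |ζ j| * v j (st j))]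
      apply sum_congr rfl
      intro β _
      apply sum_congr rfl
      intro j hj
      rw [mem_filter] at hj
      rw [hj.2]
    have h5 : ∑ β, ∑ j ∈ univ.filter (fun j => st j ≠ β), |ζ j| * |v j β| =
        ∑ j, |ζ j| * ∑ β ∈ univ.erase (st j), |v j β| := by
      simp only [sum_filter]
      rw [sum_comm]
      apply sum_congr rfl
      intro j _
      rw [mul_sum, ← sum_filter]
      apply sum_congr _ fun _ _ => rfl
      ext β
      rw [mem_filter, mem_erase]
      exact ⟨fun h => ⟨fun h' => h.2 h'.symm, mem_univ _⟩, fun h => ⟨mem_univ _, fun h' => h.1 h'.symm⟩⟩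
    rw [h4, h5] at h3
    exact h3
  have h3 : ∑ j, |ζ j| * (1 - gg q a j) ≤ 0 := by
    have h4 : ∑ j, |ζ j| * (1 - gg q a j) ≤ ∑ j, |ζ j| * (v j (st j) -
        ∑ β ∈ univ.erase (st j), |v j β|) := by
      apply sum_le_sum
      intro j _
      apply mul_le_mul_of_nonneg_left _ (abs_nonneg _)
      have := h.dom j
      linarith
    refine h4.trans ?_
    simp only [mul_sub, sum_sub_distrib]
    linarith
  have h4 : ∀ j ∈ (univ : Finset J), 0 ≤ |ζ j| * (1 - gg q a j) := fun j _ =>
    mul_nonneg (abs_nonneg _) (by linarith [h.gg_le j])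
  have h5 := (sum_eq_zero_iff_of_nonneg h4).1 (le_antisymm h3 (sum_nonneg h4)) j (mem_univ j)
  have h6 := h.gg_lt hj
  rcases mul_eq_zero.1 h5 with h7 | h7
  · exact abs_eq_zero.1 h7
  · linarith

end

end Pool.Agent.H754.Pretzel
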