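import Mathlib

/-!
# Plumbing lattices and Goeritz lattices of pretzel links

The double branched cover of the pretzel link `P(p₁, …, p_m, -q₁, …, -q_k)` bounds the plumbing with
the following tree: a centre of weight `-k`, for each `j` a chain of `q_j - 1` vertices of weight `-2`
attached to the centre, and for each `i` a leaf of weight `-p_i` attached to the centre. `Black` is
the set of vertices of a disjoint union of such trees and `blackForm` is its intersection form.

The double branched cover of the alternating pretzel link `P(r₁, …, r_n)` bounds a manifold whose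
intersection form is the Goeritz form of the checkerboard surface which consists of two discs joined
by the `n` twisted bands: it has `n - 1` generators of square `-(r_l + r_{l+1})`, neighbours having
the product `r_{l+1}`. `White` is the set of generators for several such links and `whiteForm` is
the form.
-/

set_option autoImplicit false

namespace Pool.Agent.H754.Pretzel

/-- The vertices of the plumbing trees: for each `α` a centre, `k α` chains with `q α j - 1` vertices
and `m α` leaves. -/
inductive Black {n : ℕ} (m k : Fin n → ℕ) (q : Fin n → ℕ → ℕ) : Type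
  | centre (α : Fin n) : Black m k q
  | chain (α : Fin n) (j : Fin (k α)) (s : Fin (q α j - 1)) : Black m k q
  | leaf (α : Fin n) (i : Fin (m α)) : Black m k q

/-- The intersection form of the disjoint union of the plumbing trees. -/
def blackForm {n : ℕ} (m k : Fin n → ℕ) (p q : Fin n → ℕ → ℕ) :
    Black m k q → Black m k q → ℤ
  | .centre α, .centre β => if α = β then -(k α : ℤ) else 0
  | .centre α, .chain β _ s => if α = β ∧ (s : ℕ) = 0 then 1 else 0
  | .chain β _ s, .centre α => if α = β ∧ (s : ℕ) = 0 then 1 else 0
  | .centre α, .leaf β _ => if α = β then 1 else 0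
  | .leaf β _, .centre α => if α = β then 1 else 0
  | .chain α j s, .chain β l r =>
      if α = β ∧ (j : ℕ) = l then
        if (s : ℕ) = r then -2 else if (s : ℕ) + 1 = r ∨ (r : ℕ) + 1 = s then 1 else 0
      else 0
  | .chain _ _ _, .leaf _ _ => 0
  | .leaf _ _, .chain _ _ _ => 0
  | .leaf α i, .leaf β l => if α = β ∧ (i : ℕ) = l then -(p α i : ℤ) else 0

/-- The generators of the Goeritz lattices: `k β - 1` generators for each sequence. -/
abbrev White {n : ℕ} (k : Fin n → ℕ) : Type := Σ β : Fin n, Fin (k β - 1)

/-- The form of these lattices. -/
def whiteForm {n : ℕ} (k : Fin n → ℕ) (r : Fin n → ℕ → ℕ) (x y : White k) : ℤ :=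
  if x.1 = y.1 then
    if (x.2 : ℕ) = y.2 then -((r x.1 x.2 : ℤ) + r x.1 (x.2 + 1))
    else if (x.2 : ℕ) + 1 = y.2 then r x.1 y.2
    else if (y.2 : ℕ) + 1 = x.2 then r x.1 x.2
    else 0
  else 0

end Pool.Agent.H754.Pretzel
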