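import Pool.Agent.H754.Pretzel.Defs
import Pool.Agent.H754.Pretzel.Combine
import Pool.Agent.H754.Pretzel.Torelli

/-!
The embedded stars of a disjoint union of plumbing trees, and the flows of theta graphs.
-/

set_option linter.unusedSectionVars false

namespace Pool.Agent.H754.Pretzel

open Finset Matrix

section

variable {n n' : ℕ} {m k : Fin n → ℕ} {p q : Fin n → ℕ → ℕ} {k' : Fin n' → ℕ} {q' : Fin n' → ℕ → ℕ}

/-- the index type of the columns -/
abbrev Col (k : Fin n → ℕ) : Type := Σ α : Fin n, Fin (k α)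

theorem card_fiber (k : Fin n → ℕ) (α : Fin n) :
    (univ.filter fun j : Col k => j.1 = α).card = k α := by
  rw [← Fintype.card_subtype]
  rw [Fintype.card_congr (Equiv.sigmaSubtype (β := fun a => Fin (k a)) α)]
  exact Fintype.card_fin _

/-- The stars of an embedding. -/
theorem blackStars {N : ℕ} (V : Black m k q → Fin N → ℤ)
    (hV : ∀ x y, -(V x ⬝ᵥ V y) = blackForm m k p q x y) (hq : ∀ α (j : Fin (k α)), 3 ≤ q α j) :
    ∃ (c : Fin n → Fin N → ℤ) (v : Col k → ℕ → Fin N → ℤ),
      Stars (fun j : Col k => j.1) (fun j : Col k => q j.1 j.2) c v ∧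
      (∀ α, c α = V (.centre α)) ∧
      (∀ (j : Col k) s, s < q j.1 j.2 - 1 → ∃ x, v j s = V x ∧ ∀ α i, blackForm m k p q x (.leaf α i) = 0) ∧
      ∀ α j s, V (.chain α j s) = v ⟨α, j⟩ s := by
  have hdot : ∀ x y, V x ⬝ᵥ V y = -blackForm m k p q x y := fun x y => by rw [← hV]; ring
  let v : Col k → ℕ → Fin N → ℤ := fun j s =>
    if h : s < q j.1 j.2 - 1 then V (.chain j.1 j.2 ⟨s, h⟩) else 0
  have hv : ∀ (j : Col k) s (h : s < q j.1 j.2 - 1), v j s = V (.chain j.1 j.2 ⟨s, h⟩) :=
    fun j s h => dif_pos h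
  refine ⟨fun α => V (.centre α), v, ?_, fun _ => rfl,
    fun j s hs => ⟨_, hv j s hs, fun α i => rfl⟩, fun α j s => (hv ⟨α, j⟩ s s.2).symm⟩
  refine ⟨?_, ?_, ?_, ?_, ?_, ?_, ?_, ?_⟩
  · intro α
    rw [hdot, card_fiber]; simp [blackForm]
  · intro j
    rw [hv j 0 (by have := hq j.1 j.2; omega), hdot]; simp [blackForm]
  · intro j α h
    rw [hv j 0 (by have := hq j.1 j.2; omega), hdot]
    simp only [blackForm]
    rw [if_neg]
    · rfl
    · rintro ⟨h', _⟩; exact h h'.symm
  · intro j α s h0 hs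
    rw [hv j s hs, hdot]; simp [blackForm, h0.ne']
  · intro j s hs
    rw [hv j s hs, hdot]; simp [blackForm]
  · intro j s hs
    rw [hv j s (by omega), hv j (s + 1) hs, hdot]; simp [blackForm]
  · intro j s r h hr
    rw [hv j s (by omega), hv j r hr, hdot]
    simp only [blackForm]
    rw [if_pos (by simp), if_neg (by omega), if_neg (by omega)]
    rfl
  · intro j l s r hjl hs hr
    rw [hv j s hs, hv l r hr, hdot]
    simp only [blackForm]
    rw [if_neg]
    · rfl
    · rintro ⟨h1, h2⟩
      apply hjl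
      obtain ⟨α, j⟩ := j
      obtain ⟨β, l⟩ := l
      simp only at h1 h2
      subst h1
      rw [Fin.ext h2]

/-- partial sums -/
def psum (k' : Fin n' → ℕ) (x : Col k' → ℤ) (β : Fin n') (i : ℕ) : ℤ :=
  ∑ l ∈ range (i + 1), if h : l < k' β then x ⟨β, ⟨l, h⟩⟩ else 0

/-- the root belonging to a generator -/
def gen (k' : Fin n' → ℕ) (y : White k') : Col k' → ℤ :=
  root ⟨y.1, ⟨y.2, by omega⟩⟩ ⟨y.1, ⟨y.2 + 1, by omega⟩⟩

theorem col_eq {β γ : Fin n'} {i : Fin (k' β)} {l : Fin (k' γ)} :
    ((⟨β, i⟩ : Col k') = ⟨γ, l⟩) ↔ β = γ ∧ (i : ℕ) = l := by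
  constructor
  · intro h
    obtain ⟨h1, h2⟩ := Sigma.mk.inj_iff.1 h
    subst h1
    rw [eq_of_heq h2]
    exact ⟨rfl, rfl⟩
  · rintro ⟨h1, h2⟩
    subst h1
    rw [Fin.ext h2]

theorem bil_gen (x y : White k') :
    bil (fun j : Col k' => q' j.1 j.2) (gen k' x) (gen k' y) = -whiteForm k' q' x y := by
  obtain ⟨β, i⟩ := x
  obtain ⟨γ, l⟩ := y
  have hi := i.2
  have hl := l.2
  unfold gen
  rw [bil_root, root_apply, root_apply]
  simp only [whiteForm, col_eq]
  by_cases h : β = γ
  · subst h
    simp only [true_and, if_true]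
    by_cases h1 : (i : ℕ) = l
    · have e1 : ¬ (i : ℕ) = l + 1 := by omega
      have e2 : ¬ (i : ℕ) + 1 = l := by omega
      have e3 : (i : ℕ) + 1 = l + 1 := by omega
      rw [if_pos h1, if_neg e1, if_neg e2, if_pos e3, if_pos h1]
      ring
    · by_cases h2 : (i : ℕ) + 1 = l
      · have e1 : ¬ (i : ℕ) = l + 1 := by omega
        have e3 : ¬ (i : ℕ) + 1 = l + 1 := by omega
        rw [if_neg h1, if_neg e1, if_pos h2, if_neg e3, if_neg h1, if_pos h2, h2]
        ring
      · by_cases h3 : (l : ℕ) + 1 = i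
        · have e3 : ¬ (i : ℕ) + 1 = l + 1 := by omega
          rw [if_neg h1, if_pos h3.symm, if_neg h2, if_neg e3, if_neg h1, if_neg h2, if_pos h3]
          ring
        · have e3 : ¬ (i : ℕ) + 1 = l + 1 := by omega
          rw [if_neg h1, if_neg (fun h => h3 h.symm), if_neg h2, if_neg e3, if_neg h1, if_neg h2,
            if_neg h3]
          ring
  · have h' : ¬ β = γ := h
    simp [h']

/-- a flow is a combination of the generators -/
theorem flow_eq (x : Col k' → ℤ) (hx : x ∈ flow (fun j : Col k' => j.1)) :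
    x = ∑ y : White k', psum k' x y.1 y.2 • gen k' y := by
  have hsum : ∀ β, ∑ l ∈ range (k' β), (if h : l < k' β then x ⟨β, ⟨l, h⟩⟩ else 0) = 0 := by
    intro β
    have h1 := hx β
    rw [sum_filter, Fintype.sum_sigma, sum_eq_single_of_mem β (mem_univ β)] at h1
    · simp only [if_true] at h1
      refine Eq.trans ?_ h1
      rw [← Fin.sum_univ_eq_sum_range (fun l => if h : l < k' β then x ⟨β, ⟨l, h⟩⟩ else 0)]
      apply sum_congr rfl
      intro i _
      rw [dif_pos i.2]
    · intro γ _ hγ
      simp only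
      apply sum_eq_zero
      intro i _
      rw [if_neg hγ]
  ext ⟨β, l⟩
  have hl := l.2
  rw [Finset.sum_apply, Fintype.sum_sigma, sum_eq_single_of_mem β (mem_univ β)]
  · have h2 : ∀ i : Fin (k' β - 1), (psum k' x β i • gen k' ⟨β, i⟩) ⟨β, l⟩ =
        (if (i : ℕ) = l then psum k' x β l else 0) -
          (if (i : ℕ) + 1 = l then psum k' x β (l - 1) else 0) := by
      intro i
      rw [Pi.smul_apply, smul_eq_mul, gen, root_apply]
      simp only [col_eq, true_and]
      by_cases c1 : (i : ℕ) = l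
      · have c2 : ¬ (i : ℕ) + 1 = l := by omega
        rw [if_pos c1.symm, if_neg (fun h => c2 h.symm), if_pos c1, if_neg c2, c1]
        ring
      · by_cases c2 : (i : ℕ) + 1 = l
        · have c3 : (l : ℕ) - 1 = i := by omega
          rw [if_neg (fun h => c1 h.symm), if_pos c2.symm, if_neg c1, if_pos c2, c3]
          ring
        · rw [if_neg (fun h => c1 h.symm), if_neg (fun h => c2 h.symm), if_neg c1, if_neg c2]
          ring
    rw [sum_congr rfl fun i _ => h2 i, sum_sub_distrib,
      Fin.sum_univ_eq_sum_range (fun i => if i = (l : ℕ) then psum k' x β l else 0),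
      Fin.sum_univ_eq_sum_range (fun i => if i + 1 = (l : ℕ) then psum k' x β (l - 1) else 0)]
    have h3 : ∑ i ∈ range (k' β - 1), (if i = (l : ℕ) then psum k' x β l else 0) =
        psum k' x β l := by
      by_cases c : (l : ℕ) < k' β - 1
      · rw [sum_ite_eq' (range _), if_pos (mem_range.2 c)]
      · rw [sum_ite_eq' (range _), if_neg (by rw [mem_range]; exact c)]
        unfold psum
        have : (l : ℕ) + 1 = k' β := by omega
        rw [this, hsum]
    have h4 : ∑ i ∈ range (k' β - 1), (if i + 1 = (l : ℕ) then psum k' x β (l - 1) else 0) =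
        if (l : ℕ) = 0 then 0 else psum k' x β (l - 1) := by
      by_cases c : (l : ℕ) = 0
      · rw [if_pos c]
        apply sum_eq_zero
        intro i _
        rw [if_neg (by omega)]
      · rw [if_neg c, sum_eq_single_of_mem ((l : ℕ) - 1) (mem_range.2 (by omega))]
        · rw [if_pos (by omega)]
        · intro i _ hi
          rw [if_neg (by omega)]
    rw [h3, h4]
    by_cases c : (l : ℕ) = 0
    · rw [if_pos c, sub_zero]
      unfold psum
      rw [c, sum_range_one, dif_pos (by omega)]
      congr 2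
      exact Fin.ext c
    · rw [if_neg c]
      unfold psum
      have : (l : ℕ) - 1 + 1 = l := by omega
      rw [this, sum_range_succ, dif_pos hl]
      simp
  · intro γ _ hγ
    apply sum_eq_zero
    intro i _
    rw [Pi.smul_apply, smul_eq_mul, gen, root_apply]
    simp only [col_eq]
    rw [if_neg (fun h => hγ h.1.symm), if_neg (fun h => hγ h.1.symm)]
    ring


/-- the partial sums of a generator -/
theorem psum_gen (y : White k') (β : Fin n') (i : Fin (k' β - 1)) :
    psum k' (gen k' y) β i = if y = ⟨β, i⟩ then 1 else 0 := by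
  obtain ⟨γ, l⟩ := y
  have hl := l.2
  have hi := i.2
  have hyi : ((⟨γ, l⟩ : White k') = ⟨β, i⟩) ↔ γ = β ∧ (l : ℕ) = i := by
    constructor
    · intro h
      obtain ⟨h1, h2⟩ := Sigma.mk.inj_iff.1 h
      subst h1
      rw [eq_of_heq h2]
      exact ⟨rfl, rfl⟩
    · rintro ⟨h1, h2⟩
      subst h1
      rw [Fin.ext h2]
  by_cases hγ : γ = β
  · subst hγ
    unfold psum
    have h1 : ∀ s ∈ range ((i : ℕ) + 1), (if h : s < k' γ then gen k' ⟨γ, l⟩ ⟨γ, ⟨s, h⟩⟩ else 0) =
        (if s = (l : ℕ) then 1 else 0) - (if s = (l : ℕ) + 1 then 1 else 0) := by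
      intro s hs
      rw [mem_range] at hs
      rw [dif_pos (by omega), gen, root_apply]
      simp only [col_eq, true_and]
    rw [sum_congr rfl h1, sum_sub_distrib, sum_ite_eq' (range _), sum_ite_eq' (range _)]
    simp only [mem_range, hyi, true_and]
    split_ifs <;> omega
  · rw [if_neg (fun h => hγ (hyi.1 h).1)]
    unfold psum
    apply sum_eq_zero
    intro s _
    split_ifs with h
    · rw [gen, root_apply]
      simp only [col_eq]
      rw [if_neg (fun h => hγ h.1.symm), if_neg (fun h => hγ h.1.symm), sub_zero]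
    · rfl

/-- the partial sums as a homomorphism -/
theorem psum_add (x y : Col k' → ℤ) (β : Fin n') (i : ℕ) :
    psum k' (x + y) β i = psum k' x β i + psum k' y β i := by
  unfold psum
  rw [← sum_add_distrib]
  apply sum_congr rfl
  intro l _
  split_ifs <;> rfl

theorem psum_zero (β : Fin n') (i : ℕ) : psum k' (0 : Col k' → ℤ) β i = 0 := by
  unfold psum
  apply sum_eq_zero
  intro l _
  split_ifs <;> rfl

end

end Pool.Agent.H754.Pretzel
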