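import Pool.Agent.H754.Pretzel.Defs
import Pool.Agent.H754.Pretzel.Blocks
import Pool.Agent.H754.Pretzel.WhiteLat

/-!
Explicit embeddings of the plumbing lattices.
-/

set_option linter.unusedSectionVars false

namespace Pool.Agent.H754.Pretzel

open Finset Matrix

section

variable {n : ℕ} {m k : Fin n → ℕ} {p q : Fin n → ℕ → ℕ}

/-- the index set of the standard lattice: the disjoint union of the blocks -/
abbrev Idx (k : Fin n → ℕ) (q : Fin n → ℕ → ℕ) : Type := Σ j : Col k, Fin (q j.1 j.2)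

/-- the embedding given by a matrix -/
def bemb (A : Col m → Col k → ℤ) : Black m k q → Idx k q → ℤ
  | .centre α => fun r => if r.1.1 = α ∧ (r.2 : ℕ) = 0 then -1 else 0
  | .chain α j s =>
      ev (J := Col k) (q := fun j => q j.1 j.2) ⟨⟨α, j⟩, ⟨s, by change (s : ℕ) < q α j; omega⟩⟩ -
        ev ⟨⟨α, j⟩, ⟨s + 1, by change (s : ℕ) + 1 < q α j; omega⟩⟩
  | .leaf α i => fun r => A ⟨α, i⟩ r.1

theorem ev_eq (j l : Col k) (s : Fin (q j.1 j.2)) (r : Fin (q l.1 l.2)) :
    ev (J := Col k) (q := fun j => q j.1 j.2) ⟨j, s⟩ ⟨l, r⟩ =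
      if j = l ∧ (s : ℕ) = r then 1 else 0 := by
  rw [ev, Pi.single_apply]
  by_cases h : j = l
  · subst h
    by_cases h' : (s : ℕ) = r
    · have : s = r := Fin.ext h'
      subst this
      simp
    · rw [if_neg, if_neg]
      · exact fun h => h' h.2
      · intro h
        apply h'
        have := (Sigma.mk.inj_iff.1 h).2
        rw [eq_of_heq this]
  · rw [if_neg, if_neg]
    · exact fun h' => h h'.1
    · intro h'
      exact h (congrArg Sigma.fst h').symm

theorem bemb_chain_dot (A : Col m → Col k → ℤ) (α : Fin n) (j : Fin (k α)) (s : Fin (q α j - 1))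
    (u : Idx k q → ℤ) : bemb A (.chain α j s) ⬝ᵥ u =
      u ⟨⟨α, j⟩, ⟨s, by change (s : ℕ) < q α j; omega⟩⟩ -
        u ⟨⟨α, j⟩, ⟨s + 1, by change (s : ℕ) + 1 < q α j; omega⟩⟩ := by
  rw [bemb, sub_dotProduct, ev, ev, single_dotProduct, single_dotProduct, one_mul, one_mul]

/-- products with a vector which is constant on the blocks -/
theorem bemb_centre_dot (hq : ∀ α (j : Fin (k α)), 3 ≤ q α j) (A : Col m → Col k → ℤ) (α : Fin n)
    (u : Col k → ℤ) : bemb (q := q) A (.centre α) ⬝ᵥ (fun r => u r.1) =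
      -∑ j : Fin (k α), u ⟨α, j⟩ := by
  rw [dotProduct, Fintype.sum_sigma]
  have h1 : ∀ j : Col k, ∑ s : Fin (q j.1 j.2), bemb (q := q) A (.centre α) ⟨j, s⟩ * u j =
      if j.1 = α then -u j else 0 := by
    intro j
    rw [sum_eq_single_of_mem (⟨0, by have := hq j.1 j.2; omega⟩ : Fin (q j.1 j.2)) (mem_univ _)]
    · simp only [bemb]
      by_cases c1 : j.1 = α
      · rw [if_pos ⟨c1, trivial⟩, if_pos c1]; ring
      · rw [if_neg (fun h : j.1 = α ∧ _ => c1 h.1), if_neg c1]; ring
    · intro s _ hs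
      have : (s : ℕ) ≠ 0 := fun h => hs (Fin.ext h)
      simp [bemb, this]
  rw [sum_congr rfl fun j _ => h1 j, Fintype.sum_sigma, sum_eq_single_of_mem α (mem_univ α)]
  · rw [← sum_neg_distrib]
    apply sum_congr rfl
    intro j _
    rw [if_pos rfl]
  · intro β _ hβ
    apply sum_eq_zero
    intro j _
    rw [if_neg hβ]

/-- products of vectors which are constant on the blocks -/
theorem const_dot (u u' : Col k → ℤ) : (fun r : Idx k q => u r.1) ⬝ᵥ (fun r => u' r.1) =
    bil (fun c : Col k => q c.1 c.2) u u' := by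
  rw [dotProduct, Fintype.sum_sigma]
  unfold bil
  apply sum_congr rfl
  intro j _
  change ∑ _s : Fin (q j.1 j.2), u j * u' j = _
  rw [sum_const, card_univ, Fintype.card_fin, nsmul_eq_mul]
  ring

theorem bemb_form (hq : ∀ α (j : Fin (k α)), 3 ≤ q α j) (A : Col m → Col k → ℤ)
    (h1 : ∀ i α, ∑ j : Fin (k α), A i ⟨α, j⟩ = if i.1 = α then 1 else 0)
    (h2 : ∀ i l, bil (fun c : Col k => q c.1 c.2) (A i) (A l) =
      if i = l then (p i.1 i.2 : ℤ) else 0) (x y : Black m k q) :
    -(bemb A x ⬝ᵥ bemb A y) = blackForm m k p q x y := by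
  have hcc : ∀ α β, bemb (q := q) A (.centre α) ⬝ᵥ bemb A (.centre β) =
      if α = β then (k α : ℤ) else 0 := by
    intro α β
    rw [dotProduct, Fintype.sum_sigma]
    have h1 : ∀ j : Col k, ∑ s : Fin (q j.1 j.2),
        bemb (q := q) A (.centre α) ⟨j, s⟩ * bemb (q := q) A (.centre β) ⟨j, s⟩ =
        if j.1 = α then (if α = β then 1 else 0) else 0 := by
      intro j
      rw [sum_eq_single_of_mem (⟨0, by have := hq j.1 j.2; omega⟩ : Fin (q j.1 j.2)) (mem_univ _)]
      · simp only [bemb]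
        by_cases c1 : j.1 = α
        · by_cases c2 : α = β
          · rw [if_pos ⟨c1, trivial⟩, if_pos ⟨c1.trans c2, trivial⟩, if_pos c1, if_pos c2]; norm_num
          · rw [if_neg (fun h : j.1 = β ∧ _ => c2 (c1.symm.trans h.1)), if_pos c1, if_neg c2]
            ring
        · rw [if_neg (fun h : j.1 = α ∧ _ => c1 h.1), if_neg c1]; ring
      · intro s _ hs
        have : (s : ℕ) ≠ 0 := fun h => hs (Fin.ext h)
        simp [bemb, this]
    rw [sum_congr rfl fun j _ => h1 j, ← sum_filter, sum_const, card_fiber]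
    by_cases c2 : α = β <;> simp [c2]
  have hcl : ∀ α β i, bemb (q := q) A (.centre α) ⬝ᵥ bemb A (.leaf β i) =
      -(if β = α then 1 else 0) := by
    intro α β i
    rw [← h1 ⟨β, i⟩ α]
    exact bemb_centre_dot hq A α (A ⟨β, i⟩)
  have hll : ∀ α i β l, bemb (q := q) A (.leaf α i) ⬝ᵥ bemb A (.leaf β l) =
      if (⟨α, i⟩ : Col m) = ⟨β, l⟩ then (p α i : ℤ) else 0 := by
    intro α i β l
    rw [← h2 ⟨α, i⟩ ⟨β, l⟩]
    exact const_dot (A ⟨α, i⟩) (A ⟨β, l⟩)
  rcases x with α | ⟨α, j, s⟩ | ⟨α, i⟩ <;> rcases y with β | ⟨β, l, r⟩ | ⟨β, l⟩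
  · rw [hcc]
    simp only [blackForm]
    split_ifs <;> simp
  · rw [dotProduct_comm, bemb_chain_dot]
    simp only [bemb, blackForm]
    by_cases c1 : β = α
    · have c1' : α = β := c1.symm
      by_cases c2 : (r : ℕ) = 0 <;> simp [c1, c2]
    · have c1' : ¬ α = β := fun h => c1 h.symm
      simp [c1, c1']
  · rw [hcl]
    simp only [blackForm, neg_neg]
    by_cases c1 : β = α
    · rw [if_pos c1, if_pos c1.symm]
    · rw [if_neg c1, if_neg (fun h => c1 h.symm)]
  · rw [bemb_chain_dot]
    simp only [bemb, blackForm]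
    by_cases c1 : α = β
    · have c1' : β = α := c1.symm
      by_cases c2 : (s : ℕ) = 0 <;> simp [c1, c2]
    · have c1' : ¬ β = α := fun h => c1 h.symm
      simp [c1, c1']
  · rw [bemb_chain_dot]
    simp only [bemb, Pi.sub_apply, ev_eq, blackForm, col_eq]
    by_cases hjl : α = β ∧ (j : ℕ) = l
    · have hlj : β = α ∧ (l : ℕ) = j := ⟨hjl.1.symm, hjl.2.symm⟩
      simp only [hjl, true_and, if_true, and_self]
      by_cases h1 : (s : ℕ) = r
      · have e1 : (r : ℕ) = s := h1.symm
        have e2 : ¬ ((r : ℕ) + 1 = s) := by omega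
        have e3 : ¬ ((r : ℕ) = s + 1) := by omega
        have e4 : ((r : ℕ) + 1 = s + 1) := by omega
        rw [if_pos e1, if_neg e2, if_neg e3, if_pos e4, if_pos h1]
        norm_num
      · by_cases h2 : (s : ℕ) + 1 = r
        · have e1 : ¬ ((r : ℕ) = s) := by omega
          have e2 : ¬ ((r : ℕ) + 1 = s) := by omega
          have e3 : ((r : ℕ) = s + 1) := by omega
          have e4 : ¬ ((r : ℕ) + 1 = s + 1) := by omega
          rw [if_neg e1, if_neg e2, if_pos e3, if_neg e4, if_neg h1, if_pos (Or.inl h2)]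
          norm_num
        · by_cases h3 : (r : ℕ) + 1 = s
          · have e1 : ¬ ((r : ℕ) = s) := by omega
            have e3 : ¬ ((r : ℕ) = s + 1) := by omega
            have e4 : ¬ ((r : ℕ) + 1 = s + 1) := by omega
            rw [if_neg e1, if_pos h3, if_neg e3, if_neg e4, if_neg h1, if_pos (Or.inr h3)]
            norm_num
          · have e1 : ¬ ((r : ℕ) = s) := by omega
            have e3 : ¬ ((r : ℕ) = s + 1) := by omega
            have e4 : ¬ ((r : ℕ) + 1 = s + 1) := by omega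
            rw [if_neg e1, if_neg h3, if_neg e3, if_neg e4, if_neg h1,
              if_neg (by rintro (h | h) <;> contradiction)]
            norm_num
    · have hlj : ¬ (β = α ∧ (l : ℕ) = j) := fun h => hjl ⟨h.1.symm, h.2.symm⟩
      rw [if_neg (fun h => hlj h.1), if_neg (fun h => hlj h.1), if_neg (fun h => hlj h.1),
        if_neg (fun h => hlj h.1), if_neg hjl]
      norm_num
  · rw [bemb_chain_dot]; simp [bemb, blackForm]
  · rw [dotProduct_comm, hcl]
    simp only [blackForm, neg_neg]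
    by_cases c1 : α = β
    · rw [if_pos c1, if_pos c1.symm]
    · rw [if_neg c1, if_neg (fun h => c1 h.symm)]
  · rw [dotProduct_comm, bemb_chain_dot]; simp [bemb, blackForm]
  · rw [hll]
    simp only [blackForm, col_eq]
    split_ifs <;> simp

end

end Pool.Agent.H754.Pretzel
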