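import Pool.Agent.H754.Pretzel.Count

/-!
The reduced covering theorem.
-/

namespace Pool.Agent.H754.Pretzel

open Finset Matrix

/-- the points of the box with some coordinate zero -/
noncomputable def boxT {J : Type} [Fintype J] [DecidableEq J] (q : J → ℕ) : Finset (J → ℤ) :=
  Fintype.piFinset (fun j => Finset.Icc (0 : ℤ) (q j)) \
    Fintype.piFinset (fun j => Finset.Icc (1 : ℤ) (q j))

theorem card_boxT {J : Type} [Fintype J] [DecidableEq J] (q : J → ℕ) :
    (boxT q).card = ∏ j, (q j + 1) - ∏ j, q j := by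
  unfold boxT
  rw [card_sdiff_of_subset, Fintype.card_piFinset, Fintype.card_piFinset]
  · congr 1
    · apply prod_congr rfl
      intro j _
      rw [Int.card_Icc]
      omega
    · apply prod_congr rfl
      intro j _
      rw [Int.card_Icc]
      omega
  · intro x hx
    rw [Fintype.mem_piFinset] at hx ⊢
    intro j
    have := hx j
    rw [mem_Icc] at this ⊢
    omega

theorem exists_boxT {J : Type} [Fintype J] [DecidableEq J] [Nonempty J] (q : J → ℕ) (b : J → ℤ)
    (hb : ∀ j, 0 ≤ b j ∧ b j ≤ q j) : ∃ t : ℤ, (fun j => b j - t) ∈ boxT q := by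
  obtain ⟨j₀, _, hj₀⟩ := exists_min_image (univ : Finset J) b univ_nonempty
  refine ⟨b j₀, ?_⟩
  unfold boxT
  rw [mem_sdiff, Fintype.mem_piFinset, Fintype.mem_piFinset]
  refine ⟨fun j => ?_, fun h => ?_⟩
  · rw [mem_Icc]
    have h1 := hj₀ j (mem_univ j)
    have h2 := hb j
    have h3 := hb j₀
    omega
  · have := h j₀
    rw [mem_Icc] at this
    omega

/-- The case of no unit rows is impossible. -/
theorem no_unit_rows {I J : Type} [Fintype I] [Fintype J] [DecidableEq I] [DecidableEq J]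
    (hc : Fintype.card J = Fintype.card I + 1) (q : J → ℕ) (hq : ∀ j, 3 ≤ q j) (a : I → J → ℤ)
    (h1 : ∀ i, ∑ j, a i j = 1) (ho : ∀ i l, i ≠ l → ∑ j, (q j : ℤ) * a i j * a l j = 0)
    (hcov : ∀ x : J → ℤ, ∃ b : J → ℤ, (∀ j, 0 ≤ b j ∧ b j ≤ q j) ∧ ∃ t : ℤ, ∃ n : I → ℤ,
      ∀ j, x j = b j + t + ∑ i, n i * (q j * a i j))
    (hu : ∀ i j, a i ≠ Pi.single j 1) (hI : Nonempty I) : False := by
  have hJ : Nonempty J := by
    rw [← Fintype.card_pos_iff]; omega
  have hq0 : ∀ j, 0 < q j := fun j => lt_of_lt_of_le (by norm_num) (hq j)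
  obtain ⟨j₀, _, hj₀⟩ := exists_min_image (univ : Finset J) q univ_nonempty
  obtain ⟨f, hf, hf'⟩ := exists_matching q hq0 a h1 ho hu j₀
  -- the columns
  have hbij : Function.Bijective (Sum.elim (fun _ : Unit => j₀) f) := by
    rw [Fintype.bijective_iff_injective_and_card]
    refine ⟨?_, by simp [hc, add_comm]⟩
    intro r s h
    rcases r with ⟨⟩ | i <;> rcases s with ⟨⟩ | l
    · rfl
    · exact absurd h.symm (hf' l).2
    · exact absurd h (hf' i).2
    · exact congrArg Sum.inr (hf h)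
  let e : Unit ⊕ I ≃ J := Equiv.ofBijective _ hbij
  have he1 : e (Sum.inl ()) = j₀ := rfl
  have he2 : ∀ i, e (Sum.inr i) = f i := fun i => rfl
  have hcol : ∀ j, j ≠ j₀ → ∃ i, f i = j := by
    intro j hj
    obtain ⟨r, hr⟩ := hbij.2 j
    rcases r with ⟨⟩ | i
    · exact absurd hr.symm hj
    · exact ⟨i, hr⟩
  -- norms
  have hnrm : ∀ i, (q (f i) : ℤ) ≤ nrm q (a i) ∧ 0 < nrm q (a i) := by
    intro i
    have := row_bound q (a i) (h1 i) (hu i) (hf' i).1
    have h3 := hq0 (f i)
    rcases this with ⟨l, _, h⟩ | ⟨l, k, _, _, _, h⟩ | ⟨l, _, h⟩ <;> omega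
  -- the determinant
  let N : Matrix (Unit ⊕ I) (Unit ⊕ I) ℤ := Matrix.of fun r s =>
    Sum.elim (fun _ : Unit => 1) (fun i => (q (e s) : ℤ) * a i (e s)) r
  have hdet := det_sq q hq0 a h1 ho (fun i => (hnrm i).2.ne') e N (fun s => rfl)
    (fun i s => rfl)
  -- real quantities
  have hqf : ∀ i, (0 : ℝ) < (q (f i) : ℝ) := fun i => by exact_mod_cast hq0 (f i)
  have hqz : (0 : ℝ) < (q j₀ : ℝ) := by exact_mod_cast hq0 j₀
  set z : I → ℝ := fun i => (q j₀ : ℝ) / q (f i) with hz
  set t : I → ℝ := fun i => (nrm q (a i) : ℝ) / q (f i) with ht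
  obtain ⟨i₂, _, hi₂⟩ := exists_min_image (univ : Finset I) (fun i => q (f i)) univ_nonempty
  have hz0 : ∀ i, 0 < z i := fun i => div_pos hqz (hqf i)
  have hz1 : ∀ i, z i ≤ 1 := fun i => by
    rw [hz]
    simp only
    rw [div_le_one (hqf i)]
    exact_mod_cast hj₀ (f i) (mem_univ _)
  have hzmono : ∀ i l, q (f l) ≤ q (f i) → z i ≤ z l := fun i l h => by
    rw [hz]
    simp only
    apply div_le_div_of_nonneg_left hqz.le (hqf l)
    exact_mod_cast h
  have hzmono' : ∀ i l, z i ≤ z l → q (f l) ≤ q (f i) := fun i l h => by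
    by_contra hcon
    push Not at hcon
    have : z l < z i := by
      rw [hz]
      simp only
      apply div_lt_div_of_pos_left hqz (hqf i)
      exact_mod_cast hcon
    linarith
  -- translation of integral bounds
  have trans : ∀ i l, (q (f i) : ℤ) + min (4 * q j₀) (q j₀ + q (f l)) ≤ nrm q (a i) →
      1 + z i * min 4 (1 + 1 / z l) ≤ t i := by
    intro i l h
    have h2 : ((q (f i) : ℝ) + min (4 * (q j₀ : ℝ)) ((q j₀ : ℝ) + q (f l))) ≤ nrm q (a i) := by
      exact_mod_cast h
    have h3 : (q j₀ : ℝ) * min 4 (1 + 1 / z l) = min (4 * (q j₀ : ℝ)) ((q j₀ : ℝ) + q (f l)) := by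
      rw [mul_min_of_nonneg _ _ hqz.le]
      congr 1
      · ring
      · rw [hz]
        simp only
        have := hqf l
        field_simp
    have h4 : 1 + z i * min 4 (1 + 1 / z l) =
        ((q (f i) : ℝ) + (q j₀ : ℝ) * min 4 (1 + 1 / z l)) / q (f i) := by
      have := hqf i
      rw [add_div, div_self this.ne', hz]
      ring
    rw [h4, h3, ht]
    simp only
    exact div_le_div_of_nonneg_right h2 (hqf i).le
  have hqj : ∀ j, (q j₀ : ℤ) ≤ q j := fun j => by exact_mod_cast hj₀ j (mem_univ j)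
  have main := main_ineq (z := z) (t := t) i₂ hz0 hz1 (fun i => hzmono i i₂ (hi₂ i (mem_univ i)))
    (by
      intro i
      apply trans
      have hb := row_bound q (a i) (h1 i) (hu i) (hf' i).1
      have c0 := hqj (f i)
      rcases hb with ⟨l, _, h⟩ | ⟨l, k, hl, hk, hlk, h⟩ | ⟨l, _, h⟩
      · have := hqj l
        have := min_le_left (4 * (q j₀ : ℤ)) (q j₀ + q (f i₂))
        omega
      · have c1 := hqj l
        have c2 := hqj k
        have c3 := min_le_right (4 * (q j₀ : ℤ)) (q j₀ + q (f i₂))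
        by_cases hl0 : l = j₀
        · obtain ⟨m, hm⟩ := hcol k (fun h => hlk (hl0.trans h.symm))
          have c4 : q (f i₂) ≤ q (f m) := hi₂ m (mem_univ m)
          rw [hm] at c4
          omega
        · obtain ⟨m, hm⟩ := hcol l hl0
          have c4 : q (f i₂) ≤ q (f m) := hi₂ m (mem_univ m)
          rw [hm] at c4
          omega
      · have := hqj l
        have := min_le_left (4 * (q j₀ : ℤ)) (q j₀ + q (f i₂))
        omega)
    (by
      intro hone
      have hb := row_bound q (a i₂) (h1 i₂) (hu i₂) (hf' i₂).1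
      have c0 := hqj (f i₂)
      have h2 : (q (f i₂) : ℤ) + 4 * q j₀ ≤ nrm q (a i₂) := by
        rcases hb with ⟨l, _, h⟩ | ⟨l, k, hl, hk, hlk, h⟩ | ⟨l, _, h⟩
        · have := hqj l
          omega
        · exfalso
          have hl0 : l = j₀ := by
            by_contra hcon
            obtain ⟨m, hm⟩ := hcol l hcon
            rw [hone m] at hm
            exact hl hm.symm
          have hk0 : k = j₀ := by
            by_contra hcon
            obtain ⟨m, hm⟩ := hcol k hcon
            rw [hone m] at hm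
            exact hk hm.symm
          exact hlk (hl0.trans hk0.symm)
        · have := hqj l
          omega
      have h3 : ((q (f i₂) : ℝ) + 4 * (q j₀ : ℝ)) ≤ nrm q (a i₂) := by exact_mod_cast h2
      have h4 : 1 + 4 * z i₂ = ((q (f i₂) : ℝ) + 4 * (q j₀ : ℝ)) / q (f i₂) := by
        rw [add_div, div_self (hqf i₂).ne', hz]
        ring
      rw [h4, ht]
      simp only
      exact div_le_div_of_nonneg_right h3 (hqf i₂).le)
    (by
      intro i₃ hi₃ hmax
      apply trans
      have hb := row_bound q (a i₂) (h1 i₂) (hu i₂) (hf' i₂).1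
      have c0 := hqj (f i₂)
      have c5 : ∀ m, m ≠ i₂ → q (f i₃) ≤ q (f m) := fun m hm => hzmono' m i₃ (hmax m hm)
      rcases hb with ⟨l, _, h⟩ | ⟨l, k, hl, hk, hlk, h⟩ | ⟨l, _, h⟩
      · have := hqj l
        have := min_le_left (4 * (q j₀ : ℤ)) (q j₀ + q (f i₃))
        omega
      · have c1 := hqj l
        have c2 := hqj k
        have c3 := min_le_right (4 * (q j₀ : ℤ)) (q j₀ + q (f i₃))
        by_cases hl0 : l = j₀
        · obtain ⟨m, hm⟩ := hcol k (fun h => hlk (hl0.trans h.symm))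
          have hm2 : m ≠ i₂ := by
            rintro rfl
            exact hk hm.symm
          have c4 := c5 m hm2
          rw [hm] at c4
          omega
        · obtain ⟨m, hm⟩ := hcol l hl0
          have hm2 : m ≠ i₂ := by
            rintro rfl
            exact hl hm.symm
          have c4 := c5 m hm2
          rw [hm] at c4
          omega
      · have := hqj l
        have := min_le_left (4 * (q j₀ : ℤ)) (q j₀ + q (f i₃))
        omega)
  -- the determinant in terms of `z`, `t`
  have ht0 : ∀ i, 0 < t i := fun i => div_pos (by exact_mod_cast (hnrm i).2) (hqf i)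
  have hqn : (q j₀ : ℝ) ≠ 0 := hqz.ne'
  set Q : ℝ := ∏ i, (q (f i) : ℝ) with hQ
  have hQpos : 0 < Q := prod_pos fun i _ => hqf i
  have p1 : ∏ j, (q j : ℝ) = q j₀ * Q := by
    rw [← e.prod_comp, Fintype.prod_sum_type]
    simp [he1, he2, hQ]
  have p2 : ∏ i, (nrm q (a i) : ℝ) = Q * ∏ i, t i := by
    rw [hQ, ← prod_mul_distrib]
    apply prod_congr rfl
    intro i _
    rw [ht]
    simp only
    have := hqf i
    field_simp
  have p3 : ∑ j, 1 / (q j : ℝ) = 1 / q j₀ + ∑ i, z i / q j₀ := by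
    rw [← e.sum_comp, Fintype.sum_sum_type]
    simp only [univ_unique, sum_singleton, he2]
    congr 1
    apply sum_congr rfl
    intro i _
    rw [hz]
    simp only
    have := hqf i
    field_simp
  have p4 : ∑ i, 1 / (nrm q (a i) : ℝ) = ∑ i, z i / t i / q j₀ := by
    apply sum_congr rfl
    intro i _
    rw [hz, ht]
    simp only
    have h2 := hqf i
    have h3 : (0 : ℝ) < (nrm q (a i) : ℝ) := by exact_mod_cast (hnrm i).2
    field_simp
  have hdet2 : (N.det : ℝ) ^ 2 = Q ^ 2 * ((∏ i, t i) * (1 + ∑ i, z i * (1 - 1 / t i))) := by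
    rw [hdet, p1, p2, p3, p4]
    have : ∑ i, z i * (1 - 1 / t i) = ∑ i, z i - ∑ i, z i / t i := by
      rw [← sum_sub_distrib]
      apply sum_congr rfl
      intro i _
      ring
    rw [this, ← sum_div, ← sum_div]
    field_simp
    ring
  have hlt : (Q * rho z univ) ^ 2 < (N.det : ℝ) ^ 2 := by
    rw [hdet2, mul_pow]
    exact mul_lt_mul_of_pos_left main (by positivity)
  -- the number of points
  have hx3 : 1 / (q j₀ : ℝ) ≤ 1 / 3 := by
    apply div_le_div_of_nonneg_left (by norm_num) (by norm_num)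
    exact_mod_cast hq j₀
  have hbeta := beta_le (z := z) (x := 1 / (q j₀ : ℝ)) (by positivity) hx3
    (fun i => (hz0 i).le) univ
  have hpts : (((∏ j, (q j + 1) - ∏ j, q j : ℕ)) : ℝ) ≤ Q * rho z univ := by
    have hle : ∏ j, q j ≤ ∏ j, (q j + 1) := prod_le_prod' fun j _ => Nat.le_succ _
    rw [Nat.cast_sub hle]
    push_cast
    have p5 : ∏ j, ((q j : ℝ) + 1) = ((q j₀ : ℝ) + 1) * ∏ i, ((q (f i) : ℝ) + 1) := by
      rw [← e.prod_comp, Fintype.prod_sum_type]
      simp [he1, he2]
    have p6 : ∏ i, ((q (f i) : ℝ) + 1) = Q * ∏ i, (1 + 1 / (q j₀ : ℝ) * z i) := by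
      rw [hQ, ← prod_mul_distrib]
      apply prod_congr rfl
      intro i _
      rw [hz]
      simp only
      have := hqf i
      field_simp
    rw [p5, p1, p6]
    have h2 := hbeta.1
    have h3 : ((q j₀ : ℝ) + 1) * (Q * ∏ i, (1 + 1 / (q j₀ : ℝ) * z i)) - q j₀ * Q =
        q j₀ * Q * ((1 + 1 / (q j₀ : ℝ)) * ∏ i, (1 + 1 / (q j₀ : ℝ) * z i) - 1) := by
      field_simp
    rw [h3]
    calc q j₀ * Q * ((1 + 1 / (q j₀ : ℝ)) * ∏ i, (1 + 1 / (q j₀ : ℝ) * z i) - 1)
        ≤ q j₀ * Q * (1 / (q j₀ : ℝ) * rho z univ) := mul_le_mul_of_nonneg_left h2 (by positivity)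
      _ = Q * rho z univ := by field_simp
  -- counting
  have hdet0 : N.det ≠ 0 := by
    intro h
    rw [h] at hlt
    have : 0 ≤ (Q * rho z univ) ^ 2 := sq_nonneg _
    norm_num at hlt
    linarith
  let T : Finset (Unit ⊕ I → ℤ) := (boxT q).image fun b s => b (e s)
  have hT := det_le_card N hdet0 T (by
    intro x
    obtain ⟨b, hb, s, n, hx⟩ := hcov fun j => x (e.symm j)
    obtain ⟨s', hs'⟩ := exists_boxT q b hb
    refine ⟨fun r => b (e r) - s', mem_image.2 ⟨_, hs', rfl⟩, Sum.elim (fun _ => s + s') n, ?_⟩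
    ext r
    have h2 := hx (e r)
    rw [e.symm_apply_apply] at h2
    have h3 : (Sum.elim (fun _ => s + s') n ᵥ* N) r =
        (s + s') + ∑ i, n i * ((q (e r) : ℤ) * a i (e r)) := by
      rw [Matrix.vecMul, dotProduct, Fintype.sum_sum_type]
      simp [N]
    rw [Pi.add_apply, h3, h2]
    ring)
  have hTc : T.card ≤ ∏ j, (q j + 1) - ∏ j, q j := by
    rw [← card_boxT]
    exact card_image_le
  have h5 : (N.det.natAbs : ℝ) ≤ Q * rho z univ := by
    refine le_trans ?_ hpts
    exact_mod_cast hT.trans hTc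
  have h6 : (N.det : ℝ) ^ 2 = (N.det.natAbs : ℝ) ^ 2 := by
    rw [Nat.cast_natAbs, Int.cast_abs, sq_abs]
  rw [h6] at hlt
  have h7 : (N.det.natAbs : ℝ) ^ 2 ≤ (Q * rho z univ) ^ 2 :=
    pow_le_pow_left₀ (by positivity) h5 2
  linarith

/-- The reduced covering theorem: all rows are unit vectors. -/
theorem reduced (n : ℕ) : ∀ (I J : Type) [Fintype I] [Fintype J] [DecidableEq I] [DecidableEq J],
    Fintype.card I = n → Fintype.card J = Fintype.card I + 1 → ∀ (q : J → ℕ), (∀ j, 3 ≤ q j) →
    ∀ (a : I → J → ℤ), (∀ i, ∑ j, a i j = 1) →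
    (∀ i l, i ≠ l → ∑ j, (q j : ℤ) * a i j * a l j = 0) →
    (∀ x : J → ℤ, ∃ b : J → ℤ, (∀ j, 0 ≤ b j ∧ b j ≤ q j) ∧ ∃ t : ℤ, ∃ n : I → ℤ,
      ∀ j, x j = b j + t + ∑ i, n i * (q j * a i j)) →
    ∀ i, ∃ j, a i = Pi.single j 1 := by
  induction n with
  | zero =>
    intro I J _ _ _ _ hI _ q _ a _ _ _ i
    rw [Fintype.card_eq_zero_iff] at hI
    exact hI.elim i
  | succ n ih =>
    intro I J _ _ _ _ hI hJ q hq a h1 ho hcov
    by_cases hu : ∃ i j, a i = Pi.single j 1
    swap
    · exfalso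
      push Not at hu
      have : Nonempty I := by
        rw [← Fintype.card_pos_iff]; omega
      exact no_unit_rows hJ q hq a h1 ho hcov hu this
    obtain ⟨i₀, j₀, h0⟩ := hu
    have hz : ∀ i, i ≠ i₀ → a i j₀ = 0 := by
      intro i hi
      have := ho i i₀ hi
      rw [h0, sum_eq_single_of_mem j₀ (mem_univ j₀)] at this
      · rw [Pi.single_eq_same, mul_one] at this
        have h3 := hq j₀
        rcases mul_eq_zero.1 this with h | h
        · omega
        · exact h
      · intro b _ hb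
        rw [Pi.single_eq_of_ne hb, mul_zero]
    have hcI : Fintype.card {i : I // i ≠ i₀} = n := by
      rw [Fintype.card_subtype_compl, Fintype.card_subtype_eq]; omega
    have hcJ : Fintype.card {j : J // j ≠ j₀} = Fintype.card {i : I // i ≠ i₀} + 1 := by
      rw [hcI, Fintype.card_subtype_compl, Fintype.card_subtype_eq]; omega
    have hsum : ∀ g : J → ℤ, g j₀ = 0 → ∑ j : {j : J // j ≠ j₀}, g j = ∑ j, g j := by
      intro g hg
      rw [← Fintype.sum_subtype_add_sum_subtype (fun j => j ≠ j₀) g]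
      have : ∑ j : {j : J // ¬ j ≠ j₀}, g j = 0 := by
        apply sum_eq_zero
        rintro ⟨j, hj⟩ _
        rw [not_not] at hj
        simp only
        rw [hj, hg]
      rw [this, add_zero]
    have key := ih {i : I // i ≠ i₀} {j : J // j ≠ j₀} hcI hcJ (fun j => q j) (fun j => hq j)
      (fun i j => a i j) (fun i => by
        rw [hsum (fun j => a i j) (hz i i.2)]
        exact h1 i)
      (fun i l hil => by
        rw [hsum (fun j => (q j : ℤ) * a i j * a l j) (by rw [hz i i.2]; ring)]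
        exact ho i l fun h => hil (Subtype.ext h))
      (fun x => by
        obtain ⟨b, hb, t, m, hx⟩ := hcov fun j => if h : j ≠ j₀ then x ⟨j, h⟩ else 0
        refine ⟨fun j => b j, fun j => hb j, t, fun i => m i, fun j => ?_⟩
        have h2 := hx j
        rw [dif_pos j.2] at h2
        rw [h2]
        congr 1
        rw [← Fintype.sum_subtype_add_sum_subtype (fun i => i ≠ i₀)
          (fun i => m i * ((q j : ℤ) * a i j))]
        have : ∑ i : {i : I // ¬ i ≠ i₀}, m i * ((q j : ℤ) * a i j) = 0 := by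
          apply sum_eq_zero
          rintro ⟨i, hi⟩ _
          rw [not_not] at hi
          simp only
          rw [hi, h0, Pi.single_eq_of_ne j.2]
          ring
        rw [this, add_zero])
    intro i
    by_cases hi : i = i₀
    · exact ⟨j₀, hi ▸ h0⟩
    · obtain ⟨j, hj⟩ := key ⟨i, hi⟩
      refine ⟨j, ?_⟩
      ext l
      by_cases hl : l = j₀
      · rw [hl, hz i hi, Pi.single_eq_of_ne fun h => j.2 h.symm]
      · have := congrFun hj ⟨l, hl⟩
        simp only at this
        rw [this]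
        by_cases hlj : l = (j : J)
        · have h3 : (⟨l, hl⟩ : {j : J // j ≠ j₀}) = j := Subtype.ext hlj
          rw [h3, Pi.single_eq_same, hlj, Pi.single_eq_same]
        · rw [Pi.single_eq_of_ne fun h => hlj (congrArg Subtype.val h), Pi.single_eq_of_ne hlj]

end Pool.Agent.H754.Pretzel
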