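import Pool.Agent.H754.Pretzel.Chain
import Pool.Agent.H754.Pretzel.Reduced

/-!
Embeddings of the star-shaped lattices in the standard lattice of the same rank.
-/

namespace Pool.Agent.H754.Pretzel

open Finset Matrix

variable {ι : Type} [Fintype ι] [DecidableEq ι]

theorem Good.const {n : ℕ} {v : ℕ → ι → ℤ} {b : ℕ → ι} {ε : ℕ → ℤ} (h : Good n v b ε)
    {u : ι → ℤ} (hu : ∀ s < n, v s ⬝ᵥ u = 0) : ∀ s ≤ n, ε s * u (b s) = ε 0 * u (b 0) := by
  intro s
  induction s with
  | zero => intro _; rfl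
  | succ s ih =>
    intro hs
    have h1 := h.dot u (by omega : s < n)
    rw [hu s (by omega)] at h1
    rw [← ih (by omega)]
    linarith

theorem norm_lower {n : ℕ} {b : ℕ → ι} (hb : ∀ s r, s ≤ n → r ≤ n → b s = b r → s = r)
    (u : ι → ℤ) : ∑ s ∈ range (n + 1), u (b s) ^ 2 ≤ u ⬝ᵥ u := by
  rw [dot_self_eq]
  rw [← sum_image (f := fun x => u x ^ 2) (s := range (n + 1)) (g := b)]
  · exact sum_le_sum_of_subset_of_nonneg (subset_univ _) fun i _ _ => sq_nonneg _
  · intro s hs r hr h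
    rw [coe_range, Set.mem_Iio] at hs hr
    exact hb s r (by omega) (by omega) h

/-- A vector of norm two orthogonal to a chain vanishes on its indices. -/
theorem Good.vanish {n : ℕ} (hn : 2 ≤ n) {v : ℕ → ι → ℤ} {b : ℕ → ι} {ε : ℕ → ℤ}
    (h : Good n v b ε) {u : ι → ℤ} (hu : ∀ s < n, v s ⬝ᵥ u = 0) (hu2 : u ⬝ᵥ u = 2) :
    ∀ s ≤ n, u (b s) = 0 := by
  have hc := h.const hu
  have hz : ε 0 * u (b 0) = 0 := by
    by_contra hne
    have h1 : ∀ s ≤ n, 1 ≤ u (b s) ^ 2 := by
      intro s hs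
      apply sq_ge_one
      intro h0
      apply hne
      rw [← hc s hs, h0, mul_zero]
    have h2 := norm_lower h.2.1 u
    have h3 : ∑ s ∈ range (n + 1), (1 : ℤ) ≤ ∑ s ∈ range (n + 1), u (b s) ^ 2 :=
      sum_le_sum fun s hs => h1 s (by rw [mem_range] at hs; omega)
    rw [sum_const, card_range, nsmul_eq_mul, mul_one] at h3
    push_cast at h3
    rw [hu2] at h2
    omega
  intro s hs
  have h1 := hc s hs
  rw [hz] at h1
  rcases h.1 s hs with h | h <;> rw [h] at h1 <;> linarith

/-- The hypotheses on the vectors of an embedded star: `c` is the centre, `v j s`, `s < q j - 1`, is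
the `j`-th chain, and `w i` are the leaves. -/
structure Star {I J : Type} [Fintype I] [Fintype J] [DecidableEq I] [DecidableEq J] (q : J → ℕ)
    (c : ι → ℤ) (v : J → ℕ → ι → ℤ) (w : I → ι → ℤ) : Prop where
  cc : c ⬝ᵥ c = Fintype.card J
  cv0 : ∀ j, v j 0 ⬝ᵥ c = -1
  cv : ∀ j s, 0 < s → s < q j - 1 → v j s ⬝ᵥ c = 0
  vv : ∀ j s, s < q j - 1 → v j s ⬝ᵥ v j s = 2
  vadj : ∀ j s, s + 1 < q j - 1 → v j s ⬝ᵥ v j (s + 1) = -1
  vfar : ∀ j s r, s + 2 ≤ r → r < q j - 1 → v j s ⬝ᵥ v j r = 0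
  vne : ∀ j l s r, j ≠ l → s < q j - 1 → r < q l - 1 → v j s ⬝ᵥ v l r = 0
  wv : ∀ i j s, s < q j - 1 → v j s ⬝ᵥ w i = 0
  wc : ∀ i, w i ⬝ᵥ c = -1
  ww : ∀ i l, i ≠ l → w i ⬝ᵥ w l = 0

/-- The coordinates of the vectors of an embedded star. -/
theorem Star.coords {I J : Type} [Fintype I] [Fintype J] [DecidableEq I] [DecidableEq J]
    {q : J → ℕ} (hq : ∀ j, 3 ≤ q j) (hq4 : ∀ j, q j ≠ 4) {c : ι → ℤ} {v : J → ℕ → ι → ℤ}
    {w : I → ι → ℤ} (h : Star q c v w) (hι : Fintype.card ι = ∑ j, q j) :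
    ∃ (E : (Σ j, Fin (q j)) ≃ ι) (δ : (Σ j, Fin (q j)) → ℤ), (∀ r, δ r = 1 ∨ δ r = -1) ∧
      (∀ j (s : Fin (q j)), δ ⟨j, s⟩ * c (E ⟨j, s⟩) = if (s : ℕ) = 0 then -1 else 0) ∧
      (∀ j s, s < q j - 1 → ∀ l, ∑ r : Fin (q l), δ ⟨l, r⟩ * v j s (E ⟨l, r⟩) = 0) ∧
      ∃ a : I → J → ℤ, ∀ i j (s : Fin (q j)), δ ⟨j, s⟩ * w i (E ⟨j, s⟩) = a i j := by
  have hch : ∀ j, ∃ b ε, Good (q j - 1) (v j) b ε := fun j =>
    chain_lemma (by have := hq j; omega) (by have := hq4 j; have := hq j; omega) (v j)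
      (h.vv j) (h.vadj j) (h.vfar j)
  choose b ε hg using hch
  -- the indices of different chains are different
  have hne : ∀ j l, j ≠ l → ∀ s r, s ≤ q j - 1 → r ≤ q l - 1 → b j s ≠ b l r := by
    intro j l hjl s r hs hr hcon
    have hl := hq l
    have hj := hq j
    -- a vector of the chain `l` not vanishing at `b l r`
    have : ∃ t, t < q l - 1 ∧ v l t (b l r) ≠ 0 := by
      rcases hr.lt_or_eq with hr | hr
      · refine ⟨r, hr, ?_⟩
        rw [(hg l).2.2 r hr, Pi.sub_apply, Pi.single_eq_same, single_eval]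
        · rcases (hg l).1 r hr.le with h | h <;> rw [h] <;> norm_num
        · intro h
          have := (hg l).2.1 (r + 1) r (by omega) (by omega) h
          omega
      · refine ⟨r - 1, by omega, ?_⟩
        have e : r - 1 + 1 = r := by omega
        rw [(hg l).2.2 (r - 1) (by omega), e, Pi.sub_apply, Pi.single_eq_same, single_eval]
        · rcases (hg l).1 r (by omega) with h | h <;> rw [h] <;> norm_num
        · intro h
          have := (hg l).2.1 (r - 1) r (by omega) (by omega) h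
          omega
    obtain ⟨t, ht, ht0⟩ := this
    have h2 := (hg j).vanish (by omega) (u := v l t) (fun s hs => h.vne j l s t hjl hs ht)
      (h.vv l t ht) s hs
    rw [hcon] at h2
    exact ht0 h2
  have hinj : Function.Injective (fun r : Σ j, Fin (q j) => b r.1 r.2) := by
    rintro ⟨j, s⟩ ⟨l, r⟩ hsr
    simp only at hsr
    have hs := s.2
    have hr := r.2
    by_cases hjl : j = l
    · subst hjl
      have := (hg j).2.1 s r (by omega) (by omega) hsr
      rw [Fin.ext this]
    · exact absurd hsr (hne j l hjl s r (by omega) (by omega))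
  have hbij : Function.Bijective (fun r : Σ j, Fin (q j) => b r.1 r.2) := by
    rw [Fintype.bijective_iff_injective_and_card]
    refine ⟨hinj, ?_⟩
    rw [Fintype.card_sigma, hι]
    simp
  let E : (Σ j, Fin (q j)) ≃ ι := Equiv.ofBijective _ hbij
  have hE : ∀ j (s : Fin (q j)), E ⟨j, s⟩ = b j s := fun j s => rfl
  let δ : (Σ j, Fin (q j)) → ℤ := fun r => ε r.1 r.2
  have hδ : ∀ r, δ r = 1 ∨ δ r = -1 := fun r => (hg r.1).1 r.2 (by have := r.2.2; omega)
  have hδsq : ∀ r, δ r * δ r = 1 := fun r => by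
    rcases hδ r with h | h <;> rw [h] <;> norm_num
  have hdot : ∀ u u' : ι → ℤ, u ⬝ᵥ u' = ∑ j, ∑ s : Fin (q j),
      (δ ⟨j, s⟩ * u (E ⟨j, s⟩)) * (δ ⟨j, s⟩ * u' (E ⟨j, s⟩)) := by
    intro u u'
    rw [dotProduct, ← E.sum_comp, Fintype.sum_sigma]
    apply sum_congr rfl
    intro j _
    apply sum_congr rfl
    intro s _
    have := hδsq ⟨j, s⟩
    calc u (E ⟨j, s⟩) * u' (E ⟨j, s⟩) = (δ ⟨j, s⟩ * δ ⟨j, s⟩) * (u (E ⟨j, s⟩) * u' (E ⟨j, s⟩)) := by
          rw [this, one_mul]
      _ = _ := by ring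
  -- the centre
  have hq2 : ∀ j, 2 ≤ q j := fun j => by have := hq j; omega
  let γ : J → ℤ := fun j => ε j 1 * c (b j 1)
  have hγ : ∀ j s, 1 ≤ s → s ≤ q j - 1 → ε j s * c (b j s) = γ j := by
    intro j s hs
    induction s, hs using Nat.le_induction with
    | base => intro _; rfl
    | succ s hs ih =>
      intro hs'
      have h1 := (hg j).dot c (by omega : s < q j - 1)
      rw [h.cv j s (by omega) (by omega)] at h1
      rw [← ih (by omega)]
      linarith
  have hγ0 : ∀ j, ε j 0 * c (b j 0) = γ j - 1 := by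
    intro j
    have h1 := (hg j).dot c (by have := hq j; omega : 0 < q j - 1)
    rw [h.cv0 j, zero_add] at h1
    have h2 := hγ j 1 le_rfl (by have := hq j; omega)
    linarith
  have hcsum : ∑ j, ∑ s : Fin (q j), (δ ⟨j, s⟩ * c (E ⟨j, s⟩)) ^ 2 = Fintype.card J := by
    rw [← h.cc, hdot]
    apply sum_congr rfl
    intro j _
    apply sum_congr rfl
    intro s _
    ring
  have hblock : ∀ j, ∑ s : Fin (q j), (δ ⟨j, s⟩ * c (E ⟨j, s⟩)) ^ 2 =
      (γ j - 1) ^ 2 + ((q j : ℤ) - 1) * γ j ^ 2 := by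
    intro j
    have hj := hq j
    have e : ∀ s : Fin (q j), (δ ⟨j, s⟩ * c (E ⟨j, s⟩)) ^ 2 =
        (if (s : ℕ) = 0 then (γ j - 1) ^ 2 - γ j ^ 2 else 0) + γ j ^ 2 := by
      intro s
      have hs := s.2
      change (ε j s * c (b j s)) ^ 2 = _
      split_ifs with h0
      · rw [h0, hγ0]; ring
      · rw [hγ j s (by omega) (by omega)]; ring
    rw [sum_congr rfl fun s _ => e s, sum_add_distrib, sum_const, card_univ, Fintype.card_fin,
      sum_eq_single_of_mem (⟨0, by omega⟩ : Fin (q j)) (mem_univ _)]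
    · rw [if_pos rfl, nsmul_eq_mul]
      ring
    · intro s _ hs
      rw [if_neg]
      intro h0
      exact hs (Fin.ext h0)
  have hγz : ∀ j, γ j = 0 := by
    have h1 : ∀ j, 0 ≤ (γ j - 1) ^ 2 + ((q j : ℤ) - 1) * γ j ^ 2 - 1 ∧
        ((γ j - 1) ^ 2 + ((q j : ℤ) - 1) * γ j ^ 2 - 1 = 0 → γ j = 0) := by
      intro j
      have hj : (3 : ℤ) ≤ q j := by exact_mod_cast hq j
      have e : (γ j - 1) ^ 2 + ((q j : ℤ) - 1) * γ j ^ 2 - 1 = γ j * (q j * γ j - 2) := by ring
      rw [e]
      rcases lt_trichotomy (γ j) 0 with h0 | h0 | h0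
      · have : 0 < γ j * (q j * γ j - 2) := by
          apply mul_pos_of_neg_of_neg h0
          nlinarith
        exact ⟨this.le, fun h => by omega⟩
      · rw [h0]; simp
      · have : 0 < γ j * (q j * γ j - 2) := by
          apply mul_pos h0
          nlinarith
        exact ⟨this.le, fun h => by omega⟩
    have h2 : ∑ j, ((γ j - 1) ^ 2 + ((q j : ℤ) - 1) * γ j ^ 2 - 1) = 0 := by
      rw [sum_sub_distrib, ← sum_congr rfl fun j _ => hblock j, hcsum]
      simp
    rw [sum_eq_zero_iff_of_nonneg fun j _ => (h1 j).1] at h2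
    exact fun j => (h1 j).2 (h2 j (mem_univ j))
  refine ⟨E, δ, hδ, ?_, ?_, ?_⟩
  · intro j s
    have hs := s.2
    change ε j s * c (b j s) = _
    split_ifs with h0
    · rw [h0, hγ0, hγz]; norm_num
    · rw [hγ j s (by omega) (by omega), hγz]
  · intro j s hs l
    have hv := (hg j).2.2 s hs
    by_cases hjl : j = l
    · subst hjl
      have e : ∀ r : Fin (q j), δ ⟨j, r⟩ * v j s (E ⟨j, r⟩) =
          (if r = ⟨s, by omega⟩ then 1 else 0) - (if r = ⟨s + 1, by omega⟩ then 1 else 0) := by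
        intro r
        have hr := r.2
        change ε j r * v j s (b j r) = _
        rw [hv, Pi.sub_apply]
        have e1 : (Pi.single (b j s) (ε j s) : ι → ℤ) (b j r) =
            if r = ⟨s, by omega⟩ then ε j r else 0 := by
          rw [Pi.single_apply]
          by_cases h0 : (r : ℕ) = s
          · rw [if_pos (by rw [h0]), if_pos (Fin.ext h0), h0]
          · rw [if_neg, if_neg]
            · intro h; exact h0 (congrArg Fin.val h)
            · intro h; exact h0 ((hg j).2.1 _ _ (by omega) (by omega) h)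
        have e2 : (Pi.single (b j (s + 1)) (ε j (s + 1)) : ι → ℤ) (b j r) =
            if r = ⟨s + 1, by omega⟩ then ε j r else 0 := by
          rw [Pi.single_apply]
          by_cases h0 : (r : ℕ) = s + 1
          · rw [if_pos (by rw [h0]), if_pos (Fin.ext h0), h0]
          · rw [if_neg, if_neg]
            · intro h; exact h0 (congrArg Fin.val h)
            · intro h; exact h0 ((hg j).2.1 _ _ (by omega) (by omega) h)
        rw [e1, e2, mul_sub]
        have h3 : ε j r * ε j r = 1 := hδsq ⟨j, r⟩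
        congr 1
        · split_ifs
          · exact h3
          · ring
        · split_ifs
          · exact h3
          · ring
      rw [sum_congr rfl fun r _ => e r, sum_sub_distrib, sum_ite_eq' univ, sum_ite_eq' univ]
      simp
    · apply sum_eq_zero
      intro r _
      have hr := r.2
      change ε l r * v j s (b l r) = _
      rw [hv, Pi.sub_apply, single_eval, single_eval]
      · ring
      · exact hne j l hjl (s + 1) r (by omega) (by omega)
      · exact hne j l hjl s r (by omega) (by omega)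
  · refine ⟨fun i j => ε j 0 * w i (b j 0), fun i j s => ?_⟩
    have hs := s.2
    exact (hg j).const (fun s hs => h.wv i j s hs) s (by omega)

/-- The main theorem on embedded stars. -/
theorem Star.matched {I J : Type} [Fintype I] [Fintype J] [DecidableEq I] [DecidableEq J]
    (hIJ : Fintype.card J = Fintype.card I + 1)
    {q : J → ℕ} (hq : ∀ j, 3 ≤ q j) (hq4 : ∀ j, q j ≠ 4) {c : ι → ℤ} {v : J → ℕ → ι → ℤ}
    {w : I → ι → ℤ} (h : Star q c v w) (hι : Fintype.card ι = ∑ j, q j) (L : AddSubgroup (ι → ℤ))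
    (hL : L ≤ AddSubgroup.closure ({c} ∪ {x | ∃ j s, s < q j - 1 ∧ x = v j s} ∪ Set.range w))
    (hcov : ∀ x : ι → ℤ, (∀ t, Odd (x t)) → ∃ e : ι → ℤ, (∀ t, e t = 1 ∨ e t = -1) ∧
      ∃ l ∈ L, x = e + 2 • l) :
    ∃ σ : I → J, Function.Injective σ ∧ ∀ i, w i ⬝ᵥ w i = q (σ i) := by
  obtain ⟨E, δ, hδ, hc, hv, a, ha⟩ := h.coords hq hq4 hι
  have hδsq : ∀ r, δ r * δ r = 1 := fun r => by
    rcases hδ r with h | h <;> rw [h] <;> norm_num
  have hdot : ∀ u u' : ι → ℤ, u ⬝ᵥ u' = ∑ j, ∑ s : Fin (q j),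
      (δ ⟨j, s⟩ * u (E ⟨j, s⟩)) * (δ ⟨j, s⟩ * u' (E ⟨j, s⟩)) := by
    intro u u'
    rw [dotProduct, ← E.sum_comp, Fintype.sum_sigma]
    apply sum_congr rfl
    intro j _
    apply sum_congr rfl
    intro s _
    have := hδsq ⟨j, s⟩
    calc u (E ⟨j, s⟩) * u' (E ⟨j, s⟩) = (δ ⟨j, s⟩ * δ ⟨j, s⟩) * (u (E ⟨j, s⟩) * u' (E ⟨j, s⟩)) := by
          rw [this, one_mul]
      _ = _ := by ring
  have hww : ∀ i l, w i ⬝ᵥ w l = ∑ j, (q j : ℤ) * a i j * a l j := by
    intro i l
    rw [hdot]
    apply sum_congr rfl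
    intro j _
    rw [sum_congr rfl fun s _ => by rw [ha i j s, ha l j s], sum_const, card_univ,
      Fintype.card_fin, nsmul_eq_mul]
    ring
  have hsum1 : ∀ i, ∑ j, a i j = 1 := by
    intro i
    have h1 := h.wc i
    rw [hdot] at h1
    have h2 : ∀ j, ∑ s : Fin (q j), (δ ⟨j, s⟩ * w i (E ⟨j, s⟩)) * (δ ⟨j, s⟩ * c (E ⟨j, s⟩)) =
        -a i j := by
      intro j
      rw [sum_congr rfl fun s _ => by rw [ha i j s, hc j s],
        sum_eq_single_of_mem (⟨0, by have := hq j; omega⟩ : Fin (q j)) (mem_univ _)]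
      · simp
      · intro s _ hs
        rw [if_neg, mul_zero]
        intro h0
        exact hs (Fin.ext h0)
    rw [sum_congr rfl fun j _ => h2 j, sum_neg_distrib] at h1
    linarith
  -- the block sums
  let S : (ι → ℤ) →+ (J → ℤ) :=
    { toFun := fun u j => ∑ s : Fin (q j), δ ⟨j, s⟩ * u (E ⟨j, s⟩)
      map_zero' := by ext j; simp
      map_add' := by
        intro u u'
        ext j
        simp only [Pi.add_apply, mul_add, sum_add_distrib] }
  have hSdef : ∀ u j, S u j = ∑ s : Fin (q j), δ ⟨j, s⟩ * u (E ⟨j, s⟩) := fun u j => rfl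
  have hSc : ∀ j, S c j = -1 := by
    intro j
    rw [hSdef, sum_congr rfl fun s _ => hc j s,
      sum_eq_single_of_mem (⟨0, by have := hq j; omega⟩ : Fin (q j)) (mem_univ _)]
    · simp
    · intro s _ hs
      rw [if_neg]
      intro h0
      exact hs (Fin.ext h0)
  have hSw : ∀ i j, S (w i) j = q j * a i j := by
    intro i j
    rw [hSdef, sum_congr rfl fun s _ => ha i j s, sum_const, card_univ, Fintype.card_fin,
      nsmul_eq_mul]
  have hSL : ∀ l ∈ L, ∃ t : ℤ, ∃ n : I → ℤ, ∀ j, S l j = t + ∑ i, n i * (q j * a i j) := by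
    intro l hl
    have hl' := hL hl
    refine AddSubgroup.closure_induction (p := fun l _ => ∃ t : ℤ, ∃ n : I → ℤ, ∀ j,
      S l j = t + ∑ i, n i * (q j * a i j)) ?_ ?_ ?_ ?_ hl'
    · rintro x ((rfl | ⟨j, s, hs, rfl⟩) | ⟨i, rfl⟩)
      · exact ⟨-1, 0, fun j => by rw [hSc]; simp⟩
      · refine ⟨0, 0, fun l => ?_⟩
        rw [hSdef, hv j s hs l]
        simp
      · refine ⟨0, Pi.single i 1, fun j => ?_⟩
        rw [hSw, sum_eq_single_of_mem i (mem_univ i)]
        · rw [Pi.single_eq_same]; ring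
        · intro l _ hl
          rw [Pi.single_eq_of_ne hl]; ring
    · exact ⟨0, 0, fun j => by simp⟩
    · rintro x y _ _ ⟨t, n, h1⟩ ⟨t', n', h2⟩
      refine ⟨t + t', n + n', fun j => ?_⟩
      rw [map_add, Pi.add_apply, h1, h2]
      simp only [Pi.add_apply, add_mul, sum_add_distrib]
      ring
    · rintro x _ ⟨t, n, h1⟩
      refine ⟨-t, -n, fun j => ?_⟩
      rw [map_neg, Pi.neg_apply, h1]
      simp only [Pi.neg_apply, neg_mul, sum_neg_distrib]
      ring
  have key := reduced (Fintype.card I) I J rfl hIJ q hq a hsum1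
    (fun i l hil => by rw [← hww i l]; exact h.ww i l hil)
    (by
      intro x
      obtain ⟨e, he, l, hl, hx⟩ := hcov
        (fun t => δ (E.symm t) * (if ((E.symm t).2 : ℕ) = 0 then 2 * x (E.symm t).1 - 1 else -1))
        (by
          intro t
          have h1 : Odd (δ (E.symm t)) := by
            rcases hδ (E.symm t) with h | h <;> rw [h]
            · exact odd_one
            · exact odd_neg_one
          apply h1.mul
          split_ifs
          · exact ⟨x (E.symm t).1 - 1, by ring⟩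
          · exact odd_neg_one)
      obtain ⟨t, n, hSl⟩ := hSL l hl
      -- block sums of both sides
      have h1 : ∀ j, 2 * x j - q j = S e j + 2 * S l j := by
        intro j
        have h2 := congrFun (congrArg S hx) j
        rw [map_add, map_nsmul, Pi.add_apply, Pi.smul_apply] at h2
        rw [hSdef] at h2
        have h3 : ∀ s : Fin (q j), δ ⟨j, s⟩ * (δ (E.symm (E ⟨j, s⟩)) *
            (if ((E.symm (E ⟨j, s⟩)).2 : ℕ) = 0 then 2 * x (E.symm (E ⟨j, s⟩)).1 - 1 else -1)) =
            (if (s : ℕ) = 0 then 2 * x j else 0) - 1 := by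
          intro s
          rw [E.symm_apply_apply, ← mul_assoc, hδsq, one_mul]
          simp only
          split_ifs <;> ring
        rw [sum_congr rfl fun s _ => h3 s, sum_sub_distrib,
          sum_eq_single_of_mem (⟨0, by have := hq j; omega⟩ : Fin (q j)) (mem_univ _)] at h2
        · rw [if_pos rfl, sum_const, card_univ, Fintype.card_fin, nsmul_eq_mul, mul_one] at h2
          rw [h2]
          simp
        · intro s _ hs
          rw [if_neg]
          intro h0
          exact hs (Fin.ext h0)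
      -- the number of `+1` in a block
      have h4 : ∀ j, ∃ b : ℤ, 0 ≤ b ∧ b ≤ q j ∧ S e j = 2 * b - q j := by
        intro j
        have h5 : ∀ s : Fin (q j), δ ⟨j, s⟩ * e (E ⟨j, s⟩) =
            2 * (if δ ⟨j, s⟩ * e (E ⟨j, s⟩) = 1 then 1 else 0) - 1 := by
          intro s
          rcases hδ ⟨j, s⟩ with h | h <;> rcases he (E ⟨j, s⟩) with h' | h' <;> rw [h, h'] <;>
            norm_num
        refine ⟨∑ s : Fin (q j), if δ ⟨j, s⟩ * e (E ⟨j, s⟩) = 1 then 1 else 0, ?_, ?_, ?_⟩
        · apply sum_nonneg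
          intro s _
          split_ifs <;> norm_num
        · calc ∑ s : Fin (q j), (if δ ⟨j, s⟩ * e (E ⟨j, s⟩) = 1 then (1 : ℤ) else 0)
              ≤ ∑ _s : Fin (q j), (1 : ℤ) := by
                apply sum_le_sum
                intro s _
                split_ifs <;> norm_num
            _ = q j := by simp
        · rw [hSdef, sum_congr rfl fun s _ => h5 s, sum_sub_distrib, ← mul_sum]
          simp
      choose b hb0 hb1 hb2 using h4
      refine ⟨b, fun j => ⟨hb0 j, hb1 j⟩, t, n, fun j => ?_⟩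
      have h6 := h1 j
      rw [hb2 j, hSl j] at h6
      linarith)
  choose σ hσ using key
  refine ⟨σ, ?_, ?_⟩
  · intro i l hil
    by_contra hne
    have h1 := h.ww i l hne
    rw [hww, hσ i, hσ l, hil, sum_eq_single_of_mem (σ l) (mem_univ _)] at h1
    · rw [Pi.single_eq_same, mul_one, mul_one] at h1
      have := hq (σ l)
      omega
    · intro j _ hj
      rw [Pi.single_eq_of_ne hj]; ring
  · intro i
    rw [hww, hσ i, sum_eq_single_of_mem (σ i) (mem_univ _)]
    · rw [Pi.single_eq_same]; ring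
    · intro j _ hj
      rw [Pi.single_eq_of_ne hj]; ring

end Pool.Agent.H754.Pretzel
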