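import Mathlib

/-!
The lattices of flows of disjoint unions of theta graphs, and a Torelli theorem for them.
-/

set_option linter.unusedSectionVars false

namespace Pool.Agent.H754.Pretzel

open Finset

section

variable {A J : Type} [Fintype A] [Fintype J] [DecidableEq A] [DecidableEq J]

/-- the vectors whose sum over each star is zero -/
def flow (st : J → A) : AddSubgroup (J → ℤ) where
  carrier := {x | ∀ α, ∑ j ∈ univ.filter (fun j => st j = α), x j = 0}
  zero_mem' := fun α => by simp
  add_mem' := by
    intro x y hx hy α
    simp only [Pi.add_apply, sum_add_distrib]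
    rw [hx α, hy α, add_zero]
  neg_mem' := by
    intro x hx α
    simp only [Pi.neg_apply, sum_neg_distrib]
    rw [hx α, neg_zero]

/-- the form -/
def bil (q : J → ℕ) (x y : J → ℤ) : ℤ := ∑ j, (q j : ℤ) * x j * y j

theorem mem_flow {st : J → A} {x : J → ℤ} :
    x ∈ flow st ↔ ∀ α, ∑ j ∈ univ.filter (fun j => st j = α), x j = 0 := Iff.rfl

omit [DecidableEq J] in
theorem bil_pos {q : J → ℕ} (hq : ∀ j, 0 < q j) {x : J → ℤ} (h : bil q x x = 0) : x = 0 := by
  unfold bil at h
  have h1 : ∀ j, 0 ≤ (q j : ℤ) * x j * x j := fun j => by
    have : (q j : ℤ) * x j * x j = (q j : ℤ) * (x j) ^ 2 := by ring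
    rw [this]; positivity
  rw [sum_eq_zero_iff_of_nonneg fun j _ => h1 j] at h
  ext j
  have h2 := h j (mem_univ j)
  have h3 := hq j
  have h4 : (q j : ℤ) ≠ 0 := by omega
  rcases mul_eq_zero.1 h2 with h | h
  · exact (mul_eq_zero.1 h).resolve_left h4
  · exact h

omit [DecidableEq J] in
theorem bil_sub_self {q : J → ℕ} (x y : J → ℤ) :
    bil q (x - y) (x - y) = bil q x x - 2 * bil q x y + bil q y y := by
  unfold bil
  rw [mul_sum, ← sum_sub_distrib, ← sum_add_distrib]
  apply sum_congr rfl
  intro j _
  simp only [Pi.sub_apply]
  ring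

/-- An isometric endomorphism is surjective. -/
theorem surj_endo {st : J → A} {q : J → ℕ} (hq : ∀ j, 0 < q j) (θ : flow st →+ flow st)
    (hθ : ∀ x y : flow st, bil q (θ x) (θ y) = bil q x y) : Function.Surjective θ := by
  intro y
  set n := bil q (y : J → ℤ) y with hn
  let S : Set (flow st) := {x | bil q (x : J → ℤ) x = n}
  have hfin : S.Finite := by
    have h1 : (Set.pi Set.univ fun _ : J => Set.Icc (-n) n).Finite :=
      Set.Finite.pi fun _ => Set.finite_Icc _ _
    apply Set.Finite.of_finite_image (f := fun x : flow st => (x : J → ℤ)) _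
      (Subtype.val_injective.injOn)
    apply h1.subset
    rintro _ ⟨x, hx, rfl⟩
    rw [Set.mem_pi]
    intro j _
    have h2 : (q j : ℤ) * (x : J → ℤ) j * (x : J → ℤ) j ≤ n := by
      rw [← show bil q (x : J → ℤ) x = n from hx]
      unfold bil
      exact single_le_sum (f := fun j => (q j : ℤ) * (x : J → ℤ) j * (x : J → ℤ) j)
        (fun i _ => by
          have : (q i : ℤ) * (x : J → ℤ) i * (x : J → ℤ) i = (q i : ℤ) * ((x : J → ℤ) i) ^ 2 := by
            ring
          rw [this]; positivity) (mem_univ j)
    have h3 : (1 : ℤ) ≤ q j := by have := hq j; omega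
    rw [Set.mem_Icc]
    constructor <;> nlinarith [sq_nonneg ((x : J → ℤ) j), sq_nonneg ((x : J → ℤ) j - 1),
      sq_nonneg ((x : J → ℤ) j + 1), Int.le_self_sq ((x : J → ℤ) j),
      Int.le_self_sq (-(x : J → ℤ) j)]
  have hmaps : ∀ x : S, θ x ∈ S := fun x => by
    change bil q _ _ = n
    rw [hθ]
    exact x.2
  let g : S → S := fun x => ⟨θ x, hmaps x⟩
  have hinj : Function.Injective g := by
    intro x x' h
    have h1 : θ x = θ x' := congrArg Subtype.val h
    have h2 : bil q (((x : flow st) - x' : flow st) : J → ℤ) ((x : flow st) - x' : flow st) = 0 := by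
      rw [← hθ, map_sub, h1, sub_self]
      simp [bil]
    have h3 := bil_pos hq h2
    apply Subtype.ext
    have h4 : ((x : flow st) - x' : flow st) = 0 := Subtype.ext h3
    exact sub_eq_zero.1 h4
  have : Finite S := hfin
  obtain ⟨x, hx⟩ := Finite.surjective_of_injective hinj ⟨y, rfl⟩
  exact ⟨x, congrArg Subtype.val hx⟩

/-- the root `e_j - e_l` -/
def root (j l : J) : J → ℤ := Pi.single j 1 - Pi.single l 1

theorem root_mem {st : J → A} {j l : J} (h : st j = st l) : root j l ∈ flow st := by
  intro α
  unfold root
  simp only [Pi.sub_apply, sum_sub_distrib]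
  have e : ∀ i : J, ∑ x ∈ univ.filter (fun j => st j = α), (Pi.single i (1 : ℤ) : J → ℤ) x =
      if st i = α then 1 else 0 := by
    intro i
    rw [sum_filter]
    have : ∀ x : J, (if st x = α then (Pi.single i (1 : ℤ) : J → ℤ) x else 0) =
        if x = i then (if st i = α then 1 else 0) else 0 := by
      intro x
      by_cases hx : x = i
      · subst hx
        rw [Pi.single_eq_same, if_pos rfl]
      · rw [Pi.single_eq_of_ne hx, if_neg hx]
        split_ifs <;> rfl
    rw [sum_congr rfl fun x _ => this x, sum_ite_eq' univ]
    simp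
  rw [e, e, h, sub_self]

theorem root_apply (j l i : J) : root j l i = (if i = j then 1 else 0) - if i = l then 1 else 0 := by
  unfold root
  rw [Pi.sub_apply, Pi.single_apply, Pi.single_apply]

/-- irreducible vectors -/
def Irr (st : J → A) (q : J → ℕ) (x : J → ℤ) : Prop :=
  x ∈ flow st ∧ x ≠ 0 ∧ ∀ y ∈ flow st, ∀ z ∈ flow st, x = y + z → 0 ≤ bil q y z → y = 0 ∨ z = 0

theorem bil_root {q : J → ℕ} {j l : J} (x : J → ℤ) :
    bil q (root j l) x = q j * x j - q l * x l := by
  unfold bil
  have : ∀ i, (q i : ℤ) * root j l i * x i =
      (if i = j then (q j : ℤ) * x j else 0) - if i = l then (q l : ℤ) * x l else 0 := by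
    intro i
    rw [root_apply]
    by_cases h1 : i = j
    · by_cases h2 : i = l
      · rw [if_pos h1, if_pos h2, if_pos h1, if_pos h2, ← h1, ← h2]; ring
      · rw [if_pos h1, if_neg h2, if_pos h1, if_neg h2, ← h1]; ring
    · by_cases h2 : i = l
      · rw [if_neg h1, if_pos h2, if_neg h1, if_pos h2, ← h2]; ring
      · rw [if_neg h1, if_neg h2, if_neg h1, if_neg h2]; ring
  rw [sum_congr rfl fun i _ => this i, sum_sub_distrib, sum_ite_eq' univ, sum_ite_eq' univ]
  simp

theorem irr_iff {st : J → A} {q : J → ℕ} (hq : ∀ j, 0 < q j) (x : J → ℤ) :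
    Irr st q x ↔ ∃ j l, j ≠ l ∧ st j = st l ∧ x = root j l := by
  constructor
  · rintro ⟨hx, hx0, hirr⟩
    have h1 : ∃ i, x i ≠ 0 := by
      by_contra hcon
      push Not at hcon
      exact hx0 (funext hcon)
    obtain ⟨i, hi⟩ := h1
    have hsum := hx (st i)
    have hpos : ∃ j, st j = st i ∧ 0 < x j := by
      by_contra hcon
      push Not at hcon
      have : ∑ j ∈ univ.filter (fun j => st j = st i), x j < 0 := by
        apply sum_neg'
        · intro j hj
          rw [mem_filter] at hj
          exact hcon j hj.2
        · refine ⟨i, by simp, ?_⟩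
          have := hcon i rfl
          omega
      omega
    have hneg : ∃ l, st l = st i ∧ x l < 0 := by
      by_contra hcon
      push Not at hcon
      have : 0 < ∑ j ∈ univ.filter (fun j => st j = st i), x j := by
        apply sum_pos'
        · intro j hj
          rw [mem_filter] at hj
          exact hcon j hj.2
        · refine ⟨i, by simp, ?_⟩
          have := hcon i rfl
          omega
      omega
    obtain ⟨j, hj, hj0⟩ := hpos
    obtain ⟨l, hl, hl0⟩ := hneg
    have hjl : j ≠ l := by rintro rfl; omega
    have hst : st j = st l := hj.trans hl.symm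
    refine ⟨j, l, hjl, hst, ?_⟩
    have h2 := hirr (root j l) (root_mem hst) (x - root j l)
      ((flow st).sub_mem hx (root_mem hst)) (by abel) (by
        rw [bil_root, Pi.sub_apply, Pi.sub_apply, root_apply, root_apply, if_pos rfl, if_neg hjl,
          if_neg hjl.symm, if_pos rfl]
        have c1 : (0 : ℤ) < q j := by exact_mod_cast hq j
        have c2 : (0 : ℤ) < q l := by exact_mod_cast hq l
        have c3 : 0 ≤ (q j : ℤ) * (x j - (1 - 0)) := mul_nonneg c1.le (by omega)
        have c4 : (q l : ℤ) * (x l - (0 - 1)) ≤ 0 := mul_nonpos_of_nonneg_of_nonpos c2.le (by omega)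
        linarith)
    rcases h2 with h2 | h2
    · exfalso
      have := congrFun h2 j
      rw [root_apply, if_pos rfl, if_neg hjl] at this
      simp at this
    · exact sub_eq_zero.1 h2
  · rintro ⟨j, l, hjl, hst, rfl⟩
    refine ⟨root_mem hst, ?_, ?_⟩
    · intro h
      have := congrFun h j
      rw [root_apply, if_pos rfl, if_neg hjl] at this
      simp at this
    · intro y hy z hz hyz hb
      have hzi : ∀ i, z i = root j l i - y i := fun i => by
        have := congrFun hyz i
        rw [Pi.add_apply] at this
        linarith
      have hterm : ∀ i, (q i : ℤ) * y i * z i ≤ 0 := by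
        intro i
        rw [hzi, root_apply]
        have c1 : (0 : ℤ) < q i := by exact_mod_cast hq i
        have c2 : y i * ((if i = j then (1 : ℤ) else 0) - (if i = l then 1 else 0) - y i) ≤ 0 := by
          by_cases h1 : i = j
          · subst h1
            rw [if_pos rfl, if_neg hjl]
            have := Int.le_self_sq (y i)
            nlinarith
          · by_cases h2 : i = l
            · subst h2
              rw [if_neg h1, if_pos rfl]
              have := Int.le_self_sq (-y i)
              nlinarith
            · rw [if_neg h1, if_neg h2]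
              nlinarith [sq_nonneg (y i)]
        have : (q i : ℤ) * y i * ((if i = j then (1 : ℤ) else 0) - (if i = l then 1 else 0) - y i) =
            q i * (y i * ((if i = j then (1 : ℤ) else 0) - (if i = l then 1 else 0) - y i)) := by
          ring
        rw [this]
        exact mul_nonpos_of_nonneg_of_nonpos c1.le c2
      have hzero : ∀ i, (q i : ℤ) * y i * z i = 0 := by
        have h1 : ∑ i, (q i : ℤ) * y i * z i = 0 := le_antisymm (sum_nonpos fun i _ => hterm i) hb
        have h2 := (sum_eq_zero_iff_of_nonpos fun i _ => hterm i).1 h1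
        exact fun i => h2 i (mem_univ i)
      have hyz0 : ∀ i, y i = 0 ∨ z i = 0 := by
        intro i
        have c1 : (q i : ℤ) ≠ 0 := by have := hq i; omega
        rcases mul_eq_zero.1 (hzero i) with h | h
        · exact Or.inl ((mul_eq_zero.1 h).resolve_left c1)
        · exact Or.inr h
      -- `y` vanishes outside `j`, `l`
      have hout : ∀ i, i ≠ j → i ≠ l → y i = 0 := by
        intro i h1 h2
        have := hzi i
        rw [root_apply, if_neg h1, if_neg h2] at this
        rcases hyz0 i with h | h
        · exact h
        · omega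
      have hsum : y j + y l = 0 := by
        have h1 := hy (st j)
        have h2 : ∑ i ∈ univ.filter (fun i => st i = st j), y i = ∑ i ∈ {j, l}, y i := by
          symm
          apply sum_subset
          · intro i hi
            rw [mem_insert, mem_singleton] at hi
            rw [mem_filter]
            rcases hi with rfl | rfl
            · exact ⟨mem_univ _, rfl⟩
            · exact ⟨mem_univ _, hst.symm⟩
          · intro i _ hi
            rw [mem_insert, mem_singleton, not_or] at hi
            exact hout i hi.1 hi.2
        rw [h2, sum_pair hjl] at h1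
        exact h1
      have hj := hzi j
      have hl := hzi l
      rw [root_apply, if_pos rfl, if_neg hjl] at hj
      rw [root_apply, if_neg hjl.symm, if_pos rfl] at hl
      rcases hyz0 j with h | h
      · left
        ext i
        by_cases h1 : i = j
        · rw [h1, h]; rfl
        · by_cases h2 : i = l
          · rw [h2, Pi.zero_apply]; omega
          · exact hout i h1 h2
      · right
        ext i
        by_cases h1 : i = j
        · rw [h1, h]; rfl
        · by_cases h2 : i = l
          · rw [h2, Pi.zero_apply]; omega
          · rw [hzi, root_apply, if_neg h1, if_neg h2, hout i h1 h2]; rfl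

end

end Pool.Agent.H754.Pretzel
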