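import Pool.Agent.H754.Pretzel.Combine

/-!
The coordinates of the vectors orthogonal to the chains.
-/

set_option linter.unusedSectionVars false

namespace Pool.Agent.H754.Pretzel

open Finset Matrix

variable {ι : Type} [Fintype ι] [DecidableEq ι]

theorem Stars.hom {A J : Type} [Fintype A] [Fintype J] [DecidableEq A] [DecidableEq J]
    {st : J → A} {q : J → ℕ} {c : A → ι → ℤ} {v : J → ℕ → ι → ℤ}
    (hq : ∀ j, 3 ≤ q j) (hq4 : ∀ j, q j ≠ 4) (h : Stars st q c v)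
    (hι : Fintype.card ι = ∑ j, q j) :
    ∃ F : (ι → ℤ) →+ (J → ℤ),
      (∀ u u' : ι → ℤ, (∀ j s, s < q j - 1 → v j s ⬝ᵥ u = 0) →
        (∀ j s, s < q j - 1 → v j s ⬝ᵥ u' = 0) → u ⬝ᵥ u' = bil q (F u) (F u')) ∧
      ∀ u : ι → ℤ, (∀ j s, s < q j - 1 → v j s ⬝ᵥ u = 0) → ∀ α,
        c α ⬝ᵥ u = -∑ j ∈ univ.filter (fun j => st j = α), F u j := by
  obtain ⟨E, δ, hδ, hc, hvs, hu⟩ := h.coords' hq hq4 hι
  have hδsq : ∀ r, δ r * δ r = 1 := fun r => by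
    rcases hδ r with h | h <;> rw [h] <;> norm_num
  have hq0 : ∀ j, 0 < q j := fun j => by have := hq j; omega
  let F : (ι → ℤ) →+ (J → ℤ) :=
    { toFun := fun u j => δ ⟨j, ⟨0, hq0 j⟩⟩ * u (E ⟨j, ⟨0, hq0 j⟩⟩)
      map_zero' := by ext j; simp
      map_add' := by
        intro u u'
        ext j
        simp only [Pi.add_apply, mul_add] }
  have hF : ∀ u j, F u j = δ ⟨j, ⟨0, hq0 j⟩⟩ * u (E ⟨j, ⟨0, hq0 j⟩⟩) := fun u j => rfl
  have hdot : ∀ u u' : ι → ℤ, u ⬝ᵥ u' = ∑ j, ∑ s : Fin (q j),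
      (δ ⟨j, s⟩ * u (E ⟨j, s⟩)) * (δ ⟨j, s⟩ * u' (E ⟨j, s⟩)) := by
    intro u u'
    rw [dotProduct, ← E.sum_comp, Fintype.sum_sigma]
    apply sum_congr rfl
    intro j _
    apply sum_congr rfl
    intro s _
    have := hδsq ⟨j, s⟩
    calc u (E ⟨j, s⟩) * u' (E ⟨j, s⟩) = (δ ⟨j, s⟩ * δ ⟨j, s⟩) * (u (E ⟨j, s⟩) * u' (E ⟨j, s⟩)) := by
          rw [this, one_mul]
      _ = _ := by ring
  have hconst : ∀ u : ι → ℤ, (∀ j s, s < q j - 1 → v j s ⬝ᵥ u = 0) →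
      ∀ j (s : Fin (q j)), δ ⟨j, s⟩ * u (E ⟨j, s⟩) = F u j := by
    intro u h1 j s
    obtain ⟨x, hx⟩ := hu u h1
    rw [hx j s, hF, hx j]
  refine ⟨F, fun u u' h1 h2 => ?_, fun u h1 α => ?_⟩
  · rw [hdot]
    unfold bil
    apply sum_congr rfl
    intro j _
    rw [sum_congr rfl fun s _ => by rw [hconst u h1 j s, hconst u' h2 j s], sum_const, card_univ,
      Fintype.card_fin, nsmul_eq_mul]
    ring
  · rw [hdot]
    have h5 : ∀ j, ∑ s : Fin (q j), (δ ⟨j, s⟩ * c α (E ⟨j, s⟩)) * (δ ⟨j, s⟩ * u (E ⟨j, s⟩)) =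
        if st j = α then -F u j else 0 := by
      intro j
      rw [sum_congr rfl fun s _ => by rw [hconst u h1 j s, hc α j s],
        sum_eq_single_of_mem (⟨0, hq0 j⟩ : Fin (q j)) (mem_univ _)]
      · by_cases hj : st j = α <;> simp [hj]
      · intro s _ hs
        rw [if_neg, zero_mul]
        intro h0
        exact hs (Fin.ext h0.1)
    rw [sum_congr rfl fun j _ => h5 j, ← sum_filter, sum_neg_distrib]

end Pool.Agent.H754.Pretzel
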