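import Mathlib

/-!
Elementary inequalities used in the counting argument for odd pretzel knots.
-/

namespace Pool.Agent.H754.Pretzel

open Finset

/-- one step of the induction -/
theorem step_ineq {R R0 z y e c : ℝ} (hR0 : 0 < R0) (hR : R0 ≤ R) (hc : c = 1 / 3 + 1 / R0)
    (hz : 0 ≤ z) (hzy : z ≤ y) (he : 2 * c + c ^ 2 * y ≤ e) :
    (R * (1 + z / 3) + z) ^ 2 ≤ (1 + e * z) * R ^ 2 := by
  have hRpos : 0 < R := lt_of_lt_of_le hR0 hR
  have hcpos : 0 < c := by rw [hc]; positivity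
  have h1 : 1 ≤ R / R0 := by rw [le_div_iff₀ hR0]; linarith
  have h2 : R * (1 + z / 3) + z ≤ R * (1 + c * z) := by
    have : R * (1 + c * z) = R * (1 + z / 3) + z * (R / R0) := by
      rw [hc]; field_simp; ring
    rw [this]
    nlinarith
  have h3 : 0 ≤ R * (1 + z / 3) + z := by positivity
  calc (R * (1 + z / 3) + z) ^ 2 ≤ (R * (1 + c * z)) ^ 2 := by
        exact pow_le_pow_left₀ h3 h2 2
    _ = R ^ 2 * (1 + z * (2 * c + c ^ 2 * z)) := by ring
    _ ≤ R ^ 2 * (1 + z * e) := by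
        have h4 : c ^ 2 * z ≤ c ^ 2 * y := mul_le_mul_of_nonneg_left hzy (sq_nonneg c)
        have h5 : z * (2 * c + c ^ 2 * z) ≤ z * e := mul_le_mul_of_nonneg_left (by linarith) hz
        have h6 : 0 ≤ R ^ 2 := sq_nonneg R
        nlinarith
    _ = (1 + e * z) * R ^ 2 := by ring

/-- the function `R` of a finite family -/
noncomputable def rho {I : Type} (z : I → ℝ) (s : Finset I) : ℝ :=
  4 * ∏ i ∈ s, (1 + z i / 3) - 3

theorem rho_insert {I : Type} [DecidableEq I] (z : I → ℝ) {s : Finset I} {i : I} (hi : i ∉ s) :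
    rho z (insert i s) = rho z s * (1 + z i / 3) + z i := by
  unfold rho
  rw [prod_insert hi]
  ring

theorem one_le_prod_real {I : Type} [DecidableEq I] {g : I → ℝ} (s : Finset I)
    (hg : ∀ i ∈ s, 1 ≤ g i) : 1 ≤ ∏ i ∈ s, g i := by
  induction s using Finset.induction_on with
  | empty => simp
  | insert i s hi ih =>
    rw [prod_insert hi]
    have h1 := hg i (mem_insert_self i s)
    have h2 := ih fun j hj => hg j (mem_insert_of_mem hj)
    nlinarith

theorem rho_union {I : Type} [DecidableEq I] {z : I → ℝ} (hz : ∀ i, 0 ≤ z i) {s t : Finset I}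
    (h : Disjoint s t) (h1 : 1 ≤ rho z s) : rho z s ≤ rho z (s ∪ t) := by
  unfold rho at *
  rw [prod_union h]
  have := one_le_prod_real t (g := fun i => 1 + z i / 3) fun i _ => by
    have := hz i
    linarith
  nlinarith

/-- The induction: `B` is the value for the base set `s`. -/
theorem induct_ineq {I : Type} [DecidableEq I] {z t : I → ℝ} {s r : Finset I} {y e c B : ℝ}
    (hz : ∀ i, 0 ≤ z i) (hd : Disjoint s r) (h1 : 1 ≤ rho z s) (hc : c = 1 / 3 + 1 / rho z s)
    (he : 2 * c + c ^ 2 * y ≤ e) (hzr : ∀ i ∈ r, z i ≤ y) (htr : ∀ i ∈ r, 1 + e * z i ≤ t i)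
    (hB : rho z s ^ 2 < B) (he0 : 0 ≤ e) :
    rho z (s ∪ r) ^ 2 < B * ∏ i ∈ r, t i := by
  induction r using Finset.induction_on with
  | empty => simpa using hB
  | insert i r hi ih =>
    have hd' : Disjoint s r := Disjoint.mono_right (subset_insert i r) hd
    have his : i ∉ s := fun h => (Finset.disjoint_left.1 hd h) (mem_insert_self i r)
    have ih' := ih hd' (fun j hj => hzr j (mem_insert_of_mem hj))
      (fun j hj => htr j (mem_insert_of_mem hj))
    have hu : s ∪ insert i r = insert i (s ∪ r) := by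
      ext x; simp only [mem_union, mem_insert]; tauto
    have hiu : i ∉ s ∪ r := by simp [his, hi]
    rw [hu, rho_insert z hiu, prod_insert hi]
    have h2 := rho_union hz hd' h1
    have h3 := step_ineq (R := rho z (s ∪ r)) (R0 := rho z s) (z := z i) (y := y) (e := e) (c := c)
      (by linarith) h2 hc (hz i) (hzr i (mem_insert_self i r)) he
    have h4 := htr i (mem_insert_self i r)
    have h5 : 0 < rho z (s ∪ r) ^ 2 := by
      have : 0 < rho z (s ∪ r) := by linarith
      positivity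
    have h6 : 0 ≤ z i := hz i
    have h7 : 1 ≤ t i := by nlinarith
    calc (rho z (s ∪ r) * (1 + z i / 3) + z i) ^ 2 ≤ (1 + e * z i) * rho z (s ∪ r) ^ 2 := h3
      _ ≤ t i * rho z (s ∪ r) ^ 2 := mul_le_mul_of_nonneg_right h4 h5.le
      _ < t i * (B * ∏ j ∈ r, t j) := mul_lt_mul_of_pos_left ih' (by linarith)
      _ = B * (t i * ∏ j ∈ r, t j) := by ring

/-- base, case of one element -/
theorem base_one {v t : ℝ} (hv : 0 < v) (ht : 1 + 4 * v ≤ t) :
    (1 + 4 / 3 * v) ^ 2 < t * (1 + v * (1 - 1 / t)) := by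
  have h0 : 0 < t := by linarith
  have h1 : t * (1 + v * (1 - 1 / t)) = t + v * (t - 1) := by field_simp
  rw [h1]
  nlinarith

theorem base_two_aux {a b : ℝ} (hb : 0 < b) (hba : 4 * b ≤ a ^ 2) (ha : 0 < a) (ha2 : a ≤ 2) :
    b * (1 + 4 / 3 * a + 4 / 9 * b) ^ 2 < (a + b) ^ 2 * (1 + a) - 2 * (a + b) * b := by
  have e1 : (a + b) ^ 2 * (1 + a) - 2 * (a + b) * b - b * (1 + 4 / 3 * a + 4 / 9 * b) ^ 2 =
      a ^ 2 + a ^ 3 + 2 / 9 * (a ^ 2 * b) - 17 / 9 * b ^ 2 - 5 / 27 * (a * b ^ 2) - b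
        - 16 / 81 * b ^ 3 - 8 / 3 * (a * b) := by ring
  have h1 : a * b ≤ a ^ 3 / 4 := by nlinarith
  have h2 : b ≤ a / 2 := by nlinarith
  have h3 : b ^ 2 ≤ a ^ 3 / 8 := by nlinarith
  have h4 : a * b ^ 2 ≤ a ^ 3 / 4 := by nlinarith
  have h5 : b ≤ 1 := by linarith
  have h6 : b ^ 3 ≤ a ^ 3 / 8 := by nlinarith
  have h7 : 0 < a ^ 2 := by positivity
  have h8 : 0 < a ^ 3 := by positivity
  have h9 : 0 < a ^ 2 * b := by positivity
  linarith

/-- base, case of two elements, the second one large -/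
theorem base_two_large {v y t₂ t₃ : ℝ} (hv : 0 < v) (hv1 : v ≤ 1) (hy : 0 < y) (hyv : y ≤ v)
    (h₂ : 1 + v * (1 + 1 / y) ≤ t₂) (h₃ : 1 + y * (1 + 1 / v) ≤ t₃) :
    (1 + 4 / 3 * (v + y) + 4 / 9 * (v * y)) ^ 2 <
      t₂ * t₃ * (1 + v * (1 - 1 / t₂) + y * (1 - 1 / t₃)) := by
  have hvy : 0 < v * y := by positivity
  have k₂ : (v + y + v * y) / y ≤ t₂ := by
    have : (v + y + v * y) / y = 1 + v * (1 + 1 / y) := by field_simp; ring
    linarith
  have k₃ : (v + y + v * y) / v ≤ t₃ := by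
    have : (v + y + v * y) / v = 1 + y * (1 + 1 / v) := by field_simp; ring
    linarith
  have p₂ : 1 ≤ t₂ := le_trans (by have := div_pos hv hy; have : 0 < v * (1 + 1 / y) := by positivity
                                   linarith) h₂
  have p₃ : 1 ≤ t₃ := le_trans (by have : 0 < y * (1 + 1 / v) := by positivity
                                   linarith) h₃
  have e1 : t₂ * t₃ * (1 + v * (1 - 1 / t₂) + y * (1 - 1 / t₃)) =
      t₂ * t₃ * (1 + v + y) - v * t₃ - y * t₂ := by
    have : t₂ ≠ 0 := by linarith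
    have : t₃ ≠ 0 := by linarith
    field_simp
    ring
  rw [e1]
  set K := v + y + v * y with hK
  have hKpos : 0 < K := by positivity
  -- monotonicity in both variables
  have m1 : t₂ * t₃ * (1 + v + y) - v * t₃ - y * t₂ ≥
      (K / y) * (K / v) * (1 + v + y) - v * (K / v) - y * (K / y) := by
    have a1 : 0 ≤ (t₂ - K / y) * (t₃ * (1 + v + y) - y) := by
      apply mul_nonneg (by linarith)
      nlinarith
    have a2 : 0 ≤ (t₃ - K / v) * ((K / y) * (1 + v + y) - v) := by
      apply mul_nonneg (by linarith)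
      have : 1 ≤ K / y := by
        rw [le_div_iff₀ hy, hK]; nlinarith
      nlinarith
    nlinarith
  have e2 : (K / y) * (K / v) * (1 + v + y) - v * (K / v) - y * (K / y) =
      (K ^ 2 * (1 + (v + y)) - 2 * K * (v * y)) / (v * y) := by
    field_simp
    ring
  have h := base_two_aux (a := v + y) (b := v * y) hvy (by nlinarith [sq_nonneg (v - y)])
    (by linarith) (by linarith)
  have h' : (1 + 4 / 3 * (v + y) + 4 / 9 * (v * y)) ^ 2 <
      (K ^ 2 * (1 + (v + y)) - 2 * K * (v * y)) / (v * y) := by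
    rw [lt_div_iff₀ hvy]
    have : K = (v + y) + v * y := rfl
    rw [this]
    linarith
  linarith

/-- base, case of two elements, the second one small -/
theorem base_two_small {v y t₂ t₃ : ℝ} (hv : 0 < v) (hv1 : v ≤ 1) (hy : 0 < y) (hyv : y ≤ v)
    (h₂ : 1 + v * 4 ≤ t₂) (h₃ : 1 + y * (1 + 1 / v) ≤ t₃) :
    (1 + 4 / 3 * (v + y) + 4 / 9 * (v * y)) ^ 2 <
      t₂ * t₃ * (1 + v * (1 - 1 / t₂) + y * (1 - 1 / t₃)) := by
  have hvy : 0 < v * y := by positivity
  have p₂ : 1 ≤ t₂ := by linarith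
  have p₃ : 1 ≤ t₃ := le_trans (by have : 0 < y * (1 + 1 / v) := by positivity
                                   linarith) h₃
  have e1 : t₂ * t₃ * (1 + v * (1 - 1 / t₂) + y * (1 - 1 / t₃)) =
      t₂ * t₃ * (1 + v + y) - v * t₃ - y * t₂ := by
    have : t₂ ≠ 0 := by linarith
    have : t₃ ≠ 0 := by linarith
    field_simp
    ring
  rw [e1]
  have hy2 : y * (1 + 1 / v) = y + y / v := by ring
  have hyv' : 2 * y ≤ y * (1 + 1 / v) := by
    have : 1 ≤ 1 / v := by rw [le_div_iff₀ hv]; linarith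
    nlinarith
  have m1 : t₂ * t₃ * (1 + v + y) - v * t₃ - y * t₂ ≥
      (1 + 4 * v) * (1 + 2 * y) * (1 + v + y) - v * (1 + 2 * y) - y * (1 + 4 * v) := by
    have a1 : 0 ≤ (t₂ - (1 + 4 * v)) * (t₃ * (1 + v + y) - y) := by
      apply mul_nonneg (by linarith)
      nlinarith
    have a2 : 0 ≤ (t₃ - (1 + 2 * y)) * ((1 + 4 * v) * (1 + v + y) - v) := by
      apply mul_nonneg (by linarith)
      nlinarith
    nlinarith
  nlinarith [mul_pos hv hv, mul_pos hy hy, mul_pos (mul_pos hv hv) hy, mul_pos (mul_pos hv hy) hy]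

theorem step_cond {v y R c : ℝ} (hv3 : 1 / 3 ≤ v) (hv1 : v ≤ 1) (hy : 0 < y) (hyv : y ≤ v)
    (hR : 1 + 4 / 3 * (v + y) ≤ R) (hc : c = 1 / 3 + 1 / R) : 2 * c + c ^ 2 * y ≤ 1 + 1 / v := by
  have hv : 0 < v := by linarith
  set E := 3 + 4 * v + 4 * y with hE
  have hEpos : 0 < E := by positivity
  have hRpos : 0 < R := by nlinarith
  have h1 : 1 / R ≤ 3 / E := by
    rw [div_le_div_iff₀ hRpos hEpos]; linarith
  have hcp : 0 ≤ c := by rw [hc]; positivity
  have hcle : c ≤ 1 / 3 + 3 / E := by rw [hc]; linarith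
  have h2 : c ^ 2 ≤ (1 / 3 + 3 / E) ^ 2 := pow_le_pow_left₀ hcp hcle 2
  have h3 : (1 / 3 + 3 / E) ^ 2 * y ≤ 37 / 100 := by
    have e : (1 / 3 + 3 / E) ^ 2 * y = y * (E + 9) ^ 2 / (9 * E ^ 2) := by
      field_simp
      ring
    rw [e, div_le_iff₀ (by positivity)]
    have hy1 : y ≤ 1 := by linarith
    have hEy : 3 + 8 * y ≤ E := by linarith
    -- E ^ 2 * (333/100 - y) - 18 y E - 81 y is increasing in E
    have k1 : 0 ≤ (E - (3 + 8 * y)) * ((333 / 100 - y) * (E + (3 + 8 * y)) - 18 * y) := by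
      apply mul_nonneg (by linarith)
      nlinarith
    have k2 : 0 ≤ 2997 / 100 + 1584 / 100 * y + 2112 / 100 * y ^ 2 - 64 * y ^ 3 := by
      nlinarith [sq_nonneg y, mul_nonneg hy.le (sub_nonneg.2 hy1),
        mul_nonneg (mul_nonneg hy.le hy.le) (sub_nonneg.2 hy1)]
    nlinarith
  have h4 : 6 / E ≤ 6 / (3 + 4 * v) := by
    apply div_le_div_of_nonneg_left (by norm_num) (by linarith) (by linarith)
  have h5 : 2 / 3 + 6 / (3 + 4 * v) + 37 / 100 ≤ 1 + 1 / v := by
    rw [← sub_nonneg]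
    have : 1 + 1 / v - (2 / 3 + 6 / (3 + 4 * v) + 37 / 100) =
        ((1 / 3 - 37 / 100) * v * (3 + 4 * v) + (3 + 4 * v) - 6 * v) / (v * (3 + 4 * v)) := by
      field_simp; ring
    rw [this]
    apply div_nonneg _ (by positivity)
    nlinarith
  have h6 : c ^ 2 * y ≤ (1 / 3 + 3 / E) ^ 2 * y := mul_le_mul_of_nonneg_right h2 hy.le
  have h7 : 2 * (3 / E) = 6 / E := by ring
  linarith

/-- The main inequality. -/
theorem main_ineq {I : Type} [Fintype I] [DecidableEq I] {z t : I → ℝ} (i₂ : I)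
    (hz0 : ∀ i, 0 < z i) (hz1 : ∀ i, z i ≤ 1) (hmax : ∀ i, z i ≤ z i₂)
    (ht : ∀ i, 1 + z i * min 4 (1 + 1 / z i₂) ≤ t i)
    (h2 : (∀ i, i = i₂) → 1 + 4 * z i₂ ≤ t i₂)
    (h3 : ∀ i₃, i₃ ≠ i₂ → (∀ i, i ≠ i₂ → z i ≤ z i₃) →
      1 + z i₂ * min 4 (1 + 1 / z i₃) ≤ t i₂) :
    rho z univ ^ 2 < (∏ i, t i) * (1 + ∑ i, z i * (1 - 1 / t i)) := by
  have hz : ∀ i, 0 ≤ z i := fun i => (hz0 i).le
  have hv := hz0 i₂
  have hmin : 1 ≤ min 4 (1 + 1 / z i₂) := by
    apply le_min (by norm_num)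
    have : 0 < 1 / z i₂ := by positivity
    linarith
  have ht1 : ∀ i, 1 ≤ t i := fun i => by
    have := ht i
    have := hz0 i
    nlinarith
  have hterm : ∀ i, 0 ≤ z i * (1 - 1 / t i) := fun i => by
    apply mul_nonneg (hz i)
    have h1 := ht1 i
    have : 1 / t i ≤ 1 := by rw [div_le_one (by linarith)]; exact h1
    linarith
  -- reduction to a base set `s`
  have red : ∀ s : Finset I, rho z (s ∪ (univ \ s)) ^ 2 <
      ((∏ i ∈ s, t i) * (1 + ∑ i ∈ s, z i * (1 - 1 / t i))) * ∏ i ∈ univ \ s, t i →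
      rho z univ ^ 2 < (∏ i, t i) * (1 + ∑ i, z i * (1 - 1 / t i)) := by
    intro s h
    rw [union_sdiff_of_subset (subset_univ s)] at h
    refine lt_of_lt_of_le h ?_
    have e : (∏ i, t i) = (∏ i ∈ univ \ s, t i) * ∏ i ∈ s, t i :=
      (prod_sdiff (subset_univ s)).symm
    have e2 : ∑ i ∈ s, z i * (1 - 1 / t i) ≤ ∑ i, z i * (1 - 1 / t i) :=
      sum_le_sum_of_subset_of_nonneg (subset_univ s) fun i _ _ => hterm i
    have p1 : 0 < ∏ i ∈ s, t i := prod_pos fun i _ => by have := ht1 i; linarith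
    have p2 : 0 < ∏ i ∈ univ \ s, t i := prod_pos fun i _ => by have := ht1 i; linarith
    rw [e]
    have p3 := mul_pos p1 p2
    nlinarith
  by_cases hv3 : z i₂ ≤ 1 / 3
  · -- all rows have extra weight `4`
    have hm : min 4 (1 + 1 / z i₂) = 4 := by
      apply min_eq_left
      have : 3 ≤ 1 / z i₂ := by rw [le_div_iff₀ hv]; linarith
      linarith
    rw [hm] at ht
    apply red {i₂}
    have hr : rho z {i₂} = 1 + 4 / 3 * z i₂ := by unfold rho; rw [prod_singleton]; ring
    have hr1 : 1 ≤ rho z {i₂} := by rw [hr]; linarith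
    have hc : 1 / rho z {i₂} ≤ 1 := by rw [div_le_one (by linarith)]; exact hr1
    have hc0 : 0 < 1 / rho z {i₂} := by positivity
    apply induct_ineq (y := 1 / 3) (e := 4) hz disjoint_sdiff hr1 rfl
    · nlinarith
    · intro i _
      exact (hmax i).trans hv3
    · intro i _
      have := ht i
      linarith
    · rw [hr, prod_singleton, sum_singleton]
      apply base_one hv
      have := ht i₂
      linarith
    · norm_num
  · push Not at hv3
    have hv1 := hz1 i₂
    by_cases hone : ∀ i, i = i₂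
    · apply red {i₂}
      have hr : rho z {i₂} = 1 + 4 / 3 * z i₂ := by unfold rho; rw [prod_singleton]; ring
      have he : (univ \ {i₂} : Finset I) = ∅ := by
        rw [sdiff_eq_empty_iff_subset]
        intro i _
        rw [mem_singleton]
        exact hone i
      rw [he, union_empty, hr, prod_singleton, sum_singleton, prod_empty, mul_one]
      exact base_one hv (h2 hone)
    · push Not at hone
      obtain ⟨j, hj⟩ := hone
      obtain ⟨i₃, hi₃, hmax₃⟩ := exists_max_image (univ.erase i₂) z ⟨j, by simp [hj]⟩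
      have hi₃' : i₃ ≠ i₂ := (mem_erase.1 hi₃).1
      have hmax₃' : ∀ i, i ≠ i₂ → z i ≤ z i₃ := fun i hi =>
        hmax₃ i (mem_erase.2 ⟨hi, mem_univ i⟩)
      have h3' := h3 i₃ hi₃' hmax₃'
      have hy := hz0 i₃
      have hyv := hmax i₃
      have hm : min 4 (1 + 1 / z i₂) = 1 + 1 / z i₂ := by
        apply min_eq_right
        have : 1 / z i₂ ≤ 3 := by rw [div_le_iff₀ hv]; linarith
        linarith
      rw [hm] at ht
      have ht₃ := ht i₃
      have hne : i₂ ∉ ({i₃} : Finset I) := by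
        rw [mem_singleton]; exact fun h => hi₃' h.symm
      apply red {i₂, i₃}
      have hr : rho z {i₂, i₃} = 1 + 4 / 3 * (z i₂ + z i₃) + 4 / 9 * (z i₂ * z i₃) := by
        unfold rho; rw [prod_insert hne, prod_singleton]; ring
      have hvy : 0 < z i₂ * z i₃ := mul_pos hv hy
      have hr1 : 1 ≤ rho z {i₂, i₃} := by rw [hr]; linarith
      have hR : 1 + 4 / 3 * (z i₂ + z i₃) ≤ rho z {i₂, i₃} := by rw [hr]; linarith
      apply induct_ineq (y := z i₃) (e := 1 + 1 / z i₂) hz disjoint_sdiff hr1 rfl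
      · exact step_cond hv3.le hv1 hy hyv hR rfl
      · intro i hi
        apply hmax₃'
        rintro rfl
        simp at hi
      · intro i _
        have := ht i
        linarith
      · rw [hr, prod_insert hne, prod_singleton, sum_insert hne, sum_singleton, ← add_assoc]
        by_cases hy3 : z i₃ ≤ 1 / 3
        · have hm3 : min 4 (1 + 1 / z i₃) = 4 := by
            apply min_eq_left
            have : 3 ≤ 1 / z i₃ := by rw [le_div_iff₀ hy]; linarith
            linarith
          rw [hm3] at h3'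
          exact base_two_small hv hv1 hy hyv h3' ht₃
        · push Not at hy3
          have hm3 : min 4 (1 + 1 / z i₃) = 1 + 1 / z i₃ := by
            apply min_eq_right
            have : 1 / z i₃ ≤ 3 := by rw [div_le_iff₀ hy]; linarith
            linarith
          rw [hm3] at h3'
          exact base_two_large hv hv1 hy hyv h3' ht₃
      · have : 0 < 1 / z i₂ := by positivity
        linarith

/-- comparison with `1 / 3` -/
theorem beta_le {I : Type} [DecidableEq I] {z : I → ℝ} {x : ℝ} (hx : 0 < x) (hx3 : x ≤ 1 / 3)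
    (hz : ∀ i, 0 ≤ z i) (s : Finset I) :
    (1 + x) * ∏ i ∈ s, (1 + x * z i) - 1 ≤ x * rho z s ∧ 1 ≤ rho z s := by
  induction s using Finset.induction_on with
  | empty => unfold rho; simp; norm_num
  | insert i s hi ih =>
    rw [prod_insert hi, rho_insert z hi]
    obtain ⟨h1, h2⟩ := ih
    have h3 := hz i
    have h4 : 0 ≤ x * z i := by positivity
    refine ⟨?_, by nlinarith⟩
    have h5 : (1 + x) * ((1 + x * z i) * ∏ j ∈ s, (1 + x * z j)) - 1 =
        (1 + x * z i) * ((1 + x) * ∏ j ∈ s, (1 + x * z j) - 1) + x * z i := by ring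
    rw [h5]
    have h6 : (1 + x * z i) * ((1 + x) * ∏ j ∈ s, (1 + x * z j) - 1) ≤
        (1 + x * z i) * (x * rho z s) := mul_le_mul_of_nonneg_left h1 (by linarith)
    have h7 : x * z i * (x * rho z s) ≤ z i / 3 * (x * rho z s) := by
      apply mul_le_mul_of_nonneg_right _ (by positivity)
      nlinarith
    nlinarith

end Pool.Agent.H754.Pretzel
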