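import Pool.Agent.H754.Pretzel.Flow

/-!
Rows with the covering property: the standard examples.
-/

set_option linter.unusedSectionVars false

namespace Pool.Agent.H754.Pretzel

open Finset

/-- Rows with the covering property. -/
structure Model {J R : Type} [Fintype J] [Fintype R] [DecidableEq J] [DecidableEq R] (q : J → ℕ)
    (p : R → ℕ) (a : R → J → ℤ) : Prop where
  a1 : ∀ i, ∑ j, a i j = 1
  nrm : ∀ i, bil q (a i) (a i) = p i
  a2 : ∀ i l, i ≠ l → bil q (a i) (a l) = 0
  cov : ∀ x : J → ℤ, ∃ b : J → ℤ, (∀ j, 0 ≤ b j ∧ b j ≤ q j) ∧ ∃ t : ℤ, ∃ n : R → ℤ,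
    ∀ j, x j = b j + t + q j * ∑ i, n i * a i j

section

variable {J R : Type} [Fintype J] [Fintype R] [DecidableEq J] [DecidableEq R]

theorem exists_equiv_of_map {α β γ : Type} [Fintype α] [Fintype β] [DecidableEq γ]
    (f : α → γ) (g : β → γ) (h : (univ : Finset α).val.map f = (univ : Finset β).val.map g) :
    ∃ e : α ≃ β, ∀ a, g (e a) = f a := by
  have h1 : ∀ c, Nonempty ({a // f a = c} ≃ {b // g b = c}) := by
    intro c
    refine ⟨Fintype.equivOfCardEq ?_⟩
    rw [Fintype.card_subtype, Fintype.card_subtype]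
    have h2 := congrArg (Multiset.count c) h
    rw [Multiset.count_map, Multiset.count_map] at h2
    have h3 : ∀ {δ : Type} [Fintype δ] (k : δ → γ), (univ.filter fun a => k a = c).card =
        Multiset.card ((univ : Finset δ).val.filter fun a => c = k a) := by
      intro δ _ k
      rw [card_def, filter_val]
      congr 1
      apply Multiset.filter_congr
      intro x _
      exact eq_comm
    rw [h3 f, h3 g, h2]
  exact ⟨Equiv.ofFiberEquiv fun c => (h1 c).some, fun a => Equiv.ofFiberEquiv_map _ a⟩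

/-- Transport. -/
theorem Model.equiv {q : J → ℕ} {p : R → ℕ} {a : R → J → ℤ} (h : Model q p a) {J' R' : Type}
    [Fintype J'] [Fintype R'] [DecidableEq J'] [DecidableEq R'] (e : J' ≃ J) (f : R' ≃ R)
    {q' : J' → ℕ} {p' : R' → ℕ} (hq : ∀ j, q (e j) = q' j) (hp : ∀ i, p (f i) = p' i) :
    Model q' p' (fun i j => a (f i) (e j)) := by
  have hb : ∀ i l, bil q' (fun j => a (f i) (e j)) (fun j => a (f l) (e j)) =
      bil q (a (f i)) (a (f l)) := by
    intro i l
    unfold bil
    rw [← e.sum_comp]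
    exact sum_congr rfl fun j _ => by rw [hq]
  refine ⟨fun i => ?_, fun i => ?_, fun i l hil => ?_, fun x => ?_⟩
  · rw [← h.a1 (f i)]
    exact e.sum_comp (fun j => a (f i) j)
  · rw [hb, h.nrm, hp]
  · rw [hb]
    exact h.a2 _ _ fun h' => hil (f.injective h')
  · obtain ⟨b, hb, t, n, hx⟩ := h.cov fun j => x (e.symm j)
    refine ⟨fun j => b (e j), fun j => ?_, t, fun i => n (f i), fun j => ?_⟩
    · have := hb (e j)
      rw [hq] at this
      exact this
    · have := hx (e j)
      rw [e.symm_apply_apply, hq] at this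
      rw [this]
      congr 2
      exact (f.sum_comp (fun i => n i * a i (e j))).symm

/-- Adding matched columns. -/
theorem Model.add {q : J → ℕ} {p : R → ℕ} {a : R → J → ℤ} (h : Model q p a) {K : Type}
    [Fintype K] [DecidableEq K] (r : K → ℕ) (hr : ∀ k, 0 < r k) :
    Model (Sum.elim q r) (Sum.elim p r) (Sum.elim (fun i => Sum.elim (a i) fun _ => 0)
      (fun k => Sum.elim (fun _ => 0) (Pi.single k 1))) := by
  refine ⟨?_, ?_, ?_, fun x => ?_⟩
  · rintro (i | k)
    · rw [Fintype.sum_sum_type]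
      simp only [Sum.elim_inl, Sum.elim_inr, sum_const_zero, add_zero]
      exact h.a1 i
    · rw [Fintype.sum_sum_type]
      simp only [Sum.elim_inl, Sum.elim_inr, sum_const_zero, zero_add]
      rw [sum_eq_single_of_mem k (mem_univ k)]
      · rw [Pi.single_eq_same]
      · intro l _ hl
        rw [Pi.single_eq_of_ne hl]
  · rintro (i | k)
    · unfold bil
      rw [Fintype.sum_sum_type]
      simp only [Sum.elim_inl, Sum.elim_inr, mul_zero, sum_const_zero, add_zero]
      exact h.nrm i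
    · unfold bil
      rw [Fintype.sum_sum_type]
      simp only [Sum.elim_inl, Sum.elim_inr, mul_zero, sum_const_zero, zero_add]
      rw [sum_eq_single_of_mem k (mem_univ k)]
      · rw [Pi.single_eq_same]; ring
      · intro l _ hl
        rw [Pi.single_eq_of_ne hl]; ring
  · rintro (i | k) (l | m) hne
    · unfold bil
      rw [Fintype.sum_sum_type]
      simp only [Sum.elim_inl, Sum.elim_inr, mul_zero, sum_const_zero, add_zero]
      exact h.a2 i l fun h' => hne (by rw [h'])
    · unfold bil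
      rw [Fintype.sum_sum_type]
      simp
    · unfold bil
      rw [Fintype.sum_sum_type]
      simp
    · unfold bil
      rw [Fintype.sum_sum_type]
      simp only [Sum.elim_inl, Sum.elim_inr, mul_zero, sum_const_zero, zero_add]
      apply sum_eq_zero
      intro s _
      by_cases hs : s = k
      · have hkm : k ≠ m := fun h' => hne (by rw [h'])
        have hm : (Pi.single m 1 : K → ℤ) k = 0 := Pi.single_eq_of_ne hkm 1
        rw [hs, hm]; ring
      · rw [Pi.single_eq_of_ne hs]; ring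
  · obtain ⟨b, hb, t, n, hx⟩ := h.cov fun j => x (Sum.inl j)
    have hr' : ∀ k, (0 : ℤ) < r k := fun k => by exact_mod_cast hr k
    refine ⟨Sum.elim b fun k => (x (Sum.inr k) - t) % r k, ?_, t,
      Sum.elim n fun k => (x (Sum.inr k) - t) / r k, ?_⟩
    · rintro (j | k)
      · exact hb j
      · exact ⟨Int.emod_nonneg _ (hr' k).ne', (Int.emod_lt_of_pos _ (hr' k)).le⟩
    · rintro (j | k)
      · rw [Fintype.sum_sum_type]
        simp only [Sum.elim_inl, Sum.elim_inr, mul_zero, sum_const_zero, add_zero]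
        exact hx j
      · rw [Fintype.sum_sum_type]
        simp only [Sum.elim_inl, Sum.elim_inr, mul_zero, sum_const_zero, zero_add]
        rw [sum_eq_single_of_mem k (mem_univ k)]
        · rw [Pi.single_eq_same, mul_one]
          have := Int.emod_add_mul_ediv (x (Sum.inr k) - t) (r k)
          linarith
        · intro l _ hl
          rw [Pi.single_eq_of_ne hl.symm, mul_zero]

end

/-- One column. -/
theorem model_one (c : ℕ) : Model (J := Unit) (R := Empty) (fun _ => c) (fun i => i.elim)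
    (fun i => i.elim) := by
  refine ⟨fun i => i.elim, fun i => i.elim, fun i => i.elim, fun x => ?_⟩
  exact ⟨fun _ => 0, fun _ => ⟨le_rfl, by positivity⟩, x (), fun _ => 0, fun j => by simp⟩

/-- The row `(2, -1)`. -/
theorem model_two (c : ℕ) : Model (J := Bool) (R := Unit) (fun j => if j then 1 else c)
    (fun _ => c + 4) (fun _ j => if j then 2 else -1) := by
  refine ⟨fun i => ?_, fun i => ?_, fun i l hil => absurd rfl hil, fun x => ?_⟩
  · simp
  · unfold bil
    simp
    ring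
  · -- the difference modulo `c + 2`
    set d := (x false - x true + 1) % (c + 2) with hd
    have h0 : (0 : ℤ) < c + 2 := by positivity
    have hd0 : 0 ≤ d := Int.emod_nonneg _ h0.ne'
    have hd1 : d < c + 2 := Int.emod_lt_of_pos _ h0
    have hdiv := Int.emod_add_mul_ediv (x false - x true + 1) (c + 2)
    rw [← hd] at hdiv
    set k := (x false - x true + 1) / (c + 2) with hk
    by_cases hd2 : d = 0
    · refine ⟨fun j => if j then 1 else 0, ?_, x true - 1 + 2 * k, fun _ => -k, ?_⟩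
      · rintro (_ | _) <;> simp
      · rintro (_ | _)
        · simp
          rw [hd2] at hdiv
          linarith
        · simp
          ring
    · refine ⟨fun j => if j then 0 else d - 1, ?_, x true + 2 * k, fun _ => -k, ?_⟩
      · rintro (_ | _)
        · simp; omega
        · simp
      · rintro (_ | _)
        · simp
          linarith
        · simp
          ring

/-- The rows of the third example. -/
def rowC : Fin 3 → Fin 4 → ℤ := ![![1, 1, -1, 0], ![1, 0, 1, -1], ![1, -1, 0, 1]]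

theorem model_three : Model (J := Fin 4) (R := Fin 3) (fun _ => 1) (fun _ => 3) rowC := by
  refine ⟨by decide, by decide, by decide, fun x => ?_⟩
  -- `x - b = t + ∑ n a`
  have key : ∀ y0 y1 y2 y3 : ℤ, (3 : ℤ) ∣ y1 + y2 + y3 → (3 : ℤ) ∣ y0 - (y1 + y2 + y3) / 3 + y1 - y2 →
      ∃ t : ℤ, ∃ n : Fin 3 → ℤ, (y0 = t + ∑ i, n i * rowC i 0) ∧ (y1 = t + ∑ i, n i * rowC i 1) ∧
        (y2 = t + ∑ i, n i * rowC i 2) ∧ (y3 = t + ∑ i, n i * rowC i 3) := by
    rintro y0 y1 y2 y3 ⟨t, ht⟩ h2
    rw [ht, Int.mul_ediv_cancel_left t (by norm_num)] at h2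
    obtain ⟨u, hu⟩ := h2
    refine ⟨t, ![u, u + (y2 - t), u - (y1 - t)], ?_, ?_, ?_, ?_⟩ <;>
      simp [Fin.sum_univ_three, rowC] <;> linarith
  have fin4 : ∀ P : Fin 4 → Prop, P 0 → P 1 → P 2 → P 3 → ∀ j, P j := by
    intro P h0 h1 h2 h3 j
    fin_cases j <;> assumption
  -- a choice of the vector `b`
  have choice : ∃ b : Fin 4 → ℤ, (∀ j, b j = 0 ∨ b j = 1) ∧
      (3 : ℤ) ∣ (x 1 - b 1) + (x 2 - b 2) + (x 3 - b 3) ∧
      (3 : ℤ) ∣ (x 0 - b 0) - ((x 1 - b 1) + (x 2 - b 2) + (x 3 - b 3)) / 3 + (x 1 - b 1) -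
        (x 2 - b 2) := by
    have hs : (x 1 + x 2 + x 3) % 3 = 0 ∨ (x 1 + x 2 + x 3) % 3 = 1 ∨
        (x 1 + x 2 + x 3) % 3 = 2 := by omega
    have mk : ∀ b : Fin 4 → ℤ, (∀ j, b j = 0 ∨ b j = 1) → ∀ s : ℤ,
        (x 1 - b 1) + (x 2 - b 2) + (x 3 - b 3) = 3 * s →
        (3 : ℤ) ∣ (x 0 - b 0) - s + (x 1 - b 1) - (x 2 - b 2) →
        ∃ b : Fin 4 → ℤ, (∀ j, b j = 0 ∨ b j = 1) ∧
      (3 : ℤ) ∣ (x 1 - b 1) + (x 2 - b 2) + (x 3 - b 3) ∧
      (3 : ℤ) ∣ (x 0 - b 0) - ((x 1 - b 1) + (x 2 - b 2) + (x 3 - b 3)) / 3 + (x 1 - b 1) -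
        (x 2 - b 2) := by
      intro b hb s hs hd
      refine ⟨b, hb, ⟨s, hs⟩, ?_⟩
      rw [hs, Int.mul_ediv_cancel_left s (by norm_num)]
      exact hd
    obtain ⟨s, r, hsr, hr⟩ : ∃ s r : ℤ, x 1 + x 2 + x 3 = 3 * s + r ∧ (r = 0 ∨ r = 1 ∨ r = 2) :=
      ⟨(x 1 + x 2 + x 3) / 3, (x 1 + x 2 + x 3) % 3, by omega, by omega⟩
    obtain ⟨u, w, huw, hw⟩ : ∃ u w : ℤ, x 0 - s + x 1 - x 2 = 3 * u + w ∧
        (w = 0 ∨ w = 1 ∨ w = 2) :=
      ⟨(x 0 - s + x 1 - x 2) / 3, (x 0 - s + x 1 - x 2) % 3, by omega, by omega⟩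
    rcases hr with rfl | rfl | rfl
    · rcases hw with rfl | rfl | rfl
      · exact mk ![0, 0, 0, 0] (by apply fin4 <;> simp) s (by simp; omega) ⟨u, by simp; omega⟩
      · exact mk ![1, 0, 0, 0] (by apply fin4 <;> simp) s (by simp; omega) ⟨u, by simp; omega⟩
      · exact mk ![0, 1, 1, 1] (by apply fin4 <;> simp) (s - 1) (by simp; omega)
          ⟨u + 1, by simp; omega⟩
    · rcases hw with rfl | rfl | rfl
      · exact mk ![0, 0, 0, 1] (by apply fin4 <;> simp) s (by simp; omega) ⟨u, by simp; omega⟩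
      · exact mk ![0, 1, 0, 0] (by apply fin4 <;> simp) s (by simp; omega) ⟨u, by simp; omega⟩
      · exact mk ![0, 0, 1, 0] (by apply fin4 <;> simp) s (by simp; omega) ⟨u + 1, by simp; omega⟩
    · rcases hw with rfl | rfl | rfl
      · exact mk ![0, 1, 1, 0] (by apply fin4 <;> simp) s (by simp; omega) ⟨u, by simp; omega⟩
      · exact mk ![0, 1, 0, 1] (by apply fin4 <;> simp) s (by simp; omega) ⟨u, by simp; omega⟩
      · exact mk ![0, 0, 1, 1] (by apply fin4 <;> simp) s (by simp; omega) ⟨u + 1, by simp; omega⟩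
  obtain ⟨b, hb, h1, h2⟩ := choice
  obtain ⟨t, n, e0, e1, e2, e3⟩ := key _ _ _ _ h1 h2
  refine ⟨b, fun j => ?_, t, n, ?_⟩
  · rcases hb j with h | h <;> rw [h] <;> norm_num
  · apply fin4 <;> push_cast <;> linarith

end Pool.Agent.H754.Pretzel
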