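import Pool.Agent.H754.Pretzel.Embed

/-!
Several stars in one standard lattice.
-/

namespace Pool.Agent.H754.Pretzel

open Finset Matrix

variable {ι : Type} [Fintype ι] [DecidableEq ι]

/-- The hypotheses on the vectors of several embedded stars: `c α` are the centres, `v j s`,
`s < q j - 1`, is the `j`-th chain, which belongs to the star `st j`. -/
structure Stars {A J : Type} [Fintype A] [Fintype J] [DecidableEq A] [DecidableEq J] (st : J → A)
    (q : J → ℕ) (c : A → ι → ℤ) (v : J → ℕ → ι → ℤ) : Prop where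
  cc : ∀ α, c α ⬝ᵥ c α = ((univ.filter fun j => st j = α).card : ℤ)
  cv0 : ∀ j, v j 0 ⬝ᵥ c (st j) = -1
  cv1 : ∀ j α, st j ≠ α → v j 0 ⬝ᵥ c α = 0
  cv : ∀ j α s, 0 < s → s < q j - 1 → v j s ⬝ᵥ c α = 0
  vv : ∀ j s, s < q j - 1 → v j s ⬝ᵥ v j s = 2
  vadj : ∀ j s, s + 1 < q j - 1 → v j s ⬝ᵥ v j (s + 1) = -1
  vfar : ∀ j s r, s + 2 ≤ r → r < q j - 1 → v j s ⬝ᵥ v j r = 0
  vne : ∀ j l s r, j ≠ l → s < q j - 1 → r < q l - 1 → v j s ⬝ᵥ v l r = 0

section

variable {A J : Type} [Fintype A] [Fintype J] [DecidableEq A] [DecidableEq J] {st : J → A}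
  {q : J → ℕ} {c : A → ι → ℤ} {v : J → ℕ → ι → ℤ}

/-- The chains. -/
theorem Stars.chains (hq : ∀ j, 3 ≤ q j) (hq4 : ∀ j, q j ≠ 4) (h : Stars st q c v) :
    ∃ b : J → ℕ → ι, ∃ ε : J → ℕ → ℤ, (∀ j, Good (q j - 1) (v j) (b j) (ε j)) ∧
      Function.Injective (fun r : Σ j, Fin (q j) => b r.1 r.2) := by
  have hch : ∀ j, ∃ b ε, Good (q j - 1) (v j) b ε := fun j =>
    chain_lemma (by have := hq j; omega) (by have := hq4 j; have := hq j; omega) (v j)
      (h.vv j) (h.vadj j) (h.vfar j)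
  choose b ε hg using hch
  refine ⟨b, ε, hg, ?_⟩
  have hne : ∀ j l, j ≠ l → ∀ s r, s ≤ q j - 1 → r ≤ q l - 1 → b j s ≠ b l r := by
    intro j l hjl s r hs hr hcon
    have hl := hq l
    have hj := hq j
    have : ∃ t, t < q l - 1 ∧ v l t (b l r) ≠ 0 := by
      rcases hr.lt_or_eq with hr | hr
      · refine ⟨r, hr, ?_⟩
        rw [(hg l).2.2 r hr, Pi.sub_apply, Pi.single_eq_same, single_eval]
        · rcases (hg l).1 r hr.le with h | h <;> rw [h] <;> norm_num
        · intro h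
          have := (hg l).2.1 (r + 1) r (by omega) (by omega) h
          omega
      · refine ⟨r - 1, by omega, ?_⟩
        have e : r - 1 + 1 = r := by omega
        rw [(hg l).2.2 (r - 1) (by omega), e, Pi.sub_apply, Pi.single_eq_same, single_eval]
        · rcases (hg l).1 r (by omega) with h | h <;> rw [h] <;> norm_num
        · intro h
          have := (hg l).2.1 (r - 1) r (by omega) (by omega) h
          omega
    obtain ⟨t, ht, ht0⟩ := this
    have h2 := (hg j).vanish (by omega) (u := v l t) (fun s hs => h.vne j l s t hjl hs ht)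
      (h.vv l t ht) s hs
    rw [hcon] at h2
    exact ht0 h2
  rintro ⟨j, s⟩ ⟨l, r⟩ hsr
  simp only at hsr
  have hs := s.2
  have hr := r.2
  by_cases hjl : j = l
  · subst hjl
    have := (hg j).2.1 s r (by omega) (by omega) hsr
    rw [Fin.ext this]
  · exact absurd hsr (hne j l hjl s r (by omega) (by omega))

theorem Stars.card_le (hq : ∀ j, 3 ≤ q j) (hq4 : ∀ j, q j ≠ 4) (h : Stars st q c v) :
    ∑ j, q j ≤ Fintype.card ι := by
  obtain ⟨b, ε, _, hinj⟩ := h.chains hq hq4
  have := Fintype.card_le_of_injective _ hinj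
  rwa [Fintype.card_sigma, sum_congr rfl fun j _ => Fintype.card_fin (q j)] at this

/-- The coordinates. -/
theorem Stars.coords (hq : ∀ j, 3 ≤ q j) (hq4 : ∀ j, q j ≠ 4) (h : Stars st q c v)
    (hι : Fintype.card ι = ∑ j, q j) :
    ∃ (E : (Σ j, Fin (q j)) ≃ ι) (δ : (Σ j, Fin (q j)) → ℤ), (∀ r, δ r = 1 ∨ δ r = -1) ∧
      (∀ α j (s : Fin (q j)), δ ⟨j, s⟩ * c α (E ⟨j, s⟩) =
        if (s : ℕ) = 0 ∧ st j = α then -1 else 0) ∧
      ∀ u : ι → ℤ, (∀ j s, s < q j - 1 → v j s ⬝ᵥ u = 0) →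
        ∃ x : J → ℤ, ∀ j (s : Fin (q j)), δ ⟨j, s⟩ * u (E ⟨j, s⟩) = x j := by
  obtain ⟨b, ε, hg, hinj⟩ := h.chains hq hq4
  have hbij : Function.Bijective (fun r : Σ j, Fin (q j) => b r.1 r.2) := by
    rw [Fintype.bijective_iff_injective_and_card]
    refine ⟨hinj, ?_⟩
    rw [Fintype.card_sigma, hι]
    simp
  let E : (Σ j, Fin (q j)) ≃ ι := Equiv.ofBijective _ hbij
  let δ : (Σ j, Fin (q j)) → ℤ := fun r => ε r.1 r.2
  have hδ : ∀ r, δ r = 1 ∨ δ r = -1 := fun r => (hg r.1).1 r.2 (by have := r.2.2; omega)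
  have hδsq : ∀ r, δ r * δ r = 1 := fun r => by
    rcases hδ r with h | h <;> rw [h] <;> norm_num
  refine ⟨E, δ, hδ, ?_, ?_⟩
  · intro α
    let γ : J → ℤ := fun j => ε j 1 * c α (b j 1)
    have hγ : ∀ j s, 1 ≤ s → s ≤ q j - 1 → ε j s * c α (b j s) = γ j := by
      intro j s hs
      induction s, hs using Nat.le_induction with
      | base => intro _; rfl
      | succ s hs ih =>
        intro hs'
        have h1 := (hg j).dot (c α) (by omega : s < q j - 1)
        rw [h.cv j α s (by omega) (by omega)] at h1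
        rw [← ih (by omega)]
        linarith
    have hγ0 : ∀ j, ε j 0 * c α (b j 0) = γ j - if st j = α then 1 else 0 := by
      intro j
      have h1 := (hg j).dot (c α) (by have := hq j; omega : 0 < q j - 1)
      have h2 := hγ j 1 le_rfl (by have := hq j; omega)
      rw [zero_add] at h1
      by_cases hj : st j = α
      · rw [if_pos hj]
        rw [← hj, h.cv0 j, hj] at h1
        linarith
      · rw [if_neg hj]
        rw [h.cv1 j α hj] at h1
        linarith
    have hcsum : ∑ j, ∑ s : Fin (q j), (δ ⟨j, s⟩ * c α (E ⟨j, s⟩)) ^ 2 =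
        ((univ.filter fun j => st j = α).card : ℤ) := by
      rw [← h.cc α, dotProduct, ← E.sum_comp, Fintype.sum_sigma]
      apply sum_congr rfl
      intro j _
      apply sum_congr rfl
      intro s _
      rw [mul_pow, sq (δ ⟨j, s⟩), hδsq, one_mul, sq]
    have hblock : ∀ j, ∑ s : Fin (q j), (δ ⟨j, s⟩ * c α (E ⟨j, s⟩)) ^ 2 =
        (γ j - if st j = α then 1 else 0) ^ 2 + ((q j : ℤ) - 1) * γ j ^ 2 := by
      intro j
      have hj := hq j
      have e : ∀ s : Fin (q j), (δ ⟨j, s⟩ * c α (E ⟨j, s⟩)) ^ 2 =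
          (if (s : ℕ) = 0 then (γ j - if st j = α then 1 else 0) ^ 2 - γ j ^ 2 else 0)
            + γ j ^ 2 := by
        intro s
        have hs := s.2
        change (ε j s * c α (b j s)) ^ 2 = _
        by_cases h0 : (s : ℕ) = 0
        · rw [if_pos h0, h0, hγ0]; ring
        · rw [if_neg h0, hγ j s (by omega) (by omega)]; ring
      rw [sum_congr rfl fun s _ => e s, sum_add_distrib, sum_const, card_univ, Fintype.card_fin,
        sum_eq_single_of_mem (⟨0, by omega⟩ : Fin (q j)) (mem_univ _)]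
      · rw [if_pos rfl, nsmul_eq_mul]
        ring
      · intro s _ hs
        rw [if_neg]
        intro h0
        exact hs (Fin.ext h0)
    have hγz : ∀ j, γ j = 0 := by
      have h1 : ∀ j, 0 ≤ (γ j - if st j = α then 1 else 0) ^ 2 + ((q j : ℤ) - 1) * γ j ^ 2 -
          (if st j = α then 1 else 0) ∧
          ((γ j - if st j = α then 1 else 0) ^ 2 + ((q j : ℤ) - 1) * γ j ^ 2 -
          (if st j = α then 1 else 0) = 0 → γ j = 0) := by
        intro j
        have hj : (3 : ℤ) ≤ q j := by exact_mod_cast hq j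
        by_cases hs : st j = α
        · rw [if_pos hs]
          have e : (γ j - 1) ^ 2 + ((q j : ℤ) - 1) * γ j ^ 2 - 1 = γ j * (q j * γ j - 2) := by ring
          rw [e]
          rcases lt_trichotomy (γ j) 0 with h0 | h0 | h0
          · have : 0 < γ j * (q j * γ j - 2) := by
              apply mul_pos_of_neg_of_neg h0
              nlinarith
            exact ⟨this.le, fun h => by omega⟩
          · rw [h0]; simp
          · have : 0 < γ j * (q j * γ j - 2) := by
              apply mul_pos h0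
              nlinarith
            exact ⟨this.le, fun h => by omega⟩
        · rw [if_neg hs]
          have e : (γ j - 0) ^ 2 + ((q j : ℤ) - 1) * γ j ^ 2 - 0 = q j * γ j ^ 2 := by ring
          rw [e]
          refine ⟨by positivity, fun h => ?_⟩
          rcases mul_eq_zero.1 h with h | h
          · omega
          · exact pow_eq_zero_iff (two_ne_zero) |>.1 h
      have h2 : ∑ j, ((γ j - if st j = α then 1 else 0) ^ 2 + ((q j : ℤ) - 1) * γ j ^ 2 -
          (if st j = α then 1 else 0)) = 0 := by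
        rw [sum_sub_distrib, ← sum_congr rfl fun j _ => hblock j, hcsum]
        simp
      rw [sum_eq_zero_iff_of_nonneg fun j _ => (h1 j).1] at h2
      exact fun j => (h1 j).2 (h2 j (mem_univ j))
    intro j s
    have hs := s.2
    change ε j s * c α (b j s) = _
    by_cases h0 : (s : ℕ) = 0
    · rw [h0, hγ0, hγz]
      by_cases h1 : st j = α <;> simp [h1]
    · rw [hγ j s (by omega) (by omega), hγz, if_neg fun h => h0 h.1]
  · intro u hu
    refine ⟨fun j => ε j 0 * u (b j 0), fun j s => ?_⟩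
    have hs := s.2
    exact (hg j).const (fun s hs => hu j s hs) s (by omega)

/-- An isometric map from the vectors orthogonal to all stars. -/
theorem Stars.flow (hq : ∀ j, 3 ≤ q j) (hq4 : ∀ j, q j ≠ 4) (h : Stars st q c v)
    (hι : Fintype.card ι = ∑ j, q j) :
    ∃ F : (ι → ℤ) →+ (J → ℤ), ∀ u u' : ι → ℤ, (∀ j s, s < q j - 1 → v j s ⬝ᵥ u = 0) →
      (∀ α, c α ⬝ᵥ u = 0) → (∀ j s, s < q j - 1 → v j s ⬝ᵥ u' = 0) →
      u ⬝ᵥ u' = ∑ j, (q j : ℤ) * F u j * F u' j ∧
        ∀ α, ∑ j ∈ univ.filter (fun j => st j = α), F u j = 0 := by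
  obtain ⟨E, δ, hδ, hc, hu⟩ := h.coords hq hq4 hι
  have hδsq : ∀ r, δ r * δ r = 1 := fun r => by
    rcases hδ r with h | h <;> rw [h] <;> norm_num
  have hq0 : ∀ j, 0 < q j := fun j => by have := hq j; omega
  let F : (ι → ℤ) →+ (J → ℤ) :=
    { toFun := fun u j => δ ⟨j, ⟨0, hq0 j⟩⟩ * u (E ⟨j, ⟨0, hq0 j⟩⟩)
      map_zero' := by ext j; simp
      map_add' := by
        intro u u'
        ext j
        simp only [Pi.add_apply, mul_add] }
  have hF : ∀ u j, F u j = δ ⟨j, ⟨0, hq0 j⟩⟩ * u (E ⟨j, ⟨0, hq0 j⟩⟩) := fun u j => rfl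
  have hdot : ∀ u u' : ι → ℤ, u ⬝ᵥ u' = ∑ j, ∑ s : Fin (q j),
      (δ ⟨j, s⟩ * u (E ⟨j, s⟩)) * (δ ⟨j, s⟩ * u' (E ⟨j, s⟩)) := by
    intro u u'
    rw [dotProduct, ← E.sum_comp, Fintype.sum_sigma]
    apply sum_congr rfl
    intro j _
    apply sum_congr rfl
    intro s _
    have := hδsq ⟨j, s⟩
    calc u (E ⟨j, s⟩) * u' (E ⟨j, s⟩) = (δ ⟨j, s⟩ * δ ⟨j, s⟩) * (u (E ⟨j, s⟩) * u' (E ⟨j, s⟩)) := by
          rw [this, one_mul]
      _ = _ := by ring
  refine ⟨F, fun u u' h1 h2 h3 => ?_⟩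
  obtain ⟨x, hx⟩ := hu u h1
  obtain ⟨y, hy⟩ := hu u' h3
  have hFx : ∀ j, F u j = x j := fun j => hx j _
  have hFy : ∀ j, F u' j = y j := fun j => hy j _
  refine ⟨?_, fun α => ?_⟩
  · rw [hdot]
    apply sum_congr rfl
    intro j _
    rw [sum_congr rfl fun s _ => by rw [hx j s, hy j s], sum_const, card_univ, Fintype.card_fin,
      nsmul_eq_mul, hFx, hFy]
    ring
  · have h4 := h2 α
    rw [hdot] at h4
    have h5 : ∀ j, ∑ s : Fin (q j), (δ ⟨j, s⟩ * c α (E ⟨j, s⟩)) * (δ ⟨j, s⟩ * u (E ⟨j, s⟩)) =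
        if st j = α then -x j else 0 := by
      intro j
      rw [sum_congr rfl fun s _ => by rw [hx j s, hc α j s],
        sum_eq_single_of_mem (⟨0, hq0 j⟩ : Fin (q j)) (mem_univ _)]
      · by_cases hj : st j = α <;> simp [hj]
      · intro s _ hs
        rw [if_neg, zero_mul]
        intro h0
        exact hs (Fin.ext h0.1)
    rw [sum_congr rfl fun j _ => h5 j, ← sum_filter, sum_neg_distrib] at h4
    rw [sum_congr rfl fun j _ => hFx j]
    linarith

end

end Pool.Agent.H754.Pretzel
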