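import Pool.Agent.H754.Pretzel.Ineq

/-!
Systems of orthogonal integral rows with sum one.
-/

namespace Pool.Agent.H754.Pretzel

open Finset Matrix

/-- the norm of a row -/
def nrm {J : Type} [Fintype J] (q : J → ℕ) (a : J → ℤ) : ℤ := ∑ j, (q j : ℤ) * a j ^ 2

theorem sum_two_le {J : Type} [Fintype J] [DecidableEq J] {g : J → ℤ} (hg : ∀ j, 0 ≤ g j)
    {j l : J} (h : j ≠ l) : g j + g l ≤ ∑ i, g i := by
  have : ∑ i ∈ {j, l}, g i = g j + g l := sum_pair h
  rw [← this]
  exact sum_le_sum_of_subset_of_nonneg (subset_univ _) fun i _ _ => hg i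

theorem sum_three_le {J : Type} [Fintype J] [DecidableEq J] {g : J → ℤ} (hg : ∀ j, 0 ≤ g j)
    {j l k : J} (h : j ≠ l) (h' : j ≠ k) (h'' : l ≠ k) : g j + g l + g k ≤ ∑ i, g i := by
  have : ∑ i ∈ {j, l, k}, g i = g j + g l + g k := by
    rw [sum_insert (by simp [h, h']), sum_pair h'', add_assoc]
  rw [← this]
  exact sum_le_sum_of_subset_of_nonneg (subset_univ _) fun i _ _ => hg i

theorem sq_ge_one {a : ℤ} (h : a ≠ 0) : 1 ≤ a ^ 2 := by
  have : 0 < a ^ 2 := by positivity
  omega

/-- A row which is not a unit vector: bounds for its norm. -/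
theorem row_bound {J : Type} [Fintype J] [DecidableEq J] (q : J → ℕ) (a : J → ℤ)
    (h1 : ∑ j, a j = 1) (hu : ∀ j, a ≠ Pi.single j 1) {j : J} (hj : a j ≠ 0) :
    (∃ l, l ≠ j ∧ (q j : ℤ) + 4 * q l ≤ nrm q a) ∨
    (∃ l k, l ≠ j ∧ k ≠ j ∧ l ≠ k ∧ (q j : ℤ) + q l + q k ≤ nrm q a) ∨
    (∃ l, l ≠ j ∧ 4 * (q j : ℤ) + q l ≤ nrm q a) := by
  have hg : ∀ i, 0 ≤ (q i : ℤ) * a i ^ 2 := fun i => by positivity
  have hl : ∃ l, l ≠ j ∧ a l ≠ 0 := by
    by_contra hcon
    push Not at hcon
    apply hu j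
    have h2 : ∑ i, a i = a j := by
      apply sum_eq_single_of_mem j (mem_univ j)
      intro b _ hb
      exact hcon b hb
    ext i
    by_cases hi : i = j
    · subst hi
      rw [Pi.single_eq_same, ← h2, h1]
    · rw [Pi.single_eq_of_ne hi]
      exact hcon i hi
  obtain ⟨l, hlj, hl⟩ := hl
  have ha := sq_ge_one hl
  have haj := sq_ge_one hj
  have hql : (0 : ℤ) ≤ q l := by positivity
  have hqj : (0 : ℤ) ≤ q j := by positivity
  by_cases h2 : 2 ≤ |a j|
  · right; right
    refine ⟨l, hlj, ?_⟩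
    have h3 := sum_two_le hg hlj.symm
    have h4 : 4 ≤ a j ^ 2 := by
      have := sq_abs (a j)
      nlinarith
    unfold nrm
    nlinarith
  · have h3 : a j = 1 ∨ a j = -1 := by
      push Not at h2
      have : |a j| = 1 := by
        have := abs_pos.2 hj
        omega
      exact eq_or_eq_neg_of_abs_eq this
    by_cases hk : ∃ k, k ≠ j ∧ k ≠ l ∧ a k ≠ 0
    · obtain ⟨k, hkj, hkl, hk⟩ := hk
      right; left
      refine ⟨l, k, hlj, hkj, hkl.symm, ?_⟩
      have h4 := sum_three_le hg hlj.symm hkj.symm hkl.symm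
      have h5 := sq_ge_one hk
      have hqk : (0 : ℤ) ≤ q k := by positivity
      unfold nrm
      nlinarith
    · push Not at hk
      have h4 : ∑ i, a i = a j + a l := by
        rw [← sum_pair hlj.symm]
        symm
        apply sum_subset (subset_univ _)
        intro x _ hx
        simp only [mem_insert, mem_singleton, not_or] at hx
        exact hk x hx.1 hx.2
      rw [h1] at h4
      left
      refine ⟨l, hlj, ?_⟩
      have h5 := sum_two_le hg hlj.symm
      rcases h3 with h3 | h3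
      · exfalso; apply hl; omega
      · have h6 : a l = 2 := by omega
        rw [h3, h6] at h5
        unfold nrm
        nlinarith

/-- If `S` is a nonempty set of rows which are supported on a set of at most `|S|` columns, one of
them is a unit vector. -/
theorem square_lemma {I J : Type} [Fintype I] [Fintype J] [DecidableEq I] [DecidableEq J]
    (q : J → ℕ) (hq : ∀ j, 0 < q j) (a : I → J → ℤ) (h1 : ∀ i, ∑ j, a i j = 1)
    (ho : ∀ i l, i ≠ l → ∑ j, (q j : ℤ) * a i j * a l j = 0)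
    (hu : ∀ i j, a i ≠ Pi.single j 1) (S : Finset I) (hS : S.Nonempty) (C : Finset J)
    (hC : ∀ i ∈ S, ∀ j, a i j ≠ 0 → j ∈ C) : S.card < C.card := by
  by_contra hcon
  push Not at hcon
  -- real matrices indexed by `S` and `C`
  have hp : ∀ i, (0 : ℝ) < (nrm q (a i) : ℝ) := by
    intro i
    have : ∃ j, a i j ≠ 0 := by
      by_contra h
      push Not at h
      have := h1 i
      simp [h] at this
    obtain ⟨j, hj⟩ := this
    have h2 : 0 < nrm q (a i) := by
      unfold nrm
      apply sum_pos' (fun j _ => by positivity)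
      refine ⟨j, mem_univ j, ?_⟩
      have := hq j
      positivity
    exact_mod_cast h2
  let X : Matrix S C ℝ := fun i j => (a i j : ℝ) / (nrm q (a i) : ℝ)
  let Y : Matrix C S ℝ := fun j i => (q j : ℝ) * (a i j : ℝ)
  have hsum : ∀ (g : J → ℝ) (i : S), (∀ j, a i j = 0 → g j = 0) →
      ∑ j : C, g j = ∑ j, g j := by
    intro g i hg
    rw [sum_coe_sort C g]
    apply sum_subset (subset_univ C)
    intro j _ hj
    apply hg
    by_contra h
    exact hj (hC i i.2 j h)
  have hXY : X * Y = 1 := by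
    ext i l
    rw [Matrix.mul_apply]
    have : ∑ j : C, X i j * Y j l = ∑ j, (a i j : ℝ) / (nrm q (a i) : ℝ) *
        ((q j : ℝ) * (a l j : ℝ)) := by
      apply hsum (fun j => (a i j : ℝ) / (nrm q (a i) : ℝ) * ((q j : ℝ) * (a l j : ℝ))) i
      intro j hj
      simp [hj]
    rw [this]
    have h3 : ∑ j, (a i j : ℝ) / (nrm q (a i) : ℝ) * ((q j : ℝ) * (a l j : ℝ)) =
        ((∑ j, (q j : ℤ) * a i j * a l j : ℤ) : ℝ) / (nrm q (a i) : ℝ) := by
      push_cast
      rw [sum_div]
      apply sum_congr rfl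
      intro j _
      ring
    rw [h3]
    by_cases hil : i = l
    · subst hil
      rw [Matrix.one_apply_eq]
      have : ∑ j, (q j : ℤ) * a i j * a i j = nrm q (a i) := by
        unfold nrm
        apply sum_congr rfl
        intro j _
        ring
      rw [this]
      exact div_self (hp i).ne'
    · rw [Matrix.one_apply_ne hil, ho i l fun h => hil (Subtype.ext h)]
      simp
  have hcard : S.card ≤ C.card := by
    have h3 : (X * Y).rank = S.card := by
      rw [hXY, Matrix.rank_one, Fintype.card_coe]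
    have h4 := (Matrix.rank_mul_le_left X Y).trans (Matrix.rank_le_card_width X)
    rw [h3, Fintype.card_coe] at h4
    exact h4
  have hce : Fintype.card S = Fintype.card C := by
    rw [Fintype.card_coe, Fintype.card_coe]; omega
  have hYX : Y * X = 1 := (Matrix.mul_eq_one_comm_of_equiv (Fintype.card_eq.mp hce).some).1 hXY
  -- the two sums
  have e1 : ∀ j l : C, ∑ i : S, (a i j : ℝ) * (a i l : ℝ) / (nrm q (a i) : ℝ) =
      if j = l then 1 / (q j : ℝ) else 0 := by
    intro j l
    have h3 := congrFun (congrFun hYX j) l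
    rw [Matrix.mul_apply] at h3
    have h4 : ∑ i : S, Y j i * X i l = (q j : ℝ) *
        ∑ i : S, (a i j : ℝ) * (a i l : ℝ) / (nrm q (a i) : ℝ) := by
      rw [mul_sum]
      apply sum_congr rfl
      intro i _
      simp only [X, Y]
      ring
    rw [h4] at h3
    have hqj : (q j : ℝ) ≠ 0 := by
      have := hq j
      positivity
    by_cases hjl : j = l
    · subst hjl
      rw [Matrix.one_apply_eq] at h3
      rw [if_pos rfl, eq_div_iff hqj]
      linarith
    · rw [Matrix.one_apply_ne hjl] at h3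
      rw [if_neg hjl]
      exact (mul_eq_zero.1 h3).resolve_left hqj
  have e2 : ∑ j : C, ∑ l : C, ∑ i : S, (a i j : ℝ) * (a i l : ℝ) / (nrm q (a i) : ℝ) =
      ∑ i : S, 1 / (nrm q (a i) : ℝ) := by
    rw [sum_congr rfl fun j _ => sum_comm, sum_comm]
    apply sum_congr rfl
    intro i _
    have h3 : ∑ j : C, (a i j : ℝ) = 1 := by
      rw [hsum (fun j => (a i j : ℝ)) i (by intro j hj; simp [hj])]
      exact_mod_cast h1 i
    have h4 : ∑ j : C, ∑ l : C, (a i j : ℝ) * (a i l : ℝ) / (nrm q (a i) : ℝ) =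
        (∑ j : C, (a i j : ℝ)) * (∑ l : C, (a i l : ℝ)) / (nrm q (a i) : ℝ) := by
      rw [sum_mul_sum, sum_div]
      apply sum_congr rfl
      intro j _
      rw [sum_div]
    rw [h4, h3]
    ring
  have e3 : ∑ j : C, ∑ l : C, ∑ i : S, (a i j : ℝ) * (a i l : ℝ) / (nrm q (a i) : ℝ) =
      ∑ j : C, ∑ i : S, (a i j : ℝ) * (a i j : ℝ) / (nrm q (a i) : ℝ) := by
    apply sum_congr rfl
    intro j _
    rw [sum_eq_single_of_mem j (mem_univ j)]
    intro l _ hl
    rw [e1, if_neg fun h => hl h.symm]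
  have e4 : ∑ i : S, ((∑ j, (a i j : ℝ) ^ 2) - 1) / (nrm q (a i) : ℝ) = 0 := by
    have h3 : ∑ j : C, ∑ i : S, (a i j : ℝ) * (a i j : ℝ) / (nrm q (a i) : ℝ) =
        ∑ i : S, (∑ j, (a i j : ℝ) ^ 2) / (nrm q (a i) : ℝ) := by
      rw [sum_comm]
      apply sum_congr rfl
      intro i _
      rw [← hsum (fun j => (a i j : ℝ) ^ 2) i (by intro j hj; simp [hj]), sum_div]
      apply sum_congr rfl
      intro j _
      ring
    rw [e3, h3] at e2
    have : ∑ i : S, ((∑ j, (a i j : ℝ) ^ 2) - 1) / (nrm q (a i) : ℝ) =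
        ∑ i : S, (∑ j, (a i j : ℝ) ^ 2) / (nrm q (a i) : ℝ) -
          ∑ i : S, 1 / (nrm q (a i) : ℝ) := by
      rw [← sum_sub_distrib]
      apply sum_congr rfl
      intro i _
      ring
    rw [this, e2]
    ring
  obtain ⟨i₀, hi₀⟩ := hS
  have h5 : ∀ i : S, 0 < ((∑ j, (a i j : ℝ) ^ 2) - 1) / (nrm q (a i) : ℝ) := by
    intro i
    apply div_pos _ (hp i)
    have hne : ∃ j, a i j ≠ 0 := by
      by_contra h
      push Not at h
      have := h1 i
      simp [h] at this
    obtain ⟨j, hj⟩ := hne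
    have hb := row_bound (fun _ => 1) (a i) (h1 i) (hu i) hj
    have h6 : (2 : ℤ) ≤ ∑ j, a i j ^ 2 := by
      unfold nrm at hb
      simp only [Nat.cast_one, one_mul] at hb
      rcases hb with ⟨l, _, h⟩ | ⟨l, k, _, _, _, h⟩ | ⟨l, _, h⟩ <;> omega
    have h7 : (2 : ℝ) ≤ ∑ j, (a i j : ℝ) ^ 2 := by exact_mod_cast h6
    linarith
  have h6 : 0 < ∑ i : S, ((∑ j, (a i j : ℝ) ^ 2) - 1) / (nrm q (a i) : ℝ) :=
    sum_pos (fun i _ => h5 i) ⟨⟨i₀, hi₀⟩, mem_univ _⟩
  linarith

end Pool.Agent.H754.Pretzel
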