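import Pool.Agent.H754.Pretzel.Cover

/-!
Transversals of a covering system.
-/

set_option linter.unusedSectionVars false

namespace Pool.Agent.H754.Pretzel

open Finset

section

variable {A J R : Type} [Fintype A] [Fintype J] [Fintype R] [DecidableEq A] [DecidableEq J]
  [DecidableEq R] {st : J → A} {q : J → ℕ} {lf : R → A} {a : R → J → ℤ} {N : AddSubgroup (J → ℤ)}

/-- the lattice spanned by the rows and `N` -/
def InM (a : R → J → ℤ) (N : AddSubgroup (J → ℤ)) (x : J → ℤ) : Prop :=
  ∃ n : R → ℤ, ∃ y ∈ N, ∀ j, x j = ∑ i, n i * a i j + y j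

theorem Cov.m_vec (h : Cov st q lf a N) {x : J → ℤ} (hx : InM a N x) (β : A) :
    ∑ j, (x j : ℚ) * vec st q lf a j β = 0 := by
  obtain ⟨n, y, hy, hx⟩ := hx
  have h1 : ∀ j, (x j : ℚ) * vec st q lf a j β =
      ∑ i, (n i : ℚ) * ((a i j : ℚ) * vec st q lf a j β) + (y j : ℚ) * vec st q lf a j β := by
    intro j
    rw [hx j]
    push_cast
    rw [add_mul, sum_mul]
    congr 1
    exact sum_congr rfl fun i _ => by ring
  rw [sum_congr rfl fun j _ => h1 j, sum_add_distrib, h.n_vec y hy β, add_zero, sum_comm]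
  apply sum_eq_zero
  intro i _
  rw [← mul_sum, h.row_vec i β, mul_zero]

/-- covering with offsets -/
theorem Cov.offset (h : Cov st q lf a N) (u x : J → ℤ) :
    ∃ z : J → ℤ, InM a N (fun j => x j - z j) ∧ ∃ t : A → ℤ,
      ∀ j, t (st j) - u j ≤ q j * z j ∧ q j * z j ≤ t (st j) - u j + q j := by
  obtain ⟨b, hb, t, n, y, hy, hx⟩ := h.cov fun j => q j * x j + u j
  refine ⟨fun j => x j - (∑ i, n i * a i j + y j), ⟨n, y, hy, fun j => by ring⟩, t, fun j => ?_⟩
  have h1 := hx j
  have h2 := hb j
  have h3 : (q j : ℤ) * (x j - (∑ i, n i * a i j + y j)) =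
      q j * x j - q j * (∑ i, n i * a i j + y j) := by ring
  rw [h3]
  constructor <;> linarith

theorem Cov.cov1 (h : Cov st q lf a N) (c : A → J) (hc : ∀ α, st (c α) = α) (x : J → ℤ) :
    ∃ z : J → ℤ, InM a N (fun j => x j - z j) ∧ ∀ α, (∀ j, st j = α → z j ≤ 0) ∨
      (1 ≤ z (c α) ∧ ∀ j, st j = α → 0 ≤ z j) := by
  obtain ⟨z, hz, t, ht⟩ := h.offset (fun j => if j = c (st j) then 0 else 1) x
  refine ⟨z, hz, fun α => ?_⟩
  have hcα := ht (c α)
  rw [hc α, if_pos rfl] at hcα
  have hqc := h.q3 (c α)
  by_cases h1 : z (c α) ≤ 0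
  · left
    intro j hj
    by_cases hjc : j = c α
    · rw [hjc]; exact h1
    · have h2 := ht j
      rw [hj, if_neg hjc] at h2
      have h3 := h.q3 j
      have h4 : t α ≤ 0 := by
        have : (q (c α) : ℤ) * z (c α) ≤ 0 := mul_nonpos_of_nonneg_of_nonpos (by positivity) h1
        linarith [hcα.1]
      by_contra hcon
      push Not at hcon
      have h5 : (q j : ℤ) ≤ q j * z j := le_mul_of_one_le_right (by positivity) (by omega)
      linarith [h2.2]
  · right
    push Not at h1
    have h5 : (q (c α) : ℤ) ≤ q (c α) * z (c α) :=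
      le_mul_of_one_le_right (by positivity) (by omega)
    refine ⟨by omega, fun j hj => ?_⟩
    by_cases hjc : j = c α
    · rw [hjc]; omega
    · have h2 := ht j
      rw [hj, if_neg hjc] at h2
      have h3 := h.q3 j
      by_contra hcon
      push Not at hcon
      have h6 : (q j : ℤ) * z j ≤ q j * (-1) := mul_le_mul_of_nonneg_left (by omega) (by positivity)
      have h7 : (3 : ℤ) ≤ q j := by exact_mod_cast h3
      linarith [h2.1, hcα.2]

theorem Cov.cov2 (h : Cov st q lf a N) (P : A → Prop) (c d : A → J) (hc : ∀ α, st (c α) = α)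
    (hd : ∀ α, st (d α) = α) (hcd : ∀ α, P α → c α ≠ d α) (x : J → ℤ) :
    ∃ z : J → ℤ, InM a N (fun j => x j - z j) ∧ ∀ α, P α →
      (z (c α) ≤ -1 ∧ ∀ j, st j = α → z j ≤ 0) ∨ (∀ j, st j = α → z j = 0) ∨
      (1 ≤ z (d α) ∧ ∀ j, st j = α → 0 ≤ z j) := by
  obtain ⟨z, hz, t, ht⟩ := h.offset
    (fun j => if j = c (st j) then 0 else if j = d (st j) then 1 else 2)
    (fun j => x j + if j = c (st j) then 1 else 0)
  refine ⟨fun j => z j - if j = c (st j) then 1 else 0, ?_, fun α hα => ?_⟩
  · have e : (fun j => x j - (z j - if j = c (st j) then 1 else 0)) =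
        fun j => (x j + if j = c (st j) then 1 else 0) - z j := by
      ext j; ring
    rw [e]
    exact hz
  beta_reduce
  have hdc : ¬ d α = c α := fun h' => hcd α hα h'.symm
  have hcα := ht (c α)
  rw [hc α, if_pos rfl] at hcα
  have hdα := ht (d α)
  rw [hd α, if_neg hdc, if_pos rfl] at hdα
  have hqc : (3 : ℤ) ≤ q (c α) := by exact_mod_cast h.q3 (c α)
  have hqd : (3 : ℤ) ≤ q (d α) := by exact_mod_cast h.q3 (d α)
  by_cases h1 : z (c α) ≤ 0
  · left
    have h4 : t α ≤ 0 := by
      have : (q (c α) : ℤ) * z (c α) ≤ 0 := mul_nonpos_of_nonneg_of_nonpos (by positivity) h1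
      linarith [hcα.1]
    have hle : ∀ j, st j = α → z j ≤ 0 := by
      intro j hj
      by_cases hjc : j = c α
      · rw [hjc]; exact h1
      · have h2 := ht j
        rw [hj, if_neg hjc] at h2
        by_contra hcon
        push Not at hcon
        have h5 : (q j : ℤ) ≤ q j * z j := le_mul_of_one_le_right (by positivity) (by omega)
        by_cases hjd : j = d α
        · rw [if_pos hjd] at h2; linarith [h2.2]
        · rw [if_neg hjd] at h2; linarith [h2.2]
    refine ⟨?_, fun j hj => ?_⟩
    · rw [hc α, if_pos rfl]; omega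
    · have := hle j hj
      split_ifs <;> omega
  · push Not at h1
    have h5 : (q (c α) : ℤ) ≤ q (c α) * z (c α) :=
      le_mul_of_one_le_right (by positivity) (by omega)
    have ht0 : 0 ≤ t α := by linarith [hcα.2]
    right
    by_cases h2 : z (d α) ≤ 0
    · left
      have h6 : (q (d α) : ℤ) * z (d α) ≤ 0 := mul_nonpos_of_nonneg_of_nonpos (by positivity) h2
      have ht1 : t α ≤ 1 := by linarith [hdα.1]
      intro j hj
      by_cases hjc : j = c α
      · rw [hj, if_pos hjc, hjc]
        have h7 : z (c α) < 2 := by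
          by_contra hcon
          push Not at hcon
          have h8 : (q (c α) : ℤ) * 2 ≤ q (c α) * z (c α) :=
            mul_le_mul_of_nonneg_left hcon (by positivity)
          linarith [hcα.2]
        omega
      · rw [hj, if_neg hjc, sub_zero]
        have h3 := ht j
        have hqj : (3 : ℤ) ≤ q j := by exact_mod_cast h.q3 j
        rw [hj, if_neg hjc] at h3
        apply le_antisymm
        · by_contra hcon
          push Not at hcon
          have h8 : (q j : ℤ) ≤ q j * z j := le_mul_of_one_le_right (by positivity) (by omega)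
          by_cases hjd : j = d α
          · rw [hjd] at hcon
            omega
          · rw [if_neg hjd] at h3; linarith [h3.2]
        · by_contra hcon
          push Not at hcon
          have h8 : (q j : ℤ) * z j ≤ q j * (-1) :=
            mul_le_mul_of_nonneg_left (by omega) (by positivity)
          by_cases hjd : j = d α
          · rw [if_pos hjd] at h3; linarith [h3.1]
          · rw [if_neg hjd] at h3; linarith [h3.1]
    · right
      push Not at h2
      have h6 : (q (d α) : ℤ) ≤ q (d α) * z (d α) :=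
        le_mul_of_one_le_right (by positivity) (by omega)
      have ht1 : 1 ≤ t α := by linarith [hdα.2]
      refine ⟨?_, fun j hj => ?_⟩
      · rw [hd α, if_neg hdc]; omega
      · by_cases hjc : j = c α
        · rw [hj, if_pos hjc, hjc]; omega
        · rw [hj, if_neg hjc, sub_zero]
          by_contra hcon
          push Not at hcon
          have h3 := ht j
          have hqj : (3 : ℤ) ≤ q j := by exact_mod_cast h.q3 j
          rw [hj, if_neg hjc] at h3
          have h8 : (q j : ℤ) * z j ≤ q j * (-1) :=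
            mul_le_mul_of_nonneg_left (by omega) (by positivity)
          by_cases hjd : j = d α
          · rw [if_pos hjd] at h3; linarith [h3.1]
          · rw [if_neg hjd] at h3; linarith [h3.1]

/-- nonsingular matrices -/
theorem Cov.nonsing (h : Cov st q lf a N) (w : A → A → ℚ)
    (hw : ∀ α, ∃ m : J → ℚ, (∀ j, 0 ≤ m j) ∧ (∃ j, st j = α ∧ 0 < m j ∧ vec st q lf a j ≠ 0) ∧
      ∀ β, w α β = ∑ j ∈ univ.filter (fun j => st j = α), m j * vec st q lf a j β) :
    (Matrix.of fun β α => w α β).det ≠ 0 := by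
  intro h0
  obtain ⟨y, hy0, hy⟩ := Matrix.exists_mulVec_eq_zero_iff.2 h0
  choose m hm hm1 hm2 using hw
  apply hy0
  have key : ∀ j, vec st q lf a j ≠ 0 → m (st j) j * y (st j) = 0 := by
    intro j hj
    refine h.sep (fun j => m (st j) j * y (st j)) ?_ ?_ j hj
    · intro α
      rcases le_total 0 (y α) with h1 | h1
      · left
        intro j hj
        rw [hj]
        exact mul_nonneg (hm α j) h1
      · right
        intro j hj
        rw [hj]
        exact mul_nonpos_of_nonneg_of_nonpos (hm α j) h1
    · intro β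
      have h1 := congrFun hy β
      rw [Matrix.mulVec, Pi.zero_apply] at h1
      simp only [dotProduct, Matrix.of_apply] at h1
      refine Eq.trans ?_ h1
      rw [← sum_fiberwise univ st (fun j => m (st j) j * y (st j) * vec st q lf a j β)]
      apply sum_congr rfl
      intro α _
      rw [hm2, sum_mul]
      apply sum_congr rfl
      intro j hj
      rw [mem_filter] at hj
      rw [hj.2]
      ring
  ext α
  obtain ⟨j, hj, hj1, hj2⟩ := hm1 α
  have := key j hj2
  rw [hj] at this
  exact (mul_eq_zero.1 this).resolve_left hj1.ne'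

/-- the matrix of a transversal -/
def tm (st : J → A) (q : J → ℕ) (lf : R → A) (a : R → J → ℤ) (c : A → J) : Matrix A A ℚ :=
  Matrix.of fun β α => vec st q lf a (c α) β

/-- a transversal with vectors different from zero -/
def IsT (st : J → A) (q : J → ℕ) (lf : R → A) (a : R → J → ℤ) (c : A → J) : Prop :=
  ∀ α, st (c α) = α ∧ vec st q lf a (c α) ≠ 0

theorem single_sum (α : A) (j : J) (hj : st j = α) (β : A) :
    ∑ i ∈ univ.filter (fun i => st i = α), (Pi.single j (1 : ℚ) : J → ℚ) i *
      vec st q lf a i β = vec st q lf a j β := by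
  rw [sum_eq_single_of_mem j (by simp [hj])]
  · rw [Pi.single_eq_same, one_mul]
  · intro i _ hi
    rw [Pi.single_eq_of_ne hi, zero_mul]

theorem Cov.tm_det (h : Cov st q lf a N) {c : A → J} (hc : IsT st q lf a c) :
    (tm st q lf a c).det ≠ 0 := by
  apply h.nonsing
  intro α
  refine ⟨Pi.single (c α) 1, fun j => ?_, ⟨c α, (hc α).1, ?_, (hc α).2⟩, fun β => ?_⟩
  · rw [Pi.single_apply]; split_ifs <;> norm_num
  · rw [Pi.single_eq_same]; norm_num
  · rw [single_sum α (c α) (hc α).1]

/-- each transversal is a basis -/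
theorem Cov.basis (h : Cov st q lf a N) {c : A → J} (hc : IsT st q lf a c) (x : J → ℤ) :
    ∃ n : A → ℤ, ∀ β, ∑ j, (x j : ℚ) * vec st q lf a j β =
      ∑ α, (n α : ℚ) * vec st q lf a (c α) β := by
  have hdet := h.tm_det hc
  -- rational coordinates
  obtain ⟨y, hy⟩ : ∃ y : A → ℚ, ∀ β, ∑ α, y α * vec st q lf a (c α) β =
      ∑ j, (x j : ℚ) * vec st q lf a j β := by
    have hu : IsUnit (tm st q lf a c).det := isUnit_iff_ne_zero.2 hdet
    refine ⟨(tm st q lf a c)⁻¹.mulVec fun β => ∑ j, (x j : ℚ) * vec st q lf a j β, fun β => ?_⟩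
    have h1 : (tm st q lf a c).mulVec ((tm st q lf a c)⁻¹.mulVec
        fun β => ∑ j, (x j : ℚ) * vec st q lf a j β) =
        fun β => ∑ j, (x j : ℚ) * vec st q lf a j β := by
      rw [Matrix.mulVec_mulVec, Matrix.mul_nonsing_inv _ hu, Matrix.one_mulVec]
    have h2 := congrFun h1 β
    rw [← h2]
    simp only [Matrix.mulVec, dotProduct, tm, Matrix.of_apply]
    exact sum_congr rfl fun α _ => mul_comm _ _
  obtain ⟨z, hz, hzα⟩ := h.cov1 c (fun α => (hc α).1)
    fun j => x j - if j = c (st j) then ⌊y (st j)⌋ else 0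
  -- the coefficients
  have hsum : ∀ (g : A → ℚ) β, ∑ j, (if j = c (st j) then g (st j) else 0) *
      vec st q lf a j β = ∑ α, g α * vec st q lf a (c α) β := by
    intro g β
    rw [← sum_fiberwise univ st]
    apply sum_congr rfl
    intro α _
    rw [sum_eq_single_of_mem (c α) (by simp [(hc α).1])]
    · rw [(hc α).1, if_pos rfl]
    · intro j hj hne
      rw [mem_filter] at hj
      rw [hj.2, if_neg hne, zero_mul]
  have key : ∀ j, vec st q lf a j ≠ 0 →
      (z j : ℚ) - (if j = c (st j) then Int.fract (y (st j)) else 0) = 0 := by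
    intro j hj
    refine h.sep (fun j => (z j : ℚ) - if j = c (st j) then Int.fract (y (st j)) else 0)
      ?_ ?_ j hj
    · intro α
      rcases hzα α with h1 | ⟨h1, h2⟩
      · right
        intro j hj
        have h3 : (z j : ℚ) ≤ 0 := by exact_mod_cast h1 j hj
        have h4 := Int.fract_nonneg (y (st j))
        split_ifs <;> linarith
      · left
        intro j hj
        have h3 : (0 : ℚ) ≤ z j := by exact_mod_cast h2 j hj
        split_ifs with hjc
        · have h4 : (1 : ℚ) ≤ z j := by
            rw [hj] at hjc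
            rw [hjc]
            exact_mod_cast h1
          linarith [Int.fract_lt_one (y (st j))]
        · linarith
    · intro β
      simp only [sub_mul, sum_sub_distrib]
      rw [hsum (fun α => Int.fract (y α)) β]
      have h1 := h.m_vec hz β
      have h2 : ∀ j, (((x j - if j = c (st j) then ⌊y (st j)⌋ else 0) - z j : ℤ) : ℚ) *
          vec st q lf a j β = (x j : ℚ) * vec st q lf a j β -
          (if j = c (st j) then ((⌊y (st j)⌋ : ℤ) : ℚ) else 0) * vec st q lf a j β -
          (z j : ℚ) * vec st q lf a j β := by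
        intro j
        push_cast
        split_ifs <;> ring
      rw [sum_congr rfl fun j _ => h2 j, sum_sub_distrib, sum_sub_distrib,
        hsum (fun α => ((⌊y α⌋ : ℤ) : ℚ)) β, ← hy β] at h1
      have h3 : ∑ α, Int.fract (y α) * vec st q lf a (c α) β =
          ∑ α, y α * vec st q lf a (c α) β - ∑ α, ((⌊y α⌋ : ℤ) : ℚ) * vec st q lf a (c α) β := by
        rw [← sum_sub_distrib]
        apply sum_congr rfl
        intro α _
        rw [← sub_mul]
        rfl
      rw [h3]
      linarith
  refine ⟨fun α => ⌊y α⌋, fun β => ?_⟩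
  rw [← hy β]
  apply sum_congr rfl
  intro α _
  have h1 := key (c α) (hc α).2
  rw [(hc α).1, if_pos rfl] at h1
  have h2 : y α = ⌊y α⌋ := by
    have h3 : (z (c α) : ℚ) = Int.fract (y α) := by linarith
    have h4 : z (c α) = 0 := by
      have h5 := Int.fract_nonneg (y α)
      have h6 := Int.fract_lt_one (y α)
      rw [← h3] at h5 h6
      have h7 : (0 : ℤ) ≤ z (c α) := by exact_mod_cast h5
      have h8 : z (c α) < 1 := by exact_mod_cast h6
      omega
    rw [h4] at h3
    have h5 := Int.floor_add_fract (y α)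
    rw [← h3] at h5
    push_cast at h5
    linarith
  rw [← h2]

theorem IsT.update {c : A → J} (hc : IsT st q lf a c) (α₀ : A) (j : J) (hj : st j = α₀)
    (hv : vec st q lf a j ≠ 0) : IsT st q lf a (Function.update c α₀ j) := by
  intro α
  by_cases hα : α = α₀
  · rw [hα, Function.update_self]; exact ⟨hj, hv⟩
  · rw [Function.update_of_ne hα]; exact hc α

theorem tm_update (c : A → J) (α₀ : A) (j : J) : tm st q lf a (Function.update c α₀ j) =
    (tm st q lf a c).updateCol α₀ (vec st q lf a j) := by
  ext β α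
  rw [Matrix.updateCol_apply]
  unfold tm
  rw [Matrix.of_apply, Matrix.of_apply]
  by_cases hα : α = α₀
  · rw [if_pos hα, hα, Function.update_self]
  · rw [if_neg hα, Function.update_of_ne hα]

theorem Cov.update_mul (h : Cov st q lf a N) {c : A → J} (hc : IsT st q lf a c) (α₀ : A) (j : J) :
    ∃ n : ℤ, (tm st q lf a (Function.update c α₀ j)).det = n * (tm st q lf a c).det := by
  obtain ⟨n, hn⟩ := h.basis hc (Pi.single j 1)
  refine ⟨n α₀, ?_⟩
  rw [tm_update]
  have h1 : vec st q lf a j = fun k => ∑ i, (n i : ℚ) • (tm st q lf a c) k i := by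
    ext β
    have h2 := hn β
    rw [sum_eq_single_of_mem j (mem_univ j)] at h2
    · rw [Pi.single_eq_same, Int.cast_one, one_mul] at h2
      rw [h2]
      rfl
    · intro i _ hi
      rw [Pi.single_eq_of_ne hi, Int.cast_zero, zero_mul]
  rw [h1, Matrix.det_updateCol_sum, smul_eq_mul]

/-- exchange of one element of a transversal -/
theorem Cov.det_update (h : Cov st q lf a N) {c : A → J} (hc : IsT st q lf a c) (α₀ : A) (j : J)
    (hj : st j = α₀) (hv : vec st q lf a j ≠ 0) :
    (tm st q lf a (Function.update c α₀ j)).det = (tm st q lf a c).det := by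
  have hc' := hc.update α₀ j hj hv
  obtain ⟨n, hn⟩ := h.update_mul hc α₀ j
  obtain ⟨m, hm⟩ := h.update_mul hc' α₀ (c α₀)
  rw [Function.update_idem, Function.update_eq_self] at hm
  have hD := h.tm_det hc
  have hD' := h.tm_det hc'
  set D := (tm st q lf a c).det
  set D' := (tm st q lf a (Function.update c α₀ j)).det
  have h1 : (m : ℚ) * n = 1 := by
    have h2 : ((m : ℚ) * n) * D = 1 * D := by
      rw [mul_assoc, ← hn, ← hm, one_mul]
    exact mul_right_cancel₀ hD h2
  have h2 : m * n = 1 := by exact_mod_cast h1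
  rcases Int.isUnit_iff.1 (IsUnit.of_mul_eq_one m (by rw [mul_comm]; exact h2) : IsUnit n) with h3 | h3
  · rw [hn, h3]; push_cast; ring
  · exfalso
    -- the sum of the two columns gives a singular matrix
    have h4 : (Matrix.of fun β α => (if α = α₀ then fun β => vec st q lf a (c α) β +
        vec st q lf a j β else vec st q lf a (c α)) β).det ≠ 0 := by
      apply h.nonsing (fun α => if α = α₀ then fun β => vec st q lf a (c α) β +
        vec st q lf a j β else vec st q lf a (c α))
      intro α
      by_cases hα : α = α₀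
      · refine ⟨Pi.single (c α) 1 + Pi.single j 1, fun i => ?_,
          ⟨c α, (hc α).1, ?_, (hc α).2⟩, fun β => ?_⟩
        · rw [Pi.add_apply, Pi.single_apply, Pi.single_apply]
          split_ifs <;> norm_num
        · rw [Pi.add_apply, Pi.single_eq_same, Pi.single_apply]
          split_ifs <;> norm_num
        · rw [if_pos hα]
          simp only [Pi.add_apply, add_mul, sum_add_distrib]
          rw [single_sum α (c α) (hc α).1, single_sum α j (hj.trans hα.symm)]
      · refine ⟨Pi.single (c α) 1, fun i => ?_, ⟨c α, (hc α).1, ?_, (hc α).2⟩, fun β => ?_⟩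
        · rw [Pi.single_apply]; split_ifs <;> norm_num
        · rw [Pi.single_eq_same]; norm_num
        · rw [if_neg hα, single_sum α (c α) (hc α).1]
    apply h4
    have h5 : (Matrix.of fun β α => (if α = α₀ then fun β => vec st q lf a (c α) β +
        vec st q lf a j β else vec st q lf a (c α)) β) =
        (tm st q lf a c).updateCol α₀ (vec st q lf a (c α₀) + vec st q lf a j) := by
      ext β α
      rw [Matrix.updateCol_apply]
      unfold tm
      rw [Matrix.of_apply, Matrix.of_apply]
      by_cases hα : α = α₀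
      · rw [if_pos hα, if_pos hα, hα]; rfl
      · rw [if_neg hα, if_neg hα]
    rw [h5, Matrix.det_updateCol_add, ← tm_update, ← tm_update, Function.update_eq_self]
    change D + D' = 0
    rw [hn, h3]
    push_cast
    ring

/-- exchange of several elements -/
theorem Cov.det_sub (h : Cov st q lf a N) {c c' : A → J} (hc : IsT st q lf a c)
    (hc' : IsT st q lf a c') (E : Finset A) :
    IsT st q lf a (fun α => if α ∈ E then c' α else c α) ∧
      (tm st q lf a (fun α => if α ∈ E then c' α else c α)).det = (tm st q lf a c).det := by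
  induction E using Finset.induction_on with
  | empty => simp only [notMem_empty, if_false]; exact ⟨hc, trivial⟩
  | insert α₀ E hα₀ ih =>
    have e : (fun α => if α ∈ insert α₀ E then c' α else c α) =
        Function.update (fun α => if α ∈ E then c' α else c α) α₀ (c' α₀) := by
      ext α
      by_cases hα : α = α₀
      · rw [hα, Function.update_self, if_pos (mem_insert_self _ _)]
      · rw [Function.update_of_ne hα]
        by_cases hE : α ∈ E
        · rw [if_pos hE, if_pos (mem_insert_of_mem hE)]
        · rw [if_neg hE, if_neg (fun h' => (mem_insert.1 h').elim hα hE)]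
    rw [e]
    refine ⟨ih.1.update α₀ (c' α₀) (hc' α₀).1 (hc' α₀).2, ?_⟩
    rw [h.det_update ih.1 α₀ (c' α₀) (hc' α₀).1 (hc' α₀).2, ih.2]

/-- the affine family of matrices -/
def am (st : J → A) (q : J → ℕ) (lf : R → A) (a : R → J → ℤ) (c c' : A → J) (t : A → ℚ) :
    Matrix A A ℚ :=
  Matrix.of fun β α => vec st q lf a (c α) β +
    t α * (vec st q lf a (c' α) β - vec st q lf a (c α) β)

theorem Cov.det_affine (h : Cov st q lf a N) {c c' : A → J} (hc : IsT st q lf a c)
    (hc' : IsT st q lf a c') (S : Finset A) : ∀ t : A → ℚ, (∀ α ∉ S, t α = 0 ∨ t α = 1) →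
      (am st q lf a c c' t).det = (tm st q lf a c).det := by
  induction S using Finset.induction_on with
  | empty =>
    intro t ht
    rw [← (h.det_sub hc hc' (univ.filter fun α => t α = 1)).2]
    congr 1
    ext β α
    unfold am tm
    rw [Matrix.of_apply, Matrix.of_apply]
    beta_reduce
    rcases ht α (by simp) with h1 | h1
    · rw [if_neg (by simp [h1]), h1]; ring
    · rw [if_pos (by simp [h1]), h1]; ring
  | insert α₀ S hα₀ ih =>
    intro t ht
    have h0 := ih (Function.update t α₀ 0) (fun α hα => by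
      by_cases hαα : α = α₀
      · rw [hαα, Function.update_self]; exact Or.inl rfl
      · rw [Function.update_of_ne hαα]
        exact ht α fun h' => (mem_insert.1 h').elim hαα hα)
    have h1 := ih (Function.update t α₀ 1) (fun α hα => by
      by_cases hαα : α = α₀
      · rw [hαα, Function.update_self]; exact Or.inr rfl
      · rw [Function.update_of_ne hαα]
        exact ht α fun h' => (mem_insert.1 h').elim hαα hα)
    have e : ∀ s : ℚ, am st q lf a c c' (Function.update t α₀ s) =
        (am st q lf a c c' t).updateCol α₀ (fun β => vec st q lf a (c α₀) β +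
          s * (vec st q lf a (c' α₀) β - vec st q lf a (c α₀) β)) := by
      intro s
      ext β α
      rw [Matrix.updateCol_apply]
      unfold am
      rw [Matrix.of_apply, Matrix.of_apply]
      by_cases hα : α = α₀
      · rw [if_pos hα, hα, Function.update_self]
      · rw [if_neg hα, Function.update_of_ne hα]
    have e2 : am st q lf a c c' t = (am st q lf a c c' t).updateCol α₀
        ((1 - t α₀) • (fun β => vec st q lf a (c α₀) β +
          0 * (vec st q lf a (c' α₀) β - vec st q lf a (c α₀) β)) +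
        t α₀ • (fun β => vec st q lf a (c α₀) β +
          1 * (vec st q lf a (c' α₀) β - vec st q lf a (c α₀) β))) := by
      have h2 := e (t α₀)
      rw [Function.update_eq_self] at h2
      conv_lhs => rw [h2]
      congr 1
      ext β
      simp only [Pi.add_apply, Pi.smul_apply, smul_eq_mul]
      ring
    rw [e2, Matrix.det_updateCol_add, Matrix.det_updateCol_smul, Matrix.det_updateCol_smul, ← e,
      ← e, h0, h1]
    ring

/-- There is no cycle of stars with different vectors. -/
theorem Cov.cycle (h : Cov st q lf a N) {c c' : A → J} (hc : IsT st q lf a c)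
    (hc' : IsT st q lf a c') (Bad : Finset A) (hne : Bad.Nonempty)
    (hbad : ∀ α ∈ Bad, vec st q lf a (c' α) ≠ vec st q lf a (c α))
    (hgood : ∀ β ∉ Bad, ∀ j, st j ≠ β → vec st q lf a j β = 0) : False := by
  -- the coordinates of the differences
  have hcoord : ∀ α, ∃ n : A → ℤ, ∀ β, vec st q lf a (c' α) β - vec st q lf a (c α) β =
      ∑ γ, (n γ : ℚ) * vec st q lf a (c γ) β := by
    intro α
    obtain ⟨n, hn⟩ := h.basis hc (Pi.single (c' α) 1 - Pi.single (c α) 1)
    refine ⟨n, fun β => ?_⟩
    rw [← hn β]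
    simp only [Pi.sub_apply, Int.cast_sub, sub_mul, sum_sub_distrib]
    congr 1
    · rw [sum_eq_single_of_mem (c' α) (mem_univ _)]
      · rw [Pi.single_eq_same, Int.cast_one, one_mul]
      · intro i _ hi
        rw [Pi.single_eq_of_ne hi, Int.cast_zero, zero_mul]
    · rw [sum_eq_single_of_mem (c α) (mem_univ _)]
      · rw [Pi.single_eq_same, Int.cast_one, one_mul]
      · intro i _ hi
        rw [Pi.single_eq_of_ne hi, Int.cast_zero, zero_mul]
  choose n hn using hcoord
  have hf : ∀ α ∈ Bad, ∃ γ ∈ Bad, n α γ ≠ 0 := by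
    intro α hα
    by_contra hcon
    push Not at hcon
    apply hbad α hα
    have hz : ∀ β ∉ Bad, n α β = 0 := by
      intro β hβ
      have h1 := hn α β
      have hαβ : α ≠ β := fun h' => hβ (h' ▸ hα)
      rw [hgood β hβ (c' α) (by rw [(hc' α).1]; exact hαβ),
        hgood β hβ (c α) (by rw [(hc α).1]; exact hαβ),
        sum_eq_single_of_mem β (mem_univ β)] at h1
      · have h2 : vec st q lf a (c β) β ≠ 0 := by
          have := h.vec_pos (hc β).2
          rw [(hc β).1] at this
          exact this.ne'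
        rw [sub_zero] at h1
        have h3 := (mul_eq_zero.1 h1.symm).resolve_right h2
        exact_mod_cast h3
      · intro γ _ hγ
        by_cases hγB : γ ∈ Bad
        · rw [hcon γ hγB]; simp
        · rw [hgood β hβ (c γ) (by rw [(hc γ).1]; exact hγ), mul_zero]
    ext β
    have h1 := hn α β
    rw [sum_eq_zero] at h1
    · linarith
    · intro γ _
      by_cases hγB : γ ∈ Bad
      · rw [hcon γ hγB]; simp
      · rw [hz γ hγB]; simp
  have hf' : ∀ α, ∃ γ, α ∈ Bad → γ ∈ Bad ∧ n α γ ≠ 0 := by
    intro α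
    by_cases hα : α ∈ Bad
    · obtain ⟨γ, h1, h2⟩ := hf α hα
      exact ⟨γ, fun _ => ⟨h1, h2⟩⟩
    · exact ⟨α, fun h' => absurd h' hα⟩
  choose f hf' using hf'
  -- a minimal closed set
  obtain ⟨S, hS, hmin⟩ := Finset.exists_min_image
    (Bad.powerset.filter fun S => S.Nonempty ∧ S.image f ⊆ S) Finset.card
    ⟨Bad, by
      rw [mem_filter, mem_powerset]
      refine ⟨Subset.rfl, hne, ?_⟩
      intro γ hγ
      obtain ⟨α, hα, rfl⟩ := mem_image.1 hγ
      exact (hf' α hα).1⟩
  rw [mem_filter, mem_powerset] at hS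
  obtain ⟨hSB, hSne, hSf⟩ := hS
  have hSeq : S.image f = S := by
    apply eq_of_subset_of_card_le hSf
    apply hmin
    rw [mem_filter, mem_powerset]
    refine ⟨hSf.trans hSB, hSne.image f, ?_⟩
    intro γ hγ
    obtain ⟨α, hα, rfl⟩ := mem_image.1 hγ
    exact mem_image_of_mem f (hSf hα)
  have hrow : ∀ γ ∈ S, ∃ α ∈ S, n α γ ≠ 0 := by
    intro γ hγ
    rw [← hSeq] at hγ
    obtain ⟨α, hα, rfl⟩ := mem_image.1 hγ
    exact ⟨α, hα, (hf' α (hSB hα)).2⟩
  -- a generic vector
  let ℓ : A → ((A → ℚ) →ₗ[ℚ] ℚ) := fun γ =>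
    ∑ α ∈ S, (n α γ : ℚ) • (LinearMap.proj α : (A → ℚ) →ₗ[ℚ] ℚ)
  have hℓ : ∀ γ d, ℓ γ d = ∑ α ∈ S, (n α γ : ℚ) * d α := by
    intro γ d
    simp only [ℓ, LinearMap.sum_apply, LinearMap.smul_apply, LinearMap.proj_apply, smul_eq_mul]
  obtain ⟨d, hd⟩ : ∃ d : A → ℚ, ∀ γ ∈ S, ℓ γ d ≠ 0 := by
    by_contra hcon
    push Not at hcon
    obtain ⟨γ, hγ⟩ := Subspace.exists_eq_top_of_iUnion_eq_univ
      (p := fun γ : S => LinearMap.ker (ℓ γ)) (by
        rw [Set.eq_univ_iff_forall]
        intro d
        obtain ⟨γ, hγ, h0⟩ := hcon d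
        rw [Set.mem_iUnion]
        exact ⟨⟨γ, hγ⟩, h0⟩)
    obtain ⟨α, hα, hn0⟩ := hrow γ γ.2
    have h1 : ℓ γ (Pi.single α 1) = 0 := by
      have : (Pi.single α 1 : A → ℚ) ∈ LinearMap.ker (ℓ γ) := by rw [hγ]; trivial
      exact this
    rw [hℓ, sum_eq_single_of_mem α hα] at h1
    · rw [Pi.single_eq_same, mul_one] at h1
      exact hn0 (by exact_mod_cast h1)
    · intro δ _ hδ
      rw [Pi.single_eq_of_ne hδ, mul_zero]
  let w : A → ℚ := fun γ => -ℓ γ d
  let t : A → ℚ := fun γ => if γ ∈ S then d γ / w γ else 0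
  have hw : ∀ γ ∈ S, w γ ≠ 0 := fun γ hγ => neg_ne_zero.2 (hd γ hγ)
  have hdet := h.det_affine hc hc' univ t (fun α hα => absurd (mem_univ α) hα)
  apply h.tm_det hc
  rw [← hdet, ← Matrix.exists_mulVec_eq_zero_iff]
  obtain ⟨γ₀, hγ₀⟩ := hSne
  refine ⟨w, fun h0 => hw γ₀ hγ₀ (congrFun h0 γ₀), ?_⟩
  ext β
  rw [Matrix.mulVec, Pi.zero_apply]
  simp only [dotProduct, am, Matrix.of_apply]
  have h1 : ∀ γ, (vec st q lf a (c γ) β + t γ * (vec st q lf a (c' γ) β -
      vec st q lf a (c γ) β)) * w γ = w γ * vec st q lf a (c γ) β +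
      (if γ ∈ S then d γ * ∑ δ, (n γ δ : ℚ) * vec st q lf a (c δ) β else 0) := by
    intro γ
    rw [← hn γ β]
    simp only [t]
    split_ifs with hγ
    · have := hw γ hγ
      field_simp
    · ring
  rw [sum_congr rfl fun γ _ => h1 γ, sum_add_distrib, ← sum_filter]
  have h2 : ∑ γ ∈ univ.filter (fun γ => γ ∈ S), d γ * ∑ δ, (n γ δ : ℚ) * vec st q lf a (c δ) β =
      ∑ δ, ℓ δ d * vec st q lf a (c δ) β := by
    have e : univ.filter (fun γ => γ ∈ S) = S := by ext; simp
    rw [e]
    simp only [mul_sum]
    rw [sum_comm]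
    apply sum_congr rfl
    intro δ _
    rw [hℓ, sum_mul]
    exact sum_congr rfl fun γ _ => by ring
  rw [h2, ← sum_add_distrib]
  apply sum_eq_zero
  intro γ _
  simp only [w]
  ring

end

end Pool.Agent.H754.Pretzel
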